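import Pool.Agent.LinCW55.Good2

set_option autoImplicit false

/-!
# Basic classes with good orders
-/

namespace Pool.Agent.LinCW

open Classical

variable {α β : Type} {R : α → β → Prop} {d d' d₁ d₂ : Bool} {k m : ℕ}
  {X : Finset α} {Y : Finset β} {P : Finset α} {Q : Finset β}

/-- The neighbourhood of `a` in `Y`. -/
noncomputable def nb (R : α → β → Prop) (Y : Finset β) (a : α) : Finset β := Y.filter (R a)

lemma mem_nb {a : α} {b : β} : b ∈ nb R Y a ↔ b ∈ Y ∧ R a b := Finset.mem_filter

lemma nb_subset {a : α} : nb R Y a ⊆ Y := Finset.filter_subset _ _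

/-- The reversed relation. -/
abbrev rev (R : α → β → Prop) : β → α → Prop := fun b a => R a b

/-- Crossing edges. -/
noncomputable def crossing (R : α → β → Prop) (X : Finset α) (Y : Finset β) (P : Finset α)
    (Q : Finset β) : Finset (α × β) :=
  (X ×ˢ Y).filter fun p => R p.1 p.2 ∧ ((p.1 ∈ P ∧ p.2 ∉ Q) ∨ (p.1 ∉ P ∧ p.2 ∈ Q))

lemma mem_crossing {a : α} {b : β} : (a, b) ∈ crossing R X Y P Q ↔
    (a ∈ X ∧ b ∈ Y) ∧ R a b ∧ ((a ∈ P ∧ b ∉ Q) ∨ (a ∉ P ∧ b ∈ Q)) := by
  simp [crossing]

/-- Maximum degree at most two. -/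
theorem good_of_maxdeg (hA : ∀ a ∈ X, (nb R Y a).card ≤ 2)
    (hB : ∀ b ∈ Y, (nb (rev R) X b).card ≤ 2) : Good R false false 2 X Y := by
  apply good_of_inv (fun P Q => (crossing R X Y P Q).card ≤ 2)
  · have : crossing R X Y ∅ ∅ = ∅ := by
      ext ⟨a, b⟩; rw [mem_crossing]; simp
    simp [this]
  · intro P Q hP hQ hI
    constructor
    · refine CutSide.of_subset ((crossing R X Y P Q).image Prod.fst)
        (Finset.card_image_le.trans hI) fun a ha => ?_
      by_cases h : ∃ b ∈ Y \ Q, R a b
      · left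
        obtain ⟨b, hb, hab⟩ := h
        rw [Finset.mem_sdiff] at hb
        exact Finset.mem_image.2 ⟨(a, b), mem_crossing.2 ⟨⟨hP ha, hb.1⟩, hab, Or.inl ⟨ha, hb.2⟩⟩,
          rfl⟩
      · right
        push Not at h
        intro b hb
        simpa using h b hb
    · refine CutSide.of_subset ((crossing R X Y P Q).image Prod.snd)
        (Finset.card_image_le.trans hI) fun b hb => ?_
      by_cases h : ∃ a ∈ X \ P, R a b
      · left
        obtain ⟨a, ha, hab⟩ := h
        rw [Finset.mem_sdiff] at ha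
        exact Finset.mem_image.2 ⟨(a, b), mem_crossing.2 ⟨⟨ha.1, hQ hb⟩, hab, Or.inr ⟨ha.2, hb⟩⟩,
          rfl⟩
      · right
        push Not at h
        intro a ha
        simpa using h a ha
  · intro P Q hP hQ hI hne
    by_cases hE : (crossing R X Y P Q).Nonempty
    · obtain ⟨⟨a, b⟩, hab⟩ := hE
      have hab' := hab
      rw [mem_crossing] at hab
      obtain ⟨⟨haX, hbY⟩, hR, hc⟩ := hab
      rcases hc with ⟨haP, hbQ⟩ | ⟨haP, hbQ⟩
      · right
        refine ⟨b, hbY, hbQ, ?_⟩
        have hsub : crossing R X Y P (insert b Q) ⊆ (crossing R X Y P Q).erase (a, b) ∪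
            ((nb (rev R) X b).erase a).image (fun x => (x, b)) := by
          rintro ⟨x, y⟩ hxy
          rw [mem_crossing] at hxy
          obtain ⟨⟨hx, hy⟩, hR', hc⟩ := hxy
          rw [Finset.mem_union, Finset.mem_erase, mem_crossing, Finset.mem_image]
          rcases hc with ⟨h1, h2⟩ | ⟨h1, h2⟩
          · rw [Finset.mem_insert, not_or] at h2
            left
            refine ⟨fun e => h2.1 (Prod.mk.inj e).2, ⟨hx, hy⟩, hR', Or.inl ⟨h1, h2.2⟩⟩
          · rw [Finset.mem_insert] at h2
            rcases h2 with rfl | h2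
            · right
              refine ⟨x, Finset.mem_erase.2 ⟨fun e => h1 (e ▸ haP), mem_nb.2 ⟨hx, hR'⟩⟩, rfl⟩
            · left
              refine ⟨fun e => h1 ((Prod.mk.inj e).1 ▸ haP), ⟨hx, hy⟩, hR', Or.inr ⟨h1, h2⟩⟩
        have h1 := Finset.card_le_card hsub
        have h2 := Finset.card_union_le ((crossing R X Y P Q).erase (a, b))
          (((nb (rev R) X b).erase a).image (fun x => (x, b)))
        have h3 : (((nb (rev R) X b).erase a).image (fun x => (x, b))).card ≤ 1 := by
          refine Finset.card_image_le.trans ?_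
          rw [Finset.card_erase_of_mem (mem_nb.2 ⟨haX, hR⟩)]
          have := hB b hbY
          omega
        have h4 := Finset.card_erase_of_mem hab'
        omega
      · left
        refine ⟨a, haX, haP, ?_⟩
        have hsub : crossing R X Y (insert a P) Q ⊆ (crossing R X Y P Q).erase (a, b) ∪
            ((nb R Y a).erase b).image (fun y => (a, y)) := by
          rintro ⟨x, y⟩ hxy
          rw [mem_crossing] at hxy
          obtain ⟨⟨hx, hy⟩, hR', hc⟩ := hxy
          rw [Finset.mem_union, Finset.mem_erase, mem_crossing, Finset.mem_image]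
          rcases hc with ⟨h1, h2⟩ | ⟨h1, h2⟩
          · rw [Finset.mem_insert] at h1
            rcases h1 with rfl | h1
            · right
              refine ⟨y, Finset.mem_erase.2 ⟨fun e => h2 (e ▸ hbQ), mem_nb.2 ⟨hy, hR'⟩⟩, rfl⟩
            · left
              refine ⟨fun e => h2 ((Prod.mk.inj e).2 ▸ hbQ), ⟨hx, hy⟩, hR', Or.inl ⟨h1, h2⟩⟩
          · rw [Finset.mem_insert, not_or] at h1
            left
            refine ⟨fun e => h1.1 (Prod.mk.inj e).1, ⟨hx, hy⟩, hR', Or.inr ⟨h1.2, h2⟩⟩
        have h1 := Finset.card_le_card hsub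
        have h2 := Finset.card_union_le ((crossing R X Y P Q).erase (a, b))
          (((nb R Y a).erase b).image (fun y => (a, y)))
        have h3 : (((nb R Y a).erase b).image (fun y => (a, y))).card ≤ 1 := by
          refine Finset.card_image_le.trans ?_
          rw [Finset.card_erase_of_mem (mem_nb.2 ⟨hbY, hR⟩)]
          have := hA a haX
          omega
        have h4 := Finset.card_erase_of_mem hab'
        omega
    · rw [Finset.not_nonempty_iff_eq_empty] at hE
      have hEe : ∀ x y, ¬ (x, y) ∈ crossing R X Y P Q := by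
        intro x y h; rw [hE] at h; exact absurd h (Finset.notMem_empty _)
      by_cases hPX : P = X
      · have hQY : Q ≠ Y := by
          rcases hne with h | h
          · exact absurd hPX h
          · exact h
        obtain ⟨b, hb, hb'⟩ := Finset.exists_of_ssubset (hQ.ssubset_of_ne hQY)
        right
        refine ⟨b, hb, hb', ?_⟩
        have hsub : crossing R X Y P (insert b Q) ⊆ (nb (rev R) X b).image (fun x => (x, b)) := by
          rintro ⟨x, y⟩ hxy
          rw [mem_crossing] at hxy
          obtain ⟨⟨hx, hy⟩, hR', hc⟩ := hxy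
          rcases hc with ⟨h1, h2⟩ | ⟨h1, h2⟩
          · rw [Finset.mem_insert, not_or] at h2
            exact absurd (mem_crossing.2 ⟨⟨hx, hy⟩, hR', Or.inl ⟨h1, h2.2⟩⟩) (hEe x y)
          · rw [Finset.mem_insert] at h2
            rcases h2 with rfl | h2
            · exact Finset.mem_image.2 ⟨x, mem_nb.2 ⟨hx, hR'⟩, rfl⟩
            · exact absurd (mem_crossing.2 ⟨⟨hx, hy⟩, hR', Or.inr ⟨h1, h2⟩⟩) (hEe x y)
        exact (Finset.card_le_card hsub).trans (Finset.card_image_le.trans (hB b hb))
      · obtain ⟨a, ha, ha'⟩ := Finset.exists_of_ssubset (hP.ssubset_of_ne hPX)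
        left
        refine ⟨a, ha, ha', ?_⟩
        have hsub : crossing R X Y (insert a P) Q ⊆ (nb R Y a).image (fun y => (a, y)) := by
          rintro ⟨x, y⟩ hxy
          rw [mem_crossing] at hxy
          obtain ⟨⟨hx, hy⟩, hR', hc⟩ := hxy
          rcases hc with ⟨h1, h2⟩ | ⟨h1, h2⟩
          · rw [Finset.mem_insert] at h1
            rcases h1 with rfl | h1
            · exact Finset.mem_image.2 ⟨y, mem_nb.2 ⟨hy, hR'⟩, rfl⟩
            · exact absurd (mem_crossing.2 ⟨⟨hx, hy⟩, hR', Or.inl ⟨h1, h2⟩⟩) (hEe x y)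
          · rw [Finset.mem_insert, not_or] at h1
            exact absurd (mem_crossing.2 ⟨⟨hx, hy⟩, hR', Or.inr ⟨h1.2, h2⟩⟩) (hEe x y)
        exact (Finset.card_le_card hsub).trans (Finset.card_image_le.trans (hA a ha))

lemma nb_mono {Y' : Finset β} (hY : Y' ⊆ Y) (a : α) : nb R Y' a ⊆ nb R Y a := by
  intro b hb
  rw [mem_nb] at hb ⊢
  exact ⟨hY hb.1, hb.2⟩

/-- Every vertex of `X` has at most one neighbour: a disjoint union of stars. -/
theorem good_star (h : ∀ a ∈ X, (nb R Y a).card ≤ 1) : Good R false false 2 X Y := by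
  refine good_of_twinFree (fun X Y => ∀ a ∈ X, (nb R Y a).card ≤ 1) ?_ ?_ X Y h
  · intro X Y X' Y' hX hY h a ha
    exact (Finset.card_le_card (nb_mono hY a)).trans (h a (hX ha))
  · intro X Y h hT _
    refine good_of_maxdeg (fun a ha => (h a ha).trans (by omega)) fun b hb => ?_
    have : (nb (rev R) X b).card ≤ 1 := by
      rw [Finset.card_le_one]
      intro a ha a' ha'
      rw [mem_nb] at ha ha'
      refine hT a ha.1 a' ha'.1 fun y hy => ?_
      have h1 := Finset.card_le_one.1 (h a ha.1)
      have h2 := Finset.card_le_one.1 (h a' ha'.1)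
      constructor
      · intro hr
        have := h1 y (mem_nb.2 ⟨hy, hr⟩) b (mem_nb.2 ⟨hb, ha.2⟩)
        rw [this]; exact ha'.2
      · intro hr
        have := h2 y (mem_nb.2 ⟨hy, hr⟩) b (mem_nb.2 ⟨hb, ha'.2⟩)
        rw [this]; exact ha.2
    omega

/-- Any two vertices of `X` have comparable neighbourhoods or differ by one element each way. -/
def Tame (R : α → β → Prop) (X : Finset α) (Y : Finset β) : Prop :=
  ∀ a ∈ X, ∀ a' ∈ X, (nb R Y a' \ nb R Y a).Nonempty → (nb R Y a \ nb R Y a').card ≤ 1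

lemma nb_sdiff_mono {Y' : Finset β} (hY : Y' ⊆ Y) (a a' : α) :
    nb R Y' a \ nb R Y' a' ⊆ nb R Y a \ nb R Y a' := by
  intro b hb
  rw [Finset.mem_sdiff, mem_nb, mem_nb] at hb ⊢
  exact ⟨⟨hY hb.1.1, hb.1.2⟩, fun h => hb.2 ⟨hb.1.1, h.2⟩⟩

lemma Tame.mono {X' : Finset α} {Y' : Finset β} (hX : X' ⊆ X) (hY : Y' ⊆ Y)
    (h : Tame R X Y) : Tame R X' Y' := by
  intro a ha a' ha' hne
  exact (Finset.card_le_card (nb_sdiff_mono hY a a')).trans
    (h a (hX ha) a' (hX ha') (hne.mono (nb_sdiff_mono hY a' a)))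

lemma card_sdiff_eq_of_card_eq {γ : Type} {s t : Finset γ} (h : s.card = t.card) :
    (s \ t).card = (t \ s).card := by
  have h1 := Finset.card_sdiff_add_card_inter s t
  have h2 := Finset.card_sdiff_add_card_inter t s
  rw [Finset.inter_comm] at h2
  omega

/-- Tame graphs have good orders (tame on the left side). -/
theorem good_of_tame (h : Tame R X Y) : Good R false true 3 X Y := by
  refine good_of_prime (fun X Y => Tame R X Y) (fun X Y X' Y' hX hY h => h.mono hX hY) ?_ X Y h
  intro X Y h hD hT _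
  by_cases hX1 : X.card ≤ 1
  · exact (good_of_card hX1).mono (by omega)
  -- all neighbourhoods have the same size
  have hXne : X.Nonempty := Finset.card_pos.1 (by omega)
  obtain ⟨a₀, ha₀, hmin⟩ := Finset.exists_min_image X (fun a => (nb R Y a).card) hXne
  have hsize : ∀ a ∈ X, (nb R Y a).card = (nb R Y a₀).card := by
    by_contra hcon
    push Not at hcon
    obtain ⟨a₁, ha₁, hne⟩ := hcon
    apply hD
    refine ⟨X.filter (fun a => (nb R Y a).card = (nb R Y a₀).card),
      (X.filter (fun a => (nb R Y a).card = (nb R Y a₀).card)).biUnion (nb R Y),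
      Finset.filter_subset _ _, ?_, Or.inl ⟨a₀, Finset.mem_filter.2 ⟨ha₀, rfl⟩⟩, Or.inl ?_, ?_, ?_⟩
    · intro b hb
      obtain ⟨a, _, hb⟩ := Finset.mem_biUnion.1 hb
      exact (mem_nb.1 hb).1
    · intro e
      rw [← e] at ha₁
      exact hne (Finset.mem_filter.1 ha₁).2
    · intro a ha b hb hb'
      constructor
      · intro hr
        exact absurd (Finset.mem_biUnion.2 ⟨a, ha, mem_nb.2 ⟨hb, hr⟩⟩) hb'
      · intro hf; simp at hf
    · intro b hb a' ha' ha'n
      simp only [iff_true]
      by_contra hr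
      obtain ⟨a, ha, hb⟩ := Finset.mem_biUnion.1 hb
      rw [Finset.mem_filter] at ha ha'n
      have hcard : (nb R Y a').card ≠ (nb R Y a₀).card := fun e => ha'n ⟨ha', e⟩
      have hge := hmin a' ha'
      have hbn : b ∈ nb R Y a \ nb R Y a' :=
        Finset.mem_sdiff.2 ⟨hb, fun hh => hr (mem_nb.1 hh).2⟩
      have h1 := h a' ha' a ha.1 ⟨b, hbn⟩
      have h2 : 0 < (nb R Y a \ nb R Y a').card := Finset.card_pos.2 ⟨b, hbn⟩
      have h3 := Finset.card_sdiff_add_card_inter (nb R Y a) (nb R Y a')
      have h4 := Finset.card_sdiff_add_card_inter (nb R Y a') (nb R Y a)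
      rw [Finset.inter_comm] at h4
      have h5 := ha.2
      omega
  have hdiff : ∀ a ∈ X, ∀ a' ∈ X, (nb R Y a \ nb R Y a').card = (nb R Y a' \ nb R Y a).card := by
    intro a ha a' ha'
    exact card_sdiff_eq_of_card_eq ((hsize a ha).trans (hsize a' ha').symm)
  have hle1 : ∀ a ∈ X, ∀ a' ∈ X, (nb R Y a \ nb R Y a').card ≤ 1 := by
    intro a ha a' ha'
    by_cases hne : (nb R Y a' \ nb R Y a).Nonempty
    · exact h a ha a' ha' hne
    · rw [Finset.not_nonempty_iff_eq_empty] at hne
      rw [hdiff a ha a' ha', hne]; simp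
  obtain ⟨a₁, ha₁, a₂, ha₂, hne⟩ : ∃ a₁ ∈ X, ∃ a₂ ∈ X, a₁ ≠ a₂ :=
    Finset.one_lt_card.1 (by omega)
  have hneq : nb R Y a₁ ≠ nb R Y a₂ := by
    intro e
    refine hne (hT a₁ ha₁ a₂ ha₂ fun b hb => ?_)
    have := Finset.ext_iff.1 e b
    rw [mem_nb, mem_nb] at this
    exact ⟨fun hr => (this.1 ⟨hb, hr⟩).2, fun hr => (this.2 ⟨hb, hr⟩).2⟩
  have hn12 : (nb R Y a₁ \ nb R Y a₂).card = 1 := by
    have h1 := hle1 a₁ ha₁ a₂ ha₂
    rcases Nat.eq_zero_or_pos (nb R Y a₁ \ nb R Y a₂).card with h0 | h0
    · exfalso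
      have h0' := h0
      rw [hdiff a₁ ha₁ a₂ ha₂] at h0'
      rw [Finset.card_eq_zero, Finset.sdiff_eq_empty_iff_subset] at h0 h0'
      exact hneq (Finset.Subset.antisymm h0 h0')
    · omega
  have hn21 : (nb R Y a₂ \ nb R Y a₁).card = 1 := by rw [← hdiff a₁ ha₁ a₂ ha₂]; exact hn12
  -- every neighbourhood contains the core or lies in the union
  have hdich : ∀ a ∈ X, ¬ (nb R Y a₁ ∩ nb R Y a₂ ⊆ nb R Y a) →
      nb R Y a ⊆ nb R Y a₁ ∪ nb R Y a₂ := by
    intro a ha hcore
    rw [Finset.subset_iff] at hcore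
    push Not at hcore
    obtain ⟨r, hr, hra⟩ := hcore
    rw [Finset.mem_inter] at hr
    intro y hy
    by_contra hyU
    rw [Finset.mem_union, not_or] at hyU
    -- a₂'s private element
    obtain ⟨x₂, hx₂⟩ := Finset.card_pos.1 (by omega : 0 < (nb R Y a₂ \ nb R Y a₁).card)
    rw [Finset.mem_sdiff] at hx₂
    have hx₂a : x₂ ∈ nb R Y a := by
      by_contra hx
      have h1 := hle1 a₂ ha₂ a ha
      rw [Finset.card_le_one] at h1
      have := h1 r (Finset.mem_sdiff.2 ⟨hr.2, hra⟩) x₂ (Finset.mem_sdiff.2 ⟨hx₂.1, hx⟩)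
      rw [← this] at hx₂
      exact hx₂.2 hr.1
    have h1 := hle1 a ha a₁ ha₁
    rw [Finset.card_le_one] at h1
    have := h1 y (Finset.mem_sdiff.2 ⟨hy, hyU.1⟩) x₂ (Finset.mem_sdiff.2 ⟨hx₂a, hx₂.2⟩)
    rw [this] at hyU
    exact hyU.2 hx₂.1
  by_cases hcase : ∀ a ∈ X, nb R Y a₁ ∩ nb R Y a₂ ⊆ nb R Y a
  · -- the core is empty by indecomposability
    have hcore : nb R Y a₁ ∩ nb R Y a₂ = ∅ := by
      by_contra hne0
      apply hD
      refine ⟨∅, nb R Y a₁ ∩ nb R Y a₂, by simp,
        (Finset.inter_subset_left).trans nb_subset, Or.inr ?_, Or.inl ?_, ?_, ?_⟩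
      · exact Finset.nonempty_iff_ne_empty.2 hne0
      · exact hXne.ne_empty.symm
      · intro a ha; simp at ha
      · intro b hb a ha _
        have := hcase a ha hb
        simp [(mem_nb.1 this).2]
    have hsing : ∀ a ∈ X, (nb R Y a).card ≤ 1 := by
      intro a ha
      rw [hsize a ha, ← hsize a₁ ha₁]
      have h1 := Finset.card_sdiff_add_card_inter (nb R Y a₁) (nb R Y a₂)
      rw [hcore] at h1
      simp at h1
      omega
    exact (good_star hsing).change
  · push Not at hcase
    obtain ⟨a₃, ha₃, hcore₃⟩ := hcase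
    have hall : ∀ a ∈ X, nb R Y a ⊆ nb R Y a₁ ∪ nb R Y a₂ := by
      intro a ha
      by_cases hc : nb R Y a₁ ∩ nb R Y a₂ ⊆ nb R Y a
      · by_contra hsub
        rw [Finset.subset_iff] at hsub hcore₃
        push Not at hsub hcore₃
        obtain ⟨y, hy, hyU⟩ := hsub
        obtain ⟨r, hr, hra⟩ := hcore₃
        have h3 := hdich a₃ ha₃ (by
          intro hs; exact hra (hs hr))
        have h1 := hle1 a ha a₃ ha₃
        rw [Finset.card_le_one] at h1
        have := h1 y (Finset.mem_sdiff.2 ⟨hy, fun hh => hyU (h3 hh)⟩) r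
          (Finset.mem_sdiff.2 ⟨hc hr, hra⟩)
        rw [this] at hyU
        exact hyU (Finset.mem_union_left _ (Finset.mem_inter.1 hr).1)
      · exact hdich a ha hc
    -- the union is everything by indecomposability
    have hU : nb R Y a₁ ∪ nb R Y a₂ = Y := by
      by_contra hneY
      apply hD
      refine ⟨X, nb R Y a₁ ∪ nb R Y a₂, Finset.Subset.refl _,
        Finset.union_subset nb_subset nb_subset, Or.inl hXne, Or.inr hneY, ?_, ?_⟩
      · intro a ha b hb hb'
        constructor
        · intro hr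
          exact absurd (hall a ha (mem_nb.2 ⟨hb, hr⟩)) hb'
        · intro hf; simp at hf
      · intro b _ a ha ha'; exact absurd ha ha'
    have hco : ∀ a ∈ X, (nb (fun a b => ¬ R a b) Y a).card ≤ 1 := by
      intro a ha
      have e : nb (fun a b => ¬ R a b) Y a = Y \ nb R Y a := by
        ext b
        simp only [mem_nb, Finset.mem_sdiff, not_and]
        exact ⟨fun h => ⟨h.1, fun _ => h.2⟩, fun h => ⟨h.1, h.2 h.1⟩⟩
      rw [e, Finset.card_sdiff_of_subset nb_subset, hsize a ha, ← hsize a₁ ha₁]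
      have h1 : Y.card = (nb R Y a₁).card + (nb R Y a₂ \ nb R Y a₁).card := by
        conv_lhs => rw [← hU]
        rw [← Finset.union_sdiff_self_eq_union]
        exact Finset.card_union_of_disjoint Finset.disjoint_sdiff
      omega
    have := (good_star hco).of_compl
    exact this.change

/-- Every neighbourhood is incomparable to at most `K` others. -/
theorem good_of_incomparable (K : ℕ)
    (h : ∀ a ∈ X, (X.filter fun a' => ¬ nb R Y a ⊆ nb R Y a' ∧ ¬ nb R Y a' ⊆ nb R Y a).card ≤ K) :
    Good R true false (K + K * K) X Y := by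
  apply good_of_inv (fun P Q =>
    (∀ a ∈ P, ∀ a' ∈ X, a' ∉ P → (nb R Y a').card ≤ (nb R Y a).card) ∧
    (∀ b ∈ Q, ∀ a' ∈ X, a' ∉ P → ¬ R a' b) ∧
    (P.Nonempty → ∃ p ∈ P, (∀ a ∈ P, (nb R Y p).card ≤ (nb R Y a).card) ∧
      ∀ b ∈ Y, b ∉ Q → R p b ∨ ∃ a' ∈ X, a' ∉ P ∧ R a' b))
  · refine ⟨by simp, by simp, by simp⟩
  · intro P Q hP hQ ⟨h1, h2, h3⟩
    constructor
    · by_cases hPne : P.Nonempty
      · obtain ⟨p, hp, hpmin, hcov⟩ := h3 hPne
        have hpX := hP hp
        set I := X.filter fun a' => ¬ nb R Y p ⊆ nb R Y a' ∧ ¬ nb R Y a' ⊆ nb R Y p with hI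
        set S := I ∪ I.biUnion (fun a => X.filter fun a' =>
          ¬ nb R Y a ⊆ nb R Y a' ∧ ¬ nb R Y a' ⊆ nb R Y a) with hS
        have hIc : I.card ≤ K := h p hpX
        have hScard : S.card ≤ K + K * K := by
          refine (Finset.card_union_le _ _).trans ?_
          refine Nat.add_le_add hIc ?_
          refine Finset.card_biUnion_le.trans ?_
          refine (Finset.sum_le_card_nsmul _ _ K ?_).trans ?_
          · intro a ha
            exact h a (Finset.mem_filter.1 ha).1
          · rw [smul_eq_mul]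
            exact Nat.mul_le_mul_right _ hIc
        refine CutSide.of_subset S hScard fun a ha => ?_
        by_cases hall : ∀ b ∈ Y \ Q, R a b
        · exact Or.inr fun b hb => by simpa using hall b hb
        · left
          push Not at hall
          obtain ⟨b, hb, hab⟩ := hall
          rw [Finset.mem_sdiff] at hb
          rw [hS, Finset.mem_union]
          have haX := hP ha
          -- a vertex a'' adjacent to b with a'' = p or a'' in the future
          rcases hcov b hb.1 hb.2 with hpb | ⟨a'', ha''X, ha''P, ha''b⟩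
          · left
            rw [hI, Finset.mem_filter]
            refine ⟨haX, ?_, ?_⟩
            · intro hsub
              exact hab (mem_nb.1 (hsub (mem_nb.2 ⟨hb.1, hpb⟩))).2
            · intro hsub
              have := Finset.eq_of_subset_of_card_le hsub (hpmin a ha)
              have h' : b ∈ nb R Y a := by rw [this]; exact mem_nb.2 ⟨hb.1, hpb⟩
              exact hab (mem_nb.1 h').2
          · have hcard : (nb R Y a'').card ≤ (nb R Y a).card := h1 a ha a'' ha''X ha''P
            have hinc1 : ¬ nb R Y a'' ⊆ nb R Y a := fun hsub =>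
              hab (mem_nb.1 (hsub (mem_nb.2 ⟨hb.1, ha''b⟩))).2
            have hinc2 : ¬ nb R Y a ⊆ nb R Y a'' := by
              intro hsub
              have := Finset.eq_of_subset_of_card_le hsub hcard
              have h' : b ∈ nb R Y a := by rw [this]; exact mem_nb.2 ⟨hb.1, ha''b⟩
              exact hab (mem_nb.1 h').2
            by_cases hpa : nb R Y p ⊆ nb R Y a
            · right
              have hp'' : ¬ nb R Y a'' ⊆ nb R Y p := fun hsub => hinc1 (hsub.trans hpa)
              have hp''' : ¬ nb R Y p ⊆ nb R Y a'' := by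
                intro hsub
                have := Finset.eq_of_subset_of_card_le hsub (h1 p hp a'' ha''X ha''P)
                exact hp'' (by rw [this])
              refine Finset.mem_biUnion.2 ⟨a'', ?_, ?_⟩
              · rw [hI, Finset.mem_filter]; exact ⟨ha''X, hp''', hp''⟩
              · rw [Finset.mem_filter]; exact ⟨haX, hinc1, hinc2⟩
            · left
              rw [hI, Finset.mem_filter]
              refine ⟨haX, hpa, ?_⟩
              intro hsub
              have := Finset.eq_of_subset_of_card_le hsub (hpmin a ha)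
              exact hpa (by rw [this])
      · rw [Finset.not_nonempty_iff_eq_empty] at hPne
        rw [hPne]; exact CutSide.empty
    · refine CutSide.of_default fun b hb a ha => ?_
      rw [Finset.mem_sdiff] at ha
      simpa using h2 b hb a ha.1 ha.2
  · intro P Q hP hQ ⟨h1, h2, h3⟩ hne
    by_cases hb : ∃ b ∈ Y, b ∉ Q ∧ ∀ a' ∈ X, a' ∉ P → ¬ R a' b
    · obtain ⟨b, hbY, hbQ, hb⟩ := hb
      right
      refine ⟨b, hbY, hbQ, h1, ?_, ?_⟩
      · intro b' hb' a' ha' ha'P
        rcases Finset.mem_insert.1 hb' with rfl | hb'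
        · exact hb a' ha' ha'P
        · exact h2 b' hb' a' ha' ha'P
      · intro hPne
        obtain ⟨p, hp, hpmin, hcov⟩ := h3 hPne
        refine ⟨p, hp, hpmin, fun b' hb' hb'Q => hcov b' hb' fun hh => hb'Q ?_⟩
        exact Finset.mem_insert_of_mem hh
    · push Not at hb
      have hPX : P ≠ X := by
        rintro rfl
        rcases hne with h | h
        · exact h rfl
        · obtain ⟨b, hbY, hbQ⟩ := Finset.exists_of_ssubset (hQ.ssubset_of_ne h)
          obtain ⟨a, ha, ha', _⟩ := hb b hbY hbQ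
          exact ha' ha
      obtain ⟨a, ha, ha'⟩ := Finset.exists_of_ssubset (hP.ssubset_of_ne hPX)
      obtain ⟨m, hm, hmax⟩ := Finset.exists_max_image (X \ P) (fun a => (nb R Y a).card)
        ⟨a, Finset.mem_sdiff.2 ⟨ha, ha'⟩⟩
      rw [Finset.mem_sdiff] at hm
      left
      refine ⟨m, hm.1, hm.2, ?_, ?_, ?_⟩
      · intro x hx x' hx' hx'P
        rw [Finset.mem_insert, not_or] at hx'P
        rcases Finset.mem_insert.1 hx with rfl | hx
        · exact hmax x' (Finset.mem_sdiff.2 ⟨hx', hx'P.2⟩)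
        · exact h1 x hx x' hx' hx'P.2
      · intro b hb' a' ha'X ha'P
        rw [Finset.mem_insert, not_or] at ha'P
        exact h2 b hb' a' ha'X ha'P.2
      · intro _
        refine ⟨m, Finset.mem_insert_self _ _, ?_, ?_⟩
        · intro x hx
          rcases Finset.mem_insert.1 hx with rfl | hx
          · exact le_rfl
          · exact h1 x hx m hm.1 hm.2
        · intro b hbY hbQ
          obtain ⟨a', ha'X, ha'P, hr⟩ := hb b hbY hbQ
          by_cases e : a' = m
          · left; rw [← e]; exact hr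
          · right
            refine ⟨a', ha'X, ?_, hr⟩
            rw [Finset.mem_insert, not_or]; exact ⟨e, ha'P⟩

end Pool.Agent.LinCW
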