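import Pool.Agent.LinCW55.PS3

set_option autoImplicit false

/-!
# `S_{1,2,2}`-free bipartite graphs
-/

namespace Pool.Agent.LinCW

open Classical

variable {α β : Type} {R H : α → β → Prop} {d d' d₁ d₂ : Bool} {k m : ℕ}
  {X : Finset α} {Y : Finset β} {P : Finset α} {Q : Finset β}

/-- No induced `S_{1,2,2}` with its centre on the left. -/
def SK (R : α → β → Prop) (X : Finset α) (Y : Finset β) : Prop :=
  ∀ x ∈ X, ∀ y ∈ X, ∀ z ∈ X, ∀ b₀ ∈ Y, ∀ b₁ ∈ Y, ∀ b₂ ∈ Y, R x b₀ → R x b₁ → R x b₂ →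
    ¬ R y b₀ → ¬ R z b₀ → R y b₁ → ¬ R z b₁ → R z b₂ → ¬ R y b₂ → False

lemma SK.mono {X' : Finset α} {Y' : Finset β} (hX : X' ⊆ X) (hY : Y' ⊆ Y)
    (h : SK R X Y) : SK R X' Y' := by
  intro x hx y hy z hz b₀ h0 b₁ h1 b₂ h2
  exact h x (hX hx) y (hX hy) z (hX hz) b₀ (hY h0) b₁ (hY h1) b₂ (hY h2)

/-- Nested or disjoint neighbourhoods. -/
def Lam (R : α → β → Prop) (X : Finset α) (Y : Finset β) : Prop :=
  ∀ a ∈ X, ∀ a' ∈ X, nb R Y a ⊆ nb R Y a' ∨ nb R Y a' ⊆ nb R Y a ∨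
    ¬ (nb R Y a ∩ nb R Y a').Nonempty

lemma nb_restrict {Y' : Finset β} (hY : Y' ⊆ Y) (a : α) : nb R Y' a = nb R Y a ∩ Y' := by
  ext b
  rw [Finset.mem_inter, mem_nb, mem_nb]
  exact ⟨fun h => ⟨⟨hY h.1, h.2⟩, h.1⟩, fun h => ⟨h.2, h.1.2⟩⟩

lemma Lam.mono {X' : Finset α} {Y' : Finset β} (hX : X' ⊆ X) (hY : Y' ⊆ Y)
    (h : Lam R X Y) : Lam R X' Y' := by
  intro a ha a' ha'
  rw [nb_restrict hY, nb_restrict hY]
  rcases h a (hX ha) a' (hX ha') with h | h | h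
  · exact Or.inl (Finset.inter_subset_inter_right h)
  · exact Or.inr (Or.inl (Finset.inter_subset_inter_right h))
  · refine Or.inr (Or.inr fun hn => h (hn.mono ?_))
    exact Finset.inter_subset_inter Finset.inter_subset_left Finset.inter_subset_left

/-- Chain graphs. -/
lemma good_of_chain (h : ∀ a ∈ X, ∀ a' ∈ X, nb R Y a ⊆ nb R Y a' ∨ nb R Y a' ⊆ nb R Y a) :
    Good R true false 0 X Y := by
  have := good_of_incomparable (R := R) (X := X) (Y := Y) 0 (by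
    intro a ha
    rw [Nat.le_zero, Finset.card_eq_zero, Finset.filter_eq_empty_iff]
    intro a' ha' hn
    rcases h a ha a' ha' with h | h
    · exact hn.1 h
    · exact hn.2 h)
  simpa using this

theorem good_of_lam (h : Lam H X Y) (h' : Lam (rev H) Y X) : Good H false false 1 X Y := by
  refine good_of_prime (fun X Y => Lam H X Y ∧ Lam (rev H) Y X)
    (fun X Y X' Y' hX hY h => ⟨h.1.mono hX hY, h.2.mono hY hX⟩) ?_ X Y ⟨h, h'⟩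
  rintro X Y ⟨h, h'⟩ hD _ _
  rcases X.eq_empty_or_nonempty with rfl | hXne
  · exact good_of_card (by simp)
  obtain ⟨x, hx, hmax⟩ := Finset.exists_max_image X (fun a => (nb H Y a).card) hXne
  by_cases hne : (nb H Y x).Nonempty
  · have hconn : nb H Y x = Y := by
      by_contra hneY
      apply hD
      refine ⟨X.filter fun a => (nb H Y a ∩ nb H Y x).Nonempty, nb H Y x,
        Finset.filter_subset _ _, nb_subset, Or.inr hne, Or.inr hneY, ?_, ?_⟩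
      · intro a ha b hb hb'
        obtain ⟨haX, hi⟩ := Finset.mem_filter.1 ha
        simp only [Bool.false_eq_true, iff_false]
        intro hab
        have hsub : nb H Y a ⊆ nb H Y x := by
          rcases h a haX x hx with h | h | h
          · exact h
          · exact (Finset.eq_of_subset_of_card_le h (hmax a haX)).ge
          · exact absurd hi h
        exact hb' (hsub (mem_nb.2 ⟨hb, hab⟩))
      · intro b hb a ha ha'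
        simp only [Bool.false_eq_true, iff_false]
        intro hab
        exact ha' (Finset.mem_filter.2 ⟨ha, b,
          Finset.mem_inter.2 ⟨mem_nb.2 ⟨(mem_nb.1 hb).1, hab⟩, hb⟩⟩)
    have hall : ∀ b ∈ Y, H x b := fun b hb => by
      rw [← hconn] at hb; exact (mem_nb.1 hb).2
    have g : Good (rev H) true false 0 Y X := by
      refine good_of_chain fun b hb b' hb' => ?_
      rcases h' b hb b' hb' with h | h | h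
      · exact Or.inl h
      · exact Or.inr h
      · exact absurd ⟨x, Finset.mem_inter.2 ⟨mem_nb.2 ⟨hx, hall b hb⟩,
          mem_nb.2 ⟨hx, hall b' hb'⟩⟩⟩ h
    exact g.flip.change
  · rw [Finset.not_nonempty_iff_eq_empty] at hne
    have hall : ∀ a ∈ X, nb H Y a = ∅ := by
      intro a ha
      have := hmax a ha
      simp only [hne, Finset.card_empty, Nat.le_zero, Finset.card_eq_zero] at this
      exact this
    exact (good_of_chain fun a ha a' ha' => Or.inl (by rw [hall a ha]; simp)).change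

/-- Induced paths on seven vertices with ends on the right. -/
structure IsP7 (R : α → β → Prop) (X : Finset α) (Y : Finset β) (a₁ a₂ a₃ : α)
    (b₁ b₂ b₃ b₄ : β) : Prop where
  ma₁ : a₁ ∈ X
  ma₂ : a₂ ∈ X
  ma₃ : a₃ ∈ X
  mb₁ : b₁ ∈ Y
  mb₂ : b₂ ∈ Y
  mb₃ : b₃ ∈ Y
  mb₄ : b₄ ∈ Y
  e11 : R a₁ b₁
  e12 : R a₁ b₂
  e22 : R a₂ b₂
  e23 : R a₂ b₃
  e33 : R a₃ b₃
  e34 : R a₃ b₄
  n13 : ¬ R a₁ b₃
  n14 : ¬ R a₁ b₄
  n21 : ¬ R a₂ b₁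
  n24 : ¬ R a₂ b₄
  n31 : ¬ R a₃ b₁
  n32 : ¬ R a₃ b₂

section P7

variable {a₁ a₂ a₃ : α} {b₁ b₂ b₃ b₄ : β}

lemma IsP7.reverse (p : IsP7 R X Y a₁ a₂ a₃ b₁ b₂ b₃ b₄) :
    IsP7 R X Y a₃ a₂ a₁ b₄ b₃ b₂ b₁ :=
  ⟨p.ma₃, p.ma₂, p.ma₁, p.mb₄, p.mb₃, p.mb₂, p.mb₁, p.e34, p.e33, p.e23, p.e22, p.e12, p.e11,
    p.n32, p.n31, p.n24, p.n21, p.n14, p.n13⟩

lemma IsP7.y13 (h : SK R X Y) (h' : SK (rev R) Y X) (p : IsP7 R X Y a₁ a₂ a₃ b₁ b₂ b₃ b₄)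
    {u : β} (hu : u ∈ Y) (h1 : R a₁ u) (h3 : R a₃ u) : False := by
  by_cases h2 : R a₂ u
  · exact h' u hu b₁ p.mb₁ b₄ p.mb₄ a₂ p.ma₂ a₁ p.ma₁ a₃ p.ma₃ h2 h1 h3 p.n21 p.n24 p.e11 p.n14
      p.e34 p.n31
  · exact h a₁ p.ma₁ a₂ p.ma₂ a₃ p.ma₃ b₁ p.mb₁ b₂ p.mb₂ u hu p.e11 p.e12 h1 p.n21 p.n31 p.e22
      p.n32 h3 h2

lemma IsP7.y2 (h : SK R X Y) (p : IsP7 R X Y a₁ a₂ a₃ b₁ b₂ b₃ b₄)
    {u : β} (hu : u ∈ Y) (h2 : R a₂ u) : R a₁ u ∨ R a₃ u := by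
  by_contra hcon
  rw [not_or] at hcon
  exact h a₂ p.ma₂ a₁ p.ma₁ a₃ p.ma₃ u hu b₂ p.mb₂ b₃ p.mb₃ h2 p.e22 p.e23 hcon.1 hcon.2 p.e12
    p.n32 p.e33 p.n13

lemma IsP7.x13 (h : SK R X Y) (h' : SK (rev R) Y X) (p : IsP7 R X Y a₁ a₂ a₃ b₁ b₂ b₃ b₄)
    {u : α} (hu : u ∈ X) (h1 : R u b₁) (h3 : R u b₃) : False := by
  by_cases h2 : R u b₂
  · by_cases h4 : R u b₄
    · exact h u hu a₁ p.ma₁ a₂ p.ma₂ b₄ p.mb₄ b₁ p.mb₁ b₃ p.mb₃ h4 h1 h3 p.n14 p.n24 p.e11 p.n21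
        p.e23 p.n13
    · exact h' b₃ p.mb₃ b₄ p.mb₄ b₁ p.mb₁ a₂ p.ma₂ a₃ p.ma₃ u hu p.e23 p.e33 h3 p.n24 p.n21 p.e34
        p.n31 h1 h4
  · exact h' b₃ p.mb₃ b₂ p.mb₂ b₁ p.mb₁ a₃ p.ma₃ a₂ p.ma₂ u hu p.e33 p.e23 h3 p.n32 p.n31 p.e22
      p.n21 h1 h2

lemma IsP7.x24 (h : SK R X Y) (h' : SK (rev R) Y X) (p : IsP7 R X Y a₁ a₂ a₃ b₁ b₂ b₃ b₄)
    {u : α} (hu : u ∈ X) (h2 : R u b₂) (h4 : R u b₄) : False :=
  p.reverse.x13 h h' hu h4 h2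

lemma IsP7.x2 (h' : SK (rev R) Y X) (p : IsP7 R X Y a₁ a₂ a₃ b₁ b₂ b₃ b₄)
    {u : α} (hu : u ∈ X) (h2 : R u b₂) : R u b₁ ∨ R u b₃ := by
  by_contra hcon
  rw [not_or] at hcon
  exact h' b₂ p.mb₂ b₁ p.mb₁ b₃ p.mb₃ u hu a₁ p.ma₁ a₂ p.ma₂ h2 p.e12 p.e22 hcon.1 hcon.2 p.e11
    p.n13 p.e23 p.n21

lemma exists_distinguish (hT : TwinFree R X Y) {a a' : α} (ha : a ∈ X) (ha' : a' ∈ X)
    (hne : a ≠ a') : ∃ w ∈ Y, (R a w ∧ ¬ R a' w) ∨ (R a' w ∧ ¬ R a w) := by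
  by_contra hcon
  push Not at hcon
  exact hne (hT a ha a' ha' fun b hb => ⟨(hcon b hb).1, (hcon b hb).2⟩)

lemma IsP7.t3_aux (h : SK R X Y) (h' : SK (rev R) Y X) (p : IsP7 R X Y a₁ a₂ a₃ b₁ b₂ b₃ b₄)
    {u : β} (hu : u ∈ Y) (h1 : R a₁ u) (h2 : R a₂ u) {w : α} (hw : w ∈ X) (hw2 : R w b₂)
    (hwu : ¬ R w u) : False := by
  have h3 : ¬ R a₃ u := fun hh => p.y13 h h' hu h1 hh
  by_cases hw3 : R w b₃
  · have hw4 : ¬ R w b₄ := fun hh => p.x24 h h' hw hw2 hh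
    exact h' b₃ p.mb₃ u hu b₄ p.mb₄ w hw a₂ p.ma₂ a₃ p.ma₃ hw3 p.e23 p.e33 hwu hw4 h2 p.n24 p.e34
      h3
  · exact h a₂ p.ma₂ w hw a₃ p.ma₃ u hu b₂ p.mb₂ b₃ p.mb₃ h2 p.e22 p.e23 hwu h3 hw2 p.n32 p.e33
      hw3

lemma IsP7.replace_b₂ (h : SK R X Y) (h' : SK (rev R) Y X)
    (p : IsP7 R X Y a₁ a₂ a₃ b₁ b₂ b₃ b₄) {u : β} (hu : u ∈ Y) (h1 : R a₁ u) (h2 : R a₂ u) :
    IsP7 R X Y a₁ a₂ a₃ b₁ u b₃ b₄ :=
  ⟨p.ma₁, p.ma₂, p.ma₃, p.mb₁, hu, p.mb₃, p.mb₄, p.e11, h1, h2, p.e23, p.e33, p.e34, p.n13,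
    p.n14, p.n21, p.n24, p.n31, fun hh => p.y13 h h' hu h1 hh⟩

lemma IsP7.t3 (h : SK R X Y) (h' : SK (rev R) Y X) (hT' : TwinFree (rev R) Y X)
    (p : IsP7 R X Y a₁ a₂ a₃ b₁ b₂ b₃ b₄) {u : β} (hu : u ∈ Y) (h1 : R a₁ u) (h2 : R a₂ u) :
    u = b₂ := by
  by_contra hne
  obtain ⟨w, hw, ⟨hw1, hw2⟩ | ⟨hw1, hw2⟩⟩ := exists_distinguish hT' hu p.mb₂ hne
  · exact (p.replace_b₂ h h' hu h1 h2).t3_aux h h' p.mb₂ p.e12 p.e22 hw hw1 hw2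
  · exact p.t3_aux h h' hu h1 h2 hw hw1 hw2

lemma IsP7.A2 (h : SK R X Y) (h' : SK (rev R) Y X) (hT' : TwinFree (rev R) Y X)
    (p : IsP7 R X Y a₁ a₂ a₃ b₁ b₂ b₃ b₄) {u : β} (hu : u ∈ Y) (h2 : R a₂ u) :
    u = b₂ ∨ u = b₃ := by
  rcases p.y2 h hu h2 with h1 | h3
  · exact Or.inl (p.t3 h h' hT' hu h1 h2)
  · exact Or.inr (p.reverse.t3 h h' hT' hu h3 h2)

lemma IsP7.t4 (h : SK R X Y) (h' : SK (rev R) Y X) (hT : TwinFree R X Y)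
    (hT' : TwinFree (rev R) Y X) (p : IsP7 R X Y a₁ a₂ a₃ b₁ b₂ b₃ b₄) {u : α} (hu : u ∈ X)
    (h2 : R u b₂) (h3 : R u b₃) : u = a₂ := by
  have h1 : ¬ R u b₁ := fun hh => p.x13 h h' hu hh h3
  have h4 : ¬ R u b₄ := fun hh => p.x24 h h' hu h2 hh
  have p' : IsP7 R X Y a₁ u a₃ b₁ b₂ b₃ b₄ :=
    ⟨p.ma₁, hu, p.ma₃, p.mb₁, p.mb₂, p.mb₃, p.mb₄, p.e11, p.e12, h2, h3, p.e33, p.e34, p.n13,
      p.n14, h1, h4, p.n31, p.n32⟩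
  by_contra hne
  obtain ⟨w, hw, ⟨hw1, hw2⟩ | ⟨hw1, hw2⟩⟩ := exists_distinguish hT hu p.ma₂ hne
  · rcases p'.A2 h h' hT' hw hw1 with rfl | rfl
    · exact hw2 p.e22
    · exact hw2 p.e23
  · rcases p.A2 h h' hT' hw hw1 with rfl | rfl
    · exact hw2 h2
    · exact hw2 h3

lemma IsP7.t2_aux (h : SK R X Y) (h' : SK (rev R) Y X)
    (hT' : TwinFree (rev R) Y X) (p : IsP7 R X Y a₁ a₂ a₃ b₁ b₂ b₃ b₄) {u : α} (hu : u ∈ X)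
    (h1 : R u b₁) (h2 : R u b₂) {w : β} (hw : w ∈ Y) (hw1 : R a₁ w) (hw2 : ¬ R u w) : False := by
  have hw3 : ¬ R a₂ w := by
    intro hh
    rcases p.A2 h h' hT' hw hh with rfl | rfl
    · exact hw2 h2
    · exact p.n13 hw1
  have h3 : ¬ R u b₃ := fun hh => p.x13 h h' hu h1 hh
  exact h' b₂ p.mb₂ w hw b₃ p.mb₃ u hu a₁ p.ma₁ a₂ p.ma₂ h2 p.e12 p.e22 hw2 h3 hw1 p.n13 p.e23
    hw3

lemma IsP7.t2 (h : SK R X Y) (h' : SK (rev R) Y X) (hT : TwinFree R X Y)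
    (hT' : TwinFree (rev R) Y X) (p : IsP7 R X Y a₁ a₂ a₃ b₁ b₂ b₃ b₄) {u : α} (hu : u ∈ X)
    (h1 : R u b₁) (h2 : R u b₂) : u = a₁ := by
  have h3 : ¬ R u b₃ := fun hh => p.x13 h h' hu h1 hh
  have h4 : ¬ R u b₄ := fun hh => p.x24 h h' hu h2 hh
  have p' : IsP7 R X Y u a₂ a₃ b₁ b₂ b₃ b₄ :=
    ⟨hu, p.ma₂, p.ma₃, p.mb₁, p.mb₂, p.mb₃, p.mb₄, h1, h2, p.e22, p.e23, p.e33, p.e34, h3,
      h4, p.n21, p.n24, p.n31, p.n32⟩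
  by_contra hne
  obtain ⟨w, hw, ⟨hw1, hw2⟩ | ⟨hw1, hw2⟩⟩ := exists_distinguish hT hu p.ma₁ hne
  · exact p'.t2_aux h h' hT' p.ma₁ p.e11 p.e12 hw hw1 hw2
  · exact p.t2_aux h h' hT' hu h1 h2 hw hw1 hw2

lemma IsP7.t1_aux (h : SK R X Y) (h' : SK (rev R) Y X) (hT : TwinFree R X Y)
    (hT' : TwinFree (rev R) Y X) (p : IsP7 R X Y a₁ a₂ a₃ b₁ b₂ b₃ b₄) {u : β} (hu : u ∈ Y)
    (h1 : R a₁ u) (h2 : ¬ R a₂ u) {w : α} (hw : w ∈ X) (hw1 : R w b₁) (hwu : ¬ R w u) :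
    False := by
  have hw2 : ¬ R w b₂ := by
    intro hh
    have := p.t2 h h' hT hT' hw hw1 hh
    rw [this] at hwu
    exact hwu h1
  exact h a₁ p.ma₁ w hw a₂ p.ma₂ u hu b₁ p.mb₁ b₂ p.mb₂ h1 p.e11 p.e12 hwu h2 hw1 p.n21 p.e22 hw2

/-- The neighbours of `a₁`. -/
lemma IsP7.A1 (h : SK R X Y) (h' : SK (rev R) Y X) (hT : TwinFree R X Y)
    (hT' : TwinFree (rev R) Y X) (p : IsP7 R X Y a₁ a₂ a₃ b₁ b₂ b₃ b₄) {u : β} (hu : u ∈ Y)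
    (h1 : R a₁ u) : u = b₁ ∨ u = b₂ := by
  by_cases h2 : R a₂ u
  · exact Or.inr (p.t3 h h' hT' hu h1 h2)
  · left
    have h3 : ¬ R a₃ u := fun hh => p.y13 h h' hu h1 hh
    have p' : IsP7 R X Y a₁ a₂ a₃ u b₂ b₃ b₄ :=
      ⟨p.ma₁, p.ma₂, p.ma₃, hu, p.mb₂, p.mb₃, p.mb₄, h1, p.e12, p.e22, p.e23, p.e33, p.e34, p.n13,
        p.n14, h2, p.n24, h3, p.n32⟩
    by_contra hne
    obtain ⟨w, hw, ⟨hw1, hw2⟩ | ⟨hw1, hw2⟩⟩ := exists_distinguish hT' hu p.mb₁ hne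
    · exact p'.t1_aux h h' hT hT' p.mb₁ p.e11 p.n21 hw hw1 hw2
    · exact p.t1_aux h h' hT hT' hu h1 h2 hw hw1 hw2

/-- The neighbours of `b₂`. -/
lemma IsP7.B2 (h : SK R X Y) (h' : SK (rev R) Y X) (hT : TwinFree R X Y)
    (hT' : TwinFree (rev R) Y X) (p : IsP7 R X Y a₁ a₂ a₃ b₁ b₂ b₃ b₄) {u : α} (hu : u ∈ X)
    (h2 : R u b₂) : u = a₁ ∨ u = a₂ := by
  rcases p.x2 h' hu h2 with h1 | h3
  · exact Or.inl (p.t2 h h' hT hT' hu h1 h2)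
  · exact Or.inr (p.t4 h h' hT hT' hu h2 h3)

/-- The path shifted by one vertex. -/
lemma IsP7.shift (h : SK R X Y) (h' : SK (rev R) Y X) (hT : TwinFree R X Y)
    (hT' : TwinFree (rev R) Y X) (p : IsP7 R X Y a₁ a₂ a₃ b₁ b₂ b₃ b₄) {u : α} (hu : u ∈ X)
    (h1 : R u b₁) (hne : u ≠ a₁) : IsP7 (rev R) Y X b₁ b₂ b₃ u a₁ a₂ a₃ :=
  ⟨p.mb₁, p.mb₂, p.mb₃, hu, p.ma₁, p.ma₂, p.ma₃, h1, p.e11, p.e12, p.e22, p.e23, p.e33, p.n21,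
    p.n31, fun h2 => hne (p.t2 h h' hT hT' hu h1 h2), p.n32, fun h3 => p.x13 h h' hu h1 h3,
    p.n13⟩

lemma IsP7.B1 (h : SK R X Y) (h' : SK (rev R) Y X) (hT : TwinFree R X Y)
    (hT' : TwinFree (rev R) Y X) (p : IsP7 R X Y a₁ a₂ a₃ b₁ b₂ b₃ b₄) {u u' : α} (hu : u ∈ X)
    (h1 : R u b₁) (hne : u ≠ a₁) (hu' : u' ∈ X) (h1' : R u' b₁) : u' = u ∨ u' = a₁ :=
  (p.shift h h' hT hT' hu h1 hne).A1 h' h hT' hT hu' h1'

end P7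

/-- Inner vertices of induced paths on seven vertices. -/
def InA (R : α → β → Prop) (X : Finset α) (Y : Finset β) (a : α) : Prop :=
  ∃ a₁ a₂ a₃ b₁ b₂ b₃ b₄, IsP7 R X Y a₁ a₂ a₃ b₁ b₂ b₃ b₄ ∧ (a = a₁ ∨ a = a₂)

/-- Outer vertices of induced paths on seven vertices. -/
def InB (R : α → β → Prop) (X : Finset α) (Y : Finset β) (b : β) : Prop :=
  ∃ a₁ a₂ a₃ b₁ b₂ b₃ b₄, IsP7 R X Y a₁ a₂ a₃ b₁ b₂ b₃ b₄ ∧ (b = b₁ ∨ b = b₂)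

lemma card_le_two_of {γ : Type} {s : Finset γ} {x y : γ} (h : ∀ z ∈ s, z = x ∨ z = y) :
    s.card ≤ 2 := by
  have hsub : s ⊆ {x, y} := by
    intro z hz
    rw [Finset.mem_insert, Finset.mem_singleton]
    exact h z hz
  exact (Finset.card_le_card hsub).trans Finset.card_le_two

lemma InA.card (h : SK R X Y) (h' : SK (rev R) Y X) (hT : TwinFree R X Y)
    (hT' : TwinFree (rev R) Y X) {a : α} (ha : InA R X Y a) : (nb R Y a).card ≤ 2 := by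
  obtain ⟨a₁, a₂, a₃, b₁, b₂, b₃, b₄, p, rfl | rfl⟩ := ha
  · exact card_le_two_of fun z hz => p.A1 h h' hT hT' (mem_nb.1 hz).1 (mem_nb.1 hz).2
  · exact card_le_two_of fun z hz => p.A2 h h' hT' (mem_nb.1 hz).1 (mem_nb.1 hz).2

lemma InB.card (h : SK R X Y) (h' : SK (rev R) Y X) (hT : TwinFree R X Y)
    (hT' : TwinFree (rev R) Y X) {b : β} (hb : InB R X Y b) : (nb (rev R) X b).card ≤ 2 := by
  obtain ⟨a₁, a₂, a₃, b₁, b₂, b₃, b₄, p, rfl | rfl⟩ := hb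
  · by_cases hex : ∃ u ∈ X, R u b ∧ u ≠ a₁
    · obtain ⟨u, hu, h1, hne⟩ := hex
      exact card_le_two_of fun z hz =>
        p.B1 h h' hT hT' hu h1 hne (mem_nb.1 hz).1 (mem_nb.1 hz).2
    · push Not at hex
      exact card_le_two_of (x := a₁) (y := a₁) fun z hz =>
        Or.inl (hex z (mem_nb.1 hz).1 (mem_nb.1 hz).2)
  · exact card_le_two_of fun z hz => p.B2 h h' hT hT' (mem_nb.1 hz).1 (mem_nb.1 hz).2

lemma InA.close (h : SK R X Y) (h' : SK (rev R) Y X) (hT : TwinFree R X Y)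
    (hT' : TwinFree (rev R) Y X) {a : α} (ha : InA R X Y a) {b : β} (hb : b ∈ Y)
    (hab : R a b) : InB R X Y b := by
  obtain ⟨a₁, a₂, a₃, b₁, b₂, b₃, b₄, p, rfl | rfl⟩ := ha
  · exact ⟨_, _, _, _, _, _, _, p, p.A1 h h' hT hT' hb hab⟩
  · rcases p.A2 h h' hT' hb hab with rfl | rfl
    · exact ⟨_, _, _, _, _, _, _, p, Or.inr rfl⟩
    · exact ⟨_, _, _, _, _, _, _, p.reverse, Or.inr rfl⟩

lemma InB.close (h : SK R X Y) (h' : SK (rev R) Y X) (hT : TwinFree R X Y)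
    (hT' : TwinFree (rev R) Y X) {b : β} (hb : InB R X Y b) {a : α} (ha : a ∈ X)
    (hab : R a b) : InA R X Y a ∨ InB (rev R) Y X a := by
  obtain ⟨a₁, a₂, a₃, b₁, b₂, b₃, b₄, p, rfl | rfl⟩ := hb
  · by_cases hne : a = a₁
    · exact Or.inl ⟨_, _, _, _, _, _, _, p, Or.inl hne⟩
    · exact Or.inr ⟨_, _, _, _, _, _, _, p.shift h h' hT hT' ha hab hne, Or.inl rfl⟩
  · exact Or.inl ⟨_, _, _, _, _, _, _, p, p.B2 h h' hT hT' ha hab⟩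

/-- A connected twin-free graph with an induced path on seven vertices has maximum degree two. -/
lemma good_of_P7 (h : SK R X Y) (h' : SK (rev R) Y X) (hT : TwinFree R X Y)
    (hT' : TwinFree (rev R) Y X) (hD : ¬ Dec R false false X Y)
    (hex : ∃ a, InA R X Y a ∧ a ∈ X) : Good R false false 2 X Y := by
  obtain ⟨a₀, ha₀, ha₀X⟩ := hex
  have hconn : (X.filter fun a => InA R X Y a ∨ InB (rev R) Y X a) = X ∧
      (Y.filter fun b => InA (rev R) Y X b ∨ InB R X Y b) = Y := by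
    by_contra hcon
    rw [not_and_or] at hcon
    apply hD
    refine ⟨_, _, Finset.filter_subset _ _, Finset.filter_subset _ _,
      Or.inl ⟨a₀, Finset.mem_filter.2 ⟨ha₀X, Or.inl ha₀⟩⟩, hcon, ?_, ?_⟩
    · intro a ha b hb hb'
      obtain ⟨haX, ha⟩ := Finset.mem_filter.1 ha
      simp only [Bool.false_eq_true, iff_false]
      intro hab
      apply hb'
      refine Finset.mem_filter.2 ⟨hb, ?_⟩
      rcases ha with ha | ha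
      · exact Or.inr (ha.close h h' hT hT' hb hab)
      · exact ha.close h' h hT' hT hb hab
    · intro b hb a ha ha'
      obtain ⟨hbY, hb⟩ := Finset.mem_filter.1 hb
      simp only [Bool.false_eq_true, iff_false]
      intro hab
      apply ha'
      refine Finset.mem_filter.2 ⟨ha, ?_⟩
      rcases hb with hb | hb
      · exact Or.inr (hb.close h' h hT' hT ha hab)
      · exact hb.close h h' hT hT' ha hab
  refine good_of_maxdeg (fun a ha => ?_) (fun b hb => ?_)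
  · rw [← hconn.1] at ha
    rcases (Finset.mem_filter.1 ha).2 with ha | ha
    · exact ha.card h h' hT hT'
    · exact ha.card h' h hT' hT
  · rw [← hconn.2] at hb
    rcases (Finset.mem_filter.1 hb).2 with hb | hb
    · exact hb.card h' h hT' hT
    · exact hb.card h h' hT hT'

/-- `P_2 + P_4`. -/
def P24 (R : α → β → Prop) (X : Finset α) (Y : Finset β) : Prop :=
  ∃ a₁ ∈ X, ∃ a₂ ∈ X, ∃ a₃ ∈ X, ∃ b₁ ∈ Y, ∃ b₂ ∈ Y, ∃ b₃ ∈ Y, R a₁ b₁ ∧ R a₂ b₁ ∧ R a₂ b₂ ∧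
    ¬ R a₁ b₂ ∧ R a₃ b₃ ∧ ¬ R a₃ b₁ ∧ ¬ R a₃ b₂ ∧ ¬ R a₁ b₃ ∧ ¬ R a₂ b₃

lemma P24.to_P7 (h : SK R X Y) (h' : SK (rev R) Y X) (hD : ¬ Dec R false false X Y)
    (hp : P24 R X Y) : (∃ a, InA R X Y a ∧ a ∈ X) ∨ (∃ b, InA (rev R) Y X b ∧ b ∈ Y) := by
  obtain ⟨a₁, ha₁, a₂, ha₂, a₃, ha₃, b₁, hb₁, b₂, hb₂, b₃, hb₃, e11, e21, e22, n12, e33, n31,
    n32, n13, n23⟩ := hp
  by_contra hcon
  rw [not_or] at hcon
  obtain ⟨hc1, hc2⟩ := hcon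
  apply hD
  refine ⟨X.filter fun a => (¬ R a b₁ ∧ ¬ R a b₂) ∧ ∃ b ∈ Y, (¬ R a₁ b ∧ ¬ R a₂ b) ∧ R a b,
    Y.filter fun b => (¬ R a₁ b ∧ ¬ R a₂ b) ∧ ∃ a ∈ X, (¬ R a b₁ ∧ ¬ R a b₂) ∧ R a b,
    Finset.filter_subset _ _, Finset.filter_subset _ _, Or.inl ⟨a₃, ?_⟩, Or.inl ?_, ?_, ?_⟩
  · exact Finset.mem_filter.2 ⟨ha₃, ⟨n31, n32⟩, b₃, hb₃, ⟨n13, n23⟩, e33⟩
  · intro e
    rw [← e] at ha₁
    exact (Finset.mem_filter.1 ha₁).2.1.1 e11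
  · intro a ha b hb hb'
    obtain ⟨haX, ⟨hab₁, hab₂⟩, b', hb'Y, ⟨hb'1, hb'2⟩, hab'⟩ := Finset.mem_filter.1 ha
    simp only [Bool.false_eq_true, iff_false]
    intro hab
    by_cases h1 : R a₁ b
    · by_cases h2 : R a₂ b
      · exact h' b hb b' hb'Y b₂ hb₂ a₁ ha₁ a haX a₂ ha₂ h1 hab h2 hb'1 n12 hab' hab₂ e22 hb'2
      · exact hc1 ⟨a, ⟨a, a₁, a₂, b', b, b₁, b₂, ⟨haX, ha₁, ha₂, hb'Y, hb, hb₁, hb₂, hab', hab, h1,
          e11, e21, e22, hab₁, hab₂, hb'1, n12, hb'2, h2⟩, Or.inl rfl⟩, haX⟩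
    · by_cases h2 : R a₂ b
      · exact h a₂ ha₂ a₁ ha₁ a haX b₂ hb₂ b₁ hb₁ b hb e22 e21 h2 n12 hab₂ e11 hab₁ hab h1
      · exact hb' (Finset.mem_filter.2 ⟨hb, ⟨h1, h2⟩, a, haX, ⟨hab₁, hab₂⟩, hab⟩)
  · intro b hb a ha ha'
    obtain ⟨hbY, ⟨hb1, hb2⟩, a', ha'X, ⟨ha'1, ha'2⟩, hab'⟩ := Finset.mem_filter.1 hb
    simp only [Bool.false_eq_true, iff_false]
    intro hab
    by_cases h1 : R a b₁
    · by_cases h2 : R a b₂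
      · exact h a ha a' ha'X a₁ ha₁ b₂ hb₂ b hbY b₁ hb₁ h2 hab h1 ha'2 n12 hab' hb1 e11 ha'1
      · exact h' b₁ hb₁ b₂ hb₂ b hbY a₁ ha₁ a₂ ha₂ a ha e11 e21 h1 n12 hb1 e22 hb2 hab h2
    · by_cases h2 : R a b₂
      · exact hc2 ⟨b, ⟨b, b₂, b₁, a', a, a₂, a₁, ⟨hbY, hb₂, hb₁, ha'X, ha, ha₂, ha₁, hab', hab, h2,
          e22, e21, e11, hb2, hb1, ha'2, n12, ha'1, h1⟩, Or.inl rfl⟩, hbY⟩
      · exact ha' (Finset.mem_filter.2 ⟨ha, ⟨h1, h2⟩, b, hbY, ⟨hb1, hb2⟩, hab⟩)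

lemma P24.flip (hp : P24 (rev R) Y X) : P24 R X Y := by
  obtain ⟨a₁, ha₁, a₂, ha₂, a₃, ha₃, b₁, hb₁, b₂, hb₂, b₃, hb₃, e11, e21, e22, n12, e33, n31,
    n32, n13, n23⟩ := hp
  exact ⟨b₂, hb₂, b₁, hb₁, b₃, hb₃, a₂, ha₂, a₁, ha₁, a₃, ha₃, e22, e21, e11, n12, e33, n23, n13,
    n32, n31⟩

/-- Connected graphs without `P_2+P_4` have laminar bipartite complement. -/
lemma lam_of_not_P24 (h : SK R X Y) (h' : SK (rev R) Y X) (hD : ¬ Dec R false false X Y)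
    (hp : ¬ P24 R X Y) : Lam (co R) X Y := by
  intro x hx y hy
  by_contra hcon
  rw [not_or, not_or, not_not] at hcon
  obtain ⟨hc1, hc2, u, hu⟩ := hcon
  rw [nb_co_subset] at hc1 hc2
  obtain ⟨b₃, hb₃⟩ := nonempty_sdiff_of_not_subset hc1
  obtain ⟨b₁, hb₁⟩ := nonempty_sdiff_of_not_subset hc2
  rw [Finset.mem_sdiff, mem_nb, mem_nb, not_and] at hb₁ hb₃
  obtain ⟨⟨hb₁Y, x1⟩, y1⟩ := hb₁
  have y1 := y1 hb₁Y
  obtain ⟨⟨hb₃Y, y3⟩, x3⟩ := hb₃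
  have x3 := x3 hb₃Y
  rw [Finset.mem_inter, mem_nb, mem_nb] at hu
  obtain ⟨⟨huY, xu⟩, -, yu⟩ := hu
  have xu : ¬ R x u := xu
  have yu : ¬ R y u := yu
  apply hD
  refine ⟨X.filter fun a => ¬ R a b₁ ∧ ¬ R a b₃, Y.filter fun b => ¬ R x b ∧ ¬ R y b,
    Finset.filter_subset _ _, Finset.filter_subset _ _,
    Or.inr ⟨u, Finset.mem_filter.2 ⟨huY, xu, yu⟩⟩, Or.inl ?_, ?_, ?_⟩
  · intro e
    rw [← e] at hx
    exact (Finset.mem_filter.1 hx).2.1 x1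
  · intro a ha b hb hb'
    obtain ⟨haX, ha1, ha3⟩ := Finset.mem_filter.1 ha
    simp only [Bool.false_eq_true, iff_false]
    intro hab
    by_cases hxb : R x b
    · by_cases hyb : R y b
      · exact h' b hb b₁ hb₁Y b₃ hb₃Y a haX x hx y hy hab hxb hyb ha1 ha3 x1 x3 y3 y1
      · exact hp ⟨a, haX, x, hx, y, hy, b, hb, b₁, hb₁Y, b₃, hb₃Y, hab, hxb, x1, ha1, y3, hyb, y1,
          ha3, x3⟩
    · by_cases hyb : R y b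
      · exact hp ⟨a, haX, y, hy, x, hx, b, hb, b₃, hb₃Y, b₁, hb₁Y, hab, hyb, y3, ha3, x1, hxb, x3,
          ha1, y1⟩
      · exact hb' (Finset.mem_filter.2 ⟨hb, hxb, hyb⟩)
  · intro b hb a ha ha'
    obtain ⟨hbY, hxb, hyb⟩ := Finset.mem_filter.1 hb
    simp only [Bool.false_eq_true, iff_false]
    intro hab
    by_cases ha1 : R a b₁
    · by_cases ha3 : R a b₃
      · exact h a ha x hx y hy b hbY b₁ hb₁Y b₃ hb₃Y hab ha1 ha3 hxb hyb x1 y1 y3 x3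
      · exact hp ⟨x, hx, a, ha, y, hy, b₁, hb₁Y, b, hbY, b₃, hb₃Y, x1, ha1, hab, hxb, y3, y1, hyb,
          x3, ha3⟩
    · by_cases ha3 : R a b₃
      · exact hp ⟨y, hy, a, ha, x, hx, b₃, hb₃Y, b, hbY, b₁, hb₁Y, y3, ha3, hab, hyb, x1, x3, hxb,
          y1, ha1⟩
      · exact ha' (Finset.mem_filter.2 ⟨ha, ha1, ha3⟩)

/-- Bipartite `S_{1,2,2}`-free graphs have good orders. -/
theorem good_of_SK (h : SK R X Y) (h' : SK (rev R) Y X) : Good R false false 2 X Y := by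
  refine good_of_prime (fun X Y => SK R X Y ∧ SK (rev R) Y X)
    (fun X Y X' Y' hX hY h => ⟨h.1.mono hX hY, h.2.mono hY hX⟩) ?_ X Y ⟨h, h'⟩
  rintro X Y ⟨h, h'⟩ hD hT hT'
  have hD' : ¬ Dec (rev R) false false Y X := fun hh => hD hh.flip
  by_cases hA : ∃ a, InA R X Y a ∧ a ∈ X
  · exact good_of_P7 h h' hT hT' hD hA
  · by_cases hB : ∃ b, InA (rev R) Y X b ∧ b ∈ Y
    · exact (good_of_P7 h' h hT' hT hD' hB).flip
    · have hp : ¬ P24 R X Y := by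
        intro hp
        rcases hp.to_P7 h h' hD with h | h
        · exact hA h
        · exact hB h
      have hp' : ¬ P24 (rev R) Y X := fun hp'' => hp hp''.flip
      have g := good_of_lam (H := co R) (lam_of_not_P24 h h' hD hp)
        (lam_of_not_P24 (R := rev R) h' h hD' hp')
      exact g.of_compl.change

end Pool.Agent.LinCW
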