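import Pool.Agent.LinCW55.Unbounded
import Pool.Agent.LinCW55.SK

set_option autoImplicit false

/-!
# The bounded classes
-/

namespace Pool.Agent.LinCW

open SimpleGraph Classical

variable {V : Type} {G : SimpleGraph V} {X Y : Finset V}

/-- Building an occurrence of a pattern in a bipartite graph. -/
lemma occ_of_bip {n : ℕ} {E : List (ℕ × ℕ)} (hd : ∀ v, v ∈ X → v ∉ Y)
    (hX : ∀ u ∈ X, ∀ v ∈ X, ¬ G.Adj u v) (hY : ∀ u ∈ Y, ∀ v ∈ Y, ¬ G.Adj u v)
    (s : Fin n → Bool) (g : Fin n → V) (hsX : ∀ i, s i = true → g i ∈ X)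
    (hsY : ∀ i, s i = false → g i ∈ Y)
    (hE : ∀ i j : Fin n, padj E i j = true → s i ≠ s j)
    (hinj : ∀ i j, i < j → s i = s j → g i ≠ g j)
    (hadj : ∀ i j : Fin n, s i = true → s j = false → (G.Adj (g i) (g j) ↔ padj E i j = true)) :
    Occ n E G := by
  have hsymm : ∀ i j : Fin n, padj E i j = padj E j i := by
    intro i j
    simp [padj, Bool.or_comm]
  refine ⟨g, ?_, ?_⟩
  · intro i j hij
    by_contra hne
    by_cases hs : s i = s j
    · rcases lt_or_gt_of_ne hne with h | h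
      · exact hinj i j h hs hij
      · exact hinj j i h hs.symm hij.symm
    · cases hi : s i <;> cases hj : s j
      · exact hs (hi.trans hj.symm)
      · exact hd _ (hsX j hj) (hij ▸ hsY i hi)
      · exact hd _ (hsX i hi) (hij ▸ hsY j hj)
      · exact hs (hi.trans hj.symm)
  · intro i j
    cases hi : s i <;> cases hj : s j
    · refine iff_of_false (hY _ (hsY i hi) _ (hsY j hj)) fun h => hE i j h (hi.trans hj.symm)
    · rw [G.adj_comm, hadj j i hj hi, hsymm]
    · exact hadj i j hi hj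
    · refine iff_of_false (hX _ (hsX i hi) _ (hsX j hj)) fun h => hE i j h (hi.trans hj.symm)

lemma rev_adj : rev G.Adj = G.Adj := by
  funext a b
  exact propext (G.adj_comm b a)

/-- `K_{1,3} + 3 P_1`. -/
lemma extreme_of_free (hd : ∀ v, v ∈ X → v ∉ Y)
    (hX : ∀ u ∈ X, ∀ v ∈ X, ¬ G.Adj u v) (hY : ∀ u ∈ Y, ∀ v ∈ Y, ¬ G.Adj u v)
    (hfree : ¬ Occ 7 [(0, 1), (0, 2), (0, 3)] G) :
    ∀ a ∈ X, (nb G.Adj Y a).card ≤ 2 ∨ (nb (co G.Adj) Y a).card ≤ 2 := by
  intro a ha
  by_contra hcon
  push Not at hcon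
  obtain ⟨h1, h2⟩ := hcon
  obtain ⟨b₁, hb₁, b₂, hb₂, b₃, hb₃, hb12, hb13, hb23⟩ := Finset.two_lt_card.1 h1
  obtain ⟨c₁, hc₁, c₂, hc₂, c₃, hc₃, hc12, hc13, hc23⟩ := Finset.two_lt_card.1 h2
  rw [mem_nb] at hb₁ hb₂ hb₃ hc₁ hc₂ hc₃
  have hne : ∀ b c, G.Adj a b → ¬ G.Adj a c → b ≠ c := fun b c h h' e => h' (e ▸ h)
  apply hfree
  refine occ_of_bip hd hX hY ![true, false, false, false, false, false, false]
    ![a, b₁, b₂, b₃, c₁, c₂, c₃] ?_ ?_ (by decide) ?_ ?_
  · intro i hi
    fin_cases i <;> first | exact ha | exact absurd hi (by decide)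
  · intro i hi
    fin_cases i
    · exact absurd hi (by decide)
    · exact hb₁.1
    · exact hb₂.1
    · exact hb₃.1
    · exact hc₁.1
    · exact hc₂.1
    · exact hc₃.1
  · have e11 := hne _ _ hb₁.2 hc₁.2
    have e12 := hne _ _ hb₁.2 hc₂.2
    have e13 := hne _ _ hb₁.2 hc₃.2
    have e21 := hne _ _ hb₂.2 hc₁.2
    have e22 := hne _ _ hb₂.2 hc₂.2
    have e23 := hne _ _ hb₂.2 hc₃.2
    have e31 := hne _ _ hb₃.2 hc₁.2
    have e32 := hne _ _ hb₃.2 hc₂.2
    have e33 := hne _ _ hb₃.2 hc₃.2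
    intro i j hij hs
    fin_cases i <;> fin_cases j <;>
      first
      | exact absurd hij (by decide)
      | exact absurd hs (by decide)
      | assumption
  · intro i j hi hj
    fin_cases i <;> try exact absurd hi (by decide)
    fin_cases j
    · exact absurd hj (by decide)
    · exact iff_of_true hb₁.2 (by decide)
    · exact iff_of_true hb₂.2 (by decide)
    · exact iff_of_true hb₃.2 (by decide)
    · exact iff_of_false hc₁.2 (by decide)
    · exact iff_of_false hc₂.2 (by decide)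
    · exact iff_of_false hc₃.2 (by decide)

/-- `K_{1,3} + P_2`. -/
lemma near_of_free (hd : ∀ v, v ∈ X → v ∉ Y)
    (hX : ∀ u ∈ X, ∀ v ∈ X, ¬ G.Adj u v) (hY : ∀ u ∈ Y, ∀ v ∈ Y, ¬ G.Adj u v)
    (hfree : ¬ Occ 6 [(0, 1), (0, 2), (0, 3), (4, 5)] G) : Near G.Adj X Y := by
  intro a ha a' ha' hne
  by_contra hcon
  push Not at hcon
  obtain ⟨b₁, hb₁, b₂, hb₂, b₃, hb₃, hb12, hb13, hb23⟩ := Finset.two_lt_card.1 hcon
  obtain ⟨b, hb⟩ := hne
  simp only [Finset.mem_sdiff, mem_nb, not_and] at hb hb₁ hb₂ hb₃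
  obtain ⟨⟨b1Y, b1a⟩, b1a'⟩ := hb₁
  obtain ⟨⟨b2Y, b2a⟩, b2a'⟩ := hb₂
  obtain ⟨⟨b3Y, b3a⟩, b3a'⟩ := hb₃
  obtain ⟨⟨bY, ba'⟩, ba⟩ := hb
  replace b1a' := b1a' b1Y
  replace b2a' := b2a' b2Y
  replace b3a' := b3a' b3Y
  replace ba := ba bY
  have hne : ∀ x y, G.Adj a x → ¬ G.Adj a y → x ≠ y := fun b c h h' e => h' (e ▸ h)
  have haa : a ≠ a' := by
    rintro rfl
    exact ba ba'
  apply hfree
  refine occ_of_bip hd hX hY ![true, false, false, false, true, false]
    ![a, b₁, b₂, b₃, a', b] ?_ ?_ (by decide) ?_ ?_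
  · intro i hi
    fin_cases i <;> first | exact ha | exact ha' | exact absurd hi (by decide)
  · intro i hi
    fin_cases i <;> first | assumption | exact absurd hi (by decide)
  · have e1 := hne _ _ b1a ba
    have e2 := hne _ _ b2a ba
    have e3 := hne _ _ b3a ba
    intro i j hij hs
    fin_cases i <;> fin_cases j <;>
      first
      | exact absurd hij (by decide)
      | exact absurd hs (by decide)
      | assumption
  · intro i j hi hj
    fin_cases i <;> fin_cases j <;>
      first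
      | exact absurd hi (by decide)
      | exact absurd hj (by decide)
      | exact iff_of_true (by assumption) (by decide)
      | exact iff_of_false (by assumption) (by decide)

/-- `P_1 + S_{1,1,3}`, first condition. -/
lemma h1_of_free (hd : ∀ v, v ∈ X → v ∉ Y)
    (hX : ∀ u ∈ X, ∀ v ∈ X, ¬ G.Adj u v) (hY : ∀ u ∈ Y, ∀ v ∈ Y, ¬ G.Adj u v)
    (hfree : ¬ Occ 7 [(0, 1), (0, 2), (0, 3), (3, 4), (4, 5)] G) : H1 (co G.Adj) X Y := by
  intro a ha a' ha' hy hz hq
  by_contra hcon
  push Not at hcon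
  obtain ⟨b₁, hb₁, b₂, hb₂, hb12⟩ := Finset.one_lt_card.1 hcon
  obtain ⟨y, yY, ya, ya'⟩ := hy
  obtain ⟨z, hz⟩ := hz
  obtain ⟨q, hq⟩ := hq
  simp only [Finset.mem_sdiff, Finset.mem_inter, mem_nb, not_and, not_not] at *
  obtain ⟨⟨b1Y, b1a'⟩, b1a⟩ := hb₁
  obtain ⟨⟨b2Y, b2a'⟩, b2a⟩ := hb₂
  obtain ⟨⟨zY, za⟩, za'⟩ := hz
  obtain ⟨⟨qY, qa⟩, -, qa'⟩ := hq
  replace b1a := b1a b1Y
  replace b2a := b2a b2Y
  replace za' := za' zY
  have hne : ∀ x y, G.Adj a x → ¬ G.Adj a y → x ≠ y := fun b c h h' e => h' (e ▸ h)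
  have hne' : ∀ x y, G.Adj a' x → ¬ G.Adj a' y → x ≠ y := fun b c h h' e => h' (e ▸ h)
  have haa : a ≠ a' := by
    rintro rfl
    exact za za'
  apply hfree
  refine occ_of_bip hd hX hY ![true, false, false, false, true, false, false]
    ![a, b₁, b₂, y, a', z, q] ?_ ?_ (by decide) ?_ ?_
  · intro i hi
    fin_cases i <;> first | exact ha | exact ha' | exact absurd hi (by decide)
  · intro i hi
    fin_cases i <;> first | assumption | exact absurd hi (by decide)
  · have e1 := (hne' _ _ ya' b1a').symm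
    have e2 := (hne' _ _ ya' b2a').symm
    have e3 := hne _ _ b1a za
    have e4 := hne _ _ b2a za
    have e5 := hne _ _ ya za
    have e6 := hne _ _ b1a qa
    have e7 := hne _ _ b2a qa
    have e8 := hne _ _ ya qa
    have e9 := hne' _ _ za' qa'
    intro i j hij hs
    fin_cases i <;> fin_cases j <;>
      first
      | exact absurd hij (by decide)
      | exact absurd hs (by decide)
      | assumption
  · intro i j hi hj
    fin_cases i <;> fin_cases j <;>
      first
      | exact absurd hi (by decide)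
      | exact absurd hj (by decide)
      | exact iff_of_true (by assumption) (by decide)
      | exact iff_of_false (by assumption) (by decide)

/-- `P_1 + S_{1,1,3}`, second condition. -/
lemma h2_of_free (hd : ∀ v, v ∈ X → v ∉ Y)
    (hX : ∀ u ∈ X, ∀ v ∈ X, ¬ G.Adj u v) (hY : ∀ u ∈ Y, ∀ v ∈ Y, ¬ G.Adj u v)
    (hfree : ¬ Occ 7 [(0, 1), (0, 2), (0, 3), (3, 4), (4, 5)] G) : H2 (co G.Adj) X Y := by
  intro x hx y hy z hz p₁ hp₁ p₂ hp₂ r hr q hq
  intros
  simp only [not_not] at *
  apply hfree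
  have hne : ∀ v w, G.Adj x v → ¬ G.Adj x w → v ≠ w := fun b c h h' e => h' (e ▸ h)
  have hne' : ∀ v w, G.Adj y v → ¬ G.Adj y w → v ≠ w := fun b c h h' e => h' (e ▸ h)
  have hxy : x ≠ y := by
    rintro rfl
    contradiction
  have hxz : x ≠ z := by
    rintro rfl
    contradiction
  have hyz : y ≠ z := by
    rintro rfl
    contradiction
  refine occ_of_bip hd hX hY ![true, false, false, false, true, false, true]
    ![x, p₁, p₂, q, y, r, z] ?_ ?_ (by decide) ?_ ?_
  · intro i hi
    fin_cases i <;> first | assumption | exact absurd hi (by decide)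
  · intro i hi
    fin_cases i <;> first | assumption | exact absurd hi (by decide)
  · have e1 : p₁ ≠ q := (hne' _ _ (by assumption) (by assumption)).symm
    have e2 : p₂ ≠ q := (hne' _ _ (by assumption) (by assumption)).symm
    have e3 : p₁ ≠ r := hne _ _ (by assumption) (by assumption)
    have e4 : p₂ ≠ r := hne _ _ (by assumption) (by assumption)
    have e5 : q ≠ r := hne _ _ (by assumption) (by assumption)
    intro i j hij hs
    fin_cases i <;> fin_cases j <;>
      first
      | exact absurd hij (by decide)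
      | exact absurd hs (by decide)
      | assumption
  · intro i j hi hj
    fin_cases i <;> fin_cases j <;>
      first
      | exact absurd hi (by decide)
      | exact absurd hj (by decide)
      | exact iff_of_true (by assumption) (by decide)
      | exact iff_of_false (by assumption) (by decide)

/-- `S_{1,2,2}`. -/
lemma sk_of_free (hd : ∀ v, v ∈ X → v ∉ Y)
    (hX : ∀ u ∈ X, ∀ v ∈ X, ¬ G.Adj u v) (hY : ∀ u ∈ Y, ∀ v ∈ Y, ¬ G.Adj u v)
    (hfree : ¬ Occ 6 [(0, 1), (0, 2), (2, 3), (0, 4), (4, 5)] G) : SK G.Adj X Y := by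
  intro x hx y hy z hz b₀ hb₀ b₁ hb₁ b₂ hb₂
  intros
  apply hfree
  have hne : ∀ v w, G.Adj x v → ¬ G.Adj x w → v ≠ w := fun b c h h' e => h' (e ▸ h)
  have hne' : ∀ v w, G.Adj y v → ¬ G.Adj y w → v ≠ w := fun b c h h' e => h' (e ▸ h)
  have hne'' : ∀ v w, G.Adj z v → ¬ G.Adj z w → v ≠ w := fun b c h h' e => h' (e ▸ h)
  have hxy : x ≠ y := by
    rintro rfl
    contradiction
  have hxz : x ≠ z := by
    rintro rfl
    contradiction
  have hyz : y ≠ z := by
    rintro rfl
    contradiction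
  refine occ_of_bip hd hX hY ![true, false, false, true, false, true]
    ![x, b₀, b₁, y, b₂, z] ?_ ?_ (by decide) ?_ ?_
  · intro i hi
    fin_cases i <;> first | assumption | exact absurd hi (by decide)
  · intro i hi
    fin_cases i <;> first | assumption | exact absurd hi (by decide)
  · have e1 : b₀ ≠ b₁ := (hne' _ _ (by assumption) (by assumption)).symm
    have e2 : b₀ ≠ b₂ := (hne'' _ _ (by assumption) (by assumption)).symm
    have e3 : b₁ ≠ b₂ := hne' _ _ (by assumption) (by assumption)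
    intro i j hij hs
    fin_cases i <;> fin_cases j <;>
      first
      | exact absurd hij (by decide)
      | exact absurd hs (by decide)
      | assumption
  · intro i j hi hj
    fin_cases i <;> fin_cases j <;>
      first
      | exact absurd hi (by decide)
      | exact absurd hj (by decide)
      | exact iff_of_true (by assumption) (by decide)
      | exact iff_of_false (by assumption) (by decide)

end Pool.Agent.LinCW
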