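import Pool.Agent.LinCW55.Classify

set_option autoImplicit false

/-!
# Certificates for the one-vertex extensions
-/

namespace Pool.Agent.LinCW

def bads0 : List (ℕ × ℕ × ℕ × List ℕ) := [
  (3, 3, 0, [7, 0, 1]), (5, 5, 0, [7, 0, 2]), (9, 9, 0, [7, 0, 3]), (7, 6, 2, [7, 1, 0, 2]),
  (11, 10, 2, [7, 1, 0, 3]), (13, 12, 2, [7, 2, 0, 3]), (15, 1, 4, [0, 7, 1, 2, 3]),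
  (114, 114, 4, [7, 1, 4, 5, 6]), (116, 116, 4, [7, 2, 4, 5, 6]),
  (55, 48, 12, [4, 7, 5, 1, 0, 2]), (30, 30, 4, [7, 1, 2, 3, 4]),
  (115, 0, 8, [0, 1, 7, 4, 5, 6]), (115, 16, 9, [7, 4, 0, 1, 5, 6]),
  (115, 32, 9, [7, 5, 0, 1, 4, 6]), (115, 64, 9, [7, 6, 0, 1, 4, 5]),
  (113, 113, 4, [7, 0, 4, 5, 6]), (120, 120, 4, [7, 3, 4, 5, 6]),
  (91, 80, 12, [4, 7, 6, 1, 0, 3]), (109, 96, 12, [5, 7, 6, 2, 0, 3]),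
  (46, 46, 4, [7, 1, 2, 3, 5]), (62, 2, 8, [7, 1, 2, 3, 4, 5]), (124, 16, 8, [7, 4, 2, 3, 5, 6]),
  (124, 32, 8, [7, 5, 2, 3, 4, 6]), (78, 78, 4, [7, 1, 2, 3, 6]), (54, 54, 4, [7, 1, 2, 4, 5]),
  (86, 86, 4, [7, 1, 2, 4, 6]), (102, 102, 4, [7, 1, 2, 5, 6]), (58, 58, 4, [7, 1, 3, 4, 5]),
  (90, 90, 4, [7, 1, 3, 4, 6]), (106, 106, 4, [7, 1, 3, 5, 6]), (60, 60, 4, [7, 2, 3, 4, 5]),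
  (92, 92, 4, [7, 2, 3, 4, 6]), (108, 108, 4, [7, 2, 3, 5, 6]), (62, 4, 8, [7, 2, 1, 3, 4, 5]),
  (62, 8, 8, [7, 3, 1, 2, 4, 5]), (94, 64, 8, [7, 6, 1, 2, 3, 4]),
  (117, 0, 8, [0, 2, 7, 4, 5, 6]), (117, 64, 9, [7, 6, 0, 2, 4, 5]),
  (91, 2, 10, [7, 1, 0, 3, 4, 6]), (93, 4, 10, [7, 2, 0, 3, 4, 6]),
  (59, 48, 12, [4, 7, 5, 1, 0, 3]), (61, 48, 12, [4, 7, 5, 2, 0, 3]),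
  (87, 80, 12, [4, 7, 6, 1, 0, 2]), (93, 80, 12, [4, 7, 6, 2, 0, 3]),
  (103, 96, 12, [5, 7, 6, 1, 0, 2]), (107, 96, 12, [5, 7, 6, 1, 0, 3]),
  (110, 4, 8, [7, 2, 1, 3, 5, 6]), (94, 8, 8, [7, 3, 1, 2, 4, 6]),
  (110, 8, 8, [7, 3, 1, 2, 5, 6]), (62, 16, 8, [7, 4, 1, 2, 3, 5]),
  (94, 16, 8, [7, 4, 1, 2, 3, 6]), (122, 32, 8, [7, 5, 1, 3, 4, 6]),
  (117, 16, 9, [7, 4, 0, 2, 5, 6]), (121, 16, 9, [7, 4, 0, 3, 5, 6]),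
  (117, 32, 9, [7, 5, 0, 2, 4, 6]), (121, 64, 9, [7, 6, 0, 3, 4, 5]),
  (115, 17, 10, [4, 7, 0, 1, 5, 6]), (115, 65, 10, [6, 7, 0, 1, 4, 5]),
  (55, 49, 5, [7, 0, 4, 5, 1, 2]), (59, 49, 5, [7, 0, 4, 5, 1, 3]),
  (61, 49, 5, [7, 0, 4, 5, 2, 3]), (87, 81, 5, [7, 0, 4, 6, 1, 2]),
  (91, 81, 5, [7, 0, 4, 6, 1, 3]), (93, 81, 5, [7, 0, 4, 6, 2, 3]),
  (103, 97, 5, [7, 0, 5, 6, 1, 2]), (107, 97, 5, [7, 0, 5, 6, 1, 3]),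
  (109, 97, 5, [7, 0, 5, 6, 2, 3]), (110, 2, 8, [7, 1, 2, 3, 5, 6]),
  (118, 2, 8, [7, 1, 2, 4, 5, 6]), (122, 2, 8, [7, 1, 3, 4, 5, 6]),
  (118, 4, 8, [7, 2, 1, 4, 5, 6]), (62, 32, 8, [7, 5, 1, 2, 3, 4]),
  (110, 32, 8, [7, 5, 1, 2, 3, 6]), (118, 32, 8, [7, 5, 1, 2, 4, 6]),
  (110, 64, 8, [7, 6, 1, 2, 3, 5]), (124, 64, 8, [7, 6, 2, 3, 4, 5]),
  (94, 2, 8, [7, 1, 2, 3, 4, 6]), (94, 4, 8, [7, 2, 1, 3, 4, 6]),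
  (124, 4, 8, [7, 2, 3, 4, 5, 6]), (122, 8, 8, [7, 3, 1, 4, 5, 6]),
  (124, 8, 8, [7, 3, 2, 4, 5, 6]), (118, 16, 8, [7, 4, 1, 2, 5, 6]),
  (122, 16, 8, [7, 4, 1, 3, 5, 6]), (118, 64, 8, [7, 6, 1, 2, 4, 5]),
  (122, 64, 8, [7, 6, 1, 3, 4, 5]), (121, 0, 8, [0, 3, 7, 4, 5, 6]),
  (121, 32, 9, [7, 5, 0, 3, 4, 6]), (55, 2, 10, [7, 1, 0, 2, 4, 5]),
  (87, 2, 10, [7, 1, 0, 2, 4, 6]), (103, 2, 10, [7, 1, 0, 2, 5, 6]),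
  (59, 2, 10, [7, 1, 0, 3, 4, 5]), (107, 2, 10, [7, 1, 0, 3, 5, 6]),
  (55, 4, 10, [7, 2, 0, 1, 4, 5]), (87, 4, 10, [7, 2, 0, 1, 4, 6]),
  (103, 4, 10, [7, 2, 0, 1, 5, 6]), (61, 4, 10, [7, 2, 0, 3, 4, 5]),
  (109, 4, 10, [7, 2, 0, 3, 5, 6]), (59, 8, 10, [7, 3, 0, 1, 4, 5]),
  (91, 8, 10, [7, 3, 0, 1, 4, 6]), (107, 8, 10, [7, 3, 0, 1, 5, 6]),
  (61, 8, 10, [7, 3, 0, 2, 4, 5]), (93, 8, 10, [7, 3, 0, 2, 4, 6]),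
  (109, 8, 10, [7, 3, 0, 2, 5, 6]), (117, 17, 10, [4, 7, 0, 2, 5, 6]),
  (121, 17, 10, [4, 7, 0, 3, 5, 6]), (115, 18, 10, [4, 7, 1, 0, 5, 6]),
  (117, 20, 10, [4, 7, 2, 0, 5, 6]), (121, 24, 10, [4, 7, 3, 0, 5, 6]),
  (115, 33, 10, [5, 7, 0, 1, 4, 6]), (117, 33, 10, [5, 7, 0, 2, 4, 6]),
  (121, 33, 10, [5, 7, 0, 3, 4, 6]), (115, 34, 10, [5, 7, 1, 0, 4, 6]),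
  (117, 36, 10, [5, 7, 2, 0, 4, 6]), (121, 40, 10, [5, 7, 3, 0, 4, 6]),
  (117, 65, 10, [6, 7, 0, 2, 4, 5]), (121, 65, 10, [6, 7, 0, 3, 4, 5]),
  (115, 66, 10, [6, 7, 1, 0, 4, 5]), (117, 68, 10, [6, 7, 2, 0, 4, 5]),
  (121, 72, 10, [6, 7, 3, 0, 4, 5])]

def goods0 : List (ℕ × ℕ × ℕ × List ℕ) := [
  (31, 16, 1, [0, 1, 2, 3, 4, 0, 0, 5]), (47, 32, 1, [0, 1, 2, 3, 0, 4, 0, 5]),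
  (55, 17, 2, [0, 1, 2, 0, 4, 6, 0, 3]), (55, 33, 2, [0, 1, 2, 0, 6, 4, 0, 3]),
  (59, 17, 2, [0, 1, 0, 2, 4, 6, 0, 3]), (59, 33, 2, [0, 1, 0, 2, 6, 4, 0, 3]),
  (61, 17, 2, [0, 0, 1, 2, 4, 6, 0, 3]), (61, 33, 2, [0, 0, 1, 2, 6, 4, 0, 3]),
  (63, 0, 0, [0, 1, 2, 3, 4, 5, 0, 6]), (63, 18, 2, [0, 3, 1, 2, 5, 6, 0, 4]),
  (63, 20, 2, [0, 1, 3, 2, 5, 6, 0, 4]), (63, 24, 2, [0, 1, 2, 3, 5, 6, 0, 4]),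
  (63, 34, 2, [0, 3, 1, 2, 6, 5, 0, 4]), (63, 36, 2, [0, 1, 3, 2, 6, 5, 0, 4]),
  (63, 40, 2, [0, 1, 2, 3, 6, 5, 0, 4]), (79, 64, 1, [0, 1, 2, 3, 0, 0, 4, 5]),
  (87, 17, 2, [0, 1, 2, 0, 4, 0, 6, 3]), (87, 65, 2, [0, 1, 2, 0, 6, 0, 4, 3]),
  (91, 17, 2, [0, 1, 0, 2, 4, 0, 6, 3]), (91, 65, 2, [0, 1, 0, 2, 6, 0, 4, 3]),
  (93, 17, 2, [0, 0, 1, 2, 4, 0, 6, 3]), (93, 65, 2, [0, 0, 1, 2, 6, 0, 4, 3]),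
  (95, 0, 0, [0, 1, 2, 3, 4, 0, 5, 6]), (95, 18, 2, [0, 3, 1, 2, 5, 0, 6, 4]),
  (95, 20, 2, [0, 1, 3, 2, 5, 0, 6, 4]), (95, 24, 2, [0, 1, 2, 3, 5, 0, 6, 4]),
  (95, 66, 2, [0, 3, 1, 2, 6, 0, 5, 4]), (95, 68, 2, [0, 1, 3, 2, 6, 0, 5, 4]),
  (95, 72, 2, [0, 1, 2, 3, 6, 0, 5, 4]), (103, 33, 2, [0, 1, 2, 0, 0, 4, 6, 3]),
  (103, 65, 2, [0, 1, 2, 0, 0, 6, 4, 3]), (107, 33, 2, [0, 1, 0, 2, 0, 4, 6, 3]),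
  (107, 65, 2, [0, 1, 0, 2, 0, 6, 4, 3]), (109, 33, 2, [0, 0, 1, 2, 0, 4, 6, 3]),
  (109, 65, 2, [0, 0, 1, 2, 0, 6, 4, 3]), (111, 0, 0, [0, 1, 2, 3, 0, 4, 5, 6]),
  (111, 34, 2, [0, 3, 1, 2, 0, 5, 6, 4]), (111, 36, 2, [0, 1, 3, 2, 0, 5, 6, 4]),
  (111, 40, 2, [0, 1, 2, 3, 0, 5, 6, 4]), (111, 66, 2, [0, 3, 1, 2, 0, 6, 5, 4]),
  (111, 68, 2, [0, 1, 3, 2, 0, 6, 5, 4]), (111, 72, 2, [0, 1, 2, 3, 0, 6, 5, 4]),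
  (113, 16, 0, [4, 0, 0, 0, 0, 5, 6, 1]), (113, 17, 0, [1, 0, 0, 0, 2, 4, 5, 0]),
  (113, 32, 0, [4, 0, 0, 0, 5, 0, 6, 1]), (113, 33, 0, [1, 0, 0, 0, 4, 2, 5, 0]),
  (113, 64, 0, [4, 0, 0, 0, 5, 6, 0, 1]), (113, 65, 0, [1, 0, 0, 0, 4, 5, 2, 0]),
  (115, 2, 0, [1, 0, 0, 0, 4, 5, 6, 2]), (115, 49, 2, [3, 4, 0, 0, 1, 2, 6, 0]),
  (115, 81, 2, [3, 4, 0, 0, 1, 6, 2, 0]), (115, 97, 2, [3, 4, 0, 0, 6, 1, 2, 0]),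
  (115, 112, 1, [4, 5, 0, 0, 1, 2, 3, 0]), (117, 4, 0, [1, 0, 0, 0, 4, 5, 6, 2]),
  (117, 49, 2, [3, 0, 4, 0, 1, 2, 6, 0]), (117, 81, 2, [3, 0, 4, 0, 1, 6, 2, 0]),
  (117, 97, 2, [3, 0, 4, 0, 6, 1, 2, 0]), (117, 112, 1, [4, 0, 5, 0, 1, 2, 3, 0]),
  (119, 1, 0, [0, 1, 2, 0, 4, 5, 6, 3]), (119, 50, 2, [4, 3, 5, 0, 1, 2, 6, 0]),
  (119, 52, 2, [4, 5, 3, 0, 1, 2, 6, 0]), (119, 82, 2, [4, 3, 5, 0, 1, 6, 2, 0]),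
  (119, 84, 2, [4, 5, 3, 0, 1, 6, 2, 0]), (119, 98, 2, [4, 3, 5, 0, 6, 1, 2, 0]),
  (119, 100, 2, [4, 5, 3, 0, 6, 1, 2, 0]), (121, 8, 0, [1, 0, 0, 0, 4, 5, 6, 2]),
  (121, 49, 2, [3, 0, 0, 4, 1, 2, 6, 0]), (121, 81, 2, [3, 0, 0, 4, 1, 6, 2, 0]),
  (121, 97, 2, [3, 0, 0, 4, 6, 1, 2, 0]), (121, 112, 1, [4, 0, 0, 5, 1, 2, 3, 0]),
  (123, 1, 0, [0, 1, 0, 2, 4, 5, 6, 3]), (123, 50, 2, [4, 3, 0, 5, 1, 2, 6, 0]),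
  (123, 56, 2, [4, 5, 0, 3, 1, 2, 6, 0]), (123, 82, 2, [4, 3, 0, 5, 1, 6, 2, 0]),
  (123, 88, 2, [4, 5, 0, 3, 1, 6, 2, 0]), (123, 98, 2, [4, 3, 0, 5, 6, 1, 2, 0]),
  (123, 104, 2, [4, 5, 0, 3, 6, 1, 2, 0]), (125, 1, 0, [0, 0, 1, 2, 4, 5, 6, 3]),
  (125, 52, 2, [4, 0, 3, 5, 1, 2, 6, 0]), (125, 56, 2, [4, 0, 5, 3, 1, 2, 6, 0]),
  (125, 84, 2, [4, 0, 3, 5, 1, 6, 2, 0]), (125, 88, 2, [4, 0, 5, 3, 1, 6, 2, 0]),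
  (125, 100, 2, [4, 0, 3, 5, 6, 1, 2, 0]), (125, 104, 2, [4, 0, 5, 3, 6, 1, 2, 0]),
  (126, 0, 4, [0, 0, 1, 2, 3, 4, 5, 6]), (126, 14, 0, [0, 1, 2, 3, 4, 5, 6, 0]),
  (126, 22, 0, [0, 1, 2, 4, 3, 5, 6, 0]), (126, 26, 0, [0, 1, 4, 2, 3, 5, 6, 0]),
  (126, 28, 0, [0, 4, 1, 2, 3, 5, 6, 0]), (126, 38, 0, [0, 1, 2, 4, 5, 3, 6, 0]),
  (126, 42, 0, [0, 1, 4, 2, 5, 3, 6, 0]), (126, 44, 0, [0, 4, 1, 2, 5, 3, 6, 0]),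
  (126, 50, 0, [0, 1, 4, 5, 2, 3, 6, 0]), (126, 52, 0, [0, 4, 1, 5, 2, 3, 6, 0]),
  (126, 56, 0, [0, 4, 5, 1, 2, 3, 6, 0]), (126, 70, 0, [0, 1, 2, 4, 5, 6, 3, 0]),
  (126, 74, 0, [0, 1, 4, 2, 5, 6, 3, 0]), (126, 76, 0, [0, 4, 1, 2, 5, 6, 3, 0]),
  (126, 82, 0, [0, 1, 4, 5, 2, 6, 3, 0]), (126, 84, 0, [0, 4, 1, 5, 2, 6, 3, 0]),
  (126, 88, 0, [0, 4, 5, 1, 2, 6, 3, 0]), (126, 98, 0, [0, 1, 4, 5, 6, 2, 3, 0]),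
  (126, 100, 0, [0, 4, 1, 5, 6, 2, 3, 0]), (126, 104, 0, [0, 4, 5, 1, 6, 2, 3, 0]),
  (126, 112, 0, [0, 4, 5, 6, 1, 2, 3, 0])]

lemma check0 : check 7 [(0, 1), (0, 2), (0, 3)] bads0 goods0 = true := by decide +kernel

def bads1 : List (ℕ × ℕ × ℕ × List ℕ) := [
  (3, 3, 0, [6, 0, 1]), (48, 48, 0, [6, 4, 5]), (5, 5, 0, [6, 0, 2]), (9, 9, 0, [6, 0, 3]),
  (7, 6, 2, [6, 1, 0, 2]), (11, 10, 2, [6, 1, 0, 3]), (13, 12, 2, [6, 2, 0, 3]),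
  (15, 1, 4, [0, 6, 1, 2, 3]), (55, 16, 12, [6, 4, 5, 1, 0, 2]),
  (55, 32, 12, [6, 5, 4, 1, 0, 2]), (30, 30, 4, [6, 1, 2, 3, 4]), (46, 46, 4, [6, 1, 2, 3, 5]),
  (55, 34, 6, [4, 5, 6, 1, 0, 2]), (55, 36, 6, [4, 5, 6, 2, 0, 1]),
  (55, 18, 6, [5, 4, 6, 1, 0, 2]), (55, 20, 6, [5, 4, 6, 2, 0, 1]),
  (62, 0, 8, [4, 5, 6, 1, 2, 3]), (62, 2, 9, [6, 1, 4, 5, 2, 3]), (62, 4, 9, [6, 2, 4, 5, 1, 3]),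
  (62, 8, 9, [6, 3, 4, 5, 1, 2]), (59, 34, 6, [4, 5, 6, 1, 0, 3]),
  (61, 36, 6, [4, 5, 6, 2, 0, 3]), (59, 40, 6, [4, 5, 6, 3, 0, 1]),
  (61, 40, 6, [4, 5, 6, 3, 0, 2]), (59, 18, 6, [5, 4, 6, 1, 0, 3]),
  (61, 20, 6, [5, 4, 6, 2, 0, 3]), (59, 24, 6, [5, 4, 6, 3, 0, 1]),
  (61, 24, 6, [5, 4, 6, 3, 0, 2]), (62, 18, 10, [1, 6, 4, 5, 2, 3]),
  (62, 34, 10, [1, 6, 5, 4, 2, 3]), (62, 20, 10, [2, 6, 4, 5, 1, 3]),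
  (62, 36, 10, [2, 6, 5, 4, 1, 3]), (62, 24, 10, [3, 6, 4, 5, 1, 2]),
  (62, 40, 10, [3, 6, 5, 4, 1, 2]), (55, 2, 11, [4, 5, 6, 1, 0, 2]),
  (59, 2, 11, [4, 5, 6, 1, 0, 3]), (55, 4, 11, [4, 5, 6, 2, 0, 1]),
  (61, 4, 11, [4, 5, 6, 2, 0, 3]), (59, 8, 11, [4, 5, 6, 3, 0, 1]),
  (61, 8, 11, [4, 5, 6, 3, 0, 2]), (59, 16, 12, [6, 4, 5, 1, 0, 3]),
  (61, 16, 12, [6, 4, 5, 2, 0, 3]), (59, 32, 12, [6, 5, 4, 1, 0, 3]),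
  (61, 32, 12, [6, 5, 4, 2, 0, 3])]

def goods1 : List (ℕ × ℕ × ℕ × List ℕ) := [
  (31, 0, 0, [0, 1, 2, 3, 4, 0, 5]), (31, 2, 2, [0, 3, 1, 2, 6, 0, 4]),
  (31, 4, 2, [0, 1, 3, 2, 6, 0, 4]), (31, 8, 2, [0, 1, 2, 3, 6, 0, 4]),
  (31, 16, 1, [0, 1, 2, 3, 4, 0, 5]), (31, 18, 2, [0, 3, 1, 2, 5, 0, 4]),
  (31, 20, 2, [0, 1, 3, 2, 5, 0, 4]), (31, 24, 2, [0, 1, 2, 3, 5, 0, 4]),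
  (47, 0, 0, [0, 1, 2, 3, 0, 4, 5]), (47, 2, 2, [0, 3, 1, 2, 0, 6, 4]),
  (47, 4, 2, [0, 1, 3, 2, 0, 6, 4]), (47, 8, 2, [0, 1, 2, 3, 0, 6, 4]),
  (47, 32, 1, [0, 1, 2, 3, 0, 4, 5]), (47, 34, 2, [0, 3, 1, 2, 0, 5, 4]),
  (47, 36, 2, [0, 1, 3, 2, 0, 5, 4]), (47, 40, 2, [0, 1, 2, 3, 0, 5, 4]),
  (51, 2, 1, [1, 0, 0, 0, 4, 5, 2]), (51, 16, 1, [4, 5, 0, 0, 0, 1, 2]),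
  (51, 18, 2, [1, 0, 0, 0, 4, 5, 3]), (51, 32, 1, [4, 5, 0, 0, 1, 0, 2]),
  (51, 34, 2, [1, 0, 0, 0, 5, 4, 3]), (53, 4, 1, [1, 0, 0, 0, 4, 5, 2]),
  (53, 16, 1, [4, 0, 5, 0, 0, 1, 2]), (53, 20, 2, [1, 0, 0, 0, 4, 5, 3]),
  (53, 32, 1, [4, 0, 5, 0, 1, 0, 2]), (53, 36, 2, [1, 0, 0, 0, 5, 4, 3]),
  (55, 0, 2, [0, 1, 2, 0, 4, 5, 6]), (55, 1, 1, [0, 1, 2, 0, 4, 5, 3]),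
  (55, 17, 2, [0, 1, 2, 0, 4, 5, 3]), (55, 33, 2, [0, 1, 2, 0, 5, 4, 3]),
  (57, 8, 1, [1, 0, 0, 0, 4, 5, 2]), (57, 16, 1, [4, 0, 0, 5, 0, 1, 2]),
  (57, 24, 2, [1, 0, 0, 0, 4, 5, 3]), (57, 32, 1, [4, 0, 0, 5, 1, 0, 2]),
  (57, 40, 2, [1, 0, 0, 0, 5, 4, 3]), (59, 0, 2, [0, 1, 0, 2, 4, 5, 6]),
  (59, 1, 1, [0, 1, 0, 2, 4, 5, 3]), (59, 17, 2, [0, 1, 0, 2, 4, 5, 3]),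
  (59, 33, 2, [0, 1, 0, 2, 5, 4, 3]), (61, 0, 2, [0, 0, 1, 2, 4, 5, 6]),
  (61, 1, 1, [0, 0, 1, 2, 4, 5, 3]), (61, 17, 2, [0, 0, 1, 2, 4, 5, 3]),
  (61, 33, 2, [0, 0, 1, 2, 5, 4, 3]), (62, 6, 2, [0, 1, 2, 6, 4, 5, 0]),
  (62, 10, 2, [0, 1, 6, 2, 4, 5, 0]), (62, 12, 2, [0, 6, 1, 2, 4, 5, 0]),
  (62, 14, 1, [0, 1, 2, 3, 4, 5, 0]), (62, 16, 0, [0, 4, 5, 6, 0, 1, 2]),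
  (62, 22, 2, [0, 1, 2, 6, 3, 4, 0]), (62, 26, 2, [0, 1, 6, 2, 3, 4, 0]),
  (62, 28, 2, [0, 6, 1, 2, 3, 4, 0]), (62, 32, 0, [0, 4, 5, 6, 1, 0, 2]),
  (62, 38, 2, [0, 1, 2, 6, 4, 3, 0]), (62, 42, 2, [0, 1, 6, 2, 4, 3, 0]),
  (62, 44, 2, [0, 6, 1, 2, 4, 3, 0])]

lemma check1 : check 6 [(0, 1), (0, 2), (0, 3), (4, 5)] bads1 goods1 = true := by decide +kernel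

def bads2 : List (ℕ × ℕ × ℕ × List ℕ) := [
  (3, 3, 0, [7, 0, 1]), (24, 24, 0, [7, 3, 4]), (5, 5, 0, [7, 0, 2]), (48, 48, 0, [7, 4, 5]),
  (9, 9, 0, [7, 0, 3]), (7, 6, 2, [7, 1, 0, 2]), (56, 40, 2, [7, 3, 4, 5]),
  (11, 10, 2, [7, 1, 0, 3]), (13, 12, 2, [7, 2, 0, 3]), (25, 17, 2, [7, 0, 3, 4]),
  (15, 1, 4, [0, 7, 1, 2, 3]), (27, 18, 1, [7, 1, 0, 3, 4]), (29, 20, 1, [7, 2, 0, 3, 4]),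
  (57, 33, 1, [7, 0, 3, 4, 5]), (59, 32, 6, [7, 5, 4, 3, 0, 1]),
  (115, 64, 7, [7, 6, 0, 1, 4, 5]), (115, 0, 9, [0, 1, 4, 5, 7, 6]),
  (93, 0, 10, [2, 0, 3, 4, 7, 6]), (93, 64, 11, [7, 6, 2, 0, 3, 4]),
  (55, 16, 12, [7, 4, 5, 1, 0, 2]), (78, 78, 4, [7, 1, 2, 3, 6]),
  (59, 34, 3, [7, 1, 0, 3, 4, 5]), (86, 86, 4, [7, 1, 2, 4, 6]), (102, 102, 4, [7, 1, 2, 5, 6]),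
  (31, 8, 5, [3, 0, 7, 4, 1, 2]), (59, 2, 6, [7, 1, 0, 3, 4, 5]), (61, 4, 6, [7, 2, 0, 3, 4, 5]),
  (110, 2, 8, [7, 1, 2, 3, 5, 6]), (110, 4, 8, [7, 2, 1, 3, 5, 6]),
  (110, 64, 8, [7, 6, 1, 2, 3, 5]), (118, 0, 8, [4, 5, 7, 1, 2, 6]),
  (118, 96, 10, [6, 7, 5, 4, 1, 2]), (61, 36, 3, [7, 2, 0, 3, 4, 5]),
  (121, 65, 6, [6, 7, 0, 3, 4, 5]), (91, 80, 6, [6, 7, 4, 3, 0, 1]),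
  (55, 34, 6, [4, 5, 7, 1, 0, 2]), (55, 36, 6, [4, 5, 7, 2, 0, 1]),
  (55, 18, 6, [5, 4, 7, 1, 0, 2]), (55, 20, 6, [5, 4, 7, 2, 0, 1]),
  (117, 64, 7, [7, 6, 0, 2, 4, 5]), (110, 32, 8, [7, 5, 1, 2, 3, 6]),
  (118, 2, 9, [7, 1, 4, 5, 2, 6]), (94, 4, 9, [7, 2, 3, 4, 1, 6]),
  (118, 64, 9, [7, 6, 4, 5, 1, 2]), (109, 8, 10, [7, 3, 0, 2, 5, 6]),
  (62, 6, 12, [1, 7, 2, 3, 4, 5]), (103, 96, 12, [5, 7, 6, 1, 0, 2]),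
  (46, 46, 4, [7, 1, 2, 3, 5]), (106, 106, 4, [7, 1, 3, 5, 6]), (108, 108, 4, [7, 2, 3, 5, 6]),
  (87, 81, 5, [7, 0, 4, 6, 1, 2]), (62, 22, 5, [7, 4, 1, 2, 3, 5]),
  (122, 82, 5, [7, 4, 1, 6, 3, 5]), (124, 84, 5, [7, 4, 2, 6, 3, 5]),
  (93, 68, 6, [6, 7, 2, 0, 3, 4]), (93, 80, 6, [6, 7, 4, 3, 0, 2]),
  (94, 2, 9, [7, 1, 3, 4, 2, 6]), (118, 4, 9, [7, 2, 4, 5, 1, 6]),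
  (55, 32, 12, [7, 5, 4, 1, 0, 2]), (122, 66, 12, [1, 7, 6, 3, 4, 5]),
  (124, 68, 12, [2, 7, 6, 3, 4, 5]), (107, 96, 12, [5, 7, 6, 1, 0, 3]),
  (109, 96, 12, [5, 7, 6, 2, 0, 3]), (103, 97, 5, [7, 0, 5, 6, 1, 2]),
  (107, 97, 5, [7, 0, 5, 6, 1, 3]), (109, 97, 5, [7, 0, 5, 6, 2, 3]),
  (61, 32, 6, [7, 5, 4, 3, 0, 2]), (91, 66, 6, [6, 7, 1, 0, 3, 4]),
  (121, 96, 6, [6, 7, 5, 4, 3, 0]), (110, 8, 8, [7, 3, 1, 2, 5, 6]),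
  (94, 0, 8, [3, 4, 7, 1, 2, 6]), (94, 64, 9, [7, 6, 3, 4, 1, 2]),
  (117, 0, 9, [0, 2, 4, 5, 7, 6]), (87, 2, 10, [7, 1, 0, 2, 4, 6]),
  (103, 2, 10, [7, 1, 0, 2, 5, 6]), (107, 2, 10, [7, 1, 0, 3, 5, 6]),
  (87, 4, 10, [7, 2, 0, 1, 4, 6]), (103, 4, 10, [7, 2, 0, 1, 5, 6]),
  (109, 4, 10, [7, 2, 0, 3, 5, 6]), (107, 8, 10, [7, 3, 0, 1, 5, 6]),
  (62, 8, 10, [7, 3, 4, 5, 1, 2]), (122, 8, 10, [7, 3, 4, 5, 1, 6]),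
  (124, 8, 10, [7, 3, 4, 5, 2, 6]), (62, 32, 10, [7, 5, 4, 3, 1, 2]),
  (122, 32, 10, [7, 5, 4, 3, 1, 6]), (124, 32, 10, [7, 5, 4, 3, 2, 6]),
  (94, 10, 10, [1, 7, 3, 4, 2, 6]), (94, 18, 10, [1, 7, 4, 3, 2, 6]),
  (118, 18, 10, [1, 7, 4, 5, 2, 6]), (118, 34, 10, [1, 7, 5, 4, 2, 6]),
  (94, 12, 10, [2, 7, 3, 4, 1, 6]), (94, 20, 10, [2, 7, 4, 3, 1, 6]),
  (118, 20, 10, [2, 7, 4, 5, 1, 6]), (118, 36, 10, [2, 7, 5, 4, 1, 6]),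
  (94, 72, 10, [6, 7, 3, 4, 1, 2]), (94, 80, 10, [6, 7, 4, 3, 1, 2]),
  (118, 80, 10, [6, 7, 4, 5, 1, 2]), (121, 0, 10, [0, 3, 4, 5, 7, 6]),
  (91, 0, 10, [1, 0, 3, 4, 7, 6]), (121, 64, 11, [7, 6, 0, 3, 4, 5]),
  (91, 64, 11, [7, 6, 1, 0, 3, 4]), (55, 2, 11, [4, 5, 7, 1, 0, 2]),
  (55, 4, 11, [4, 5, 7, 2, 0, 1]), (115, 80, 11, [0, 1, 6, 7, 4, 5]),
  (115, 96, 11, [0, 1, 6, 7, 5, 4]), (117, 80, 11, [0, 2, 6, 7, 4, 5]),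
  (117, 96, 11, [0, 2, 6, 7, 5, 4]), (115, 65, 11, [4, 5, 6, 7, 0, 1]),
  (117, 65, 11, [4, 5, 6, 7, 0, 2]), (115, 66, 11, [4, 5, 6, 7, 1, 0]),
  (117, 68, 11, [4, 5, 6, 7, 2, 0]), (87, 80, 12, [4, 7, 6, 1, 0, 2])]

def goods2 : List (ℕ × ℕ × ℕ × List ℕ) := [
  (31, 2, 3, [0, 2, 1, 4, 5, 0, 0, 3]), (31, 4, 3, [0, 1, 2, 4, 5, 0, 0, 3]),
  (47, 32, 1, [0, 1, 2, 3, 0, 4, 0, 5]), (55, 1, 1, [0, 1, 2, 0, 4, 5, 0, 3]),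
  (59, 8, 3, [2, 3, 0, 0, 4, 5, 0, 1]), (61, 8, 3, [2, 0, 3, 0, 4, 5, 0, 1]),
  (62, 2, 2, [0, 4, 6, 1, 0, 2, 0, 5]), (62, 4, 2, [0, 6, 4, 1, 0, 2, 0, 5]),
  (62, 18, 2, [0, 4, 6, 1, 0, 2, 0, 3]), (62, 20, 2, [0, 6, 4, 1, 0, 2, 0, 3]),
  (63, 0, 2, [0, 1, 2, 3, 4, 5, 0, 6]), (79, 64, 1, [0, 1, 2, 3, 0, 0, 4, 5]),
  (86, 2, 0, [0, 0, 4, 0, 5, 0, 6, 1]), (86, 4, 0, [0, 4, 0, 0, 5, 0, 6, 1]),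
  (86, 80, 0, [0, 4, 5, 0, 1, 0, 2, 0]), (87, 0, 0, [0, 1, 2, 0, 4, 0, 5, 6]),
  (87, 18, 2, [0, 3, 1, 0, 5, 0, 6, 4]), (87, 20, 2, [0, 1, 3, 0, 5, 0, 6, 4]),
  (87, 64, 2, [0, 1, 2, 0, 6, 0, 4, 5]), (87, 65, 2, [0, 1, 2, 0, 6, 0, 4, 3]),
  (87, 66, 2, [0, 3, 1, 0, 6, 0, 5, 4]), (87, 68, 2, [0, 1, 3, 0, 6, 0, 5, 4]),
  (87, 82, 2, [4, 3, 5, 0, 1, 0, 2, 0]), (87, 84, 2, [4, 5, 3, 0, 1, 0, 2, 0]),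
  (89, 64, 1, [1, 0, 0, 0, 2, 0, 4, 5]), (91, 2, 2, [3, 0, 0, 4, 5, 0, 6, 1]),
  (91, 8, 2, [3, 4, 0, 0, 1, 0, 6, 2]), (91, 65, 3, [0, 1, 0, 2, 3, 0, 5, 4]),
  (91, 72, 3, [2, 3, 0, 0, 1, 0, 5, 4]), (93, 4, 2, [3, 0, 0, 4, 5, 0, 6, 1]),
  (93, 8, 2, [3, 0, 4, 0, 1, 0, 6, 2]), (93, 65, 3, [0, 0, 1, 2, 3, 0, 5, 4]),
  (93, 72, 3, [2, 0, 3, 0, 1, 0, 5, 4]), (94, 8, 0, [0, 4, 5, 0, 1, 0, 6, 2]),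
  (94, 22, 2, [0, 1, 2, 4, 3, 0, 6, 0]), (94, 70, 1, [0, 1, 2, 4, 5, 0, 3, 0]),
  (94, 82, 2, [0, 1, 6, 4, 3, 0, 2, 0]), (94, 84, 2, [0, 6, 1, 4, 3, 0, 2, 0]),
  (95, 16, 2, [0, 1, 2, 3, 4, 0, 6, 5]), (103, 65, 2, [0, 1, 2, 0, 0, 6, 4, 3]),
  (103, 98, 2, [4, 3, 5, 0, 0, 1, 2, 0]), (103, 100, 2, [4, 5, 3, 0, 0, 1, 2, 0]),
  (105, 97, 2, [3, 0, 0, 4, 0, 1, 2, 0]), (107, 33, 2, [0, 1, 0, 2, 0, 4, 6, 3]),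
  (107, 65, 2, [0, 1, 0, 2, 0, 6, 4, 3]), (107, 98, 2, [4, 3, 0, 5, 0, 1, 2, 0]),
  (107, 104, 2, [4, 5, 0, 3, 0, 1, 2, 0]), (109, 33, 2, [0, 0, 1, 2, 0, 4, 6, 3]),
  (109, 65, 2, [0, 0, 1, 2, 0, 6, 4, 3]), (109, 100, 2, [4, 0, 3, 5, 0, 1, 2, 0]),
  (109, 104, 2, [4, 0, 5, 3, 0, 1, 2, 0]), (110, 6, 0, [0, 1, 2, 4, 0, 5, 6, 0]),
  (110, 10, 0, [0, 1, 4, 2, 0, 5, 6, 0]), (110, 12, 0, [0, 4, 1, 2, 0, 5, 6, 0]),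
  (110, 42, 0, [0, 1, 4, 2, 0, 3, 5, 0]), (110, 44, 0, [0, 4, 1, 2, 0, 3, 5, 0]),
  (110, 70, 0, [0, 1, 2, 4, 0, 5, 3, 0]), (110, 96, 0, [0, 4, 5, 6, 0, 1, 2, 0]),
  (110, 104, 0, [0, 4, 5, 1, 0, 2, 3, 0]), (111, 0, 0, [0, 1, 2, 3, 0, 4, 5, 6]),
  (111, 34, 2, [0, 3, 1, 2, 0, 5, 6, 4]), (111, 36, 2, [0, 1, 3, 2, 0, 5, 6, 4]),
  (111, 40, 2, [0, 1, 2, 3, 0, 5, 6, 4]), (111, 66, 2, [0, 3, 1, 2, 0, 6, 5, 4]),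
  (111, 68, 2, [0, 1, 3, 2, 0, 6, 5, 4]), (111, 72, 2, [0, 1, 2, 3, 0, 6, 5, 4]),
  (113, 65, 1, [1, 0, 0, 0, 4, 5, 2, 0]), (115, 2, 2, [1, 0, 0, 0, 4, 5, 6, 2]),
  (115, 18, 2, [1, 0, 0, 0, 4, 5, 6, 3]), (115, 32, 2, [4, 5, 0, 0, 1, 0, 6, 2]),
  (115, 34, 2, [1, 0, 0, 0, 5, 4, 6, 3]), (115, 81, 3, [2, 3, 0, 0, 4, 5, 1, 0]),
  (115, 82, 3, [3, 2, 0, 0, 4, 5, 1, 0]), (115, 97, 3, [2, 3, 0, 0, 5, 4, 1, 0]),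
  (115, 98, 3, [3, 2, 0, 0, 5, 4, 1, 0]), (117, 4, 2, [1, 0, 0, 0, 4, 5, 6, 2]),
  (117, 20, 2, [1, 0, 0, 0, 4, 5, 6, 3]), (117, 32, 2, [4, 0, 5, 0, 1, 0, 6, 2]),
  (117, 36, 2, [1, 0, 0, 0, 5, 4, 6, 3]), (117, 81, 3, [2, 0, 3, 0, 4, 5, 1, 0]),
  (117, 84, 3, [3, 0, 2, 0, 4, 5, 1, 0]), (117, 97, 3, [2, 0, 3, 0, 5, 4, 1, 0]),
  (117, 100, 3, [3, 0, 2, 0, 5, 4, 1, 0]), (118, 22, 2, [0, 1, 2, 0, 3, 4, 6, 0]),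
  (118, 70, 1, [0, 1, 2, 0, 4, 5, 3, 0]), (118, 82, 2, [0, 1, 6, 0, 3, 4, 2, 0]),
  (118, 84, 2, [0, 6, 1, 0, 3, 4, 2, 0]), (119, 17, 2, [0, 1, 2, 0, 4, 5, 6, 3]),
  (119, 33, 2, [0, 1, 2, 0, 5, 4, 6, 3]), (121, 8, 2, [1, 0, 0, 0, 3, 4, 6, 2]),
  (121, 32, 2, [1, 0, 0, 0, 3, 4, 6, 5]), (121, 72, 3, [1, 0, 0, 0, 2, 3, 5, 4]),
  (121, 80, 3, [3, 0, 0, 2, 0, 1, 5, 4]), (122, 2, 2, [0, 4, 0, 1, 0, 2, 6, 5]),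
  (122, 18, 2, [0, 4, 0, 1, 0, 2, 6, 3]), (122, 64, 2, [0, 6, 0, 1, 0, 2, 4, 5]),
  (122, 80, 2, [0, 6, 0, 1, 0, 2, 4, 3]), (123, 1, 2, [0, 1, 0, 3, 4, 5, 6, 2]),
  (123, 16, 2, [4, 5, 0, 3, 0, 1, 6, 2]), (124, 4, 2, [0, 0, 4, 1, 0, 2, 6, 5]),
  (124, 20, 2, [0, 0, 4, 1, 0, 2, 6, 3]), (124, 64, 2, [0, 0, 6, 1, 0, 2, 4, 5]),
  (124, 80, 2, [0, 0, 6, 1, 0, 2, 4, 3]), (125, 1, 2, [0, 0, 1, 3, 4, 5, 6, 2]),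
  (125, 16, 2, [4, 0, 5, 3, 0, 1, 6, 2]), (126, 14, 2, [0, 1, 2, 3, 4, 5, 6, 0]),
  (126, 16, 0, [0, 4, 5, 1, 0, 2, 6, 3]), (126, 38, 2, [0, 1, 2, 5, 4, 3, 6, 0]),
  (126, 74, 2, [0, 1, 6, 3, 4, 5, 2, 0]), (126, 76, 2, [0, 6, 1, 3, 4, 5, 2, 0]),
  (126, 98, 2, [0, 1, 6, 5, 4, 3, 2, 0]), (126, 100, 2, [0, 6, 1, 5, 4, 3, 2, 0])]

lemma check2 : check 7 [(0, 1), (0, 2), (0, 3), (3, 4), (4, 5)] bads2 goods2 = true := by decide +kernel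

def bads3 : List (ℕ × ℕ × ℕ × List ℕ) := [
  (3, 3, 0, [6, 0, 1]), (12, 12, 0, [6, 2, 3]), (48, 48, 0, [6, 4, 5]), (5, 5, 0, [6, 0, 2]),
  (17, 17, 0, [6, 0, 4]), (7, 6, 2, [6, 1, 0, 2]), (13, 9, 2, [6, 0, 2, 3]),
  (19, 18, 2, [6, 1, 0, 4]), (49, 33, 2, [6, 0, 4, 5]), (21, 20, 2, [6, 2, 0, 4]),
  (15, 10, 1, [6, 1, 0, 2, 3]), (51, 34, 1, [6, 1, 0, 4, 5]), (53, 36, 1, [6, 2, 0, 4, 5]),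
  (29, 24, 1, [6, 3, 2, 0, 4]), (23, 1, 4, [0, 6, 1, 2, 4]), (47, 0, 10, [1, 0, 2, 3, 6, 5]),
  (61, 40, 3, [6, 3, 2, 0, 4, 5]), (31, 4, 5, [2, 0, 6, 3, 1, 4]),
  (61, 8, 6, [6, 3, 2, 0, 4, 5]), (61, 32, 6, [6, 5, 4, 0, 2, 3]),
  (62, 2, 7, [6, 1, 2, 3, 4, 5]), (55, 16, 5, [4, 0, 6, 5, 1, 2]),
  (59, 10, 6, [3, 6, 1, 0, 4, 5]), (59, 40, 6, [3, 6, 5, 4, 0, 1]),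
  (47, 34, 6, [5, 6, 1, 0, 2, 3]), (47, 40, 6, [5, 6, 3, 2, 0, 1]),
  (62, 0, 9, [2, 3, 4, 5, 6, 1]), (59, 0, 10, [1, 0, 4, 5, 6, 3]),
  (59, 8, 11, [6, 3, 1, 0, 4, 5]), (47, 32, 11, [6, 5, 1, 0, 2, 3]),
  (62, 18, 11, [2, 3, 1, 6, 4, 5]), (62, 34, 11, [2, 3, 1, 6, 5, 4]),
  (62, 6, 11, [4, 5, 1, 6, 2, 3]), (62, 10, 11, [4, 5, 1, 6, 3, 2])]

def goods3 : List (ℕ × ℕ × ℕ × List ℕ) := [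
  (27, 10, 2, [0, 3, 0, 5, 1, 0, 4]), (30, 18, 1, [0, 1, 4, 5, 2, 0, 0]),
  (31, 0, 2, [0, 1, 3, 4, 2, 0, 6]), (31, 2, 3, [0, 2, 4, 5, 1, 0, 3]),
  (31, 8, 2, [0, 1, 3, 4, 2, 0, 5]), (31, 16, 3, [0, 1, 2, 3, 4, 0, 5]),
  (39, 34, 2, [0, 3, 1, 0, 0, 5, 4]), (43, 10, 2, [0, 3, 0, 5, 0, 6, 4]),
  (43, 34, 2, [0, 3, 0, 6, 0, 5, 4]), (43, 40, 1, [4, 5, 0, 1, 0, 2, 0]),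
  (43, 41, 2, [3, 4, 0, 1, 0, 2, 0]), (43, 42, 2, [4, 3, 0, 1, 0, 2, 0]),
  (45, 32, 1, [1, 0, 0, 2, 0, 4, 5]), (45, 40, 2, [1, 0, 0, 3, 0, 5, 4]),
  (46, 34, 1, [0, 1, 4, 5, 0, 2, 0]), (47, 1, 2, [0, 1, 3, 4, 0, 6, 2]),
  (47, 2, 2, [3, 0, 4, 5, 0, 6, 1]), (47, 4, 2, [3, 4, 0, 1, 0, 6, 2]),
  (47, 8, 2, [0, 1, 3, 4, 0, 6, 5]), (47, 33, 3, [0, 1, 2, 3, 0, 5, 4]),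
  (47, 36, 3, [2, 3, 0, 1, 0, 5, 4]), (54, 6, 1, [0, 1, 2, 0, 4, 5, 0]),
  (55, 0, 2, [0, 1, 2, 0, 3, 4, 6]), (55, 2, 3, [0, 2, 1, 0, 4, 5, 3]),
  (55, 4, 3, [0, 1, 2, 0, 4, 5, 3]), (55, 32, 2, [0, 1, 2, 0, 3, 4, 5]),
  (57, 8, 1, [1, 0, 0, 4, 0, 2, 5]), (57, 40, 2, [1, 0, 0, 5, 0, 3, 4]),
  (58, 10, 1, [0, 1, 0, 2, 4, 5, 0]), (59, 1, 2, [0, 1, 0, 6, 3, 4, 2]),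
  (59, 2, 2, [3, 0, 0, 6, 4, 5, 1]), (59, 9, 3, [0, 1, 0, 3, 4, 5, 2]),
  (59, 16, 2, [3, 4, 0, 6, 0, 1, 2]), (59, 24, 3, [2, 3, 0, 5, 0, 1, 4]),
  (59, 32, 2, [0, 1, 0, 6, 3, 4, 5]), (61, 0, 2, [3, 0, 0, 1, 4, 5, 6]),
  (61, 1, 3, [0, 0, 2, 3, 4, 5, 1]), (61, 4, 2, [3, 0, 0, 1, 4, 5, 2]),
  (61, 16, 2, [3, 0, 4, 5, 0, 1, 2]), (62, 4, 2, [0, 6, 0, 1, 4, 5, 2]),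
  (62, 8, 2, [0, 6, 1, 0, 4, 5, 2]), (62, 16, 2, [0, 6, 4, 5, 0, 1, 2]),
  (62, 20, 2, [0, 6, 0, 1, 4, 5, 3]), (62, 22, 3, [0, 1, 2, 3, 4, 5, 0]),
  (62, 24, 2, [0, 6, 1, 0, 4, 5, 3]), (62, 26, 3, [0, 1, 3, 2, 4, 5, 0]),
  (62, 32, 2, [0, 6, 4, 5, 1, 0, 2]), (62, 36, 2, [0, 6, 0, 1, 5, 4, 3]),
  (62, 38, 3, [0, 1, 2, 3, 5, 4, 0]), (62, 40, 2, [0, 6, 1, 0, 5, 4, 3]),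
  (62, 42, 3, [0, 1, 3, 2, 5, 4, 0])]

lemma check3 : check 6 [(0, 1), (0, 2), (2, 3), (0, 4), (4, 5)] bads3 goods3 = true := by decide +kernel

end Pool.Agent.LinCW
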