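import Pool.Agent.LinCW55.Obs

set_option autoImplicit false

/-!
# One-vertex extensions: a checker and its soundness
-/

namespace Pool.Agent.LinCW

open SimpleGraph Classical

/-- The thirteen obstructions: `C_3`, `C_5`, `C_4`, `C_6`, `K_{1,4}`, the double star, `P_6`,
`3 P_2`, `P_2 + 4 P_1`, `2 P_2 + 2 P_1`, `P_4 + 2 P_1`, `P_2 + P_4`, `2 P_3`. -/
def obs : List (ℕ × List (ℕ × ℕ)) :=
  [(3, [(0, 1), (1, 2), (0, 2)]),
   (5, [(0, 1), (1, 2), (2, 3), (3, 4), (0, 4)]),
   (4, [(0, 1), (1, 2), (2, 3), (0, 3)]),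
   (6, [(0, 1), (1, 2), (2, 3), (3, 4), (4, 5), (0, 5)]),
   (5, [(0, 1), (0, 2), (0, 3), (0, 4)]),
   (6, [(0, 1), (0, 2), (0, 3), (1, 4), (1, 5)]),
   (6, [(0, 1), (1, 2), (2, 3), (3, 4), (4, 5)]),
   (6, [(0, 1), (2, 3), (4, 5)]),
   (6, [(0, 1)]),
   (6, [(0, 1), (2, 3)]),
   (6, [(0, 1), (1, 2), (2, 3)]),
   (6, [(0, 1), (2, 3), (3, 4), (4, 5)]),
   (6, [(0, 1), (1, 2), (3, 4), (4, 5)])]

/-- The four maximal graphs, and an edgeless one. -/
def lists : List (ℕ × List (ℕ × ℕ)) :=
  [(7, [(0, 1), (0, 2), (0, 3)]),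
   (6, [(0, 1), (0, 2), (0, 3), (4, 5)]),
   (7, [(0, 1), (0, 2), (0, 3), (3, 4), (4, 5)]),
   (6, [(0, 1), (0, 2), (2, 3), (0, 4), (4, 5)]),
   (7, [])]

/-- `H` embeds into the pattern `L`. -/
def Emb {V : Type} (H : SimpleGraph V) (L : ℕ × List (ℕ × ℕ)) : Prop :=
  ∃ h : V → ℕ, Function.Injective h ∧ (∀ x, h x < L.1) ∧
    ∀ x y, (H.Adj x y ↔ padj L.2 (h x) (h y) = true)

/-- Adjacency in the extension of the pattern `(m, E)` by a vertex `m` with neighbourhood `N`. -/
def eadj (E : List (ℕ × ℕ)) (m N i j : ℕ) : Bool :=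
  if i = m then (!(j == m) && N.testBit j) else if j = m then N.testBit i else padj E i j

/-- The certificate `(T, Q, o, g)`: the map `g` embeds obstruction `o` into the extension on
`T ∪ {m}` with neighbourhood `Q`. -/
def badValid (m : ℕ) (E : List (ℕ × ℕ)) (c : ℕ × ℕ × ℕ × List ℕ) : Bool :=
  match obs[c.2.2.1]? with
  | none => false
  | some o => (List.range o.1).all fun i =>
      (c.2.2.2.getD i 0 == m || (c.1.testBit (c.2.2.2.getD i 0) &&
        Nat.blt (c.2.2.2.getD i 0) m)) &&
      (List.range o.1).all fun j =>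
        (i == j || !(c.2.2.2.getD i 0 == c.2.2.2.getD j 0)) &&
        (eadj E m c.2.1 (c.2.2.2.getD i 0) (c.2.2.2.getD j 0) == padj o.2 i j)

/-- The certificate `(S, N, l, h)`: the map `h` embeds the extension on `S ∪ {m}` with
neighbourhood `N` into the list graph `l`. -/
def goodValid (m : ℕ) (E : List (ℕ × ℕ)) (c : ℕ × ℕ × ℕ × List ℕ) : Bool :=
  match lists[c.2.2.1]? with
  | none => false
  | some L => (List.range (m + 1)).all fun x => (List.range (m + 1)).all fun y =>
      !((x == m || c.1.testBit x) && (y == m || c.1.testBit y)) ||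
      (Nat.blt (c.2.2.2.getD x 0) L.1 &&
        (x == y || !(c.2.2.2.getD x 0 == c.2.2.2.getD y 0)) &&
        (eadj E m c.2.1 x y == padj L.2 (c.2.2.2.getD x 0) (c.2.2.2.getD y 0)))

/-- All extensions are covered by the certificates. -/
def check (m : ℕ) (E : List (ℕ × ℕ)) (bads goods : List (ℕ × ℕ × ℕ × List ℕ)) : Bool :=
  (bads.all (badValid m E)) && (goods.all (goodValid m E)) &&
  (List.range (2 ^ m)).all fun S => (List.range (2 ^ m)).all fun N =>
    !(N &&& S == N) || bads.any (fun c => (c.1 &&& S == c.1) && (N &&& c.1 == c.2.1)) ||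
      goods.any (fun c => (S &&& c.1 == S) && (c.2.1 &&& S == N))

lemma exists_mask (m : ℕ) (p : ℕ → Prop) : ∃ M < 2 ^ m, ∀ i < m, (M.testBit i = true ↔ p i) := by
  refine ⟨Nat.ofBits (fun i : Fin m => decide (p i)), Nat.ofBits_lt_two_pow _, fun i hi => ?_⟩
  rw [Nat.testBit_ofBits_lt _ i hi]
  simp

theorem classify_step {m : ℕ} {E : List (ℕ × ℕ)} {bads goods : List (ℕ × ℕ × ℕ × List ℕ)}
    (hchk : check m E bads goods = true) {V : Type} (H : SimpleGraph V) (v : V) (ψ : V → ℕ)
    (hv : ψ v = m) (hlt : ∀ x, x ≠ v → ψ x < m) (hinj : Function.Injective ψ)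
    (hadj : ∀ x y, x ≠ v → y ≠ v → (H.Adj x y ↔ padj E (ψ x) (ψ y) = true)) :
    (∃ o ∈ obs, Occ o.1 o.2 H) ∨ (∃ L ∈ lists, Emb H L) := by
  obtain ⟨S, hS, hSb⟩ := exists_mask m (fun i => ∃ x, x ≠ v ∧ ψ x = i)
  obtain ⟨N, hN, hNb⟩ := exists_mask m (fun i => ∃ x, x ≠ v ∧ ψ x = i ∧ H.Adj v x)
  have hSx : ∀ x, x ≠ v → S.testBit (ψ x) = true := fun x hx =>
    (hSb _ (hlt x hx)).2 ⟨x, hx, rfl⟩
  have hNx : ∀ x, x ≠ v → (N.testBit (ψ x) = true ↔ H.Adj v x) := by
    intro x hx
    rw [hNb _ (hlt x hx)]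
    constructor
    · rintro ⟨y, -, hyx, hy⟩
      rwa [← hinj hyx]
    · intro h
      exact ⟨x, hx, rfl, h⟩
  have hψm : ∀ x, ψ x = m ↔ x = v := fun x => ⟨fun h => hinj (h.trans hv.symm), fun h => h ▸ hv⟩
  have hNS : N &&& S = N := by
    apply Nat.eq_of_testBit_eq
    intro i
    rw [Nat.testBit_and]
    by_cases hi : i < m
    · cases hNi : N.testBit i
      · simp
      · obtain ⟨x, hx, hxi, -⟩ := (hNb i hi).1 hNi
        rw [← hxi, hSx x hx]
        rfl
    · rw [Nat.testBit_lt_two_pow (lt_of_lt_of_le hN (Nat.pow_le_pow_right (by norm_num)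
        (by omega)))]
      rfl
  have hkey : ∀ x y, (H.Adj x y ↔ eadj E m N (ψ x) (ψ y) = true) := by
    intro x y
    unfold eadj
    by_cases hx : x = v
    · rw [if_pos ((hψm x).2 hx), hx]
      by_cases hy : y = v
      · have : ψ y = m := (hψm y).2 hy
        rw [hy] at this ⊢
        simp [hv]
      · have h1 : ψ y ≠ m := fun h => hy ((hψm y).1 h)
        simp [h1, hNx y hy]
    · rw [if_neg (fun h => hx ((hψm x).1 h))]
      by_cases hy : y = v
      · rw [if_pos ((hψm y).2 hy), hy, hNx x hx, H.adj_comm]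
      · rw [if_neg (fun h => hy ((hψm y).1 h)), hadj x y hx hy]
  simp only [check, Bool.and_eq_true, List.all_eq_true] at hchk
  obtain ⟨⟨hbads, hgoods⟩, hcov⟩ := hchk
  have hc := hcov S (List.mem_range.2 hS) N (List.mem_range.2 hN)
  simp only [hNS, beq_self_eq_true, Bool.not_true, Bool.false_or, Bool.or_eq_true,
    List.any_eq_true, Bool.and_eq_true, beq_iff_eq] at hc
  rcases hc with ⟨⟨T, Q, o, g⟩, hc, hT, hQ⟩ | ⟨⟨S', N', l, h⟩, hc, hT, hQ⟩
  · left
    simp only at hT hQ
    have hval := hbads _ hc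
    unfold badValid at hval
    simp only at hval
    cases ho : obs[o]? with
    | none => rw [ho] at hval; exact absurd hval (by simp)
    | some P =>
      rw [ho] at hval
      obtain ⟨n, F⟩ := P
      refine ⟨(n, F), List.mem_of_getElem? ho, ?_⟩
      simp only [List.all_eq_true, List.mem_range, Bool.and_eq_true, Bool.or_eq_true,
        beq_iff_eq, Bool.not_eq_true', beq_eq_false_iff_ne, ne_eq] at hval
      have hTS : ∀ i, T.testBit i = true → S.testBit i = true := by
        intro i hi
        rw [← hT, Nat.testBit_and, Bool.and_eq_true] at hi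
        exact hi.2
      have hNQ : ∀ i, T.testBit i = true → Q.testBit i = N.testBit i := by
        intro i hi
        rw [← hQ, Nat.testBit_and, hi, Bool.and_true]
      have hex : ∀ i : Fin n, ∃ x, ψ x = g.getD i 0 := by
        intro i
        rcases (hval i i.2).1 with h1 | ⟨h1, h2⟩
        · exact ⟨v, hv.trans h1.symm⟩
        · have h3 : g.getD i 0 < m := by
            rw [Nat.blt_eq] at h2
            exact h2
          obtain ⟨x, -, hx⟩ := (hSb _ h3).1 (hTS _ h1)
          exact ⟨x, hx⟩
      choose x hx using hex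
      refine ⟨x, ?_, ?_⟩
      · intro i j hij
        rcases ((hval i i.2).2 j j.2).1 with h1 | h1
        · exact Fin.ext h1
        · exact absurd (by rw [← hx i, ← hx j, hij]) h1
      · intro i j
        rw [hkey, hx i, hx j]
        have h1 := ((hval i i.2).2 j j.2).2
        rw [← h1]
        have h2 : ∀ i : Fin n, g.getD i 0 ≠ m → Q.testBit (g.getD i 0) =
            N.testBit (g.getD i 0) := by
          intro i hi
          rcases (hval i i.2).1 with h3 | ⟨h3, -⟩
          · exact absurd h3 hi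
          · exact hNQ _ h3
        have h4 : eadj E m N (g.getD i 0) (g.getD j 0) = eadj E m Q (g.getD i 0) (g.getD j 0) := by
          unfold eadj
          by_cases e1 : g.getD i 0 = m
          · rw [if_pos e1, if_pos e1]
            by_cases e2 : g.getD j 0 = m
            · rw [e2, beq_self_eq_true]
              rfl
            · rw [h2 j e2]
          · rw [if_neg e1, if_neg e1]
            by_cases e2 : g.getD j 0 = m
            · rw [if_pos e2, if_pos e2, h2 i e1]
            · rw [if_neg e2, if_neg e2]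
        rw [h4]
  · right
    simp only at hT hQ
    have hval := hgoods _ hc
    unfold goodValid at hval
    simp only at hval
    cases hl : lists[l]? with
    | none => rw [hl] at hval; exact absurd hval (by simp)
    | some P =>
      rw [hl] at hval
      obtain ⟨n, F⟩ := P
      refine ⟨(n, F), List.mem_of_getElem? hl, ?_⟩
      simp only [List.all_eq_true, List.mem_range] at hval
      have hS' : ∀ x, x ≠ v → S'.testBit (ψ x) = true := by
        intro x hx
        have := hSx x hx
        rw [← hT, Nat.testBit_and, Bool.and_eq_true] at this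
        exact this.2
      have hN' : ∀ x, x ≠ v → N'.testBit (ψ x) = N.testBit (ψ x) := by
        intro x hx
        rw [← hQ, Nat.testBit_and, hSx x hx, Bool.and_true]
      have hle : ∀ x, ψ x < m + 1 := by
        intro x
        by_cases hx : x = v
        · rw [(hψm x).2 hx]; omega
        · have := hlt x hx; omega
      have hval' : ∀ x y, Nat.blt (h.getD (ψ x) 0) n = true ∧
          (ψ x = ψ y ∨ h.getD (ψ x) 0 ≠ h.getD (ψ y) 0) ∧
          eadj E m N' (ψ x) (ψ y) = padj F (h.getD (ψ x) 0) (h.getD (ψ y) 0) := by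
        intro x y
        have h1 := hval (ψ x) (hle x) (ψ y) (hle y)
        have h2 : ∀ x, (ψ x == m || S'.testBit (ψ x)) = true := by
          intro x
          by_cases hx : x = v
          · rw [(hψm x).2 hx]; simp
          · rw [hS' x hx]; simp
        rw [h2 x, h2 y] at h1
        simp only [Bool.and_self, Bool.not_true, Bool.false_or, Bool.and_eq_true,
          Bool.or_eq_true, beq_iff_eq, Bool.not_eq_true', beq_eq_false_iff_ne, ne_eq] at h1
        exact ⟨h1.1.1, h1.1.2, h1.2⟩
      refine ⟨fun x => h.getD (ψ x) 0, ?_, ?_, ?_⟩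
      · intro x y hxy
        rcases (hval' x y).2.1 with h1 | h1
        · exact hinj h1
        · exact absurd hxy h1
      · intro x
        have := (hval' x x).1
        rw [Nat.blt_eq] at this
        exact this
      · intro x y
        rw [← (hval' x y).2.2, hkey]
        have h4 : eadj E m N' (ψ x) (ψ y) = eadj E m N (ψ x) (ψ y) := by
          unfold eadj
          by_cases e1 : x = v
          · rw [if_pos ((hψm x).2 e1), if_pos ((hψm x).2 e1)]
            by_cases e2 : y = v
            · simp [(hψm y).2 e2]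
            · rw [hN' y e2]
          · rw [if_neg (fun h => e1 ((hψm x).1 h)), if_neg (fun h => e1 ((hψm x).1 h))]
            by_cases e2 : y = v
            · rw [if_pos ((hψm y).2 e2), if_pos ((hψm y).2 e2), hN' x e1]
            · rw [if_neg (fun h => e2 ((hψm y).1 h)), if_neg (fun h => e2 ((hψm y).1 h))]
        rw [h4]

end Pool.Agent.LinCW
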