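import Mathlib

set_option autoImplicit false

/-!
# Linear clique-width: definitions
-/

namespace Pool.Agent.LinCW

open SimpleGraph

/-- Clique-width expressions over the labels `Fin k`: `vertex i` creates a single vertex with
label `i`, `union e f` is the disjoint union, `join i j` adds every edge between a vertex labelled
`i` and a vertex labelled `j` (`i ≠ j`), `relabel i j` changes every label `i` into label `j`. -/
inductive Expr (k : ℕ) : Type
  | vertex (i : Fin k) : Expr k
  | union (e f : Expr k) : Expr k
  | join (i j : Fin k) (hij : i ≠ j) (e : Expr k) : Expr k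
  | relabel (i j : Fin k) (e : Expr k) : Expr k

/-- The vertex set of the labelled graph built by an expression. -/
def Expr.V {k : ℕ} : Expr k → Type
  | .vertex _ => Unit
  | .union e f => e.V ⊕ f.V
  | .join _ _ _ e => e.V
  | .relabel _ _ e => e.V

/-- The labels of the labelled graph built by an expression. -/
def Expr.label {k : ℕ} : (e : Expr k) → e.V → Fin k
  | .vertex i => fun _ => i
  | .union e f => Sum.elim e.label f.label
  | .join _ _ _ e => e.label
  | .relabel i j e => fun v => if e.label v = i then j else e.label v

/-- The graph built by an expression. -/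
def Expr.graph {k : ℕ} : (e : Expr k) → SimpleGraph e.V
  | .vertex _ => ⊥
  | .union e f => e.graph ⊕g f.graph
  | .join i j hij e =>
    { Adj := fun u v => e.graph.Adj u v ∨ (e.label u = i ∧ e.label v = j) ∨
        (e.label u = j ∧ e.label v = i)
      symm := ⟨fun u v h => by
        rcases h with h | h | h
        · exact Or.inl h.symm
        · exact Or.inr (Or.inr ⟨h.2, h.1⟩)
        · exact Or.inr (Or.inl ⟨h.2, h.1⟩)⟩
      loopless := ⟨fun u h => by
        rcases h with h | h | h
        · exact e.graph.loopless.irrefl u h
        · exact hij (h.1.symm.trans h.2)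
        · exact hij (h.2.symm.trans h.1)⟩ }
  | .relabel _ _ e => e.graph

/-- An expression is linear if in every use of the disjoint union at least one of the two graphs
joined is a single vertex. -/
def Expr.IsLinear {k : ℕ} : Expr k → Prop
  | .vertex _ => True
  | .union e f => e.IsLinear ∧ f.IsLinear ∧ (Nat.card e.V = 1 ∨ Nat.card f.V = 1)
  | .join _ _ _ e => e.IsLinear
  | .relabel _ _ e => e.IsLinear

/-- The linear clique-width of a graph: the least `k` such that a graph isomorphic to `G` is built
by a linear expression with `k` labels. -/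
noncomputable def linearCliqueWidth {V : Type} (G : SimpleGraph V) : ℕ :=
  sInf {k | ∃ e : Expr k, e.IsLinear ∧ Nonempty (e.graph ≃g G)}

/-- A class of graphs has bounded linear clique-width if there is a constant `c` such that all
its finite (nonempty) members have linear clique-width at most `c`. -/
def BoundedLCW (C : ∀ V : Type, SimpleGraph V → Prop) : Prop :=
  ∃ c : ℕ, ∀ (V : Type) [Finite V] [Nonempty V] (G : SimpleGraph V),
    C V G → linearCliqueWidth G ≤ c

/-- The claw `K_{1,3}`. -/
abbrev claw : SimpleGraph (Fin 1 ⊕ Fin 3) := completeBipartiteGraph (Fin 1) (Fin 3)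

/-- The edgeless graph `n P_1` on `n` vertices. -/
abbrev edgeless (n : ℕ) : SimpleGraph (Fin n) := ⊥

/-- The subdivided claw `S_{1,1,3}`: centre `0`, legs `0 1`, `0 2` and `0 3 4 5`. -/
def S113 : SimpleGraph (Fin 6) :=
  fromEdgeSet {s(0, 1), s(0, 2), s(0, 3), s(3, 4), s(4, 5)}

/-- The subdivided claw `S_{1,2,2}`: centre `0`, legs `0 1`, `0 2 3` and `0 4 5`. -/
def S122 : SimpleGraph (Fin 6) :=
  fromEdgeSet {s(0, 1), s(0, 2), s(2, 3), s(0, 4), s(4, 5)}

end Pool.Agent.LinCW
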