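import Pool.Agent.LinCW55.Basic

set_option autoImplicit false

/-!
# Graphs in which every vertex has at most two neighbours or at most two non-neighbours
-/

namespace Pool.Agent.LinCW

open Classical

variable {α β : Type} {R : α → β → Prop} {d d' d₁ d₂ : Bool} {k m : ℕ}
  {X : Finset α} {Y : Finset β} {P : Finset α} {Q : Finset β}

/-- The complementary relation. -/
abbrev co (R : α → β → Prop) : α → β → Prop := fun a b => ¬ R a b

lemma nb_co (a : α) : nb (co R) Y a = Y \ nb R Y a := by
  ext b
  simp only [mem_nb, Finset.mem_sdiff, not_and]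
  exact ⟨fun h => ⟨h.1, fun _ => h.2⟩, fun h => ⟨h.1, h.2 h.1⟩⟩

lemma card_nb_add_co (a : α) : (nb R Y a).card + (nb (co R) Y a).card = Y.card := by
  rw [nb_co, Finset.card_sdiff_of_subset nb_subset]
  have := Finset.card_le_card (nb_subset (R := R) (Y := Y) (a := a))
  omega

/-- Double counting: few vertices of large degree against many of small degree. -/
lemma extreme_count {Xh : Finset α} {Yl : Finset β}
    (hA : ∀ a ∈ Xh, (nb (co R) Yl a).card ≤ 2) (hB : ∀ b ∈ Yl, (nb (rev R) Xh b).card ≤ 2) :
    Yl.card ≤ 2 ∨ Xh.card ≤ 6 := by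
  by_contra hcon
  push Not at hcon
  obtain ⟨h1, h2⟩ := hcon
  have hle : Xh.card * (Yl.card - 2) ≤ Yl.card * 2 := by
    refine Finset.card_mul_le_card_mul R (fun a ha => ?_) (fun b hb => ?_)
    · have h3 := card_nb_add_co (R := R) (Y := Yl) a
      have h4 := hA a ha
      have : (Yl.bipartiteAbove R a) = nb R Yl a := rfl
      rw [this]
      omega
    · exact hB b hb
  have h7 : 7 * (Yl.card - 2) ≤ Xh.card * (Yl.card - 2) := Nat.mul_le_mul_right _ (by omega)
  omega

theorem good_of_extreme (hA : ∀ a ∈ X, (nb R Y a).card ≤ 2 ∨ (nb (co R) Y a).card ≤ 2)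
    (hB : ∀ b ∈ Y, (nb (rev R) X b).card ≤ 2 ∨ (nb (co (rev R)) X b).card ≤ 2) :
    Good R false false 154 X Y := by
  set Xh := X.filter (fun a => ¬ (nb R Y a).card ≤ 2) with hXh
  set Yh := Y.filter (fun b => ¬ (nb (rev R) X b).card ≤ 2) with hYh
  have hXhs : Xh ⊆ X := Finset.filter_subset _ _
  have hYhs : Yh ⊆ Y := Finset.filter_subset _ _
  have hXl : ∀ a ∈ X \ Xh, (nb R Y a).card ≤ 2 := by
    intro a ha
    rw [Finset.mem_sdiff, hXh, Finset.mem_filter, not_and, not_not] at ha
    exact ha.2 ha.1
  have hYl : ∀ b ∈ Y \ Yh, (nb (rev R) X b).card ≤ 2 := by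
    intro b hb
    rw [Finset.mem_sdiff, hYh, Finset.mem_filter, not_and, not_not] at hb
    exact hb.2 hb.1
  have hXh' : ∀ a ∈ Xh, (nb (co R) Y a).card ≤ 2 := by
    intro a ha
    rw [hXh, Finset.mem_filter] at ha
    exact (hA a ha.1).resolve_left ha.2
  have hYh' : ∀ b ∈ Yh, (nb (co (rev R)) X b).card ≤ 2 := by
    intro b hb
    rw [hYh, Finset.mem_filter] at hb
    exact (hB b hb.1).resolve_left hb.2
  have c1 : (Y \ Yh).card ≤ 2 ∨ Xh.card ≤ 6 := by
    refine extreme_count (R := R) (fun a ha => ?_) (fun b hb => ?_)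
    · exact (Finset.card_le_card (nb_mono Finset.sdiff_subset a)).trans (hXh' a ha)
    · exact (Finset.card_le_card (nb_mono hXhs b)).trans (hYl b hb)
  have c2 : (X \ Xh).card ≤ 2 ∨ Yh.card ≤ 6 := by
    refine extreme_count (R := rev R) (fun b hb => ?_) (fun a ha => ?_)
    · exact (Finset.card_le_card (nb_mono Finset.sdiff_subset b)).trans (hYh' b hb)
    · exact (Finset.card_le_card (nb_mono hYhs a)).trans (hXl a ha)
  rcases c1 with c1 | c1
  · rcases c2 with c2 | c2
    · -- few vertices of small degree
      have hg : Good (co R) false false 2 (X \ (X \ Xh)) (Y \ (Y \ Yh)) := by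
        rw [Finset.sdiff_sdiff_eq_self hXhs, Finset.sdiff_sdiff_eq_self hYhs]
        refine good_of_maxdeg (fun a ha => ?_) (fun b hb => ?_)
        · exact (Finset.card_le_card (nb_mono hYhs a)).trans (hXh' a ha)
        · exact (Finset.card_le_card (nb_mono hXhs b)).trans (hYh' b hb)
      have hg' : Good R false false 3 (X \ (X \ Xh)) (Y \ (Y \ Yh)) := hg.of_compl.change
      have h1 := Good.addA_card (m := 2) (Finset.sdiff_subset (s := X) (t := Xh)) c2 hg'
      have h2 := Good.addB_card (m := 2) (Finset.sdiff_subset (s := Y) (t := Yh)) c1 h1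
      exact h2.mono (by norm_num)
    · -- `Y` is small
      have : Y.card ≤ 8 := by
        have := Finset.card_sdiff_add_card_eq_card hYhs
        omega
      exact ((good_of_card (R := rev R) (X := Y) (Y := X) (d₁ := false) (d₂ := false)
        this).flip).mono (by omega)
  · rcases c2 with c2 | c2
    · have : X.card ≤ 8 := by
        have := Finset.card_sdiff_add_card_eq_card hXhs
        omega
      exact (good_of_card this).mono (by omega)
    · have hg : Good R false false 2 (X \ Xh) (Y \ Yh) := by
        refine good_of_maxdeg (fun a ha => ?_) (fun b hb => ?_)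
        · exact (Finset.card_le_card (nb_mono Finset.sdiff_subset a)).trans (hXl a ha)
        · exact (Finset.card_le_card (nb_mono Finset.sdiff_subset b)).trans (hYl b hb)
      have h1 := Good.addA_card (m := 6) hXhs c1 hg
      exact Good.addB_card (m := 6) hYhs c2 h1

end Pool.Agent.LinCW
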