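import Mathlib

set_option autoImplicit false

/-!
# Good vertex orders of bipartite graphs

A bipartite graph is given by a relation `R : α → β → Prop`, restricted to finite sets
`X : Finset α`, `Y : Finset β`.  `Good R d₁ d₂ k X Y` says that the vertices can be ordered so that
for every initial segment `P ∪ Q` (`P ⊆ X`, `Q ⊆ Y`) the vertices of `P` have at most `k` traces on
`Y ∖ Q` apart from the default one (`d₁`: full if `true`, empty if `false`) and similarly for the
vertices of `Q` (default `d₂`).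
-/

namespace Pool.Agent.LinCW

open Classical

variable {α β : Type}

/-- The vertices of `P` have at most `k` traces on `F` apart from the default. -/
def CutSide (R : α → β → Prop) (d : Bool) (k : ℕ) (P : Finset α) (F : Finset β) : Prop :=
  ∃ T : Finset (Finset β), T.card ≤ k ∧
    ∀ a ∈ P, F.filter (R a) ∈ T ∨ ∀ b ∈ F, (R a b ↔ d = true)

/-- The cut condition at an initial segment. -/
def CutOK (R : α → β → Prop) (d₁ d₂ : Bool) (k : ℕ) (X : Finset α) (Y : Finset β)
    (P : Finset α) (Q : Finset β) : Prop :=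
  CutSide R d₁ k P (Y \ Q) ∧ CutSide (fun b a => R a b) d₂ k Q (X \ P)

/-- Initial segments reachable one vertex at a time with all cut conditions satisfied. -/
inductive Reach (R : α → β → Prop) (d₁ d₂ : Bool) (k : ℕ) (X : Finset α) (Y : Finset β) :
    Finset α → Finset β → Prop
  | zero : Reach R d₁ d₂ k X Y ∅ ∅
  | stepA {P : Finset α} {Q : Finset β} (a : α) : Reach R d₁ d₂ k X Y P Q → a ∈ X → a ∉ P →
      CutOK R d₁ d₂ k X Y (insert a P) Q → Reach R d₁ d₂ k X Y (insert a P) Q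
  | stepB {P : Finset α} {Q : Finset β} (b : β) : Reach R d₁ d₂ k X Y P Q → b ∈ Y → b ∉ Q →
      CutOK R d₁ d₂ k X Y P (insert b Q) → Reach R d₁ d₂ k X Y P (insert b Q)

/-- There is a good order of all vertices. -/
def Good (R : α → β → Prop) (d₁ d₂ : Bool) (k : ℕ) (X : Finset α) (Y : Finset β) : Prop :=
  Reach R d₁ d₂ k X Y X Y

variable {R : α → β → Prop} {d d' d₁ d₂ : Bool} {k : ℕ} {X : Finset α} {Y : Finset β}
  {P : Finset α} {Q : Finset β}

lemma CutSide.mono_k {k' : ℕ} {F : Finset β} (h : CutSide R d k P F) (hk : k ≤ k') :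
    CutSide R d k' P F := by
  obtain ⟨T, hT, h⟩ := h
  exact ⟨T, hT.trans hk, h⟩

lemma CutSide.mono_P {P' : Finset α} {F : Finset β} (h : CutSide R d k P F) (hP : P' ⊆ P) :
    CutSide R d k P' F := by
  obtain ⟨T, hT, h⟩ := h
  exact ⟨T, hT, fun a ha => h a (hP ha)⟩

lemma CutSide.mono_F {F F' : Finset β} (h : CutSide R d k P F) (hF : F' ⊆ F) :
    CutSide R d k P F' := by
  obtain ⟨T, hT, h⟩ := h
  refine ⟨T.image (fun t => F' ∩ t), Finset.card_image_le.trans hT, fun a ha => ?_⟩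
  rcases h a ha with h | h
  · refine Or.inl (Finset.mem_image.2 ⟨_, h, ?_⟩)
    ext b
    simp only [Finset.mem_inter, Finset.mem_filter]
    constructor
    · rintro ⟨h1, h2, h3⟩; exact ⟨h1, h3⟩
    · rintro ⟨h1, h2⟩; exact ⟨h1, hF h1, h2⟩
  · exact Or.inr fun b hb => h b (hF hb)

lemma CutSide.empty {F : Finset β} : CutSide R d k ∅ F :=
  ⟨∅, by simp, by simp⟩

lemma CutSide.union {P' : Finset α} {F : Finset β} {k' : ℕ} (h : CutSide R d k P F)
    (h' : CutSide R d k' P' F) : CutSide R d (k + k') (P ∪ P') F := by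
  obtain ⟨T, hT, h⟩ := h
  obtain ⟨T', hT', h'⟩ := h'
  refine ⟨T ∪ T', (Finset.card_union_le _ _).trans (by omega), fun a ha => ?_⟩
  rcases Finset.mem_union.1 ha with ha | ha
  · rcases h a ha with h | h
    · exact Or.inl (Finset.mem_union_left _ h)
    · exact Or.inr h
  · rcases h' a ha with h | h
    · exact Or.inl (Finset.mem_union_right _ h)
    · exact Or.inr h

lemma filter_congr_default {F : Finset β} {a : α} (h : ∀ b ∈ F, (R a b ↔ d = true)) :
    F.filter (R a) = if d = true then F else ∅ := by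
  ext b
  by_cases hd : d = true
  · simp only [hd, if_true, Finset.mem_filter, and_iff_left_iff_imp]
    intro hb
    exact (h b hb).2 hd
  · simp only [hd, Finset.mem_filter]
    constructor
    · rintro ⟨hb, hr⟩; exact absurd ((h b hb).1 hr) hd
    · intro h; simp at h

lemma CutSide.change {F : Finset β} (h : CutSide R d k P F) : CutSide R d' (k + 1) P F := by
  obtain ⟨T, hT, h⟩ := h
  refine ⟨insert (if d = true then F else ∅) T, (Finset.card_insert_le _ _).trans (by omega),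
    fun a ha => Or.inl ?_⟩
  rcases h a ha with h | h
  · exact Finset.mem_insert_of_mem h
  · rw [filter_congr_default h]
    exact Finset.mem_insert_self _ _

lemma CutSide.compl {F : Finset β} (h : CutSide R d k P F) :
    CutSide (fun a b => ¬ R a b) (!d) k P F := by
  obtain ⟨T, hT, h⟩ := h
  refine ⟨T.image (fun t => F \ t), Finset.card_image_le.trans hT, fun a ha => ?_⟩
  rcases h a ha with h | h
  · refine Or.inl (Finset.mem_image.2 ⟨_, h, ?_⟩)
    ext b
    simp only [Finset.mem_sdiff, Finset.mem_filter, not_and]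
    constructor
    · rintro ⟨h1, h2⟩; exact ⟨h1, h2 h1⟩
    · rintro ⟨h1, h2⟩; exact ⟨h1, fun _ => h2⟩
  · refine Or.inr fun b hb => ?_
    change (¬ R a b) ↔ _
    rw [h b hb]
    cases d <;> simp

/-- A finite set of vertices with at most `m` traces. -/
lemma CutSide.of_card {F : Finset β} (h : P.card ≤ k) : CutSide R d k P F :=
  ⟨P.image fun a => F.filter (R a), Finset.card_image_le.trans h,
    fun _ ha => Or.inl (Finset.mem_image_of_mem _ ha)⟩

lemma CutSide.of_default {F : Finset β} (h : ∀ a ∈ P, ∀ b ∈ F, (R a b ↔ d = true)) :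
    CutSide R d k P F :=
  ⟨∅, by simp, fun a ha => Or.inr (h a ha)⟩

/-- If the nondefault vertices lie in `S` then there are at most `|S|` traces. -/
lemma CutSide.of_subset {F : Finset β} (S : Finset α) (hS : S.card ≤ k)
    (h : ∀ a ∈ P, a ∈ S ∨ ∀ b ∈ F, (R a b ↔ d = true)) : CutSide R d k P F := by
  refine ⟨S.image fun a => F.filter (R a), Finset.card_image_le.trans hS, fun a ha => ?_⟩
  rcases h a ha with h | h
  · exact Or.inl (Finset.mem_image_of_mem _ h)
  · exact Or.inr h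

lemma CutOK.mono_k {k' : ℕ} (h : CutOK R d₁ d₂ k X Y P Q) (hk : k ≤ k') :
    CutOK R d₁ d₂ k' X Y P Q := ⟨h.1.mono_k hk, h.2.mono_k hk⟩

lemma Reach.subset (h : Reach R d₁ d₂ k X Y P Q) : P ⊆ X ∧ Q ⊆ Y := by
  induction h with
  | zero => simp
  | stepA a _ ha _ _ ih => exact ⟨Finset.insert_subset ha ih.1, ih.2⟩
  | stepB b _ hb _ _ ih => exact ⟨ih.1, Finset.insert_subset hb ih.2⟩

lemma Reach.cutOK (h : Reach R d₁ d₂ k X Y P Q) : CutOK R d₁ d₂ k X Y P Q := by
  cases h with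
  | zero => exact ⟨CutSide.empty, CutSide.empty⟩
  | stepA a _ _ _ h => exact h
  | stepB b _ _ _ h => exact h

/-- Transfer of reachability along an implication between cut conditions. -/
lemma Reach.map {R' : α → β → Prop} {d₁' d₂' : Bool} {k' : ℕ}
    (hc : ∀ P Q, P ⊆ X → Q ⊆ Y → CutOK R d₁ d₂ k X Y P Q → CutOK R' d₁' d₂' k' X Y P Q)
    (h : Reach R d₁ d₂ k X Y P Q) : Reach R' d₁' d₂' k' X Y P Q := by
  induction h with
  | zero => exact Reach.zero
  | stepA a hr ha ha' hcut ih =>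
    exact Reach.stepA a ih ha ha' (hc _ _ (Finset.insert_subset ha hr.subset.1) hr.subset.2 hcut)
  | stepB b hr hb hb' hcut ih =>
    exact Reach.stepB b ih hb hb' (hc _ _ hr.subset.1 (Finset.insert_subset hb hr.subset.2) hcut)

lemma Good.mono {k' : ℕ} (h : Good R d₁ d₂ k X Y) (hk : k ≤ k') : Good R d₁ d₂ k' X Y :=
  Reach.map (fun _ _ _ _ h => h.mono_k hk) h

lemma Good.change {d₁' d₂' : Bool} (h : Good R d₁ d₂ k X Y) : Good R d₁' d₂' (k + 1) X Y :=
  Reach.map (fun _ _ _ _ h => ⟨h.1.change, h.2.change⟩) h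

lemma Good.compl (h : Good R d₁ d₂ k X Y) : Good (fun a b => ¬ R a b) (!d₁) (!d₂) k X Y :=
  Reach.map (fun _ _ _ _ h => ⟨h.1.compl, h.2.compl⟩) h

lemma Good.of_compl (h : Good (fun a b => ¬ R a b) d₁ d₂ k X Y) :
    Good R (!d₁) (!d₂) k X Y := by
  have := h.compl
  simpa only [not_not] using this

lemma Reach.flip (h : Reach R d₁ d₂ k X Y P Q) : Reach (fun b a => R a b) d₂ d₁ k Y X Q P := by
  induction h with
  | zero => exact Reach.zero
  | stepA a hr ha ha' hcut ih => exact Reach.stepB a ih ha ha' ⟨hcut.2, hcut.1⟩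
  | stepB b hr hb hb' hcut ih => exact Reach.stepA b ih hb hb' ⟨hcut.2, hcut.1⟩

lemma Good.flip (h : Good R d₁ d₂ k X Y) : Good (fun b a => R a b) d₂ d₁ k Y X :=
  Reach.flip h

/-- The greedy principle: an invariant that can always be extended by one vertex. -/
theorem good_of_inv (Inv : Finset α → Finset β → Prop) (h0 : Inv ∅ ∅)
    (hcut : ∀ P Q, P ⊆ X → Q ⊆ Y → Inv P Q → CutOK R d₁ d₂ k X Y P Q)
    (hstep : ∀ P Q, P ⊆ X → Q ⊆ Y → Inv P Q → (P ≠ X ∨ Q ≠ Y) →
      (∃ a ∈ X, a ∉ P ∧ Inv (insert a P) Q) ∨ (∃ b ∈ Y, b ∉ Q ∧ Inv P (insert b Q))) :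
    Good R d₁ d₂ k X Y := by
  have key : ∀ n : ℕ, ∀ P Q, P ⊆ X → Q ⊆ Y → (X.card + Y.card) - (P.card + Q.card) = n →
      Inv P Q → Reach R d₁ d₂ k X Y P Q → Reach R d₁ d₂ k X Y X Y := by
    intro n
    induction n using Nat.strong_induction_on with
    | _ n ih =>
      intro P Q hP hQ hn hI hr
      by_cases hfull : P ≠ X ∨ Q ≠ Y
      · rcases hstep P Q hP hQ hI hfull with ⟨a, ha, ha', hI'⟩ | ⟨b, hb, hb', hI'⟩
        · have hsub : insert a P ⊆ X := Finset.insert_subset ha hP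
          have hc1 : (insert a P).card = P.card + 1 := Finset.card_insert_of_notMem ha'
          have hc2 := Finset.card_le_card hsub
          have hc3 := Finset.card_le_card hQ
          refine ih _ ?_ (insert a P) Q hsub hQ rfl hI' (Reach.stepA a hr ha ha' ?_)
          · omega
          · exact hcut _ _ hsub hQ hI'
        · have hsub : insert b Q ⊆ Y := Finset.insert_subset hb hQ
          have hc1 : (insert b Q).card = Q.card + 1 := Finset.card_insert_of_notMem hb'
          have hc2 := Finset.card_le_card hsub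
          have hc3 := Finset.card_le_card hP
          refine ih _ ?_ P (insert b Q) hP hsub rfl hI' (Reach.stepB b hr hb hb' ?_)
          · omega
          · exact hcut _ _ hP hsub hI'
      · push Not at hfull
        obtain ⟨rfl, rfl⟩ := hfull
        exact hr
  exact key _ ∅ ∅ (by simp) (by simp) rfl h0 Reach.zero

/-- Graphs with few vertices on one side. -/
lemma good_of_card (h : X.card ≤ k) : Good R d₁ d₂ k X Y := by
  apply good_of_inv (fun P Q => Q ≠ ∅ → P = X) (by simp)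
  · intro P Q hP hQ hI
    refine ⟨?_, ?_⟩
    · exact CutSide.of_card ((Finset.card_le_card hP).trans h)
    · by_cases hQ0 : Q = ∅
      · subst hQ0; exact CutSide.empty
      · rw [hI hQ0]
        refine ⟨∅, by simp, fun b _ => Or.inr (by simp)⟩
  · intro P Q hP hQ hI hne
    by_cases hPX : P = X
    · subst hPX
      have hQY : Q ≠ Y := by simpa using hne
      have : Q ⊂ Y := hQ.ssubset_of_ne hQY
      obtain ⟨b, hb, hb'⟩ := Finset.exists_of_ssubset this
      exact Or.inr ⟨b, hb, hb', fun _ => rfl⟩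
    · have : P ⊂ X := hP.ssubset_of_ne hPX
      obtain ⟨a, ha, ha'⟩ := Finset.exists_of_ssubset this
      refine Or.inl ⟨a, ha, ha', fun hQ0 => ?_⟩
      exact absurd (hI hQ0) hPX

/-- Gluing along a homogeneous (default) pair of cuts. -/
theorem Good.append {X₁ X₂ : Finset α} {Y₁ Y₂ : Finset β} (hX : Disjoint X₁ X₂)
    (hY : Disjoint Y₁ Y₂) (hA : ∀ a ∈ X₁, ∀ b ∈ Y₂, (R a b ↔ d₁ = true))
    (hB : ∀ b ∈ Y₁, ∀ a ∈ X₂, (R a b ↔ d₂ = true))
    (h₁ : Good R d₁ d₂ k X₁ Y₁) (h₂ : Good R d₁ d₂ k X₂ Y₂) :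
    Good R d₁ d₂ k (X₁ ∪ X₂) (Y₁ ∪ Y₂) := by
  -- cut condition, phase one
  have side1 : ∀ {α β : Type} (R : α → β → Prop) (d : Bool) (X₁ : Finset α) (Y₁ Y₂ : Finset β),
      Disjoint Y₁ Y₂ → (∀ a ∈ X₁, ∀ b ∈ Y₂, (R a b ↔ d = true)) →
      ∀ P Q, P ⊆ X₁ → Q ⊆ Y₁ → CutSide R d k P (Y₁ \ Q) → CutSide R d k P ((Y₁ ∪ Y₂) \ Q) := by
    intro α β R d X₁ Y₁ Y₂ hY hA P Q hP hQ h
    obtain ⟨T, hT, h⟩ := h
    refine ⟨T.image (fun t => t ∪ (if d = true then Y₂ else ∅)), Finset.card_image_le.trans hT,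
      fun a ha => ?_⟩
    have hset : (Y₁ ∪ Y₂) \ Q = (Y₁ \ Q) ∪ Y₂ := by
      ext b
      simp only [Finset.mem_sdiff, Finset.mem_union]
      constructor
      · rintro ⟨h | h, h'⟩
        · exact Or.inl ⟨h, h'⟩
        · exact Or.inr h
      · rintro (⟨h, h'⟩ | h)
        · exact ⟨Or.inl h, h'⟩
        · exact ⟨Or.inr h, fun hq => Finset.disjoint_left.1 hY (hQ hq) h⟩
    rw [hset]
    rcases h a ha with h | h
    · left
      refine Finset.mem_image.2 ⟨_, h, ?_⟩
      rw [Finset.filter_union, filter_congr_default (hA a (hP ha))]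
    · right
      intro b hb
      rcases Finset.mem_union.1 hb with hb | hb
      · exact h b hb
      · exact hA a (hP ha) b hb
  have phase1 : ∀ P Q, Reach R d₁ d₂ k X₁ Y₁ P Q → Reach R d₁ d₂ k (X₁ ∪ X₂) (Y₁ ∪ Y₂) P Q := by
    intro P Q h
    induction h with
    | zero => exact Reach.zero
    | stepA a hr ha ha' hcut ih =>
      have hs := (Reach.stepA a hr ha ha' hcut).subset
      exact Reach.stepA a ih (Finset.mem_union_left _ ha) ha'
        ⟨side1 R d₁ X₁ Y₁ Y₂ hY hA _ _ hs.1 hs.2 hcut.1,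
          side1 (fun b a => R a b) d₂ Y₁ X₁ X₂ hX hB _ _ hs.2 hs.1 hcut.2⟩
    | stepB b hr hb hb' hcut ih =>
      have hs := (Reach.stepB b hr hb hb' hcut).subset
      exact Reach.stepB b ih (Finset.mem_union_left _ hb) hb'
        ⟨side1 R d₁ X₁ Y₁ Y₂ hY hA _ _ hs.1 hs.2 hcut.1,
          side1 (fun b a => R a b) d₂ Y₁ X₁ X₂ hX hB _ _ hs.2 hs.1 hcut.2⟩
  have side2 : ∀ {α β : Type} (R : α → β → Prop) (d : Bool) (X₁ : Finset α) (Y₁ Y₂ : Finset β),
      Disjoint Y₁ Y₂ → (∀ a ∈ X₁, ∀ b ∈ Y₂, (R a b ↔ d = true)) →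
      ∀ P Q, Q ⊆ Y₂ → CutSide R d k P (Y₂ \ Q) →
        CutSide R d k (X₁ ∪ P) ((Y₁ ∪ Y₂) \ (Y₁ ∪ Q)) := by
    intro α β R d X₁ Y₁ Y₂ hY hA P Q hQ h
    have hset : (Y₁ ∪ Y₂) \ (Y₁ ∪ Q) = Y₂ \ Q := by
      ext b
      simp only [Finset.mem_sdiff, Finset.mem_union, not_or]
      constructor
      · rintro ⟨h | h, h', h''⟩
        · exact absurd h h'
        · exact ⟨h, h''⟩
      · rintro ⟨h, h'⟩
        exact ⟨Or.inr h, fun hb => Finset.disjoint_left.1 hY hb h, h'⟩
    rw [hset]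
    obtain ⟨T, hT, h⟩ := h
    refine ⟨T, hT, fun a ha => ?_⟩
    rcases Finset.mem_union.1 ha with ha | ha
    · exact Or.inr fun b hb => hA a ha b (Finset.mem_sdiff.1 hb).1
    · exact h a ha
  have phase2 : ∀ P Q, Reach R d₁ d₂ k X₂ Y₂ P Q →
      Reach R d₁ d₂ k (X₁ ∪ X₂) (Y₁ ∪ Y₂) (X₁ ∪ P) (Y₁ ∪ Q) := by
    intro P Q h
    induction h with
    | zero => simpa using phase1 _ _ h₁
    | @stepA P Q a hr ha ha' hcut ih =>
      have hs := (Reach.stepA a hr ha ha' hcut).subset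
      have e : X₁ ∪ insert a P = insert a (X₁ ∪ P) := Finset.union_insert _ _ _
      rw [e]
      refine Reach.stepA a ih (Finset.mem_union_right _ ha) ?_ ?_
      · rw [Finset.mem_union, not_or]
        exact ⟨fun h => Finset.disjoint_left.1 hX h ha, ha'⟩
      · rw [← e]
        exact ⟨side2 R d₁ X₁ Y₁ Y₂ hY hA _ _ hs.2 hcut.1,
          side2 (fun b a => R a b) d₂ Y₁ X₁ X₂ hX hB _ _ hs.1 hcut.2⟩
    | @stepB P Q b hr hb hb' hcut ih =>
      have hs := (Reach.stepB b hr hb hb' hcut).subset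
      have e : Y₁ ∪ insert b Q = insert b (Y₁ ∪ Q) := Finset.union_insert _ _ _
      rw [e]
      refine Reach.stepB b ih (Finset.mem_union_right _ hb) ?_ ?_
      · rw [Finset.mem_union, not_or]
        exact ⟨fun h => Finset.disjoint_left.1 hY h hb, hb'⟩
      · rw [← e]
        exact ⟨side2 R d₁ X₁ Y₁ Y₂ hY hA _ _ hs.2 hcut.1,
          side2 (fun b a => R a b) d₂ Y₁ X₁ X₂ hX hB _ _ hs.1 hcut.2⟩
  exact phase2 _ _ h₂

end Pool.Agent.LinCW
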