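import Pool.Agent.LinCW55.Good

set_option autoImplicit false

/-!
# Good orders: gluing, twins, decompositions
-/

namespace Pool.Agent.LinCW

open Classical

variable {α β : Type} {R : α → β → Prop} {d d' d₁ d₂ : Bool} {k m : ℕ}
  {X : Finset α} {Y : Finset β} {P : Finset α} {Q : Finset β}

/-- Concatenation of two orders. -/
theorem Good.seq {k₁ k₂ k' : ℕ} {X₁ X₂ : Finset α} {Y₁ Y₂ : Finset β} (hX : Disjoint X₁ X₂)
    (hY : Disjoint Y₁ Y₂)
    (c1 : ∀ P Q, P ⊆ X₁ → Q ⊆ Y₁ → CutOK R d₁ d₂ k₁ X₁ Y₁ P Q →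
      CutOK R d₁ d₂ k' (X₁ ∪ X₂) (Y₁ ∪ Y₂) P Q)
    (c2 : ∀ P Q, P ⊆ X₂ → Q ⊆ Y₂ → CutOK R d₁ d₂ k₂ X₂ Y₂ P Q →
      CutOK R d₁ d₂ k' (X₁ ∪ X₂) (Y₁ ∪ Y₂) (X₁ ∪ P) (Y₁ ∪ Q))
    (h₁ : Good R d₁ d₂ k₁ X₁ Y₁) (h₂ : Good R d₁ d₂ k₂ X₂ Y₂) :
    Good R d₁ d₂ k' (X₁ ∪ X₂) (Y₁ ∪ Y₂) := by
  have phase1 : ∀ P Q, Reach R d₁ d₂ k₁ X₁ Y₁ P Q →
      Reach R d₁ d₂ k' (X₁ ∪ X₂) (Y₁ ∪ Y₂) P Q := by
    intro P Q h
    induction h with
    | zero => exact Reach.zero
    | stepA a hr ha ha' hcut ih =>
      have hs := (Reach.stepA a hr ha ha' hcut).subset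
      exact Reach.stepA a ih (Finset.mem_union_left _ ha) ha' (c1 _ _ hs.1 hs.2 hcut)
    | stepB b hr hb hb' hcut ih =>
      have hs := (Reach.stepB b hr hb hb' hcut).subset
      exact Reach.stepB b ih (Finset.mem_union_left _ hb) hb' (c1 _ _ hs.1 hs.2 hcut)
  have phase2 : ∀ P Q, Reach R d₁ d₂ k₂ X₂ Y₂ P Q →
      Reach R d₁ d₂ k' (X₁ ∪ X₂) (Y₁ ∪ Y₂) (X₁ ∪ P) (Y₁ ∪ Q) := by
    intro P Q h
    induction h with
    | zero => simpa using phase1 _ _ h₁
    | @stepA P Q a hr ha ha' hcut ih =>
      have hs := (Reach.stepA a hr ha ha' hcut).subset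
      have e : X₁ ∪ insert a P = insert a (X₁ ∪ P) := Finset.union_insert _ _ _
      rw [e]
      refine Reach.stepA a ih (Finset.mem_union_right _ ha) ?_ ?_
      · rw [Finset.mem_union, not_or]
        exact ⟨fun h => Finset.disjoint_left.1 hX h ha, ha'⟩
      · rw [← e]
        exact c2 _ _ hs.1 hs.2 hcut
    | @stepB P Q b hr hb hb' hcut ih =>
      have hs := (Reach.stepB b hr hb hb' hcut).subset
      have e : Y₁ ∪ insert b Q = insert b (Y₁ ∪ Q) := Finset.union_insert _ _ _
      rw [e]
      refine Reach.stepB b ih (Finset.mem_union_right _ hb) ?_ ?_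
      · rw [Finset.mem_union, not_or]
        exact ⟨fun h => Finset.disjoint_left.1 hY h hb, hb'⟩
      · rw [← e]
        exact c2 _ _ hs.1 hs.2 hcut
  exact phase2 _ _ h₂

/-- Traces on a union. -/
lemma CutSide.union_F {F₁ F₂ : Finset β} {k₁ k₂ : ℕ} (h₁ : CutSide R d k₁ P F₁)
    (h₂ : CutSide R d k₂ P F₂) : CutSide R d ((k₁ + 1) * (k₂ + 1)) P (F₁ ∪ F₂) := by
  obtain ⟨T₁, hT₁, h₁⟩ := h₁
  obtain ⟨T₂, hT₂, h₂⟩ := h₂
  refine ⟨((insert (if d = true then F₁ else ∅) T₁) ×ˢ
    (insert (if d = true then F₂ else ∅) T₂)).image (fun p => p.1 ∪ p.2), ?_, fun a ha => ?_⟩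
  · refine Finset.card_image_le.trans ?_
    rw [Finset.card_product]
    exact Nat.mul_le_mul ((Finset.card_insert_le _ _).trans (by omega))
      ((Finset.card_insert_le _ _).trans (by omega))
  · left
    refine Finset.mem_image.2 ⟨(F₁.filter (R a), F₂.filter (R a)), ?_, ?_⟩
    · rw [Finset.mem_product]
      constructor
      · rcases h₁ a ha with h | h
        · exact Finset.mem_insert_of_mem h
        · simp only [filter_congr_default h]
          exact Finset.mem_insert_self _ _
      · rcases h₂ a ha with h | h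
        · exact Finset.mem_insert_of_mem h
        · simp only [filter_congr_default h]
          exact Finset.mem_insert_self _ _
    · exact (Finset.filter_union _ _ _).symm

/-- Gluing two graphs along cuts with few traces. -/
theorem Good.glue {X₁ X₂ : Finset α} {Y₁ Y₂ : Finset β} (hX : Disjoint X₁ X₂)
    (hY : Disjoint Y₁ Y₂) (hA : CutSide R d₁ m X₁ Y₂)
    (hB : CutSide (fun b a => R a b) d₂ m Y₁ X₂)
    (h₁ : Good R d₁ d₂ k X₁ Y₁) (h₂ : Good R d₁ d₂ k X₂ Y₂) :
    Good R d₁ d₂ ((k + 1) * (m + 1)) (X₁ ∪ X₂) (Y₁ ∪ Y₂) := by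
  have side1 : ∀ {α β : Type} (R : α → β → Prop) (d : Bool) (X₁ : Finset α) (Y₁ Y₂ : Finset β),
      Disjoint Y₁ Y₂ → CutSide R d m X₁ Y₂ →
      ∀ P Q, P ⊆ X₁ → Q ⊆ Y₁ → CutSide R d k P (Y₁ \ Q) →
        CutSide R d ((k + 1) * (m + 1)) P ((Y₁ ∪ Y₂) \ Q) := by
    intro α β R d X₁ Y₁ Y₂ hY hA P Q hP hQ h
    have hset : (Y₁ ∪ Y₂) \ Q = (Y₁ \ Q) ∪ Y₂ := by
      ext b
      simp only [Finset.mem_sdiff, Finset.mem_union]
      constructor
      · rintro ⟨h | h, h'⟩
        · exact Or.inl ⟨h, h'⟩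
        · exact Or.inr h
      · rintro (⟨h, h'⟩ | h)
        · exact ⟨Or.inl h, h'⟩
        · exact ⟨Or.inr h, fun hq => Finset.disjoint_left.1 hY (hQ hq) h⟩
    rw [hset]
    exact h.union_F (hA.mono_P hP)
  have side2 : ∀ {α β : Type} (R : α → β → Prop) (d : Bool) (X₁ : Finset α) (Y₁ Y₂ : Finset β),
      Disjoint Y₁ Y₂ → CutSide R d m X₁ Y₂ →
      ∀ P Q, Q ⊆ Y₂ → CutSide R d k P (Y₂ \ Q) →
        CutSide R d ((k + 1) * (m + 1)) (X₁ ∪ P) ((Y₁ ∪ Y₂) \ (Y₁ ∪ Q)) := by
    intro α β R d X₁ Y₁ Y₂ hY hA P Q hQ h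
    have hset : (Y₁ ∪ Y₂) \ (Y₁ ∪ Q) = Y₂ \ Q := by
      ext b
      simp only [Finset.mem_sdiff, Finset.mem_union, not_or]
      constructor
      · rintro ⟨h | h, h', h''⟩
        · exact absurd h h'
        · exact ⟨h, h''⟩
      · rintro ⟨h, h'⟩
        exact ⟨Or.inr h, fun hb => Finset.disjoint_left.1 hY hb h, h'⟩
    rw [hset]
    refine ((hA.mono_F Finset.sdiff_subset).union h).mono_k ?_
    nlinarith
  refine Good.seq hX hY ?_ ?_ h₁ h₂
  · intro P Q hP hQ h
    exact ⟨side1 R d₁ X₁ Y₁ Y₂ hY hA _ _ hP hQ h.1,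
      side1 (fun b a => R a b) d₂ Y₁ X₁ X₂ hX hB _ _ hQ hP h.2⟩
  · intro P Q hP hQ h
    exact ⟨side2 R d₁ X₁ Y₁ Y₂ hY hA _ _ hQ h.1,
      side2 (fun b a => R a b) d₂ Y₁ X₁ X₂ hX hB _ _ hP h.2⟩

/-- Adding back vertices on the left with at most `m` traces. -/
theorem Good.addA {Z : Finset α} (hZ : Disjoint Z X) (hA : CutSide R d₁ m Z Y)
    (h : Good R d₁ d₂ k X Y) : Good R d₁ d₂ ((k + 1) * (m + 1)) (Z ∪ X) Y := by
  have h0 : Good R d₁ d₂ k Z ∅ := by
    apply good_of_inv (fun _ _ => True) trivial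
    · intro P Q _ hQ _
      have hQ' : Q = ∅ := Finset.subset_empty.1 hQ
      subst hQ'
      exact ⟨CutSide.of_default (by simp), CutSide.empty⟩
    · intro P Q hP hQ _ hne
      have hQ' : Q = ∅ := Finset.subset_empty.1 hQ
      subst hQ'
      have hPX : P ≠ Z := by simpa using hne
      obtain ⟨a, ha, ha'⟩ := Finset.exists_of_ssubset (hP.ssubset_of_ne hPX)
      exact Or.inl ⟨a, ha, ha', trivial⟩
  have := Good.glue (R := R) (d₁ := d₁) (d₂ := d₂) (m := m) hZ (Finset.disjoint_empty_left Y) hA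
    CutSide.empty h0 h
  simpa using this

theorem Good.addA_card {Z : Finset α} (hZ : Z ⊆ X) (hc : Z.card ≤ m)
    (h : Good R d₁ d₂ k (X \ Z) Y) : Good R d₁ d₂ ((k + 1) * (m + 1)) X Y := by
  have := Good.addA (R := R) (d₁ := d₁) (d₂ := d₂) (m := m) (Z := Z) (X := X \ Z) (Y := Y)
    Finset.disjoint_sdiff (CutSide.of_card hc) h
  rwa [Finset.union_sdiff_of_subset hZ] at this

theorem Good.addB_card {Z : Finset β} (hZ : Z ⊆ Y) (hc : Z.card ≤ m)
    (h : Good R d₁ d₂ k X (Y \ Z)) : Good R d₁ d₂ ((k + 1) * (m + 1)) X Y :=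
  (Good.addA_card hZ hc h.flip).flip

/-- Adding a twin of a vertex on the left. -/
theorem Good.twinA {a a' : α} (ha : a ∈ X) (ha' : a' ∉ X) (htw : ∀ b ∈ Y, (R a' b ↔ R a b))
    (h : Good R d₁ d₂ k X Y) : Good R d₁ d₂ k (insert a' X) Y := by
  have haa' : a' ≠ a := fun e => ha' (e ▸ ha)
  -- traces of the left vertices
  have sideA : ∀ (P : Finset α) (F : Finset β), F ⊆ Y → a ∈ P → CutSide R d₁ k P F →
      CutSide R d₁ k (insert a' P) F := by
    rintro P F hF haP ⟨T, hT, h⟩
    refine ⟨T, hT, fun x hx => ?_⟩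
    rcases Finset.mem_insert.1 hx with rfl | hx
    · rcases h a haP with h | h
      · left
        have : F.filter (R x) = F.filter (R a) := Finset.filter_congr fun b hb => htw b (hF hb)
        rwa [this]
      · right
        intro b hb
        rw [htw b (hF hb)]
        exact h b hb
    · exact h x hx
  -- traces of the right vertices, both copies in the future
  have sideB : ∀ (Q : Finset β) (F : Finset α), Q ⊆ Y → a ∈ F → a' ∉ F →
      CutSide (fun b a => R a b) d₂ k Q F →
      CutSide (fun b a => R a b) d₂ k Q (insert a' F) := by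
    rintro Q F hQ haF ha'F ⟨T, hT, h⟩
    refine ⟨T.image fun t => if a ∈ t then insert a' t else t, Finset.card_image_le.trans hT,
      fun b hb => ?_⟩
    rcases h b hb with h | h
    · left
      refine Finset.mem_image.2 ⟨_, h, ?_⟩
      change (if a ∈ F.filter (fun x => R x b) then insert a' (F.filter (fun x => R x b))
        else F.filter (fun x => R x b)) = (insert a' F).filter (fun x => R x b)
      by_cases hab : R a b
      · have hmem : a ∈ F.filter (fun x => R x b) := Finset.mem_filter.2 ⟨haF, hab⟩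
        rw [if_pos hmem, Finset.filter_insert, if_pos ((htw b (hQ hb)).2 hab)]
      · have hmem : a ∉ F.filter (fun x => R x b) := fun hh => hab (Finset.mem_filter.1 hh).2
        rw [if_neg hmem, Finset.filter_insert, if_neg (fun hh => hab ((htw b (hQ hb)).1 hh))]
    · right
      intro x hx
      rcases Finset.mem_insert.1 hx with rfl | hx
      · exact (htw b (hQ hb)).trans (h a haF)
      · exact h x hx
  -- traces of the right vertices, one copy in the future
  have sideB' : ∀ (Q : Finset β) (F : Finset α), Q ⊆ Y → a ∈ F → a' ∉ F →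
      CutSide (fun b a => R a b) d₂ k Q F →
      CutSide (fun b a => R a b) d₂ k Q (insert a' (F.erase a)) := by
    rintro Q F hQ haF ha'F h
    refine (sideB Q F hQ haF ha'F h).mono_F ?_
    exact Finset.insert_subset_insert _ (Finset.erase_subset _ _)
  have key : ∀ P Q, Reach R d₁ d₂ k X Y P Q →
      Reach R d₁ d₂ k (insert a' X) Y (if a ∈ P then insert a' P else P) Q := by
    intro P Q h
    induction h with
    | zero => simpa using Reach.zero
    | @stepA P Q x hr hx hx' hcut ih =>
      have hs := hr.subset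
      by_cases hxa : x = a
      · subst hxa
        have haP : x ∉ P := hx'
        rw [if_neg haP] at ih
        have ha'P : a' ∉ P := fun h => ha' (hs.1 h)
        rw [if_pos (Finset.mem_insert_self _ _)]
        have hold := hr.cutOK
        have step1 : Reach R d₁ d₂ k (insert a' X) Y (insert x P) Q := by
          refine Reach.stepA x ih (Finset.mem_insert_of_mem hx) hx' ⟨hcut.1, ?_⟩
          have e : insert a' X \ insert x P = insert a' ((X \ P).erase x) := by
            ext y
            simp only [Finset.mem_sdiff, Finset.mem_insert, Finset.mem_erase, not_or]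
            constructor
            · rintro ⟨rfl | h1, h2, h3⟩
              · exact Or.inl rfl
              · exact Or.inr ⟨h2, h1, h3⟩
            · rintro (rfl | ⟨h1, h2, h3⟩)
              · exact ⟨Or.inl rfl, haa', ha'P⟩
              · exact ⟨Or.inr h2, h1, h3⟩
          rw [e]
          refine sideB' Q (X \ P) hs.2 (Finset.mem_sdiff.2 ⟨hx, hx'⟩) ?_ hold.2
          exact fun h => ha' (Finset.mem_sdiff.1 h).1
        refine Reach.stepA a' step1 (Finset.mem_insert_self _ _) ?_ ⟨?_, ?_⟩
        · rw [Finset.mem_insert, not_or]; exact ⟨haa', ha'P⟩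
        · exact sideA _ _ Finset.sdiff_subset (Finset.mem_insert_self _ _) hcut.1
        · have e : insert a' X \ insert a' (insert x P) = X \ insert x P := by
            ext y
            simp only [Finset.mem_sdiff, Finset.mem_insert, not_or]
            constructor
            · rintro ⟨h1 | h1, h2, h3⟩
              · exact absurd h1 h2
              · exact ⟨h1, h3⟩
            · rintro ⟨h1, h2⟩
              exact ⟨Or.inr h1, fun e => ha' (e ▸ h1), h2⟩
          rw [e]
          exact hcut.2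
      · have hs' := (Reach.stepA x hr hx hx' hcut).subset
        have hxa' : x ≠ a' := fun e => ha' (e ▸ hx)
        by_cases haP : a ∈ P
        · rw [if_pos haP] at ih
          rw [if_pos (Finset.mem_insert_of_mem haP), Finset.insert_comm]
          refine Reach.stepA x ih (Finset.mem_insert_of_mem hx) ?_ ⟨?_, ?_⟩
          · rw [Finset.mem_insert, not_or]; exact ⟨hxa', hx'⟩
          · rw [Finset.insert_comm]
            exact sideA _ _ Finset.sdiff_subset (Finset.mem_insert_of_mem haP) hcut.1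
          · have e : insert a' X \ insert x (insert a' P) = X \ insert x P := by
              ext y
              simp only [Finset.mem_sdiff, Finset.mem_insert, not_or]
              constructor
              · rintro ⟨h1 | h1, h2, h3, h4⟩
                · exact absurd h1 h3
                · exact ⟨h1, h2, h4⟩
              · rintro ⟨h1, h2, h3⟩
                exact ⟨Or.inr h1, h2, fun e => ha' (e ▸ h1), h3⟩
            rw [e]
            exact hcut.2
        · rw [if_neg haP] at ih
          have haP' : a ∉ insert x P := by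
            rw [Finset.mem_insert, not_or]; exact ⟨fun e => hxa e.symm, haP⟩
          rw [if_neg haP']
          refine Reach.stepA x ih (Finset.mem_insert_of_mem hx) hx' ⟨hcut.1, ?_⟩
          have ha'P : a' ∉ insert x P := fun h => ha' (hs'.1 h)
          have e : insert a' X \ insert x P = insert a' (X \ insert x P) :=
            Finset.insert_sdiff_of_notMem _ ha'P
          rw [e]
          refine sideB Q _ hs.2 (Finset.mem_sdiff.2 ⟨ha, haP'⟩) ?_ hcut.2
          exact fun h => ha' (Finset.mem_sdiff.1 h).1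
    | @stepB P Q b hr hb hb' hcut ih =>
      have hs' := (Reach.stepB b hr hb hb' hcut).subset
      by_cases haP : a ∈ P
      · rw [if_pos haP] at ih ⊢
        refine Reach.stepB b ih hb hb' ⟨?_, ?_⟩
        · exact sideA _ _ Finset.sdiff_subset haP hcut.1
        · have e : insert a' X \ insert a' P = X \ P := by
            ext y
            simp only [Finset.mem_sdiff, Finset.mem_insert, not_or]
            constructor
            · rintro ⟨h1 | h1, h2, h3⟩
              · exact absurd h1 h2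
              · exact ⟨h1, h3⟩
            · rintro ⟨h1, h2⟩
              exact ⟨Or.inr h1, fun e => ha' (e ▸ h1), h2⟩
          rw [e]
          exact hcut.2
      · rw [if_neg haP] at ih ⊢
        refine Reach.stepB b ih hb hb' ⟨hcut.1, ?_⟩
        have ha'P : a' ∉ P := fun h => ha' (hs'.1 h)
        have e : insert a' X \ P = insert a' (X \ P) := Finset.insert_sdiff_of_notMem _ ha'P
        rw [e]
        refine sideB _ _ hs'.2 (Finset.mem_sdiff.2 ⟨ha, haP⟩) ?_ hcut.2
        exact fun h => ha' (Finset.mem_sdiff.1 h).1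
  have := key X Y h
  rwa [if_pos ha] at this

/-- No two vertices on the left have the same trace on `Y`. -/
def TwinFree (R : α → β → Prop) (X : Finset α) (Y : Finset β) : Prop :=
  ∀ a ∈ X, ∀ a' ∈ X, (∀ b ∈ Y, (R a b ↔ R a' b)) → a = a'

/-- `(X₁, Y₁)` is a proper nonempty part which is homogeneous (`d₁`, `d₂`) to the rest. -/
def Dec (R : α → β → Prop) (d₁ d₂ : Bool) (X : Finset α) (Y : Finset β) : Prop :=
  ∃ X₁ Y₁, X₁ ⊆ X ∧ Y₁ ⊆ Y ∧ (X₁.Nonempty ∨ Y₁.Nonempty) ∧ (X₁ ≠ X ∨ Y₁ ≠ Y) ∧
    (∀ a ∈ X₁, ∀ b ∈ Y, b ∉ Y₁ → (R a b ↔ d₁ = true)) ∧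
    (∀ b ∈ Y₁, ∀ a ∈ X, a ∉ X₁ → (R a b ↔ d₂ = true))

/-- Induction: it suffices to order the twin-free indecomposable graphs of a hereditary class. -/
theorem good_of_prime (C : Finset α → Finset β → Prop)
    (hered : ∀ X Y X' Y', X' ⊆ X → Y' ⊆ Y → C X Y → C X' Y')
    (base : ∀ X Y, C X Y → ¬ Dec R d₁ d₂ X Y → TwinFree R X Y →
      TwinFree (fun b a => R a b) Y X → Good R d₁ d₂ k X Y) :
    ∀ X Y, C X Y → Good R d₁ d₂ k X Y := by
  have key : ∀ n : ℕ, ∀ X Y, X.card + Y.card = n → C X Y → Good R d₁ d₂ k X Y := by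
    intro n
    induction n using Nat.strong_induction_on with
    | _ n ih =>
      intro X Y hn hP
      by_cases hD : Dec R d₁ d₂ X Y
      · obtain ⟨X₁, Y₁, hX₁, hY₁, hne, hprop, hA, hB⟩ := hD
        have hcX : X₁.card + (X \ X₁).card = X.card := by
          rw [add_comm]; exact Finset.card_sdiff_add_card_eq_card hX₁
        have hcY : Y₁.card + (Y \ Y₁).card = Y.card := by
          rw [add_comm]; exact Finset.card_sdiff_add_card_eq_card hY₁
        have hpos : 0 < X₁.card + Y₁.card := by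
          rcases hne with h | h
          · have := h.card_pos; omega
          · have := h.card_pos; omega
        have hpos2 : 0 < (X \ X₁).card + (Y \ Y₁).card := by
          rcases hprop with h | h
          · have : (X \ X₁).Nonempty := by
              rw [Finset.sdiff_nonempty]
              exact fun hs => h (Finset.Subset.antisymm hX₁ hs)
            have := this.card_pos; omega
          · have : (Y \ Y₁).Nonempty := by
              rw [Finset.sdiff_nonempty]
              exact fun hs => h (Finset.Subset.antisymm hY₁ hs)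
            have := this.card_pos; omega
        have h1 := ih (X₁.card + Y₁.card) (by omega) X₁ Y₁ rfl (hered _ _ _ _ hX₁ hY₁ hP)
        have h2 := ih ((X \ X₁).card + (Y \ Y₁).card) (by omega) (X \ X₁) (Y \ Y₁) rfl
          (hered _ _ _ _ Finset.sdiff_subset Finset.sdiff_subset hP)
        have := Good.append (R := R) (d₁ := d₁) (d₂ := d₂) (k := k)
          (Finset.disjoint_sdiff (s := X₁) (t := X)) (Finset.disjoint_sdiff (s := Y₁) (t := Y))
          (fun a ha b hb => hA a ha b (Finset.mem_sdiff.1 hb).1 (Finset.mem_sdiff.1 hb).2)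
          (fun b hb a ha => hB b hb a (Finset.mem_sdiff.1 ha).1 (Finset.mem_sdiff.1 ha).2) h1 h2
        rwa [Finset.union_sdiff_of_subset hX₁, Finset.union_sdiff_of_subset hY₁] at this
      · by_cases hTA : TwinFree R X Y
        · by_cases hTB : TwinFree (fun b a => R a b) Y X
          · exact base X Y hP hD hTA hTB
          · unfold TwinFree at hTB
            push Not at hTB
            obtain ⟨b, hb, b', hb', htw, hne⟩ := hTB
            have hc : (Y.erase b').card + 1 = Y.card := Finset.card_erase_add_one hb'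
            have h1 := ih (X.card + (Y.erase b').card) (by omega) X (Y.erase b') rfl
              (hered _ _ _ _ (Finset.Subset.refl _) (Finset.erase_subset _ _) hP)
            have := Good.twinA (R := fun b a => R a b) (a := b) (a' := b')
              (Finset.mem_erase.2 ⟨hne, hb⟩) (Finset.notMem_erase _ _)
              (fun a ha => (htw a ha).symm) h1.flip
            rw [Finset.insert_erase hb'] at this
            exact this.flip
        · unfold TwinFree at hTA
          push Not at hTA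
          obtain ⟨a, ha, a', ha', htw, hne⟩ := hTA
          have hc : (X.erase a').card + 1 = X.card := Finset.card_erase_add_one ha'
          have h1 := ih ((X.erase a').card + Y.card) (by omega) (X.erase a') Y rfl
            (hered _ _ _ _ (Finset.erase_subset _ _) (Finset.Subset.refl _) hP)
          have := Good.twinA (R := R) (a := a) (a' := a')
            (Finset.mem_erase.2 ⟨hne, ha⟩) (Finset.notMem_erase _ _)
            (fun b hb => (htw b hb).symm) h1
          rwa [Finset.insert_erase ha'] at this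
  intro X Y h
  exact key _ X Y rfl h

/-- Twin reduction without decomposition. -/
theorem good_of_twinFree (C : Finset α → Finset β → Prop)
    (hered : ∀ X Y X' Y', X' ⊆ X → Y' ⊆ Y → C X Y → C X' Y')
    (base : ∀ X Y, C X Y → TwinFree R X Y →
      TwinFree (fun b a => R a b) Y X → Good R d₁ d₂ k X Y) :
    ∀ X Y, C X Y → Good R d₁ d₂ k X Y :=
  good_of_prime C hered fun X Y h _ h1 h2 => base X Y h h1 h2

lemma Dec.flip {d₁ d₂ : Bool} (h : Dec R d₁ d₂ X Y) : Dec (fun b a => R a b) d₂ d₁ Y X := by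
  obtain ⟨X₁, Y₁, hX₁, hY₁, hne, hprop, hA, hB⟩ := h
  exact ⟨Y₁, X₁, hY₁, hX₁, hne.symm, hprop.symm, hB, hA⟩

/-- Exchanging the roles of the part and the rest. -/
lemma Dec.symm {d₁ d₂ : Bool} (h : Dec R d₁ d₂ X Y) : Dec R d₂ d₁ X Y := by
  obtain ⟨X₁, Y₁, hX₁, hY₁, hne, hprop, hA, hB⟩ := h
  refine ⟨X \ X₁, Y \ Y₁, Finset.sdiff_subset, Finset.sdiff_subset, ?_, ?_, ?_, ?_⟩
  · rcases hprop with h | h
    · left
      rw [Finset.sdiff_nonempty]
      exact fun hs => h (Finset.Subset.antisymm hX₁ hs)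
    · right
      rw [Finset.sdiff_nonempty]
      exact fun hs => h (Finset.Subset.antisymm hY₁ hs)
  · rcases hne with ⟨a, ha⟩ | ⟨b, hb⟩
    · left
      intro e
      have : a ∈ X \ X₁ := by rw [e]; exact hX₁ ha
      exact (Finset.mem_sdiff.1 this).2 ha
    · right
      intro e
      have : b ∈ Y \ Y₁ := by rw [e]; exact hY₁ hb
      exact (Finset.mem_sdiff.1 this).2 hb
  · intro a ha b hb hb'
    have hb1 : b ∈ Y₁ := by
      by_contra h
      exact hb' (Finset.mem_sdiff.2 ⟨hb, h⟩)
    exact hB b hb1 a (Finset.mem_sdiff.1 ha).1 (Finset.mem_sdiff.1 ha).2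
  · intro b hb a ha ha'
    have ha1 : a ∈ X₁ := by
      by_contra h
      exact ha' (Finset.mem_sdiff.2 ⟨ha, h⟩)
    exact hA a ha1 b (Finset.mem_sdiff.1 hb).1 (Finset.mem_sdiff.1 hb).2

lemma Dec.compl {d₁ d₂ : Bool} (h : Dec R d₁ d₂ X Y) :
    Dec (fun a b => ¬ R a b) (!d₁) (!d₂) X Y := by
  obtain ⟨X₁, Y₁, hX₁, hY₁, hne, hprop, hA, hB⟩ := h
  refine ⟨X₁, Y₁, hX₁, hY₁, hne, hprop, ?_, ?_⟩
  · intro a ha b hb hb'
    have := hA a ha b hb hb'
    show (¬ R a b) ↔ _
    rw [this]; cases d₁ <;> simp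
  · intro b hb a ha ha'
    have := hB b hb a ha ha'
    show (¬ R a b) ↔ _
    rw [this]; cases d₂ <;> simp

end Pool.Agent.LinCW
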