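import Pool.Agent.LinCW55.Wall

set_option autoImplicit false

/-!
# Bipartite graphs without `2 P_3` of unbounded width
-/

namespace Pool.Agent.LinCW

open SimpleGraph Classical

variable {V : Type} {G : SimpleGraph V}

/-- Few mixed rows. -/
lemma mixed_card {m : ℕ} {f : V → ℕ} {t k : ℕ} (h : CutLE G f t k) (u w : Fin m → Fin m → V)
    (hle : ∀ r s s', s ≤ s' → G.Adj (u r s) (w r s'))
    (hgt : ∀ r r' s s', r' < r → ¬ G.Adj (u r s) (w r' s')) :
    (Finset.univ.filter fun r : Fin m =>
      (∃ s, f (u r s) < t) ∧ (∃ s, t ≤ f (u r s))).card ≤ 2 * k := by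
  obtain ⟨c, hc⟩ := h
  set M := Finset.univ.filter fun r : Fin m => (∃ s, f (u r s) < t) ∧ (∃ s, t ≤ f (u r s)) with hM
  rcases Nat.eq_zero_or_pos m with rfl | hm
  · have : M.card ≤ (Finset.univ : Finset (Fin 0)).card := Finset.card_le_univ _
    rw [Finset.card_univ, Fintype.card_fin] at this
    omega
  haveI : Nonempty (Fin m) := ⟨⟨0, hm⟩⟩
  have h1 : ∀ r ∈ M, ∃ s, f (u r s) < t := fun r hr => (Finset.mem_filter.1 hr).2.1
  have h2 : ∀ r ∈ M, ∃ s, t ≤ f (u r s) := fun r hr => (Finset.mem_filter.1 hr).2.2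
  choose! s₁ hs₁ using h1
  choose! s₂ hs₂ using h2
  have hD1 : (M.filter fun r => t ≤ f (w r (max (s₁ r) (s₂ r)))).card ≤ k := by
    have := Finset.card_le_card_of_injOn
      (s := M.filter fun r => t ≤ f (w r (max (s₁ r) (s₂ r))))
      (t := (Finset.univ : Finset (Fin k))) (fun r => c (u r (s₁ r)))
      (fun _ _ => Finset.mem_univ _) (by
        have key : ∀ r r', r ∈ M → r' ∈ M → t ≤ f (w r (max (s₁ r) (s₂ r))) → r < r' →
            c (u r (s₁ r)) ≠ c (u r' (s₁ r')) := by
          intro r r' hr hr' hrt hlt heq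
          exact hgt r' r (s₁ r') (max (s₁ r) (s₂ r)) hlt ((hc _ _ (hs₁ r hr) (hs₁ r' hr') heq _
            hrt).1 (hle r _ _ (le_max_left _ _)))
        intro r hr r' hr' hrr
        obtain ⟨hr1, hr2⟩ := Finset.mem_filter.1 hr
        obtain ⟨hr1', hr2'⟩ := Finset.mem_filter.1 hr'
        rcases lt_trichotomy r r' with hlt | heq | hlt
        · exact absurd hrr (key r r' hr1 hr1' hr2 hlt)
        · exact heq
        · exact absurd hrr.symm (key r' r hr1' hr1 hr2' hlt))
    rwa [Finset.card_univ, Fintype.card_fin] at this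
  have hD2 : (M.filter fun r => ¬ t ≤ f (w r (max (s₁ r) (s₂ r)))).card ≤ k := by
    have := Finset.card_le_card_of_injOn
      (s := M.filter fun r => ¬ t ≤ f (w r (max (s₁ r) (s₂ r))))
      (t := (Finset.univ : Finset (Fin k))) (fun r => c (w r (max (s₁ r) (s₂ r))))
      (fun _ _ => Finset.mem_univ _) (by
        have key : ∀ r r', r ∈ M → r' ∈ M → ¬ t ≤ f (w r (max (s₁ r) (s₂ r))) →
            ¬ t ≤ f (w r' (max (s₁ r') (s₂ r'))) → r < r' →
            c (w r (max (s₁ r) (s₂ r))) ≠ c (w r' (max (s₁ r') (s₂ r'))) := by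
          intro r r' hr hr' hrt hrt' hlt heq
          exact hgt r' r (s₂ r') (max (s₁ r) (s₂ r)) hlt ((hc _ _ (not_le.1 hrt) (not_le.1 hrt')
            heq _ (hs₂ r' hr')).2 (hle r' _ _ (le_max_right _ _)).symm).symm
        intro r hr r' hr' hrr
        obtain ⟨hr1, hr2⟩ := Finset.mem_filter.1 hr
        obtain ⟨hr1', hr2'⟩ := Finset.mem_filter.1 hr'
        rcases lt_trichotomy r r' with hlt | heq | hlt
        · exact absurd hrr (key r r' hr1 hr1' hr2 hr2' hlt)
        · exact heq
        · exact absurd hrr.symm (key r' r hr1' hr1 hr2' hr2 hlt))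
    rwa [Finset.card_univ, Fintype.card_fin] at this
  have h7 := Finset.card_filter_add_card_filter_not (s := M)
    (fun r => t ≤ f (w r (max (s₁ r) (s₂ r))))
  omega

/-- Two chain graphs linked by a perfect matching. -/
def gpR {ι : Type} (ρ τ : ι → ℕ) (a b : Bool × ι) : Prop :=
  match a, b with
  | (true, x), (true, y) => x = y
  | (true, x), (false, y) => ρ x ≤ ρ y
  | (false, y), (true, x) => τ x ≤ τ y
  | (false, _), (false, _) => True

lemma gpR_swap {ι : Type} (ρ τ : ι → ℕ) (a b : Bool × ι) : gpR ρ τ a b ↔ gpR τ ρ b a := by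
  obtain ⟨s, x⟩ := a
  obtain ⟨s', y⟩ := b
  cases s <;> cases s' <;> simp [gpR, eq_comm]

/-- No `2 P_3` with both centres on the left. -/
lemma gp_AA {ι : Type} (ρ τ : ι → ℕ) (u v p₁ p₂ q₁ q₂ : Bool × ι) (hp : p₁ ≠ p₂) (hq : q₁ ≠ q₂)
    (h1 : gpR ρ τ u p₁) (h2 : gpR ρ τ u p₂) (h3 : ¬ gpR ρ τ v p₁) (h4 : ¬ gpR ρ τ v p₂)
    (h5 : gpR ρ τ v q₁) (h6 : gpR ρ τ v q₂) (h7 : ¬ gpR ρ τ u q₁) (h8 : ¬ gpR ρ τ u q₂) :
    False := by
  -- the difference of two neighbourhoods has at most one element in one direction
  have key : ∀ u v : Bool × ι, (∃ z, ∀ p, gpR ρ τ u p → ¬ gpR ρ τ v p → p = z) ∨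
      (∃ z, ∀ p, gpR ρ τ v p → ¬ gpR ρ τ u p → p = z) := by
    rintro ⟨s, x⟩ ⟨s', y⟩
    cases s with
    | true =>
      cases s' with
      | true =>
        rcases le_total (ρ x) (ρ y) with h | h
        · right
          refine ⟨(true, y), ?_⟩
          rintro ⟨e, z⟩ h1 h2
          cases e with
          | true => simp only [gpR] at h1; rw [h1]
          | false => simp only [gpR] at h1 h2; omega
        · left
          refine ⟨(true, x), ?_⟩
          rintro ⟨e, z⟩ h1 h2
          cases e with
          | true => simp only [gpR] at h1; rw [h1]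
          | false => simp only [gpR] at h1 h2; omega
      | false =>
        left
        refine ⟨(true, x), ?_⟩
        rintro ⟨e, z⟩ h1 h2
        cases e with
        | true => simp only [gpR] at h1; rw [h1]
        | false => simp [gpR] at h2
    | false =>
      cases s' with
      | true =>
        right
        refine ⟨(true, y), ?_⟩
        rintro ⟨e, z⟩ h1 h2
        cases e with
        | true => simp only [gpR] at h1; rw [h1]
        | false => simp [gpR] at h2
      | false =>
        rcases le_total (τ x) (τ y) with h | h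
        · left
          refine ⟨(true, x), ?_⟩
          rintro ⟨e, z⟩ h1 h2
          cases e with
          | true => simp only [gpR] at h1 h2; omega
          | false => simp [gpR] at h2
        · right
          refine ⟨(true, y), ?_⟩
          rintro ⟨e, z⟩ h1 h2
          cases e with
          | true => simp only [gpR] at h1 h2; omega
          | false => simp [gpR] at h2
  rcases key u v with ⟨z, hz⟩ | ⟨z, hz⟩
  · exact hp ((hz p₁ h1 h3).trans (hz p₂ h2 h4).symm)
  · exact hq ((hz q₁ h5 h7).trans (hz q₂ h6 h8).symm)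

/-- No `2 P_3` with a centre on the left and a centre on the right. -/
lemma gp_AB {ι : Type} (ρ τ : ι → ℕ) (u v p₁ p₂ q₁ q₂ : Bool × ι) (hp : p₁ ≠ p₂) (hq : q₁ ≠ q₂)
    (huv : ¬ gpR ρ τ u v)
    (h1 : gpR ρ τ u p₁) (h2 : gpR ρ τ u p₂) (h5 : gpR ρ τ q₁ v) (h6 : gpR ρ τ q₂ v)
    (h11 : ¬ gpR ρ τ q₁ p₁) (h12 : ¬ gpR ρ τ q₁ p₂) (h21 : ¬ gpR ρ τ q₂ p₁)
    (h22 : ¬ gpR ρ τ q₂ p₂) : False := by
  obtain ⟨s, x⟩ := u
  cases s with
  | false =>
    obtain ⟨s', y⟩ := v
    cases s' with
    | false => exact huv trivial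
    | true =>
      simp only [gpR] at huv
      have key : ∀ q : Bool × ι, gpR ρ τ q (true, y) → ¬ gpR ρ τ q p₁ → q = (true, y) := by
        rintro ⟨e, z⟩ h7 h8
        cases e with
        | true => simp only [gpR] at h7; rw [h7]
        | false =>
          exfalso
          obtain ⟨e', w⟩ := p₁
          cases e' with
          | true => simp only [gpR] at h7 h8 h1; omega
          | false => simp [gpR] at h8
      exact hq ((key q₁ h5 h11).trans (key q₂ h6 h21).symm)
  | true =>
    have key : ∀ p : Bool × ι, gpR ρ τ (true, x) p → ¬ gpR ρ τ q₁ p → ¬ gpR ρ τ q₂ p →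
        p = (true, x) := by
      rintro ⟨e, z⟩ h7 h8 h9
      cases e with
      | true => simp only [gpR] at h7; rw [h7]
      | false =>
        exfalso
        obtain ⟨e₁, w₁⟩ := q₁
        obtain ⟨e₂, w₂⟩ := q₂
        cases e₁ with
        | false => simp [gpR] at h8
        | true =>
          cases e₂ with
          | false => simp [gpR] at h9
          | true =>
            obtain ⟨s', y⟩ := v
            cases s' with
            | true =>
              simp only [gpR] at h5 h6
              exact hq (by rw [h5, h6])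
            | false =>
              simp only [gpR] at h5 h6 h7 h8 huv
              omega
    exact hp ((key p₁ h1 h11 h21).trans (key p₂ h2 h12 h22).symm)

/-- Row-major order. -/
def rho (m : ℕ) (x : Fin m × Fin m) : ℕ := x.1 * m + x.2

/-- Column-major order. -/
def tau (m : ℕ) (x : Fin m × Fin m) : ℕ := x.2 * m + x.1

/-- The graph. -/
abbrev gp (m : ℕ) : SimpleGraph ((Bool × Fin m × Fin m) ⊕ (Bool × Fin m × Fin m)) :=
  bip (gpR (rho m) (tau m))

lemma lex_lt {m : ℕ} {r r' s s' : Fin m} (h : r < r') :
    (r : ℕ) * m + s < (r' : ℕ) * m + s' := by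
  have h1 : (r : ℕ) + 1 ≤ r' := h
  have h2 := s.2
  calc (r : ℕ) * m + s < (r : ℕ) * m + m := by omega
    _ = ((r : ℕ) + 1) * m := by ring
    _ ≤ (r' : ℕ) * m := Nat.mul_le_mul_right m h1
    _ ≤ (r' : ℕ) * m + s' := Nat.le_add_right _ _

/-- The width of the graphs. -/
theorem gp_width {m k : ℕ} (h : TimeLE (gp m) k) : m ≤ 4 * k + 1 := by
  by_contra hm
  push Not at hm
  obtain ⟨f, hf, hc⟩ := h
  obtain ⟨N, hN⟩ := bounded_of_finite f
  set g : ℕ → Finset (Fin m) := fun t =>
    Finset.univ.filter fun r : Fin m => ∀ s : Fin m, f (Sum.inl (true, r, s)) < t with hg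
  have hex : ∃ t, k + 1 ≤ (g t).card := by
    refine ⟨N, ?_⟩
    have : g N = Finset.univ := by
      rw [hg]
      simp only
      rw [Finset.filter_true_of_mem]
      intro r _ s
      exact hN _
    rw [this, Finset.card_univ, Fintype.card_fin]
    omega
  have hfind := Nat.find_spec hex
  have hmin := fun t' => Nat.find_min hex (m := t')
  set t := Nat.find hex with ht
  have hpos : t ≠ 0 := by
    intro h0
    rw [h0] at hfind
    have : g 0 = ∅ := by
      rw [hg]
      simp only
      rw [Finset.filter_false_of_mem]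
      intro r _ hr
      exact absurd (hr r) (by omega)
    rw [this, Finset.card_empty] at hfind
    omega
  obtain ⟨t', ht'⟩ := Nat.exists_eq_succ_of_ne_zero hpos
  have hmin' := hmin t' (by omega)
  have hstep : (g t).card ≤ (g t').card + 1 := by
    have h1 : (g t \ g t').card ≤ 1 := by
      rw [Finset.card_le_one]
      have key : ∀ r ∈ g t \ g t', ∃ s, f (Sum.inl (true, r, s)) = t' := by
        intro r hr
        obtain ⟨h1, h2⟩ := Finset.mem_sdiff.1 hr
        have h3 := (Finset.mem_filter.1 h1).2
        have h4 : ¬ ∀ s : Fin m, f (Sum.inl (true, r, s)) < t' := fun h =>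
          h2 (Finset.mem_filter.2 ⟨Finset.mem_univ _, h⟩)
        push Not at h4
        obtain ⟨s, hs⟩ := h4
        have := h3 s
        exact ⟨s, by omega⟩
      intro r hr r' hr'
      obtain ⟨s, hs⟩ := key r hr
      obtain ⟨s', hs'⟩ := key r' hr'
      have := hf (hs.trans hs'.symm)
      simp only [Sum.inl.injEq, Prod.mk.injEq] at this
      exact this.2.1
    have h2 := Finset.card_le_card (Finset.subset_union_left (s₁ := g t) (s₂ := g t'))
    have h3 : g t ∪ g t' = (g t \ g t') ∪ g t' := by
      rw [Finset.sdiff_union_self_eq_union]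
    have h4 := Finset.card_union_le (g t \ g t') (g t')
    rw [← h3] at h4
    omega
  have hgt : (g t).card = k + 1 := by omega
  have hct : CutLE (gp m) f t k := hc t
  have hrow := mixed_card hct (fun r s : Fin m => (Sum.inl (true, r, s) : _ ⊕ _))
    (fun r s : Fin m => Sum.inr (false, r, s))
    (by
      intro r s s' hss
      change (r : ℕ) * m + s ≤ (r : ℕ) * m + s'
      have : (s : ℕ) ≤ s' := hss
      omega)
    (by
      intro r r' s s' hrr h
      have h1 : (r : ℕ) * m + s ≤ (r' : ℕ) * m + s' := h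
      have := lex_lt (s := s') (s' := s) hrr
      omega)
  have hcol := mixed_card hct (fun s r : Fin m => (Sum.inr (true, r, s) : _ ⊕ _))
    (fun s r : Fin m => Sum.inl (false, r, s))
    (by
      intro s r r' hss
      change (s : ℕ) * m + r ≤ (s : ℕ) * m + r'
      have : (r : ℕ) ≤ r' := hss
      omega)
    (by
      intro s s' r r' hrr h
      have h1 : (s : ℕ) * m + r ≤ (s' : ℕ) * m + r' := h
      have := lex_lt (s := r') (s' := r) hrr
      omega)
  -- a pure column
  obtain ⟨s, hs⟩ : ∃ s : Fin m, (∀ r, t ≤ f (Sum.inr (true, r, s))) ∨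
      (∀ r, f (Sum.inr (true, r, s)) < t) := by
    by_contra hno
    push Not at hno
    have : (Finset.univ.filter fun s : Fin m => (∃ r, f (Sum.inr (true, r, s)) < t) ∧
        (∃ r, t ≤ f (Sum.inr (true, r, s)))) = Finset.univ :=
      Finset.filter_true_of_mem fun s _ => hno s
    rw [this, Finset.card_univ, Fintype.card_fin] at hcol
    omega
  obtain ⟨c, hc⟩ := hct
  rcases hs with hs | hs
  · have := Finset.card_le_card_of_injOn (s := g t) (t := (Finset.univ : Finset (Fin k)))
      (fun r => c (Sum.inl (true, r, s))) (fun _ _ => Finset.mem_univ _) (by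
        intro r hr r' hr' hrr
        have h1 := (Finset.mem_filter.1 hr).2 s
        have h2 := (Finset.mem_filter.1 hr').2 s
        have h3 := (hc _ _ h1 h2 hrr (Sum.inr (true, r, s)) (hs r)).1 (show (r, s) = (r, s) from rfl)
        have h4 : (r', s) = (r, s) := h3
        simp only [Prod.mk.injEq, and_true] at h4
        exact h4.symm)
    rw [Finset.card_univ, Fintype.card_fin] at this
    omega
  · set E := Finset.univ.filter fun r : Fin m => ∀ s : Fin m, t ≤ f (Sum.inl (true, r, s)) with hE
    have hcov : (Finset.univ : Finset (Fin m)) ⊆ (g t ∪ E) ∪ (Finset.univ.filter fun r : Fin m =>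
        (∃ s, f (Sum.inl (true, r, s)) < t) ∧ (∃ s, t ≤ f (Sum.inl (true, r, s)))) := by
      intro r _
      by_cases h1 : ∀ s : Fin m, f (Sum.inl (true, r, s)) < t
      · exact Finset.mem_union_left _ (Finset.mem_union_left _
          (Finset.mem_filter.2 ⟨Finset.mem_univ _, h1⟩))
      · by_cases h2 : ∀ s : Fin m, t ≤ f (Sum.inl (true, r, s))
        · exact Finset.mem_union_left _ (Finset.mem_union_right _
            (Finset.mem_filter.2 ⟨Finset.mem_univ _, h2⟩))
        · push Not at h1 h2
          exact Finset.mem_union_right _ (Finset.mem_filter.2 ⟨Finset.mem_univ _, h2, h1⟩)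
    have h1 := Finset.card_le_card hcov
    have h2 := Finset.card_union_le (g t ∪ E) (Finset.univ.filter fun r : Fin m =>
        (∃ s, f (Sum.inl (true, r, s)) < t) ∧ (∃ s, t ≤ f (Sum.inl (true, r, s))))
    have h3 := Finset.card_union_le (g t) E
    rw [Finset.card_univ, Fintype.card_fin] at h1
    have := Finset.card_le_card_of_injOn (s := E) (t := (Finset.univ : Finset (Fin k)))
      (fun r => c (Sum.inr (true, r, s))) (fun _ _ => Finset.mem_univ _) (by
        intro r hr r' hr' hrr
        have h1 := (Finset.mem_filter.1 hr).2 s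
        have h3 := (hc _ _ (hs r) (hs r') hrr (Sum.inl (true, r, s)) h1).1
          (show (r, s) = (r, s) from rfl)
        have h4 : (r, s) = (r', s) := h3
        simp only [Prod.mk.injEq, and_true] at h4
        exact h4)
    rw [Finset.card_univ, Fintype.card_fin] at this
    omega

end Pool.Agent.LinCW
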