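import Pool.Agent.LinCW55.Lower

set_option autoImplicit false

/-!
# Laminar bipartite graphs: unbounded width
-/

namespace Pool.Agent.LinCW

open SimpleGraph Classical

/-- The nodes of the complete ternary tree of depth `n`. -/
inductive LV : ℕ → Type
  | leaf : LV 0
  | root (n : ℕ) : LV (n + 1)
  | child (n : ℕ) (i : Fin 3) (x : LV n) : LV (n + 1)

/-- The leaves of the tree. -/
def isLeaf : {n : ℕ} → LV n → Prop
  | _, .leaf => True
  | _, .root _ => False
  | _, .child _ _ x => isLeaf x

/-- A leaf is adjacent to all its proper ancestors. -/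
def ladj : {n : ℕ} → LV n → LV n → Prop
  | _, .leaf, _ => False
  | _, .root _, y => isLeaf y
  | _, .child _ _ x, .root _ => isLeaf x
  | _, .child _ i x, .child _ j y => i = j ∧ ladj x y

lemma ladj_symm {n : ℕ} (x y : LV n) (h : ladj x y) : ladj y x := by
  induction x with
  | leaf => exact h.elim
  | root n =>
    cases y with
    | root => exact h
    | child _ j y => exact h
  | child n i x ih =>
    cases y with
    | root => exact h
    | child _ j y => exact ⟨h.1.symm, ih y h.2⟩

lemma ladj_leaf {n : ℕ} (x y : LV n) (h : ladj x y) : (isLeaf x ↔ ¬ isLeaf y) := by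
  induction x with
  | leaf => exact h.elim
  | root n =>
    cases y with
    | root => exact h.elim
    | child _ j y =>
      have h' : isLeaf y := h
      simp [isLeaf, h']
  | child n i x ih =>
    cases y with
    | root =>
      have h' : isLeaf x := h
      simp [isLeaf, h']
    | child _ j y =>
      simpa [isLeaf] using ih y h.2

/-- The laminar bipartite graph. -/
def lam (n : ℕ) : SimpleGraph (LV n) where
  Adj := ladj
  symm := ⟨ladj_symm⟩
  loopless := ⟨fun x h => by
    have := ladj_leaf x x h
    tauto⟩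

lemma lam_laminar {n : ℕ} (x y p q r : LV n) (hx : ¬ isLeaf x) (hy : ¬ isLeaf y)
    (h1 : ladj x p) (h2 : ladj x q) (h3 : ¬ ladj x r) (h4 : ¬ ladj y p) (h5 : ladj y q)
    (h6 : ladj y r) : False := by
  induction x with
  | leaf => exact h1
  | root n =>
    -- the root is adjacent to all leaves
    have hr : isLeaf r := by
      have := ladj_leaf y r h6
      tauto
    exact h3 hr
  | child n i x ih =>
    cases y with
    | root =>
      have hp : isLeaf p := by
        have := ladj_leaf _ p h1
        tauto
      exact h4 hp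
    | child _ j y =>
      cases p with
      | root => exact hx h1
      | child _ a p =>
        cases q with
        | root => exact hx h2
        | child _ b q =>
          cases r with
          | root => exact hy h6
          | child _ c r =>
            obtain ⟨rfl, h1⟩ := h1
            obtain ⟨rfl, h2⟩ := h2
            obtain ⟨rfl, h5⟩ := h5
            obtain ⟨rfl, h6⟩ := h6
            exact ih y p q r hx hy h1 h2 (fun h => h3 ⟨rfl, h⟩) (fun h => h4 ⟨rfl, h⟩) h5 h6

instance finite_LV (n : ℕ) : Finite (LV n) := by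
  induction n with
  | zero =>
    refine Finite.of_surjective (fun _ : Unit => LV.leaf) ?_
    intro x
    cases x
    exact ⟨(), rfl⟩
  | succ n ih =>
    haveI := ih
    refine Finite.of_surjective
      (fun o : Option (Fin 3 × LV n) => match o with
        | none => LV.root n
        | some (i, x) => LV.child n i x) ?_
    intro x
    cases x with
    | root => exact ⟨none, rfl⟩
    | child _ i x => exact ⟨some (i, x), rfl⟩

instance nonempty_LV (n : ℕ) : Nonempty (LV n) := by
  cases n with
  | zero => exact ⟨.leaf⟩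
  | succ n => exact ⟨.root n⟩

/-- A set of vertices before time `t` with distinct nonempty traces on the vertices after. -/
def Wit {n : ℕ} (f : LV n → ℕ) (t : ℕ) (A : Finset (LV n)) : Prop :=
  (∀ a ∈ A, f a < t ∧ ∃ w, t ≤ f w ∧ ladj a w) ∧
  ∀ a ∈ A, ∀ b ∈ A, a ≠ b → ∃ w, t ≤ f w ∧ ¬ (ladj a w ↔ ladj b w)

lemma child_inj {n : ℕ} {i : Fin 3} : Function.Injective (LV.child n i) := by
  intro x y h
  cases h
  rfl

/-- Lifting a witness set from a child. -/
lemma Wit.lift {n : ℕ} {f : LV (n + 1) → ℕ} {t : ℕ} {i : Fin 3} {A : Finset (LV n)}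
    (h : Wit (fun x => f (.child n i x)) t A) : Wit f t (A.image (LV.child n i)) := by
  obtain ⟨h1, h2⟩ := h
  constructor
  · intro a ha
    obtain ⟨a, ha', rfl⟩ := Finset.mem_image.1 ha
    obtain ⟨h3, w, h4, h5⟩ := h1 a ha'
    exact ⟨h3, .child n i w, h4, rfl, h5⟩
  · intro a ha b hb hab
    obtain ⟨a, ha', rfl⟩ := Finset.mem_image.1 ha
    obtain ⟨b, hb', rfl⟩ := Finset.mem_image.1 hb
    obtain ⟨w, h3, h4⟩ := h2 a ha' b hb' (fun h => hab (by rw [h]))
    refine ⟨.child n i w, h3, fun h => h4 ?_⟩
    exact ⟨fun h5 => (h.1 ⟨rfl, h5⟩).2, fun h5 => (h.2 ⟨rfl, h5⟩).2⟩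

lemma Wit.insert {n : ℕ} {f : LV (n + 1) → ℕ} {t : ℕ} {i : Fin 3} {A : Finset (LV n)}
    (h : Wit (fun x => f (.child n i x)) t A) (v : LV (n + 1)) (hv : f v < t)
    (w₀ : LV (n + 1)) (hw₀ : t ≤ f w₀) (hvw : ladj v w₀)
    (hne : ∀ x : LV n, v ≠ .child n i x)
    (hd : ∀ a ∈ A, ∃ w, t ≤ f w ∧ ¬ (ladj v w ↔ ladj (.child n i a) w)) :
    Wit f t (Insert.insert v (A.image (LV.child n i))) ∧
      (Insert.insert v (A.image (LV.child n i))).card = A.card + 1 := by
  have hl := h.lift
  refine ⟨⟨?_, ?_⟩, ?_⟩
  · intro a ha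
    rcases Finset.mem_insert.1 ha with rfl | ha
    · exact ⟨hv, w₀, hw₀, hvw⟩
    · exact hl.1 a ha
  · intro a ha b hb hab
    rcases Finset.mem_insert.1 ha with ha | ha <;> rcases Finset.mem_insert.1 hb with hb | hb
    · exact absurd (ha.trans hb.symm) hab
    · obtain ⟨b, hb', rfl⟩ := Finset.mem_image.1 hb
      rw [ha]
      exact hd b hb'
    · obtain ⟨a, ha', rfl⟩ := Finset.mem_image.1 ha
      obtain ⟨w, h1, h2⟩ := hd a ha'
      rw [hb]
      exact ⟨w, h1, fun h => h2 h.symm⟩
    · exact hl.2 a ha b hb hab
  · rw [Finset.card_insert_of_notMem, Finset.card_image_of_injective _ child_inj]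
    intro h
    obtain ⟨x, -, hx⟩ := Finset.mem_image.1 h
    exact hne x hx.symm

lemma Wit.union {n : ℕ} {f : LV (n + 1) → ℕ} {t : ℕ} {i j : Fin 3} (hij : i ≠ j)
    {A B : Finset (LV n)} (hA : Wit (fun x => f (.child n i x)) t A)
    (hB : Wit (fun x => f (.child n j x)) t B) :
    Wit f t (A.image (LV.child n i) ∪ B.image (LV.child n j)) ∧
      (A.image (LV.child n i) ∪ B.image (LV.child n j)).card = A.card + B.card := by
  have hl := hA.lift
  have hl' := hB.lift
  have key : ∀ a ∈ A, ∀ b : LV n, ∃ w, t ≤ f w ∧
      ¬ (ladj (.child n i a) w ↔ ladj (.child n j b) w) := by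
    intro a ha b
    obtain ⟨-, w, h1, h2⟩ := hA.1 a ha
    refine ⟨.child n i w, h1, fun h => ?_⟩
    exact hij (h.1 ⟨rfl, h2⟩).1.symm
  refine ⟨⟨?_, ?_⟩, ?_⟩
  · intro a ha
    rcases Finset.mem_union.1 ha with ha | ha
    · exact hl.1 a ha
    · exact hl'.1 a ha
  · intro a ha b hb hab
    rcases Finset.mem_union.1 ha with ha | ha <;> rcases Finset.mem_union.1 hb with hb | hb
    · exact hl.2 a ha b hb hab
    · obtain ⟨a, ha', rfl⟩ := Finset.mem_image.1 ha
      obtain ⟨b, hb', rfl⟩ := Finset.mem_image.1 hb
      exact key a ha' b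
    · obtain ⟨a, ha', rfl⟩ := Finset.mem_image.1 ha
      obtain ⟨b, hb', rfl⟩ := Finset.mem_image.1 hb
      obtain ⟨w, h1, h2⟩ := key b hb' a
      exact ⟨w, h1, fun h => h2 h.symm⟩
    · exact hl'.2 a ha b hb hab
  · rw [Finset.card_union_of_disjoint, Finset.card_image_of_injective _ child_inj,
      Finset.card_image_of_injective _ child_inj]
    rw [Finset.disjoint_left]
    intro a ha hb
    obtain ⟨a, ha', rfl⟩ := Finset.mem_image.1 ha
    obtain ⟨b, hb', hab⟩ := Finset.mem_image.1 hb
    cases hab
    exact hij rfl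

lemma exists_middle (t : Fin 3 → ℕ) :
    ∃ i i₁ i₃ : Fin 3, i₁ ≠ i ∧ i₃ ≠ i ∧ t i₁ ≤ t i ∧ t i ≤ t i₃ := by
  rcases le_total (t 0) (t 1) with h1 | h1 <;> rcases le_total (t 1) (t 2) with h2 | h2 <;>
    rcases le_total (t 0) (t 2) with h3 | h3
  · exact ⟨1, 0, 2, by decide, by decide, h1, h2⟩
  · exact ⟨1, 0, 2, by decide, by decide, h1, h2⟩
  · exact ⟨2, 0, 1, by decide, by decide, h3, h2⟩
  · exact ⟨0, 2, 1, by decide, by decide, h3, h1⟩
  · exact ⟨0, 1, 2, by decide, by decide, h1, h3⟩
  · exact ⟨2, 1, 0, by decide, by decide, h2, h3⟩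
  · exact ⟨1, 2, 0, by decide, by decide, h2, h1⟩
  · exact ⟨1, 2, 0, by decide, by decide, h2, h1⟩

lemma exists_wit (n : ℕ) : ∀ f : LV n → ℕ, Function.Injective f →
    ∃ t A, Wit f t A ∧ n ≤ A.card := by
  induction n with
  | zero =>
    intro f _
    exact ⟨0, ∅, ⟨by simp, by simp⟩, by simp⟩
  | succ n ih =>
    intro f hf
    rcases Nat.eq_zero_or_pos n with rfl | hn
    · -- one root and a leaf
      have hne : f (.root 0) ≠ f (.child 0 0 .leaf) := fun h => by
        have := hf h
        cases this
      rcases lt_or_gt_of_ne hne with h | h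
      · refine ⟨f (.child 0 0 .leaf), {.root 0}, ⟨?_, ?_⟩, by simp⟩
        · intro a ha
          rw [Finset.mem_singleton] at ha
          subst ha
          exact ⟨h, .child 0 0 .leaf, le_rfl, trivial⟩
        · intro a ha b hb hab
          rw [Finset.mem_singleton] at ha hb
          exact absurd (ha.trans hb.symm) hab
      · refine ⟨f (.root 0), {.child 0 0 .leaf}, ⟨?_, ?_⟩, by simp⟩
        · intro a ha
          rw [Finset.mem_singleton] at ha
          subst ha
          exact ⟨h, .root 0, le_rfl, trivial⟩
        · intro a ha b hb hab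
          rw [Finset.mem_singleton] at ha hb
          exact absurd (ha.trans hb.symm) hab
    · have hinj : ∀ i : Fin 3, Function.Injective (fun x : LV n => f (.child n i x)) :=
        fun i => hf.comp child_inj
      choose t A hA hc using fun i : Fin 3 => ih (fun x : LV n => f (.child n i x)) (hinj i)
      obtain ⟨i, i₁, i₃, h1, h3, ht1, ht3⟩ := exists_middle t
      rcases lt_or_ge (f (.root n)) (t i) with hr | hr
      · by_cases hy : ∃ (j : Fin 3) (y : LV n), j ≠ i ∧ isLeaf y ∧ t i ≤ f (.child n j y)
        · obtain ⟨j, y, hj, hyl, hyt⟩ := hy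
          obtain ⟨h4, h5⟩ := (hA i).insert (.root n) hr (.child n j y) hyt hyl
            (fun x h => by cases h) (fun a ha => ⟨.child n j y, hyt, fun h => hj
              (h.1 hyl).1.symm⟩)
          exact ⟨t i, _, h4, by rw [h5]; have := hc i; omega⟩
        · push Not at hy
          have hB : Wit (fun x => f (.child n i₃ x)) (t i) (A i₃) := by
            have key : ∀ (a w : LV n), t i₃ ≤ f (.child n i₃ w) → ladj a w →
                isLeaf a ∧ ¬ isLeaf w := by
              intro a w hw haw
              have h6 : ¬ isLeaf w := fun h => by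
                have := hy i₃ w h3 h
                omega
              have := ladj_leaf a w haw
              exact ⟨this.2 h6, h6⟩
            refine ⟨fun a ha => ?_, fun a ha b hb hab => ?_⟩
            · obtain ⟨h6, w, h7, h8⟩ := (hA i₃).1 a ha
              exact ⟨hy i₃ a h3 (key a w h7 h8).1, w, by simp only at h7 ⊢; omega, h8⟩
            · obtain ⟨w, h6, h7⟩ := (hA i₃).2 a ha b hb hab
              exact ⟨w, by simp only at h6 ⊢; omega, h7⟩
          obtain ⟨h4, h5⟩ := (hA i).union (Ne.symm h3) hB
          exact ⟨t i, _, h4, by rw [h5]; have := hc i; have := hc i₃; omega⟩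
      · by_cases hy : ∃ (j : Fin 3) (y : LV n), j ≠ i ∧ isLeaf y ∧ f (.child n j y) < t i
        · obtain ⟨j, y, hj, hyl, hyt⟩ := hy
          obtain ⟨h4, h5⟩ := (hA i).insert (.child n j y) hyt (.root n) hr hyl
            (fun x h => by cases h; exact hj rfl) (fun a ha => by
              obtain ⟨-, w, h6, h7⟩ := (hA i).1 a ha
              exact ⟨.child n i w, h6, fun h => hj (h.2 ⟨rfl, h7⟩).1⟩)
          exact ⟨t i, _, h4, by rw [h5]; have := hc i; omega⟩
        · push Not at hy
          have hB : Wit (fun x => f (.child n i₁ x)) (t i) (A i₁) := by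
            have hnl : ∀ a ∈ A i₁, ¬ isLeaf a := by
              intro a ha hal
              have h6 := ((hA i₁).1 a ha).1
              have := hy i₁ a h1 hal
              simp only at h6
              omega
            refine ⟨fun a ha => ?_, fun a ha b hb hab => ?_⟩
            · obtain ⟨h6, w, h7, h8⟩ := (hA i₁).1 a ha
              have h9 := ladj_leaf a w h8
              have h10 : isLeaf w := by
                have := hnl a ha
                tauto
              exact ⟨by simp only at h6 ⊢; omega, w, hy i₁ w h1 h10, h8⟩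
            · obtain ⟨w, h6, h7⟩ := (hA i₁).2 a ha b hb hab
              have h10 : isLeaf w := by
                by_contra hw
                have e1 := hnl a ha
                have e2 := hnl b hb
                have e3 := ladj_leaf a w
                have e4 := ladj_leaf b w
                apply h7
                constructor
                · intro h
                  have := e3 h
                  tauto
                · intro h
                  have := e4 h
                  tauto
              exact ⟨w, hy i₁ w h1 h10, h7⟩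
          obtain ⟨h4, h5⟩ := (hA i).union (Ne.symm h1) hB
          exact ⟨t i, _, h4, by rw [h5]; have := hc i; have := hc i₁; omega⟩

/-- The width of the laminar graphs. -/
theorem lam_width {n k : ℕ} (h : TimeLE (lam n) k) : n ≤ k := by
  obtain ⟨f, hf, hc⟩ := h
  obtain ⟨t, A, hA, hn⟩ := exists_wit n f hf
  obtain ⟨c, hc⟩ := hc t
  have h1 := Finset.card_le_card_of_injOn (s := A) (t := (Finset.univ : Finset (Fin k))) c
    (fun _ _ => Finset.mem_univ _) (by
      intro a ha b hb hab
      by_contra hne
      obtain ⟨w, h2, h3⟩ := hA.2 a ha b hb hne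
      exact h3 (hc a b (hA.1 a ha).1 (hA.1 b hb).1 hab w h2))
  rw [Finset.card_univ, Fintype.card_fin] at h1
  omega

end Pool.Agent.LinCW
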