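import Pool.Agent.LinCW55.Defs

set_option autoImplicit false

/-!
# Linear expressions give vertex orders with few classes
-/

namespace Pool.Agent.LinCW

open SimpleGraph

lemma Expr.finite {k : ℕ} (e : Expr k) : Finite e.V := by
  induction e with
  | vertex i => exact inferInstanceAs (Finite Unit)
  | union e f ihe ihf =>
    haveI := ihe
    haveI := ihf
    exact inferInstanceAs (Finite (e.V ⊕ f.V))
  | join i j hij e ih => exact ih
  | relabel i j e ih => exact ih

/-- There is an order of the vertices (by times) such that every initial segment has at most `k`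
classes with respect to the adjacency to the remaining vertices. -/
def TimeLE {V : Type} (G : SimpleGraph V) (k : ℕ) : Prop :=
  ∃ f : V → ℕ, Function.Injective f ∧ ∀ t : ℕ, ∃ c : V → Fin k, ∀ u v, f u < t → f v < t →
    c u = c v → ∀ w, t ≤ f w → (G.Adj u w ↔ G.Adj v w)

lemma bounded_of_finite {V : Type} [Finite V] (f : V → ℕ) : ∃ N, ∀ u, f u < N := by
  obtain ⟨N, hN⟩ := (Set.finite_range f).bddAbove
  exact ⟨N + 1, fun u => Nat.lt_succ_of_le (hN ⟨u, rfl⟩)⟩

lemma Expr.time {k : ℕ} (e : Expr k) (he : e.IsLinear) :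
    ∃ f : e.V → ℕ, Function.Injective f ∧ ∀ t : ℕ, ∃ c : e.V → Fin k, ∀ u v, f u < t → f v < t →
      c u = c v → e.label u = e.label v ∧ ∀ w, t ≤ f w → (e.graph.Adj u w ↔ e.graph.Adj v w) := by
  induction e with
  | vertex i =>
    refine ⟨fun _ => 0, fun _ _ _ => rfl, fun t => ⟨fun _ => i, fun u v h _ _ => ⟨rfl, ?_⟩⟩⟩
    intro w hw
    simp only at h hw
    omega
  | union e f ihe ihf =>
    obtain ⟨h1, h2, h3⟩ := he
    haveI := e.finite
    haveI := f.finite
    rcases h3 with h3 | h3
    · obtain ⟨g, hg, hc⟩ := ihf h2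
      obtain ⟨N, hN⟩ := bounded_of_finite g
      have hsub : Subsingleton e.V := (Nat.card_eq_one_iff_unique.1 h3).1
      refine ⟨Sum.elim (fun _ => N) g, ?_, fun t => ?_⟩
      · rintro (a | a) (b | b) hab
        · exact congrArg Sum.inl (Subsingleton.elim a b)
        · simp only [Sum.elim_inl, Sum.elim_inr] at hab
          have := hN b; omega
        · simp only [Sum.elim_inl, Sum.elim_inr] at hab
          have := hN a; omega
        · exact congrArg Sum.inr (hg hab)
      · by_cases ht : t ≤ N
        · obtain ⟨c, hc⟩ := hc t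
          refine ⟨Sum.elim e.label c, ?_⟩
          rintro (u | u) (v | v) hu hv huv
          · simp only [Sum.elim_inl] at hu; omega
          · simp only [Sum.elim_inl] at hu; omega
          · simp only [Sum.elim_inl] at hv; omega
          · obtain ⟨h4, h5⟩ := hc u v hu hv huv
            refine ⟨h4, ?_⟩
            rintro (w | w) hw
            · simp [Expr.graph]
            · simpa [Expr.graph] using h5 w hw
        · refine ⟨Sum.elim e.label f.label, ?_⟩
          intro u v hu hv huv
          refine ⟨huv, ?_⟩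
          rintro (w | w) hw
          · simp only [Sum.elim_inl] at hw; omega
          · simp only [Sum.elim_inr] at hw
            have := hN w; omega
    · obtain ⟨g, hg, hc⟩ := ihe h1
      obtain ⟨N, hN⟩ := bounded_of_finite g
      have hsub : Subsingleton f.V := (Nat.card_eq_one_iff_unique.1 h3).1
      refine ⟨Sum.elim g (fun _ => N), ?_, fun t => ?_⟩
      · rintro (a | a) (b | b) hab
        · exact congrArg Sum.inl (hg hab)
        · simp only [Sum.elim_inl, Sum.elim_inr] at hab
          have := hN a; omega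
        · simp only [Sum.elim_inl, Sum.elim_inr] at hab
          have := hN b; omega
        · exact congrArg Sum.inr (Subsingleton.elim a b)
      · by_cases ht : t ≤ N
        · obtain ⟨c, hc⟩ := hc t
          refine ⟨Sum.elim c f.label, ?_⟩
          rintro (u | u) (v | v) hu hv huv
          · obtain ⟨h4, h5⟩ := hc u v hu hv huv
            refine ⟨h4, ?_⟩
            rintro (w | w) hw
            · simpa [Expr.graph] using h5 w hw
            · simp [Expr.graph]
          · simp only [Sum.elim_inr] at hv; omega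
          · simp only [Sum.elim_inr] at hu; omega
          · simp only [Sum.elim_inr] at hu; omega
        · refine ⟨Sum.elim e.label f.label, ?_⟩
          intro u v hu hv huv
          refine ⟨huv, ?_⟩
          rintro (w | w) hw
          · simp only [Sum.elim_inl] at hw
            have := hN w; omega
          · simp only [Sum.elim_inr] at hw; omega
  | join i j hij e ih =>
    obtain ⟨f, hf, hc⟩ := ih he
    refine ⟨f, hf, fun t => ?_⟩
    obtain ⟨c, hc⟩ := hc t
    refine ⟨c, fun u v hu hv huv => ?_⟩
    obtain ⟨h1, h2⟩ := hc u v hu hv huv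
    refine ⟨h1, fun w hw => ?_⟩
    change (e.graph.Adj u w ∨ (e.label u = i ∧ e.label w = j) ∨ (e.label u = j ∧ e.label w = i)) ↔
      (e.graph.Adj v w ∨ (e.label v = i ∧ e.label w = j) ∨ (e.label v = j ∧ e.label w = i))
    rw [h2 w hw, h1]
  | relabel i j e ih =>
    obtain ⟨f, hf, hc⟩ := ih he
    refine ⟨f, hf, fun t => ?_⟩
    obtain ⟨c, hc⟩ := hc t
    refine ⟨c, fun u v hu hv huv => ?_⟩
    obtain ⟨h1, h2⟩ := hc u v hu hv huv
    refine ⟨?_, fun w hw => h2 w hw⟩
    change (if e.label u = i then j else e.label u) = (if e.label v = i then j else e.label v)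
    rw [h1]

lemma timeLE_of_iso {V W : Type} {G : SimpleGraph V} {H : SimpleGraph W} (φ : G ≃g H) {k : ℕ}
    (h : TimeLE G k) : TimeLE H k := by
  obtain ⟨f, hf, hc⟩ := h
  refine ⟨f ∘ φ.symm, hf.comp φ.symm.injective, fun t => ?_⟩
  obtain ⟨c, hc⟩ := hc t
  refine ⟨c ∘ φ.symm, fun u v hu hv huv w hw => ?_⟩
  have := hc (φ.symm u) (φ.symm v) hu hv huv (φ.symm w) hw
  rwa [φ.symm.map_adj_iff, φ.symm.map_adj_iff] at this

lemma timeLE_of_expr {V : Type} {G : SimpleGraph V} {k : ℕ}
    (h : ∃ e : Expr k, e.IsLinear ∧ Nonempty (e.graph ≃g G)) : TimeLE G k := by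
  obtain ⟨e, he, ⟨φ⟩⟩ := h
  obtain ⟨f, hf, hc⟩ := e.time he
  refine timeLE_of_iso φ ⟨f, hf, fun t => ?_⟩
  obtain ⟨c, hc⟩ := hc t
  exact ⟨c, fun u v hu hv huv w hw => (hc u v hu hv huv).2 w hw⟩

lemma TimeLE.mono {V : Type} {G : SimpleGraph V} {k k' : ℕ} (h : TimeLE G k) (hk : k ≤ k') :
    TimeLE G k' := by
  obtain ⟨f, hf, hc⟩ := h
  refine ⟨f, hf, fun t => ?_⟩
  obtain ⟨c, hc⟩ := hc t
  refine ⟨fun v => Fin.castLE hk (c v), fun u v hu hv huv w hw => hc u v hu hv ?_ w hw⟩
  exact Fin.castLE_injective hk huv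

end Pool.Agent.LinCW
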