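import Pool.Agent.LinCW55.Bounded

set_option autoImplicit false

/-!
# The classification
-/

namespace Pool.Agent.LinCW

open SimpleGraph Classical

variable {V W : Type}

/-! ### The list graphs as patterns -/

lemma ind_of_emb_occ {H : SimpleGraph W} {G : SimpleGraph V} {L : ℕ × List (ℕ × ℕ)}
    (hE : Emb H L) (hO : Occ L.1 L.2 G) : H ⊴ G := by
  obtain ⟨h, hinj, hlt, hadj⟩ := hE
  obtain ⟨g, hg, hadj'⟩ := hO
  refine ⟨⟨⟨fun x => g ⟨h x, hlt x⟩, fun x y hxy => ?_⟩, ?_⟩⟩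
  · have := hg hxy
    rw [Fin.mk.injEq] at this
    exact hinj this
  · intro x y
    change G.Adj (g ⟨h x, hlt x⟩) (g ⟨h y, hlt y⟩) ↔ H.Adj x y
    rw [hadj', hadj]

lemma emb_of_fun {G : SimpleGraph V} {n : ℕ} {E : List (ℕ × ℕ)} (h : V → Fin n)
    (hinj : Function.Injective h) (hadj : ∀ x y, (G.Adj x y ↔ padj E (h x) (h y) = true)) :
    Emb G (n, E) :=
  ⟨fun x => h x, fun _ _ hxy => hinj (Fin.ext hxy), fun x => (h x).2, hadj⟩

lemma emb_claw3 : Emb (claw ⊕g edgeless 3) (7, [(0, 1), (0, 2), (0, 3)]) := by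
  refine emb_of_fun (Sum.elim (Sum.elim (fun _ => 0) ![1, 2, 3]) ![4, 5, 6]) ?_ ?_
  · decide
  · rintro ((x | x) | x) ((y | y) | y) <;> fin_cases x <;> fin_cases y <;> simp [padj]

lemma occ_claw3 : Occ 7 [(0, 1), (0, 2), (0, 3)] (claw ⊕g edgeless 3) := by
  refine ⟨![Sum.inl (Sum.inl 0), Sum.inl (Sum.inr 0), Sum.inl (Sum.inr 1), Sum.inl (Sum.inr 2),
    Sum.inr 0, Sum.inr 1, Sum.inr 2], ?_, ?_⟩
  · decide
  · intro i j
    fin_cases i <;> fin_cases j <;> simp [padj]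

lemma emb_claw2 : Emb (claw ⊕g pathGraph 2) (6, [(0, 1), (0, 2), (0, 3), (4, 5)]) := by
  refine emb_of_fun (Sum.elim (Sum.elim (fun _ => 0) ![1, 2, 3]) ![4, 5]) ?_ ?_
  · decide
  · rintro ((x | x) | x) ((y | y) | y) <;> fin_cases x <;> fin_cases y <;>
      simp [padj, pathGraph_adj]

lemma occ_claw2 : Occ 6 [(0, 1), (0, 2), (0, 3), (4, 5)] (claw ⊕g pathGraph 2) := by
  refine ⟨![Sum.inl (Sum.inl 0), Sum.inl (Sum.inr 0), Sum.inl (Sum.inr 1), Sum.inl (Sum.inr 2),
    Sum.inr 0, Sum.inr 1], ?_, ?_⟩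
  · decide
  · intro i j
    fin_cases i <;> fin_cases j <;> simp [padj, pathGraph_adj]

lemma emb_s113 : Emb (edgeless 1 ⊕g S113) (7, [(0, 1), (0, 2), (0, 3), (3, 4), (4, 5)]) := by
  refine emb_of_fun (Sum.elim (fun _ => 6) ![0, 1, 2, 3, 4, 5]) ?_ ?_
  · decide
  · rintro (x | x) (y | y) <;> fin_cases x <;> fin_cases y <;> simp [padj, S113]

lemma occ_s113 : Occ 7 [(0, 1), (0, 2), (0, 3), (3, 4), (4, 5)] (edgeless 1 ⊕g S113) := by
  refine ⟨![Sum.inr 0, Sum.inr 1, Sum.inr 2, Sum.inr 3, Sum.inr 4, Sum.inr 5, Sum.inl 0], ?_, ?_⟩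
  · decide
  · intro i j
    fin_cases i <;> fin_cases j <;> simp [padj, S113]

lemma emb_s122 : Emb S122 (6, [(0, 1), (0, 2), (2, 3), (0, 4), (4, 5)]) := by
  refine emb_of_fun id ?_ ?_
  · exact Function.injective_id
  · intro x y
    fin_cases x <;> fin_cases y <;> simp [padj, S122]

lemma occ_s122 : Occ 6 [(0, 1), (0, 2), (2, 3), (0, 4), (4, 5)] S122 := by
  refine ⟨id, Function.injective_id, ?_⟩
  intro i j
  fin_cases i <;> fin_cases j <;> simp [padj, S122]

/-- A bounded class from good orders. -/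
lemma bounded_of_good {H : SimpleGraph W} {L : ℕ × List (ℕ × ℕ)} {H' : SimpleGraph V}
    (hH : H ⊴ H') (hE : Emb H' L) (k : ℕ) (d₁ d₂ : Bool)
    (hgood : ∀ (U : Type) [Finite U] (G : SimpleGraph U) (X Y : Finset U),
      (∀ v, v ∈ X → v ∉ Y) → (∀ u ∈ X, ∀ v ∈ X, ¬ G.Adj u v) →
      (∀ u ∈ Y, ∀ v ∈ Y, ¬ G.Adj u v) → ¬ Occ L.1 L.2 G → Good G.Adj d₁ d₂ k X Y) :
    BoundedLCW (fun _ G => G.IsBipartite ∧ ¬ H ⊴ G) := by
  refine ⟨(k + 1) + (k + 1) + 1, fun U _ _ G hG => ?_⟩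
  obtain ⟨X, Y, hd, hXY, hX, hY⟩ := exists_sides hG.1
  exact linearCliqueWidth_le_of_good hd hXY hX hY
    (hgood U G X Y hd hX hY fun h => hG.2 (hH.trans (ind_of_emb_occ hE h)))

theorem bounded_claw3 {H : SimpleGraph W} (h : H ⊴ claw ⊕g edgeless 3) :
    BoundedLCW (fun _ G => G.IsBipartite ∧ ¬ H ⊴ G) := by
  refine bounded_of_good h emb_claw3 154 false false ?_
  intro U _ G X Y hd hX hY hfree
  have hd' : ∀ v, v ∈ Y → v ∉ X := fun v hv hv' => hd v hv' hv
  refine good_of_extreme (extreme_of_free hd hX hY hfree) ?_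
  rw [rev_adj]
  exact extreme_of_free hd' hY hX hfree

theorem bounded_claw2 {H : SimpleGraph W} (h : H ⊴ claw ⊕g pathGraph 2) :
    BoundedLCW (fun _ G => G.IsBipartite ∧ ¬ H ⊴ G) := by
  refine bounded_of_good h emb_claw2 ((21 + 21 * 21 + 1) * (58 + 1) + 1) true false ?_
  intro U _ G X Y hd hX hY hfree
  have hd' : ∀ v, v ∈ Y → v ∉ X := fun v hv hv' => hd v hv' hv
  refine good_of_near (near_of_free hd hX hY hfree) ?_
  rw [rev_adj]
  exact near_of_free hd' hY hX hfree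

lemma rev_co {G : SimpleGraph V} : rev (co G.Adj) = co G.Adj := by
  funext a b
  exact propext (not_congr (G.adj_comm b a))

theorem bounded_s113 {H : SimpleGraph W} (h : H ⊴ edgeless 1 ⊕g S113) :
    BoundedLCW (fun _ G => G.IsBipartite ∧ ¬ H ⊴ G) := by
  refine bounded_of_good h emb_s113 (glueBound 7 + 12) true false ?_
  intro U _ G X Y hd hX hY hfree
  have hd' : ∀ v, v ∈ Y → v ∉ X := fun v hv hv' => hd v hv' hv
  have h1 := good_of_PS (h1_of_free hd hX hY hfree)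
    (by rw [rev_co]; exact h1_of_free hd' hY hX hfree) (h2_of_free hd hX hY hfree)
    (by rw [rev_co]; exact h2_of_free hd' hY hX hfree)
  exact Good.of_compl h1

theorem bounded_s122 {H : SimpleGraph W} (h : H ⊴ S122) :
    BoundedLCW (fun _ G => G.IsBipartite ∧ ¬ H ⊴ G) := by
  refine bounded_of_good h emb_s122 2 false false ?_
  intro U _ G X Y hd hX hY hfree
  have hd' : ∀ v, v ∈ Y → v ∉ X := fun v hv hv' => hd v hv' hv
  refine good_of_SK (sk_of_free hd hX hY hfree) ?_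
  rw [rev_adj]
  exact sk_of_free hd' hY hX hfree

theorem bounded_edgeless [Finite W] {H : SimpleGraph W} (h : H = ⊥) :
    BoundedLCW (fun _ G => G.IsBipartite ∧ ¬ H ⊴ G) := by
  haveI := Fintype.ofFinite W
  subst h
  refine ⟨(Fintype.card W + 1) + (Fintype.card W + 1) + 1, fun U _ _ G hG => ?_⟩
  obtain ⟨X, Y, hd, hXY, hX, hY⟩ := exists_sides hG.1
  have hcard : X.card ≤ Fintype.card W := by
    by_contra hlt
    push Not at hlt
    apply hG.2
    have e : W ↪ X := by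
      refine (Function.Embedding.nonempty_of_card_le ?_).some
      rw [Fintype.card_coe]
      omega
    refine ⟨⟨⟨fun w => (e w : U), fun a b hab => e.injective (Subtype.ext hab)⟩, ?_⟩⟩
    intro a b
    exact iff_of_false (hX _ (e a).2 _ (e b).2) (by simp)
  exact linearCliqueWidth_le_of_good (d₁ := false) (d₂ := false) hd hXY hX hY
    (good_of_card hcard)

/-- The classification. -/
theorem main [Finite W] (H : SimpleGraph W) :
    BoundedLCW (fun _ G => G.IsBipartite ∧ ¬ H ⊴ G) ↔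
      H = ⊥ ∨ H ⊴ claw ⊕g edgeless 3 ∨ H ⊴ claw ⊕g pathGraph 2 ∨ H ⊴ edgeless 1 ⊕g S113 ∨
        H ⊴ S122 := by
  constructor
  · intro hb
    rcases classification (Nat.card W) W H rfl with ⟨o, ho, hO⟩ | h | ⟨L, hL, hE⟩
    · exact absurd hO (not_occ_of_bounded hb o ho)
    · exact Or.inl h
    · simp only [lists, List.mem_cons, List.not_mem_nil, or_false] at hL
      rcases hL with rfl | rfl | rfl | rfl | rfl
      · exact Or.inr (Or.inl (ind_of_emb_occ hE occ_claw3))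
      · exact Or.inr (Or.inr (Or.inl (ind_of_emb_occ hE occ_claw2)))
      · exact Or.inr (Or.inr (Or.inr (Or.inl (ind_of_emb_occ hE occ_s113))))
      · exact Or.inr (Or.inr (Or.inr (Or.inr (ind_of_emb_occ hE occ_s122))))
      · left
        obtain ⟨h, -, -, hadj⟩ := hE
        ext x y
        rw [hadj x y]
        simp [padj]
  · rintro (h | h | h | h | h)
    · exact bounded_edgeless h
    · exact bounded_claw3 h
    · exact bounded_claw2 h
    · exact bounded_s113 h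
    · exact bounded_s122 h

end Pool.Agent.LinCW
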