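import Pool.Agent.LinCW55.Extreme

set_option autoImplicit false

/-!
# `(K_{1,3}+P_2)`-free bipartite graphs

Any two vertices on the same side have comparable neighbourhoods or differ by at most two
elements each way.
-/

namespace Pool.Agent.LinCW

open Classical

variable {α β : Type} {R : α → β → Prop} {d d' d₁ d₂ : Bool} {k m : ℕ}
  {X : Finset α} {Y : Finset β} {P : Finset α} {Q : Finset β}

/-- Comparable or at most two private neighbours each. -/
def Near (R : α → β → Prop) (X : Finset α) (Y : Finset β) : Prop :=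
  ∀ a ∈ X, ∀ a' ∈ X, (nb R Y a' \ nb R Y a).Nonempty → (nb R Y a \ nb R Y a').card ≤ 2

lemma Near.mono {X' : Finset α} {Y' : Finset β} (hX : X' ⊆ X) (hY : Y' ⊆ Y)
    (h : Near R X Y) : Near R X' Y' := by
  intro a ha a' ha' hne
  exact (Finset.card_le_card (nb_sdiff_mono hY a a')).trans
    (h a (hX ha) a' (hX ha') (hne.mono (nb_sdiff_mono hY a' a)))

lemma nb_co_sdiff (a a' : α) : nb (co R) Y a \ nb (co R) Y a' = nb R Y a' \ nb R Y a := by
  ext b
  simp only [Finset.mem_sdiff, mem_nb]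
  tauto

lemma nb_co_subset (a a' : α) : nb (co R) Y a ⊆ nb (co R) Y a' ↔ nb R Y a' ⊆ nb R Y a := by
  rw [← Finset.sdiff_eq_empty_iff_subset, nb_co_sdiff, Finset.sdiff_eq_empty_iff_subset]

lemma Near.co (h : Near R X Y) : Near (co R) X Y := by
  intro a ha a' ha' hne
  rw [nb_co_sdiff] at hne ⊢
  exact h a' ha' a ha hne

/-- The vertices incomparable to `x`. -/
noncomputable def incs (R : α → β → Prop) (X : Finset α) (Y : Finset β) (x : α) : Finset α :=
  X.filter fun z => ¬ nb R Y x ⊆ nb R Y z ∧ ¬ nb R Y z ⊆ nb R Y x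

lemma mem_incs {x z : α} : z ∈ incs R X Y x ↔
    z ∈ X ∧ ¬ nb R Y x ⊆ nb R Y z ∧ ¬ nb R Y z ⊆ nb R Y x := Finset.mem_filter

lemma incs_co (x : α) : incs (co R) X Y x = incs R X Y x := by
  ext z
  rw [mem_incs, mem_incs, nb_co_subset, nb_co_subset]
  tauto

/-- The twisted part of `x`. -/
noncomputable def tw (R : α → β → Prop) (X : Finset α) (Y : Finset β) (x : α) : Finset β :=
  (incs R X Y x).biUnion fun z => nb R Y x \ nb R Y z

lemma mem_tw {x : α} {b : β} : b ∈ tw R X Y x ↔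
    ∃ z ∈ incs R X Y x, b ∈ nb R Y x ∧ b ∉ nb R Y z := by
  simp [tw]

lemma nonempty_sdiff_of_not_subset {γ : Type} {s t : Finset γ} (h : ¬ s ⊆ t) :
    (s \ t).Nonempty := by
  rwa [Finset.sdiff_nonempty]

/-- The main lemma: in a `⊕`-indecomposable near graph a vertex with at least three
non-neighbours has a small twisted part or few incomparable vertices. -/
lemma tw_card_le {x : α} (hx : x ∈ X) (hco : 3 ≤ (Y \ nb R Y x).card)
    (hN : Near R X Y) (hN' : Near (rev R) Y X) (hD : ¬ Dec R true false X Y) :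
    (tw R X Y x).card ≤ 2 ∨ (incs R X Y x).card ≤ 21 := by
  by_contra hcon
  push Not at hcon
  obtain ⟨hT, hI⟩ := hcon
  set S := nb R Y x with hS
  set I := incs R X Y x with hIdef
  set O := X.filter (fun z => ¬ nb R Y z ⊆ S) with hO
  have hIO : I ⊆ O := by
    intro z hz
    rw [hIdef, mem_incs] at hz
    exact Finset.mem_filter.2 ⟨hz.1, hz.2.2⟩
  have hxO : x ∉ O := fun h => (Finset.mem_filter.1 h).2 (Finset.Subset.refl _)
  have hOI : ∀ z ∈ O, ∀ b ∈ S, ¬ R z b → z ∈ I := by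
    intro z hz b hb hzb
    rw [hO, Finset.mem_filter] at hz
    rw [hIdef, mem_incs]
    exact ⟨hz.1, fun hs => hzb (mem_nb.1 (hs hb)).2, hz.2⟩
  have hI2 : ∀ z ∈ I, (S \ nb R Y z).card ≤ 2 ∧ (nb R Y z \ S).card ≤ 2 := by
    intro z hz
    rw [hIdef, mem_incs] at hz
    exact ⟨hN x hx z hz.1 (nonempty_sdiff_of_not_subset hz.2.2),
      hN z hz.1 x hx (nonempty_sdiff_of_not_subset hz.2.1)⟩
  have hSY : S ⊆ Y := nb_subset
  -- right-hand companions
  have hcomp : ∀ z ∈ I, ∀ b ∈ S, b ∉ nb R Y z → ∀ b' ∈ nb R Y z, b' ∉ S →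
      (nb (rev R) X b \ nb (rev R) X b').card ≤ 2 ∧ x ∈ nb (rev R) X b \ nb (rev R) X b' := by
    intro z hz b hb hbz b' hb' hb'S
    have hzX : z ∈ X := (mem_incs.1 hz).1
    have hbY : b ∈ Y := hSY hb
    have hb'Y : b' ∈ Y := (mem_nb.1 hb').1
    refine ⟨hN' b hbY b' hb'Y ⟨z, ?_⟩, ?_⟩
    · rw [Finset.mem_sdiff, mem_nb, mem_nb]
      exact ⟨⟨hzX, (mem_nb.1 hb').2⟩, fun h => hbz (mem_nb.2 ⟨hbY, h.2⟩)⟩
    · rw [Finset.mem_sdiff, mem_nb, mem_nb]
      exact ⟨⟨hx, (mem_nb.1 hb).2⟩, fun h => hb'S (mem_nb.2 ⟨hb'Y, h.2⟩)⟩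
  -- claim 1a
  have claim1a : ∀ b ∈ tw R X Y x, ∀ b₁ ∈ S,
      (O.filter (fun z => ¬ R z b₁) \ O.filter (fun z => ¬ R z b)).card ≤ 3 := by
    intro b hb b₁ hb₁
    obtain ⟨z, hz, hbS, hbz⟩ := mem_tw.1 hb
    have hz' := mem_incs.1 hz
    obtain ⟨b', hb'⟩ := nonempty_sdiff_of_not_subset hz'.2.2
    rw [Finset.mem_sdiff] at hb'
    obtain ⟨hc, hxc⟩ := hcomp z hz b hbS hbz b' hb'.1 hb'.2
    have hb'Y : b' ∈ Y := (mem_nb.1 hb'.1).1
    have hc2 : (nb (rev R) X b' \ nb (rev R) X b₁).card ≤ 2 := by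
      refine hN' b' hb'Y b₁ (hSY hb₁) ⟨x, ?_⟩
      rw [Finset.mem_sdiff, mem_nb, mem_nb]
      exact ⟨⟨hx, (mem_nb.1 hb₁).2⟩, fun h => hb'.2 (mem_nb.2 ⟨hb'Y, h.2⟩)⟩
    have hsub : O.filter (fun z => ¬ R z b₁) \ O.filter (fun z => ¬ R z b) ⊆
        (nb (rev R) X b \ nb (rev R) X b').erase x ∪ (nb (rev R) X b' \ nb (rev R) X b₁) := by
      intro w hw
      obtain ⟨hw1', hw2'⟩ := Finset.mem_sdiff.1 hw
      obtain ⟨hwO, hw1⟩ := Finset.mem_filter.1 hw1'
      have hwX : w ∈ X := (Finset.mem_filter.1 hwO).1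
      have hwb : R w b := by
        by_contra h
        exact hw2' (Finset.mem_filter.2 ⟨hwO, h⟩)
      rw [Finset.mem_union, Finset.mem_erase, Finset.mem_sdiff, Finset.mem_sdiff, mem_nb, mem_nb,
        mem_nb]
      by_cases h : R w b'
      · right; exact ⟨⟨hwX, h⟩, fun hh => hw1 hh.2⟩
      · left; exact ⟨fun e => hxO (e ▸ hwO), ⟨hwX, hwb⟩, fun hh => h hh.2⟩
    have h1 := Finset.card_le_card hsub
    have h2 := Finset.card_union_le ((nb (rev R) X b \ nb (rev R) X b').erase x)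
      (nb (rev R) X b' \ nb (rev R) X b₁)
    have h3 := Finset.card_erase_of_mem hxc
    omega
  -- claim 1
  have claim1 : ∀ b ∈ tw R X Y x, (O.filter (fun z => ¬ R z b)).card ≤ 6 := by
    intro b₁ hb₁
    have hb₁S : b₁ ∈ S := by
      obtain ⟨_, _, h, _⟩ := mem_tw.1 hb₁; exact h
    have hcard : 2 ≤ ((tw R X Y x).erase b₁).card := by
      rw [Finset.card_erase_of_mem hb₁]; omega
    obtain ⟨b₂, hb₂, b₃, hb₃, h23⟩ : ∃ b₂ ∈ (tw R X Y x).erase b₁, ∃ b₃ ∈ (tw R X Y x).erase b₁,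
        b₂ ≠ b₃ := Finset.one_lt_card.1 (by omega)
    rw [Finset.mem_erase] at hb₂ hb₃
    have hb₂S : b₂ ∈ S := by
      obtain ⟨_, _, h, _⟩ := mem_tw.1 hb₂.2; exact h
    have hb₃S : b₃ ∈ S := by
      obtain ⟨_, _, h, _⟩ := mem_tw.1 hb₃.2; exact h
    have hsub : O.filter (fun z => ¬ R z b₁) ⊆
        (O.filter (fun z => ¬ R z b₁) \ O.filter (fun z => ¬ R z b₂)) ∪
        (O.filter (fun z => ¬ R z b₁) \ O.filter (fun z => ¬ R z b₃)) := by
      intro w hw
      rw [Finset.mem_union, Finset.mem_sdiff, Finset.mem_sdiff]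
      have hw' := Finset.mem_filter.1 hw
      by_cases h2 : R w b₂
      · left; exact ⟨hw, fun h => (Finset.mem_filter.1 h).2 h2⟩
      · by_cases h3 : R w b₃
        · right; exact ⟨hw, fun h => (Finset.mem_filter.1 h).2 h3⟩
        · exfalso
          have hwI := hOI w hw'.1 b₁ hb₁S hw'.2
          have := (hI2 w hwI).1
          have h3' : ({b₁, b₂, b₃} : Finset β) ⊆ S \ nb R Y w := by
            intro y hy
            simp only [Finset.mem_insert, Finset.mem_singleton] at hy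
            rw [Finset.mem_sdiff]
            rcases hy with rfl | rfl | rfl
            · exact ⟨hb₁S, fun h => hw'.2 (mem_nb.1 h).2⟩
            · exact ⟨hb₂S, fun h => h2 (mem_nb.1 h).2⟩
            · exact ⟨hb₃S, fun h => h3 (mem_nb.1 h).2⟩
          have h4 := Finset.card_le_card h3'
          rw [Finset.card_eq_three.2 ⟨b₁, b₂, b₃, hb₂.1.symm, hb₃.1.symm, h23, rfl⟩] at h4
          omega
    have h1 := Finset.card_le_card hsub
    have h2 := Finset.card_union_le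
      (O.filter (fun z => ¬ R z b₁) \ O.filter (fun z => ¬ R z b₂))
      (O.filter (fun z => ¬ R z b₁) \ O.filter (fun z => ¬ R z b₃))
    have h3 := claim1a b₂ hb₂.2 b₁ hb₁S
    have h4 := claim1a b₃ hb₃.2 b₁ hb₁S
    omega
  -- claim 2
  have claim2 : ∀ b'' ∈ Y, b'' ∉ S → (∃ z ∈ I, R z b'') →
      (O.filter (fun z => ¬ R z b'')).card ≤ 7 := by
    rintro b'' hb''Y hb''S ⟨z, hz, hzb⟩
    have hz' := mem_incs.1 hz
    obtain ⟨b, hb⟩ := nonempty_sdiff_of_not_subset hz'.2.1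
    rw [Finset.mem_sdiff] at hb
    obtain ⟨hc, hxc⟩ := hcomp z hz b hb.1 hb.2 b'' (mem_nb.2 ⟨hb''Y, hzb⟩) hb''S
    have hbtw : b ∈ tw R X Y x := mem_tw.2 ⟨z, hz, hb.1, hb.2⟩
    have h6 := claim1 b hbtw
    have hsub : O.filter (fun z => ¬ R z b'') ⊆ O.filter (fun z => ¬ R z b) ∪
        (nb (rev R) X b \ nb (rev R) X b'').erase x := by
      intro w hw
      rw [Finset.mem_filter] at hw
      have hwX : w ∈ X := (Finset.mem_filter.1 hw.1).1
      rw [Finset.mem_union, Finset.mem_erase, Finset.mem_sdiff, mem_nb, mem_nb, Finset.mem_filter]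
      by_cases h : R w b
      · right; exact ⟨fun e => hxO (e ▸ hw.1), ⟨hwX, h⟩, fun hh => hw.2 hh.2⟩
      · left; exact ⟨hw.1, h⟩
    have h1 := Finset.card_le_card hsub
    have h2 := Finset.card_union_le (O.filter (fun z => ¬ R z b))
      ((nb (rev R) X b \ nb (rev R) X b'').erase x)
    have h3 := Finset.card_erase_of_mem hxc
    omega
  -- the decomposition
  have hdec : ∀ b ∈ Y, b ∉ S → ∃ z ∈ I, R z b := by
    by_contra hcon
    push Not at hcon
    obtain ⟨b₀, hb₀Y, hb₀S, hb₀⟩ := hcon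
    apply hD
    refine ⟨X.filter (fun z => ∀ b ∈ Y, (b ∈ S ∨ ∃ w ∈ I, R w b) → R z b),
      Y.filter (fun b => b ∉ S ∧ ¬ ∃ w ∈ I, R w b), Finset.filter_subset _ _,
      Finset.filter_subset _ _, Or.inr ⟨b₀, ?_⟩, Or.inl ?_, ?_, ?_⟩
    · rw [Finset.mem_filter]
      exact ⟨hb₀Y, hb₀S, fun ⟨w, hw, hr⟩ => hb₀ w hw hr⟩
    · intro e
      have hx' : x ∈ X := hx
      rw [← e, Finset.mem_filter] at hx'
      obtain ⟨z, hz⟩ := Finset.card_pos.1 (by omega : 0 < I.card)
      have hz' := mem_incs.1 hz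
      obtain ⟨b', hb'⟩ := nonempty_sdiff_of_not_subset hz'.2.2
      rw [Finset.mem_sdiff] at hb'
      have := hx'.2 b' (mem_nb.1 hb'.1).1 (Or.inr ⟨z, hz, (mem_nb.1 hb'.1).2⟩)
      exact hb'.2 (mem_nb.2 ⟨(mem_nb.1 hb'.1).1, this⟩)
    · intro a ha b hb hb'
      rw [Finset.mem_filter] at ha
      simp only [iff_true]
      apply ha.2 b hb
      by_contra hn
      rw [not_or] at hn
      exact hb' (Finset.mem_filter.2 ⟨hb, hn⟩)
    · intro b hb a ha ha'
      rw [Finset.mem_filter] at hb ha'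
      obtain ⟨hbY, hbS, hbI⟩ := hb
      constructor
      · intro hr
        exfalso
        apply ha'
        refine ⟨ha, fun b'' hb''Y hb'' => ?_⟩
        have haO : ¬ nb R Y a ⊆ S := fun hs => hbS (hs (mem_nb.2 ⟨hbY, hr⟩))
        have haI : a ∉ I := fun h => hbI ⟨a, h, hr⟩
        have hSa : S ⊆ nb R Y a := by
          by_contra hn
          exact haI (mem_incs.2 ⟨ha, hn, haO⟩)
        rcases hb'' with hb'' | hb''
        · exact (mem_nb.1 (hSa hb'')).2
        · by_cases hb''S : b'' ∈ S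
          · exact (mem_nb.1 (hSa hb''S)).2
          · have h7 := claim2 b'' hb''Y hb''S hb''
            by_contra hab
            have hle := hN' b'' hb''Y b hbY ⟨a, by
              rw [Finset.mem_sdiff, mem_nb, mem_nb]
              exact ⟨⟨ha, hr⟩, fun h => hab h.2⟩⟩
            have hsub : I \ O.filter (fun z => ¬ R z b'') ⊆
                nb (rev R) X b'' \ nb (rev R) X b := by
              intro w hw
              rw [Finset.mem_sdiff, Finset.mem_filter, not_and, not_not] at hw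
              rw [Finset.mem_sdiff, mem_nb, mem_nb]
              exact ⟨⟨(mem_incs.1 hw.1).1, hw.2 (hIO hw.1)⟩, fun h => hbI ⟨w, hw.1, h.2⟩⟩
            have h1 := Finset.card_le_card hsub
            have h2 := Finset.le_card_sdiff (O.filter (fun z => ¬ R z b'')) I
            omega
      · intro hf; simp at hf
  -- contradiction
  obtain ⟨b₁, hb₁, b₂, hb₂, b₃, hb₃, h12, h13, h23⟩ :=
    Finset.two_lt_card.1 (by omega : 2 < (Y \ S).card)
  rw [Finset.mem_sdiff] at hb₁ hb₂ hb₃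
  have c1 := claim2 b₁ hb₁.1 hb₁.2 (hdec b₁ hb₁.1 hb₁.2)
  have c2 := claim2 b₂ hb₂.1 hb₂.2 (hdec b₂ hb₂.1 hb₂.2)
  have c3 := claim2 b₃ hb₃.1 hb₃.2 (hdec b₃ hb₃.1 hb₃.2)
  have hex : ∃ z ∈ I, R z b₁ ∧ R z b₂ ∧ R z b₃ := by
    by_contra hn
    push Not at hn
    have hsub : I ⊆ O.filter (fun z => ¬ R z b₁) ∪ O.filter (fun z => ¬ R z b₂) ∪
        O.filter (fun z => ¬ R z b₃) := by
      intro z hz
      have hzO := hIO hz
      by_cases h1 : R z b₁
      · by_cases h2 : R z b₂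
        · exact Finset.mem_union_right _ (Finset.mem_filter.2 ⟨hzO, hn z hz h1 h2⟩)
        · exact Finset.mem_union_left _
            (Finset.mem_union_right _ (Finset.mem_filter.2 ⟨hzO, h2⟩))
      · exact Finset.mem_union_left _ (Finset.mem_union_left _ (Finset.mem_filter.2 ⟨hzO, h1⟩))
    have h1 := Finset.card_le_card hsub
    have h2 := Finset.card_union_le (O.filter (fun z => ¬ R z b₁) ∪ O.filter (fun z => ¬ R z b₂))
      (O.filter (fun z => ¬ R z b₃))
    have h3 := Finset.card_union_le (O.filter (fun z => ¬ R z b₁)) (O.filter (fun z => ¬ R z b₂))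
    omega
  obtain ⟨z, hz, h1, h2, h3⟩ := hex
  have hcard := (hI2 z hz).2
  have h3' : ({b₁, b₂, b₃} : Finset β) ⊆ nb R Y z \ S := by
    intro y hy
    simp only [Finset.mem_insert, Finset.mem_singleton] at hy
    rw [Finset.mem_sdiff, mem_nb]
    rcases hy with rfl | rfl | rfl
    · exact ⟨⟨hb₁.1, h1⟩, hb₁.2⟩
    · exact ⟨⟨hb₂.1, h2⟩, hb₂.2⟩
    · exact ⟨⟨hb₃.1, h3⟩, hb₃.2⟩
  have h4 := Finset.card_le_card h3'
  rw [Finset.card_eq_three.2 ⟨b₁, b₂, b₃, h12, h13, h23, rfl⟩] at h4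
  omega

end Pool.Agent.LinCW
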