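import Pool.Agent.LinCW55.Near

set_option autoImplicit false

/-!
# `(K_{1,3}+P_2)`-free bipartite graphs have good orders
-/

namespace Pool.Agent.LinCW

open Classical

variable {α β : Type} {R : α → β → Prop} {d d' d₁ d₂ : Bool} {k m : ℕ}
  {X : Finset α} {Y : Finset β} {P : Finset α} {Q : Finset β}

lemma near_rev_co (h : Near (rev R) Y X) : Near (rev (co R)) Y X := Near.co h

lemma not_dec_co (hD : ¬ Dec R true false X Y) : ¬ Dec (co R) true false X Y := by
  intro h
  apply hD
  have := h.compl
  simp only [not_not, Bool.not_true, Bool.not_false] at this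
  exact this.symm

lemma nb_injOn (hT : TwinFree R X Y) {a a' : α} (ha : a ∈ X) (ha' : a' ∈ X)
    (h : nb R Y a = nb R Y a') : a = a' := by
  refine hT a ha a' ha' fun b hb => ?_
  have := Finset.ext_iff.1 h b
  rw [mem_nb, mem_nb] at this
  exact ⟨fun hr => (this.1 ⟨hb, hr⟩).2, fun hr => (this.2 ⟨hb, hr⟩).2⟩

lemma TwinFree.co (hT : TwinFree R X Y) : TwinFree (co R) X Y := by
  intro a ha a' ha' h
  refine hT a ha a' ha' fun b hb => ?_
  exact not_iff_not.1 (h b hb)

/-- A medium vertex is incomparable to at most 21 others. -/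
lemma incs_card_le {x : α} (hx : x ∈ X) (hdeg : 3 ≤ (nb R Y x).card)
    (hco : 3 ≤ (Y \ nb R Y x).card)
    (hN : Near R X Y) (hN' : Near (rev R) Y X) (hD : ¬ Dec R true false X Y)
    (hT : TwinFree R X Y) : (incs R X Y x).card ≤ 21 := by
  rcases tw_card_le hx hco hN hN' hD with h1 | h1
  · have h2 := tw_card_le (R := co R) hx (by
      rw [nb_co, Finset.sdiff_sdiff_eq_self nb_subset]; exact hdeg) hN.co (near_rev_co hN')
      (not_dec_co hD)
    rcases h2 with h2 | h2
    · have hcard : (incs R X Y x).card ≤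
          ((tw R X Y x).powerset ×ˢ (tw (co R) X Y x).powerset).card := by
        refine Finset.card_le_card_of_injOn
          (fun z => (nb R Y x \ nb R Y z, nb R Y z \ nb R Y x)) ?_ ?_
        · intro z hz
          have hz : z ∈ incs R X Y x := hz
          simp only [Finset.coe_product, Set.mem_prod, Finset.mem_coe, Finset.mem_powerset]
          constructor
          · intro b hb
            rw [Finset.mem_sdiff] at hb
            exact mem_tw.2 ⟨z, hz, hb.1, hb.2⟩
          · intro b hb
            refine mem_tw.2 ⟨z, by rw [incs_co]; exact hz, ?_⟩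
            rw [← Finset.mem_sdiff, nb_co_sdiff]
            exact hb
        · intro z hz w hw h
          have hz : z ∈ incs R X Y x := hz
          have hw : w ∈ incs R X Y x := hw
          simp only [Prod.mk.injEq] at h
          refine nb_injOn hT (mem_incs.1 hz).1 (mem_incs.1 hw).1 ?_
          have e1 := Finset.ext_iff.1 h.1
          have e2 := Finset.ext_iff.1 h.2
          ext b
          have e1 := e1 b
          have e2 := e2 b
          simp only [Finset.mem_sdiff] at e1 e2
          tauto
      rw [Finset.card_product, Finset.card_powerset, Finset.card_powerset] at hcard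
      have h3 : 2 ^ (tw R X Y x).card ≤ 2 ^ 2 := Nat.pow_le_pow_right (by norm_num) h1
      have h4 : 2 ^ (tw (co R) X Y x).card ≤ 2 ^ 2 := Nat.pow_le_pow_right (by norm_num) h2
      have h5 := Nat.mul_le_mul h3 h4
      omega
    · rwa [incs_co] at h2
  · exact h1

/-- The vertices of degree at most two are few. -/
lemma small_card_le (hN : Near R X Y) (hD : ¬ Dec R true false X Y)
    (hT : TwinFree R X Y) (hY : 6 ≤ Y.card)
    (hinc : ∀ x ∈ X, 3 ≤ (nb R Y x).card → 3 ≤ (Y \ nb R Y x).card →
      (incs R X Y x).card ≤ 21)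
    (hex : ∃ a ∈ X, ¬ (nb R Y a).card ≤ 2) :
    (X.filter fun a => (nb R Y a).card ≤ 2).card ≤ 29 := by
  set Z := X.filter fun a => (nb R Y a).card ≤ 2 with hZ
  by_cases hZe : Z.Nonempty
  · -- there is a larger vertex not containing some small one
    have key : ∃ x ∈ X, x ∉ Z ∧ ∃ z ∈ Z, ¬ nb R Y z ⊆ nb R Y x := by
      by_contra hcon
      push Not at hcon
      apply hD
      refine ⟨X \ Z, Y \ Z.biUnion (nb R Y), Finset.sdiff_subset, Finset.sdiff_subset,
        Or.inl ?_, Or.inl ?_, ?_, ?_⟩
      · obtain ⟨a, ha, ha'⟩ := hex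
        exact ⟨a, Finset.mem_sdiff.2 ⟨ha, fun h => ha' (Finset.mem_filter.1 h).2⟩⟩
      · intro e
        obtain ⟨z, hz⟩ := hZe
        have : z ∈ X := (Finset.mem_filter.1 hz).1
        rw [← e] at this
        exact (Finset.mem_sdiff.1 this).2 hz
      · intro a ha b hb hb'
        simp only [iff_true]
        rw [Finset.mem_sdiff] at ha
        have hbU : b ∈ Z.biUnion (nb R Y) := by
          by_contra h
          exact hb' (Finset.mem_sdiff.2 ⟨hb, h⟩)
        obtain ⟨z, hz, hbz⟩ := Finset.mem_biUnion.1 hbU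
        exact (mem_nb.1 (hcon a ha.1 ha.2 z hz hbz)).2
      · intro b hb a ha ha'
        rw [Finset.mem_sdiff] at hb
        have haZ : a ∈ Z := by
          by_contra h
          exact ha' (Finset.mem_sdiff.2 ⟨ha, h⟩)
        constructor
        · intro hr
          exact absurd (Finset.mem_biUnion.2 ⟨a, haZ, mem_nb.2 ⟨hb.1, hr⟩⟩) hb.2
        · intro hf; simp at hf
    obtain ⟨x, hx, hxZ, z, hz, hzx⟩ := key
    have hz' := Finset.mem_filter.1 hz
    have hx3 : 3 ≤ (nb R Y x).card := by
      by_contra h
      exact hxZ (Finset.mem_filter.2 ⟨hx, by omega⟩)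
    have h1 := hN x hx z hz'.1 (nonempty_sdiff_of_not_subset hzx)
    have h2 := Finset.card_sdiff_add_card_inter (nb R Y x) (nb R Y z)
    have h3 := Finset.card_sdiff_add_card_inter (nb R Y z) (nb R Y x)
    have h4 : 0 < (nb R Y z \ nb R Y x).card :=
      Finset.card_pos.2 (nonempty_sdiff_of_not_subset hzx)
    rw [Finset.inter_comm] at h3
    have hx3' : (nb R Y x).card = 3 := by
      have := hz'.2
      omega
    have hco : 3 ≤ (Y \ nb R Y x).card := by
      rw [Finset.card_sdiff_of_subset nb_subset]; omega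
    have h21 := hinc x hx hx3 hco
    have hsub : Z ⊆ (X.filter fun z => nb R Y z ⊆ nb R Y x) ∪ incs R X Y x := by
      intro w hw
      have hw' := Finset.mem_filter.1 hw
      rw [Finset.mem_union, Finset.mem_filter, mem_incs]
      by_cases h : nb R Y w ⊆ nb R Y x
      · left; exact ⟨hw'.1, h⟩
      · right
        refine ⟨hw'.1, fun hs => ?_, h⟩
        have := Finset.card_le_card hs
        have := hw'.2
        omega
    have h8 : (X.filter fun z => nb R Y z ⊆ nb R Y x).card ≤ 8 := by
      have : (X.filter fun z => nb R Y z ⊆ nb R Y x).card ≤ (nb R Y x).powerset.card := by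
        refine Finset.card_le_card_of_injOn (nb R Y) ?_ ?_
        · intro w hw
          have hw : w ∈ X.filter fun z => nb R Y z ⊆ nb R Y x := hw
          exact Finset.mem_coe.2 (Finset.mem_powerset.2 (Finset.mem_filter.1 hw).2)
        · intro w hw w' hw' h
          have hw : w ∈ X.filter fun z => nb R Y z ⊆ nb R Y x := hw
          have hw' : w' ∈ X.filter fun z => nb R Y z ⊆ nb R Y x := hw'
          exact nb_injOn hT (Finset.mem_filter.1 hw).1 (Finset.mem_filter.1 hw').1 h
      rw [Finset.card_powerset, hx3'] at this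
      exact this
    have h9 := Finset.card_le_card hsub
    have h10 := Finset.card_union_le (X.filter fun z => nb R Y z ⊆ nb R Y x) (incs R X Y x)
    omega
  · rw [Finset.not_nonempty_iff_eq_empty] at hZe
    rw [hZe]; simp

/-- The case of a medium vertex. -/
lemma good_of_medium (hN : Near R X Y) (hN' : Near (rev R) Y X) (hD : ¬ Dec R true false X Y)
    (hT : TwinFree R X Y) {x : α} (hx : x ∈ X) (hdeg : ¬ (nb R Y x).card ≤ 2)
    (hco : ¬ (nb (co R) Y x).card ≤ 2) :
    Good R true false ((21 + 21 * 21 + 1) * (58 + 1)) X Y := by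
  have hco' : 3 ≤ (Y \ nb R Y x).card := by rw [← nb_co]; omega
  have hY6 : 6 ≤ Y.card := by
    have := card_nb_add_co (R := R) (Y := Y) x
    omega
  have hinc : ∀ x ∈ X, 3 ≤ (nb R Y x).card → 3 ≤ (Y \ nb R Y x).card →
      (incs R X Y x).card ≤ 21 := fun x hx h1 h2 => incs_card_le hx h1 h2 hN hN' hD hT
  have hs := small_card_le hN hD hT hY6 hinc ⟨x, hx, hdeg⟩
  have hb := small_card_le (R := co R) hN.co (not_dec_co hD) hT.co hY6 (by
    intro y hy h1 h2
    rw [incs_co]
    rw [nb_co] at h1
    rw [nb_co, Finset.sdiff_sdiff_eq_self nb_subset] at h2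
    exact hinc y hy h2 h1) ⟨x, hx, hco⟩
  set Z := (X.filter fun a => (nb R Y a).card ≤ 2) ∪ (X.filter fun a => (nb (co R) Y a).card ≤ 2)
    with hZ
  have hZc : Z.card ≤ 58 := by
    rw [hZ]
    exact (Finset.card_union_le _ _).trans (by omega)
  have hZX : Z ⊆ X := Finset.union_subset (Finset.filter_subset _ _) (Finset.filter_subset _ _)
  have hg : Good R true false (21 + 21 * 21) (X \ Z) Y := by
    refine good_of_incomparable 21 fun a ha => ?_
    rw [Finset.mem_sdiff, hZ, Finset.mem_union, not_or, Finset.mem_filter, Finset.mem_filter,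
      not_and, not_and] at ha
    obtain ⟨haX, h1, h2⟩ := ha
    have h1 := h1 haX
    have h2 := h2 haX
    refine (Finset.card_le_card ?_).trans (hinc a haX (by omega) (by rw [← nb_co]; omega))
    intro z hz
    rw [Finset.mem_filter] at hz
    exact mem_incs.2 ⟨(Finset.mem_sdiff.1 hz.1).1, hz.2⟩
  exact Good.addA_card hZX hZc hg

/-- Near graphs have good orders. -/
theorem good_of_near (hN : Near R X Y) (hN' : Near (rev R) Y X) :
    Good R true false ((21 + 21 * 21 + 1) * (58 + 1) + 1) X Y := by
  refine good_of_prime (fun X Y => Near R X Y ∧ Near (rev R) Y X)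
    (fun X Y X' Y' hX hY h => ⟨h.1.mono hX hY, h.2.mono hY hX⟩) ?_ X Y ⟨hN, hN'⟩
  rintro X Y ⟨hN, hN'⟩ hD hT hT'
  by_cases hA : ∀ a ∈ X, (nb R Y a).card ≤ 2 ∨ (nb (co R) Y a).card ≤ 2
  · by_cases hB : ∀ b ∈ Y, (nb (rev R) X b).card ≤ 2 ∨ (nb (co (rev R)) X b).card ≤ 2
    · exact (good_of_extreme hA hB).change.mono (by norm_num)
    · push Not at hB
      obtain ⟨b, hb, h1, h2⟩ := hB
      have hD' : ¬ Dec (rev R) true false Y X := fun h => hD h.flip.symm.symm.symm
      have := good_of_medium (R := rev R) hN' hN hD' hT' hb (by omega) (by omega)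
      exact this.flip.change
  · push Not at hA
    obtain ⟨a, ha, h1, h2⟩ := hA
    exact (good_of_medium hN hN' hD hT ha (by omega) (by omega)).mono (by omega)

end Pool.Agent.LinCW
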