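import Pool.Agent.LinCW55.Grid
import Pool.Agent.LinCW55.Laminar

set_option autoImplicit false

/-!
# The thirteen obstructions and the families avoiding them
-/

namespace Pool.Agent.LinCW

open SimpleGraph Classical

variable {V : Type} {G : SimpleGraph V}

/-- Adjacency in the pattern with edge list `E`. -/
def padj (E : List (ℕ × ℕ)) (i j : ℕ) : Bool := E.contains (i, j) || E.contains (j, i)

/-- The pattern on `n` vertices with edge list `E` occurs in `G` as an induced subgraph. -/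
def Occ (n : ℕ) (E : List (ℕ × ℕ)) (G : SimpleGraph V) : Prop :=
  ∃ g : Fin n → V, Function.Injective g ∧ ∀ i j : Fin n, (G.Adj (g i) (g j) ↔ padj E i j = true)

lemma Occ.trans {n : ℕ} {E : List (ℕ × ℕ)} {W : Type} {H : SimpleGraph W} (h : Occ n E H)
    (h' : H ⊴ G) : Occ n E G := by
  obtain ⟨g, hg, hadj⟩ := h
  obtain ⟨φ⟩ := h'
  refine ⟨φ ∘ g, φ.injective.comp hg, fun i j => ?_⟩
  rw [← hadj i j]
  exact φ.map_adj_iff

/-! ### Walls -/

lemma winc_same {m : ℕ} {s : Bool} {x y : Fin m × Fin m} {p : Fin 3 × Fin m × Fin m}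
    (h1 : winc m (s, x) p) (h2 : winc m (s, y) p) : x = y := by
  obtain ⟨x1, x2⟩ := x
  obtain ⟨y1, y2⟩ := y
  obtain ⟨e, p1, p2⟩ := p
  simp only [winc, Prod.mk.injEq, Fin.ext_iff] at h1 h2 ⊢
  have h0' : ((0 : Fin 3) : ℕ) = 0 := rfl
  have h1' : ((1 : Fin 3) : ℕ) = 1 := rfl
  have h2' : ((2 : Fin 3) : ℕ) = 2 := rfl
  rw [h0', h1', h2'] at h1 h2
  cases s
  · simp only [Bool.false_eq_true, false_and, true_and, false_or] at h1 h2
    omega
  · simp only [true_and, Bool.true_eq_false, false_and, or_false] at h1 h2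
    omega

lemma winc_edge {m : ℕ} {x y : Fin m × Fin m} {p q : Fin 3 × Fin m × Fin m}
    (h1 : winc m (true, x) p) (h2 : winc m (true, x) q) (h3 : winc m (false, y) p)
    (h4 : winc m (false, y) q) : p = q := by
  obtain ⟨x1, x2⟩ := x
  obtain ⟨y1, y2⟩ := y
  obtain ⟨e, p1, p2⟩ := p
  obtain ⟨e', q1, q2⟩ := q
  simp only [winc, Prod.mk.injEq, Fin.ext_iff, Bool.false_eq_true, false_and, true_and, false_or,
    Bool.true_eq_false, or_false] at h1 h2 h3 h4 ⊢
  have h0' : ((0 : Fin 3) : ℕ) = 0 := rfl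
  have h1' : ((1 : Fin 3) : ℕ) = 1 := rfl
  have h2' : ((2 : Fin 3) : ℕ) = 2 := rfl
  rw [h0', h1', h2'] at h3 h4
  omega

lemma winc_c4 {m : ℕ} {x y : Bool × Fin m × Fin m} {p q : Fin 3 × Fin m × Fin m}
    (h1 : winc m x p) (h2 : winc m y p) (h3 : winc m y q) (h4 : winc m x q) (hxy : x ≠ y)
    (hpq : p ≠ q) : False := by
  obtain ⟨s, x⟩ := x
  obtain ⟨s', y⟩ := y
  cases s <;> cases s'
  · exact hxy (by rw [winc_same h1 h2])
  · exact hpq (winc_edge h2 h3 h1 h4)
  · exact hpq (winc_edge h1 h4 h2 h3)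
  · exact hxy (by rw [winc_same h1 h2])

lemma wall_c4 {m : ℕ} {a b c d : WV m} (h1 : (wall m).Adj a b) (h2 : (wall m).Adj b c)
    (h3 : (wall m).Adj c d) (h4 : (wall m).Adj d a) (hac : a ≠ c) (hbd : b ≠ d) : False := by
  rcases a with a | a <;> rcases b with b | b
  · exact h1
  · rcases c with c | c
    · rcases d with d | d
      · exact h3
      · exact winc_c4 h1 h2 h3 h4 (fun h => hac (by rw [h])) (fun h => hbd (by rw [h]))
    · exact h2
  · rcases c with c | c
    · exact h2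
    · rcases d with d | d
      · exact winc_c4 h2 h3 h4 h1 (fun h => hbd (by rw [h])) (fun h => hac (by rw [h]))
      · exact h3
  · exact h1

lemma winc_c6 {m : ℕ} {x y z : Bool × Fin m × Fin m} {p q r : Fin 3 × Fin m × Fin m}
    (h1 : winc m x p) (h2 : winc m y p) (h3 : winc m y q) (h4 : winc m z q) (h5 : winc m z r)
    (h6 : winc m x r) (hxy : x ≠ y) (hyz : y ≠ z) (hxz : x ≠ z) : False := by
  obtain ⟨s, x⟩ := x
  obtain ⟨s', y⟩ := y
  obtain ⟨s'', z⟩ := z
  have e1 : s ≠ s' := by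
    rintro rfl
    exact hxy (by rw [winc_same h1 h2])
  have e2 : s' ≠ s'' := by
    rintro rfl
    exact hyz (by rw [winc_same h3 h4])
  have e3 : s ≠ s'' := by
    rintro rfl
    exact hxz (by rw [winc_same h6 h5])
  cases s <;> cases s' <;> cases s'' <;> simp_all

lemma wall_c6 {m : ℕ} {a b c d e f : WV m} (h1 : (wall m).Adj a b) (h2 : (wall m).Adj b c)
    (h3 : (wall m).Adj c d) (h4 : (wall m).Adj d e) (h5 : (wall m).Adj e f)
    (h6 : (wall m).Adj f a) (hac : a ≠ c) (hce : c ≠ e) (hae : a ≠ e) (hbd : b ≠ d)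
    (hdf : d ≠ f) (hbf : b ≠ f) : False := by
  rcases a with a | a
  · rcases b with b | b
    · exact h1
    rcases c with c | c
    · rcases d with d | d
      · exact h3
      rcases e with e | e
      · rcases f with f | f
        · exact h5
        exact winc_c6 h1 h2 h3 h4 h5 h6 (fun h => hac (by rw [h])) (fun h => hce (by rw [h]))
          (fun h => hae (by rw [h]))
      · exact h4
    · exact h2
  · rcases b with b | b
    · rcases c with c | c
      · exact h2
      rcases d with d | d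
      · rcases e with e | e
        · exact h4
        rcases f with f | f
        · exact winc_c6 h2 h3 h4 h5 h6 h1 (fun h => hbd (by rw [h])) (fun h => hdf (by rw [h]))
            (fun h => hbf (by rw [h]))
        · exact h5
      · exact h3
    · exact h1

lemma wall_k14 {m : ℕ} {v a b c d : WV m} (h1 : (wall m).Adj v a) (h2 : (wall m).Adj v b)
    (h3 : (wall m).Adj v c) (h4 : (wall m).Adj v d) (hab : a ≠ b) (hac : a ≠ c) (had : a ≠ d)
    (hbc : b ≠ c) (hbd : b ≠ d) (hcd : c ≠ d) : False := by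
  have := wall_deg v {a, b, c, d} (by
    intro x hx
    simp only [Finset.mem_insert, Finset.mem_singleton] at hx
    rcases hx with rfl | rfl | rfl | rfl
    · exact h1.symm
    · exact h2.symm
    · exact h3.symm
    · exact h4.symm)
  rw [Finset.card_insert_of_notMem (by simp [hab, hac, had]),
    Finset.card_insert_of_notMem (by simp [hbc, hbd]), Finset.card_pair hcd] at this
  omega

lemma wall_inr {m : ℕ} {p : Fin 3 × Fin m × Fin m} {a b c : WV m}
    (h1 : (wall m).Adj (Sum.inr p) a) (h2 : (wall m).Adj (Sum.inr p) b)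
    (h3 : (wall m).Adj (Sum.inr p) c) (hab : a ≠ b) (hac : a ≠ c) (hbc : b ≠ c) : False := by
  obtain ⟨x, y, hxy⟩ := wall_deg_inr p
  rcases hxy a h1.symm with rfl | rfl <;> rcases hxy b h2.symm with rfl | rfl <;>
    rcases hxy c h3.symm with rfl | rfl <;> simp_all

lemma wall_ds {m : ℕ} {u v a b c d : WV m} (huv : (wall m).Adj u v) (h1 : (wall m).Adj u a)
    (h2 : (wall m).Adj u b) (h3 : (wall m).Adj v c) (h4 : (wall m).Adj v d) (hab : a ≠ b)
    (hav : a ≠ v) (hbv : b ≠ v) (hcd : c ≠ d) (hcu : c ≠ u) (hdu : d ≠ u) : False := by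
  rcases u with u | u
  · rcases v with v | v
    · exact huv
    · exact wall_inr huv.symm h3 h4 (Ne.symm hcu) (Ne.symm hdu) hcd
  · exact wall_inr huv h1 h2 (Ne.symm hav) (Ne.symm hbv) hab

/-! ### The bicomplement -/

/-- The bipartite complement with respect to the sides `s`. -/
def bcg (G : SimpleGraph V) (s : V → Bool) : SimpleGraph V where
  Adj u v := s u ≠ s v ∧ ¬ G.Adj u v
  symm := ⟨fun _ _ h => ⟨h.1.symm, fun h' => h.2 h'.symm⟩⟩
  loopless := ⟨fun _ h => h.1 rfl⟩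

lemma bcg_isBipartite (s : V → Bool) : (bcg G s).IsBipartite := by
  refine ⟨Coloring.mk (fun v => if s v then 0 else 1) ?_⟩
  intro u v h
  have := h.1
  cases hu : s u <;> cases hv : s v <;> simp_all

lemma TimeLE.of_bcg {s : V → Bool} (hs : ∀ u v, G.Adj u v → s u ≠ s v) {k : ℕ}
    (h : TimeLE (bcg G s) k) : TimeLE G (k * 2) := by
  obtain ⟨f, hf, hc⟩ := h
  refine ⟨f, hf, fun t => ?_⟩
  obtain ⟨c, hc⟩ := hc t
  refine ⟨fun v => finProdFinEquiv (c v, if s v then (0 : Fin 2) else 1), ?_⟩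
  intro u v hu hv huv w hw
  have h1 := finProdFinEquiv.injective huv
  rw [Prod.mk.injEq] at h1
  have h2 : s u = s v := by
    have := h1.2
    cases hu : s u <;> cases hv : s v <;> simp_all
  have h3 := hc u v hu hv h1.1 w hw
  have h4 : ∀ x, G.Adj x w ↔ (s x ≠ s w ∧ ¬ (bcg G s).Adj x w) := by
    intro x
    constructor
    · intro h
      exact ⟨hs x w h, fun h' => h'.2 h⟩
    · rintro ⟨h5, h6⟩
      by_contra h7
      exact h6 ⟨h5, h7⟩
  rw [h4 u, h4 v, h2, h3]

/-- The bicomplement of a pattern. -/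
def bcm (E : List (ℕ × ℕ)) (s : Fin 6 → Bool) (i j : Fin 6) : Bool :=
  (s i != s j) && !(padj E i j)

/-- Every bicomplement of the pattern contains a cycle of length four or a vertex of degree
four. -/
def Bad46 (E : List (ℕ × ℕ)) : Prop :=
  ∀ s0 s1 s2 s3 s4 s5 : Bool,
    (∃ i j : Fin 6, padj E i j = true ∧
      ![s0, s1, s2, s3, s4, s5] i = ![s0, s1, s2, s3, s4, s5] j) ∨
    (∃ a b c d : Fin 6, a ≠ c ∧ b ≠ d ∧ bcm E ![s0, s1, s2, s3, s4, s5] a b = true ∧
      bcm E ![s0, s1, s2, s3, s4, s5] b c = true ∧ bcm E ![s0, s1, s2, s3, s4, s5] c d = true ∧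
      bcm E ![s0, s1, s2, s3, s4, s5] d a = true) ∨
    (∃ v a b c d : Fin 6, a < b ∧ b < c ∧ c < d ∧ bcm E ![s0, s1, s2, s3, s4, s5] v a = true ∧
      bcm E ![s0, s1, s2, s3, s4, s5] v b = true ∧ bcm E ![s0, s1, s2, s3, s4, s5] v c = true ∧
      bcm E ![s0, s1, s2, s3, s4, s5] v d = true)

instance (E : List (ℕ × ℕ)) : Decidable (Bad46 E) := by
  unfold Bad46
  infer_instance

/-- Sides of the wall. -/
def wside {m : ℕ} (v : WV m) : Bool := v.isLeft

lemma bcm_adj {s : V → Bool} {E : List (ℕ × ℕ)} {g : Fin 6 → V}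
    (hadj : ∀ i j : Fin 6, ((bcg G s).Adj (g i) (g j) ↔ padj E i j = true))
    {i j : Fin 6} (h : bcm E (fun i => s (g i)) i j = true) : G.Adj (g i) (g j) := by
  simp only [bcm, Bool.and_eq_true, bne_iff_ne, ne_eq, Bool.not_eq_true'] at h
  by_contra h'
  have := (hadj i j).1 ⟨h.1, h'⟩
  rw [this] at h
  exact Bool.noConfusion h.2

lemma not_occ_bcg_wall {m : ℕ} {E : List (ℕ × ℕ)} (hE : Bad46 E) :
    ¬ Occ 6 E (bcg (wall m) wside) := by
  rintro ⟨g, hg, hadj⟩
  have hs : (fun i => wside (g i)) = ![wside (g 0), wside (g 1), wside (g 2), wside (g 3),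
      wside (g 4), wside (g 5)] := by
    funext i
    fin_cases i <;> rfl
  rcases hE (wside (g 0)) (wside (g 1)) (wside (g 2)) (wside (g 3)) (wside (g 4))
    (wside (g 5)) with ⟨i, j, h1, h2⟩ | ⟨a, b, c, d, hac, hbd, h1, h2, h3, h4⟩ |
    ⟨v, a, b, c, d, hab, hbc, hcd, h1, h2, h3, h4⟩
  · rw [← hs] at h2
    exact ((hadj i j).2 h1).1 h2
  · rw [← hs] at h1 h2 h3 h4
    exact wall_c4 (bcm_adj hadj h1) (bcm_adj hadj h2) (bcm_adj hadj h3) (bcm_adj hadj h4)
      (hg.ne hac) (hg.ne hbd)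
  · rw [← hs] at h1 h2 h3 h4
    exact wall_k14 (bcm_adj hadj h1) (bcm_adj hadj h2) (bcm_adj hadj h3) (bcm_adj hadj h4)
      (hg.ne hab.ne) (hg.ne (hab.trans hbc).ne) (hg.ne (hab.trans (hbc.trans hcd)).ne)
      (hg.ne hbc.ne) (hg.ne (hbc.trans hcd).ne) (hg.ne hcd.ne)

/-- The co-wall has no three independent edges. -/
lemma not_occ_3P2 {m : ℕ} : ¬ Occ 6 [(0, 1), (2, 3), (4, 5)] (bcg (wall m) wside) := by
  rintro ⟨g, hg, hadj⟩
  have key : ∀ i j : Fin 6, padj [(0, 1), (2, 3), (4, 5)] i j = true →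
      ∃ x y : WV m, wside x = true ∧ wside y = false ∧
        ((x = g i ∧ y = g j) ∨ (x = g j ∧ y = g i)) := by
    intro i j hij
    have h1 := ((hadj i j).2 hij).1
    cases hi : wside (g i) <;> cases hj : wside (g j)
    · exact absurd (hi.trans hj.symm) h1
    · exact ⟨g j, g i, hj, hi, Or.inr ⟨rfl, rfl⟩⟩
    · exact ⟨g i, g j, hi, hj, Or.inl ⟨rfl, rfl⟩⟩
    · exact absurd (hi.trans hj.symm) h1
  have hne : ∀ i j : Fin 6, padj [(0, 1), (2, 3), (4, 5)] i j = false →
      ∀ x y : WV m, x = g i → y = g j → wside x = true → wside y = false →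
      (wall m).Adj x y := by
    rintro i j hij x y rfl rfl hx hy
    by_contra h
    have := (hadj i j).1 ⟨by rw [hx, hy]; decide, h⟩
    rw [hij] at this
    exact Bool.noConfusion this
  obtain ⟨x₁, y₁, hx₁, hy₁, h1⟩ := key 0 1 rfl
  obtain ⟨x₂, y₂, hx₂, hy₂, h2⟩ := key 2 3 rfl
  obtain ⟨x₃, y₃, hx₃, hy₃, h3⟩ := key 4 5 rfl
  have d1 : x₁ ≠ x₂ ∧ y₁ ≠ y₂ ∧ (wall m).Adj x₁ y₂ ∧ (wall m).Adj x₂ y₁ := by
    rcases h1 with ⟨e1, e1'⟩ | ⟨e1, e1'⟩ <;> rcases h2 with ⟨e2, e2'⟩ | ⟨e2, e2'⟩ <;>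
      refine ⟨?_, ?_, hne _ _ (by decide) _ _ e1 e2' hx₁ hy₂,
        hne _ _ (by decide) _ _ e2 e1' hx₂ hy₁⟩ <;> simp only [e1, e1', e2, e2'] <;>
      exact hg.ne (by decide)
  have d2 : x₁ ≠ x₃ ∧ y₁ ≠ y₃ ∧ (wall m).Adj x₁ y₃ ∧ (wall m).Adj x₃ y₁ := by
    rcases h1 with ⟨e1, e1'⟩ | ⟨e1, e1'⟩ <;> rcases h3 with ⟨e2, e2'⟩ | ⟨e2, e2'⟩ <;>
      refine ⟨?_, ?_, hne _ _ (by decide) _ _ e1 e2' hx₁ hy₃,
        hne _ _ (by decide) _ _ e2 e1' hx₃ hy₁⟩ <;> simp only [e1, e1', e2, e2'] <;>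
      exact hg.ne (by decide)
  have d3 : x₂ ≠ x₃ ∧ y₂ ≠ y₃ ∧ (wall m).Adj x₂ y₃ ∧ (wall m).Adj x₃ y₂ := by
    rcases h2 with ⟨e1, e1'⟩ | ⟨e1, e1'⟩ <;> rcases h3 with ⟨e2, e2'⟩ | ⟨e2, e2'⟩ <;>
      refine ⟨?_, ?_, hne _ _ (by decide) _ _ e1 e2' hx₂ hy₃,
        hne _ _ (by decide) _ _ e2 e1' hx₃ hy₂⟩ <;> simp only [e1, e1', e2, e2'] <;>
      exact hg.ne (by decide)
  obtain ⟨a1, a2, a3, a4⟩ := d1
  obtain ⟨b1, b2, b3, b4⟩ := d2
  obtain ⟨c1, c2, c3, c4⟩ := d3
  exact wall_c6 (a := x₁) (b := y₂) (c := x₃) (d := y₁) (e := x₂) (f := y₃) a3 c4.symm b4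
    a4.symm c3 b3.symm b1 (Ne.symm c1) a1 (Ne.symm a2) b2 c2

lemma bad_P2_4P1 : Bad46 [(0, 1)] := by decide +kernel

lemma bad_2P2_2P1 : Bad46 [(0, 1), (2, 3)] := by decide +kernel

lemma bad_P4_2P1 : Bad46 [(0, 1), (1, 2), (2, 3)] := by decide +kernel

/-! ### Laminar graphs -/

/-- Sides of the laminar graph. -/
noncomputable def lside {n : ℕ} (v : LV n) : Bool := decide (isLeaf v)

lemma lside_adj {n : ℕ} (u v : LV n) (h : (lam n).Adj u v) : lside u ≠ lside v := by
  have := ladj_leaf u v h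
  simp only [lside, ne_eq, decide_eq_decide]
  tauto

lemma lam_laminar' {n : ℕ} {x y p q r : LV n} (hx : lside x = false) (hy : lside y = false)
    (h1 : (lam n).Adj x p) (h2 : (lam n).Adj x q) (h3 : ¬ (lam n).Adj x r)
    (h4 : ¬ (lam n).Adj y p) (h5 : (lam n).Adj y q) (h6 : (lam n).Adj y r) : False :=
  lam_laminar x y p q r (by simpa [lside] using hx) (by simpa [lside] using hy) h1 h2 h3 h4 h5 h6

lemma not_occ_P6 {n : ℕ} : ¬ Occ 6 [(0, 1), (1, 2), (2, 3), (3, 4), (4, 5)] (lam n) := by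
  rintro ⟨g, hg, hadj⟩
  have h01 := (hadj 0 1).2 (by decide)
  have h12 := (hadj 1 2).2 (by decide)
  have h23 := (hadj 2 3).2 (by decide)
  have h34 := (hadj 3 4).2 (by decide)
  have h45 := (hadj 4 5).2 (by decide)
  have n14 : ¬ (lam n).Adj (g 1) (g 4) := fun h => by
    have := (hadj 1 4).1 h
    revert this
    decide
  have n30 : ¬ (lam n).Adj (g 3) (g 0) := fun h => by
    have := (hadj 3 0).1 h
    revert this
    decide
  have n25 : ¬ (lam n).Adj (g 2) (g 5) := fun h => by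
    have := (hadj 2 5).1 h
    revert this
    decide
  have n41 : ¬ (lam n).Adj (g 4) (g 1) := fun h => n14 h.symm
  have s12 := lside_adj _ _ h12
  have s23 := lside_adj _ _ h23
  have s34 := lside_adj _ _ h34
  cases e1 : lside (g 1)
  · have e3 : lside (g 3) = false := by
      cases e2 : lside (g 2) <;> cases e3 : lside (g 3) <;> simp_all
    exact lam_laminar' e1 e3 h01.symm h12 n14 n30 h23.symm h34
  · have e2 : lside (g 2) = false := by
      cases e2 : lside (g 2) <;> simp_all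
    have e4 : lside (g 4) = false := by
      cases e3 : lside (g 3) <;> cases e4 : lside (g 4) <;> simp_all
    exact lam_laminar' e2 e4 h12.symm h23 n25 n41 h34.symm h45

lemma not_occ_P2_P4 {n : ℕ} :
    ¬ Occ 6 [(0, 1), (2, 3), (3, 4), (4, 5)] (bcg (lam n) lside) := by
  rintro ⟨g, hg, hadj⟩
  have pos : ∀ i j : Fin 6, padj [(0, 1), (2, 3), (3, 4), (4, 5)] i j = true →
      lside (g i) ≠ lside (g j) ∧ ¬ (lam n).Adj (g i) (g j) := fun i j h => (hadj i j).2 h
  have neg : ∀ i j : Fin 6, padj [(0, 1), (2, 3), (3, 4), (4, 5)] i j = false →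
      lside (g i) ≠ lside (g j) → (lam n).Adj (g i) (g j) := by
    intro i j h hs
    by_contra h'
    have := (hadj i j).1 ⟨hs, h'⟩
    rw [h] at this
    exact Bool.noConfusion this
  obtain ⟨s01, n01⟩ := pos 0 1 (by decide)
  obtain ⟨s23, n23⟩ := pos 2 3 (by decide)
  obtain ⟨s34, n34⟩ := pos 3 4 (by decide)
  obtain ⟨s45, n45⟩ := pos 4 5 (by decide)
  have a25 := neg 2 5 (by decide)
  have a02 := neg 0 2 (by decide)
  have a03 := neg 0 3 (by decide)
  have a04 := neg 0 4 (by decide)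
  have a05 := neg 0 5 (by decide)
  have a12 := neg 1 2 (by decide)
  have a13 := neg 1 3 (by decide)
  have a14 := neg 1 4 (by decide)
  have a15 := neg 1 5 (by decide)
  -- `e0` is the side of `g 0`, `e2` the side of `g 2`
  cases e0 : lside (g 0) <;> cases e2 : lside (g 2)
  · -- `0, 2, 4` are false, `1, 3, 5` true
    have e1 : lside (g 1) = true := by cases e : lside (g 1) <;> simp_all
    have e3 : lside (g 3) = true := by cases e : lside (g 3) <;> simp_all
    have e4 : lside (g 4) = false := by cases e : lside (g 4) <;> simp_all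
    have e5 : lside (g 5) = true := by cases e : lside (g 5) <;> simp_all
    exact lam_laminar' (x := g 0) (y := g 2) (p := g 3) (q := g 5) (r := g 1) e0 e2
      (a03 (by simp [e0, e3])) (a05 (by simp [e0, e5])) n01 n23 (a25 (by simp [e2, e5]))
      (a12 (by simp [e1, e2])).symm
  · -- `0, 3, 5` are false, `1, 2, 4` true
    have e1 : lside (g 1) = true := by cases e : lside (g 1) <;> simp_all
    have e3 : lside (g 3) = false := by cases e : lside (g 3) <;> simp_all
    have e4 : lside (g 4) = true := by cases e : lside (g 4) <;> simp_all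
    have e5 : lside (g 5) = false := by cases e : lside (g 5) <;> simp_all
    exact lam_laminar' (x := g 0) (y := g 5) (p := g 4) (q := g 2) (r := g 1) e0 e5
      (a04 (by simp [e0, e4])) (a02 (by simp [e0, e2])) n01 (fun h => n45 h.symm)
      (a25 (by simp [e2, e5])).symm (a15 (by simp [e1, e5])).symm
  · -- `1, 2, 4` are false, `0, 3, 5` true
    have e1 : lside (g 1) = false := by cases e : lside (g 1) <;> simp_all
    have e3 : lside (g 3) = true := by cases e : lside (g 3) <;> simp_all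
    have e4 : lside (g 4) = false := by cases e : lside (g 4) <;> simp_all
    have e5 : lside (g 5) = true := by cases e : lside (g 5) <;> simp_all
    exact lam_laminar' (x := g 1) (y := g 2) (p := g 3) (q := g 5) (r := g 0) e1 e2
      (a13 (by simp [e1, e3])) (a15 (by simp [e1, e5])) (fun h => n01 h.symm) n23
      (a25 (by simp [e2, e5])) (a02 (by simp [e0, e2])).symm
  · -- `1, 3, 5` are false, `0, 2, 4` true
    have e1 : lside (g 1) = false := by cases e : lside (g 1) <;> simp_all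
    have e3 : lside (g 3) = false := by cases e : lside (g 3) <;> simp_all
    have e4 : lside (g 4) = true := by cases e : lside (g 4) <;> simp_all
    have e5 : lside (g 5) = false := by cases e : lside (g 5) <;> simp_all
    exact lam_laminar' (x := g 1) (y := g 5) (p := g 4) (q := g 2) (r := g 0) e1 e5
      (a14 (by simp [e1, e4])) (a12 (by simp [e1, e2])) (fun h => n01 h.symm)
      (fun h => n45 h.symm) (a25 (by simp [e2, e5])).symm (a05 (by simp [e0, e5])).symm

/-! ### Grid graphs -/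

lemma bip_gpR_swap {ι : Type} (ρ τ : ι → ℕ) {a b : Bool × ι} :
    (bip (gpR ρ τ)).Adj (Sum.inr b) (Sum.inl a) ↔ gpR τ ρ b a := by
  rw [bip_inr_inl, gpR_swap]

lemma not_occ_2P3 {m : ℕ} : ¬ Occ 6 [(0, 1), (1, 2), (3, 4), (4, 5)] (gp m) := by
  rintro ⟨g, hg, hadj⟩
  have pos : ∀ i j : Fin 6, padj [(0, 1), (1, 2), (3, 4), (4, 5)] i j = true →
      (gp m).Adj (g i) (g j) := fun i j h => (hadj i j).2 h
  have neg : ∀ i j : Fin 6, padj [(0, 1), (1, 2), (3, 4), (4, 5)] i j = false →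
      ¬ (gp m).Adj (g i) (g j) := by
    intro i j h hs
    have := (hadj i j).1 hs
    rw [h] at this
    exact Bool.noConfusion this
  have h10 := pos 1 0 (by decide)
  have h12 := pos 1 2 (by decide)
  have h43 := pos 4 3 (by decide)
  have h45 := pos 4 5 (by decide)
  have n14 := neg 1 4 (by decide)
  have n40 := neg 4 0 (by decide)
  have n42 := neg 4 2 (by decide)
  have n13 := neg 1 3 (by decide)
  have n15 := neg 1 5 (by decide)
  have n30 := neg 3 0 (by decide)
  have n32 := neg 3 2 (by decide)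
  have n50 := neg 5 0 (by decide)
  have n52 := neg 5 2 (by decide)
  have ne02 : g 0 ≠ g 2 := hg.ne (by decide)
  have ne35 : g 3 ≠ g 5 := hg.ne (by decide)
  rcases h0 : g 0 with a0 | a0 <;> rcases h1 : g 1 with a1 | a1 <;>
    rcases h2 : g 2 with a2 | a2 <;> rcases h3 : g 3 with a3 | a3 <;>
    rcases h4 : g 4 with a4 | a4 <;> rcases h5 : g 5 with a5 | a5 <;>
    rw [h0, h1] at h10 <;> rw [h1, h2] at h12 <;> rw [h4, h3] at h43 <;>
    rw [h4, h5] at h45 <;> rw [h1, h4] at n14 <;> rw [h4, h0] at n40 <;>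
    rw [h4, h2] at n42 <;> rw [h1, h3] at n13 <;> rw [h1, h5] at n15 <;>
    rw [h3, h0] at n30 <;> rw [h3, h2] at n32 <;> rw [h5, h0] at n50 <;>
    rw [h5, h2] at n52 <;> rw [h0, h2] at ne02 <;> rw [h3, h5] at ne35 <;>
    first
    | exact h10
    | exact h12
    | exact h43
    | exact h45
    | exact gp_AA _ _ a1 a4 a0 a2 a3 a5 (fun h => ne02 (by rw [h])) (fun h => ne35 (by rw [h]))
        h10 h12 n40 n42 h43 h45 n13 n15
    | exact gp_AB _ _ a1 a4 a0 a2 a3 a5 (fun h => ne02 (by rw [h])) (fun h => ne35 (by rw [h]))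
        n14 h10 h12 h43 h45 n30 n32 n50 n52
    | exact gp_AB _ _ a4 a1 a3 a5 a0 a2 (fun h => ne35 (by rw [h])) (fun h => ne02 (by rw [h]))
        n14 h43 h45 h10 h12 n30 n50 n32 n52
    | (rw [bip_gpR_swap] at h10 h12 h43 h45 n40 n42 n13 n15
       exact gp_AA _ _ a1 a4 a0 a2 a3 a5 (fun h => ne02 (by rw [h]))
        (fun h => ne35 (by rw [h])) h10 h12 n40 n42 h43 h45 n13 n15)

end Pool.Agent.LinCW
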