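import Pool.Agent.LinCW55.SP

set_option autoImplicit false

/-!
# `(P_1+S_{1,1,3})`-free bipartite graphs

We work with the bipartite complement `H` throughout.
-/

namespace Pool.Agent.LinCW

open Classical

variable {α β : Type} {R H : α → β → Prop} {d d' d₁ d₂ : Bool} {k m : ℕ}
  {X : Finset α} {Y : Finset β} {P : Finset α} {Q : Finset β}

/-- Few traces of the left on the right give few traces of the right on the left. -/
lemma CutSide.transpose {F : Finset β} (h : CutSide R d m P F) :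
    CutSide (fun b a => R a b) d' (2 ^ (m + 1)) F P := by
  obtain ⟨T, hT, h⟩ := h
  set T' := insert (if d = true then F else ∅) T with hT'
  have hT'c : T'.card ≤ m + 1 := (Finset.card_insert_le _ _).trans (by omega)
  have hmem : ∀ a ∈ P, F.filter (R a) ∈ T' := by
    intro a ha
    rcases h a ha with h | h
    · exact Finset.mem_insert_of_mem h
    · rw [filter_congr_default h]; exact Finset.mem_insert_self _ _
  refine ⟨T'.powerset.image (fun t => P.filter (fun a => F.filter (R a) ∈ t)), ?_, ?_⟩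
  · refine Finset.card_image_le.trans ?_
    rw [Finset.card_powerset]
    exact Nat.pow_le_pow_right (by norm_num) hT'c
  · intro b hb
    left
    refine Finset.mem_image.2 ⟨T'.filter (fun t => b ∈ t), ?_, ?_⟩
    · exact Finset.mem_powerset.2 (Finset.filter_subset _ _)
    · ext a
      simp only [Finset.mem_filter]
      constructor
      · rintro ⟨ha, _, _, hr⟩; exact ⟨ha, hr⟩
      · rintro ⟨ha, hr⟩; exact ⟨ha, hmem a ha, hb, hr⟩

/-- The pair condition for the bipartite complement. -/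
def H1 (H : α → β → Prop) (X : Finset α) (Y : Finset β) : Prop :=
  ∀ a ∈ X, ∀ a' ∈ X, (∃ y ∈ Y, ¬ H a y ∧ ¬ H a' y) → (nb H Y a \ nb H Y a').Nonempty →
    (nb H Y a ∩ nb H Y a').Nonempty → (nb H Y a' \ nb H Y a).card ≤ 1

/-- The triple condition for the bipartite complement. -/
def H2 (H : α → β → Prop) (X : Finset α) (Y : Finset β) : Prop :=
  ∀ x ∈ X, ∀ y ∈ X, ∀ z ∈ X, ∀ p₁ ∈ Y, ∀ p₂ ∈ Y, ∀ r ∈ Y, ∀ q ∈ Y, p₁ ≠ p₂ →
    H y p₁ → ¬ H x p₁ → H y p₂ → ¬ H x p₂ → H x r → ¬ H y r → ¬ H x q → ¬ H y q →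
    H z p₁ → H z p₂ → H z r → H z q → False

lemma H1.mono {X' : Finset α} {Y' : Finset β} (hX : X' ⊆ X) (hY : Y' ⊆ Y)
    (h : H1 H X Y) : H1 H X' Y' := by
  rintro a ha a' ha' ⟨y, hy, hy'⟩ hne1 hne2
  refine (Finset.card_le_card (nb_sdiff_mono hY a' a)).trans
    (h a (hX ha) a' (hX ha') ⟨y, hY hy, hy'⟩ (hne1.mono (nb_sdiff_mono hY a a')) (hne2.mono ?_))
  exact Finset.inter_subset_inter (nb_mono hY a) (nb_mono hY a')

lemma H2.mono {X' : Finset α} {Y' : Finset β} (hX : X' ⊆ X) (hY : Y' ⊆ Y)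
    (h : H2 H X Y) : H2 H X' Y' := by
  intro x hx y hy z hz p₁ h1 p₂ h2 r h3 q h4
  exact h x (hX hx) y (hX hy) z (hX hz) p₁ (hY h1) p₂ (hY h2) r (hY h3) q (hY h4)

/-- An induced `S_{1,1,3}` of the complement in terms of `H`. -/
def SPair (H : α → β → Prop) (X : Finset α) (Y : Finset β) (x y : α) : Prop :=
  x ∈ X ∧ y ∈ X ∧ Disjoint (nb H Y x) (nb H Y y) ∧ (nb H Y x).Nonempty ∧
    2 ≤ (nb H Y y).card ∧ ∃ q ∈ Y, ¬ H x q ∧ ¬ H y q

/-- The remaining part of the right-hand side. -/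
noncomputable def rest (H : α → β → Prop) (Y : Finset β) (x y : α) : Finset β :=
  Y.filter fun q => ¬ H x q ∧ ¬ H y q

lemma mem_rest {x y : α} {q : β} : q ∈ rest H Y x y ↔ q ∈ Y ∧ ¬ H x q ∧ ¬ H y q :=
  Finset.mem_filter

/-- Two left vertices that miss exactly one element of `S` and have one neighbour outside share
one of the two. -/
lemma swap_share (h : H1 H X Y) {S : Finset β} (hS : 2 < S.card) {z z' : α} (hz : z ∈ X)
    (hz' : z' ∈ X) (ho : ∃ o ∈ Y, ¬ H z o ∧ ¬ H z' o) (h1 : (S \ nb H Y z).card = 1)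
    (h1' : (S \ nb H Y z').card = 1) (h2 : (nb H Y z \ S).card = 1)
    (h2' : (nb H Y z' \ S).card = 1) (hne : nb H Y z \ S ≠ nb H Y z' \ S) :
    S \ nb H Y z = S \ nb H Y z' := by
  by_contra hne'
  obtain ⟨s, hs⟩ := Finset.card_eq_one.1 h1
  obtain ⟨s', hs'⟩ := Finset.card_eq_one.1 h1'
  obtain ⟨t, ht⟩ := Finset.card_eq_one.1 h2
  obtain ⟨t', ht'⟩ := Finset.card_eq_one.1 h2'
  have hss : s ≠ s' := fun e => hne' (by rw [hs, hs', e])
  have htt : t ≠ t' := fun e => hne (by rw [ht, ht', e])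
  have hsm : s ∈ S \ nb H Y z := by rw [hs]; exact Finset.mem_singleton_self _
  have hsm' : s' ∈ S \ nb H Y z' := by rw [hs']; exact Finset.mem_singleton_self _
  have htm : t ∈ nb H Y z \ S := by rw [ht]; exact Finset.mem_singleton_self _
  have htm' : t' ∈ nb H Y z' \ S := by rw [ht']; exact Finset.mem_singleton_self _
  rw [Finset.mem_sdiff] at hsm hsm' htm htm'
  have hzs : ∀ b ∈ S, b ≠ s → b ∈ nb H Y z := by
    intro b hb hbs
    by_contra hn
    have : b ∈ S \ nb H Y z := Finset.mem_sdiff.2 ⟨hb, hn⟩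
    rw [hs, Finset.mem_singleton] at this
    exact hbs this
  have hzs' : ∀ b ∈ S, b ≠ s' → b ∈ nb H Y z' := by
    intro b hb hbs
    by_contra hn
    have : b ∈ S \ nb H Y z' := Finset.mem_sdiff.2 ⟨hb, hn⟩
    rw [hs', Finset.mem_singleton] at this
    exact hbs this
  have hc : (nb H Y z' ∩ nb H Y z).Nonempty := by
    obtain ⟨c, hc, hcn⟩ : ∃ c ∈ S, c ∉ ({s, s'} : Finset β) := by
      by_contra hcon
      push Not at hcon
      have hle := Finset.card_le_card (fun b hb => hcon b hb : S ⊆ ({s, s'} : Finset β))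
      have := Finset.card_le_two (a := s) (b := s')
      omega
    rw [Finset.mem_insert, Finset.mem_singleton, not_or] at hcn
    exact ⟨c, Finset.mem_inter.2 ⟨hzs' c hc hcn.2, hzs c hc hcn.1⟩⟩
  obtain ⟨o, ho, hoz, hoz'⟩ := ho
  have hle := h z' hz' z hz ⟨o, ho, hoz', hoz⟩
    ⟨s, Finset.mem_sdiff.2 ⟨hzs' s hsm.1 hss, hsm.2⟩⟩ hc
  rw [Finset.card_le_one] at hle
  have htn : t ∉ nb H Y z' := by
    intro hh
    have : t ∈ nb H Y z' \ S := Finset.mem_sdiff.2 ⟨hh, htm.2⟩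
    rw [ht', Finset.mem_singleton] at this
    exact htt this
  have := hle s' (Finset.mem_sdiff.2 ⟨hzs s' hsm'.1 (Ne.symm hss), hsm'.2⟩) t
    (Finset.mem_sdiff.2 ⟨htm.1, htn⟩)
  rw [this] at hsm'
  exact htm.2 hsm'.1

/-- Left vertices that miss exactly one element of `S` and have one neighbour outside, in `C`. -/
lemma swap_family (h : H1 H X Y) {S C : Finset β} {o : β} (ho : o ∈ Y)
    (hSY : S ⊆ Y) {Z : Finset α} (hZ : Z ⊆ X)
    (hoZ : ∀ z ∈ Z, ¬ H z o)
    (h1 : ∀ z ∈ Z, (S \ nb H Y z).card = 1) (h2 : ∀ z ∈ Z, (nb H Y z \ S).card = 1)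
    (hCS : Disjoint C S) (hCY : C ⊆ Y) (h3 : ∀ z ∈ Z, nb H Y z \ S ⊆ C) :
    CutSide H false 2 Z S ∨ CutSide H false 1 Z C := by
  by_cases hS : S.card ≤ 2
  · left
    refine ⟨S.image (fun s => S.erase s), Finset.card_image_le.trans hS, fun z hz => Or.inl ?_⟩
    obtain ⟨s, hs⟩ := Finset.card_eq_one.1 (h1 z hz)
    have hsm : s ∈ S \ nb H Y z := by rw [hs]; exact Finset.mem_singleton_self _
    refine Finset.mem_image.2 ⟨s, (Finset.mem_sdiff.1 hsm).1, ?_⟩
    ext b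
    rw [Finset.mem_erase, Finset.mem_filter]
    constructor
    · rintro ⟨hb1, hb⟩
      refine ⟨hb, ?_⟩
      by_contra hr
      have : b ∈ S \ nb H Y z := Finset.mem_sdiff.2 ⟨hb, fun hh => hr (mem_nb.1 hh).2⟩
      rw [hs, Finset.mem_singleton] at this
      exact hb1 this
    · rintro ⟨hb, hr⟩
      refine ⟨fun e => ?_, hb⟩
      rw [e] at hr
      exact (Finset.mem_sdiff.1 hsm).2 (mem_nb.2 ⟨hSY (Finset.mem_sdiff.1 hsm).1, hr⟩)
  · -- sharing
    have share : ∀ z ∈ Z, ∀ z' ∈ Z, nb H Y z \ S ≠ nb H Y z' \ S →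
        S \ nb H Y z = S \ nb H Y z' := fun z hz z' hz' hne =>
      swap_share h (by omega) (hZ hz) (hZ hz') ⟨o, ho, hoZ z hz, hoZ z' hz'⟩ (h1 z hz)
        (h1 z' hz') (h2 z hz) (h2 z' hz') hne
    by_cases hall : ∀ z ∈ Z, ∀ z' ∈ Z, nb H Y z \ S = nb H Y z' \ S
    · right
      rcases Z.eq_empty_or_nonempty with rfl | ⟨z₀, hz₀⟩
      · exact CutSide.empty
      · refine ⟨{nb H Y z₀ \ S}, by simp, fun z hz => Or.inl ?_⟩
        rw [Finset.mem_singleton, ← hall z hz z₀ hz₀]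
        ext b
        rw [Finset.mem_filter, Finset.mem_sdiff, mem_nb]
        constructor
        · rintro ⟨hb, hr⟩
          exact ⟨⟨hCY hb, hr⟩, fun hbS => Finset.disjoint_left.1 hCS hb hbS⟩
        · rintro ⟨⟨hb, hr⟩, hbS⟩
          exact ⟨h3 z hz (Finset.mem_sdiff.2 ⟨mem_nb.2 ⟨hb, hr⟩, hbS⟩), hr⟩
    · left
      push Not at hall
      obtain ⟨z₁, hz₁, z₂, hz₂, hne⟩ := hall
      have h12 := share z₁ hz₁ z₂ hz₂ hne
      refine ⟨{S \ (S \ nb H Y z₁)}, by simp, fun z hz => Or.inl ?_⟩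
      have hz : S \ nb H Y z = S \ nb H Y z₁ := by
        by_cases e : nb H Y z \ S = nb H Y z₁ \ S
        · rw [h12]
          exact share z hz z₂ hz₂ (fun e' => hne (e.symm.trans e'))
        · exact share z hz z₁ hz₁ e
      rw [Finset.mem_singleton, ← hz]
      ext b
      simp only [Finset.mem_filter, Finset.mem_sdiff, mem_nb]
      constructor
      · rintro ⟨hb, hr⟩
        exact ⟨hb, fun hh => hh.2 ⟨hSY hb, hr⟩⟩
      · rintro ⟨hb, hn⟩
        refine ⟨hb, ?_⟩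
        by_contra hr
        exact hn ⟨hb, fun hh => hr hh.2⟩

end Pool.Agent.LinCW
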