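import Pool.Agent.LinCW55.PS

set_option autoImplicit false

/-!
# `(P_1+S_{1,1,3})`-free bipartite graphs, the tame case
-/

namespace Pool.Agent.LinCW

open Classical

variable {α β : Type} {R H : α → β → Prop} {d d' d₁ d₂ : Bool} {k m : ℕ}
  {X : Finset α} {Y : Finset β} {P : Finset α} {Q : Finset β}

/-- The bound used for gluing three tame parts. -/
def glueBound (m : ℕ) : ℕ :=
  ((4 + 1) * (2 ^ (m + 1) + 1) + 1) * ((m + 1) * (m + 1) + 2 ^ (m + m + 1) + 1)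

/-- Gluing three tame parts. -/
lemma glue3 {UP UQ UR : Finset α} {SP' SQ SR : Finset β} (hU : UP ∪ (UQ ∪ UR) = X)
    (hS : SP' ∪ (SQ ∪ SR) = Y) (hPQ : Disjoint SP' SQ) (hPR : Disjoint SP' SR)
    (hQR : Disjoint SQ SR)
    (tP : Tame (rev H) SP' X) (tQ : Tame (rev H) SQ X) (tR : Tame (rev H) SR X)
    (cPQ : CutSide H false m UP SQ) (cPR : CutSide H false m UP SR)
    (cQP : CutSide H false m UQ SP') (cQR : CutSide H false m UQ SR)
    (cRP : CutSide H false m UR SP') (cRQ : CutSide H false m UR SQ) :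
    Good H false false (glueBound m) X Y := by
  have hUX : UP ⊆ X ∧ UQ ⊆ X ∧ UR ⊆ X := by
    refine ⟨?_, ?_, ?_⟩ <;> rw [← hU]
    · exact Finset.subset_union_left
    · exact Finset.subset_union_left.trans Finset.subset_union_right
    · exact Finset.subset_union_right.trans Finset.subset_union_right
  have g : ∀ (S : Finset β), Tame (rev H) S X → ∀ U ⊆ X, Good H false false 4 U S :=
    fun S t U hU => (good_of_tame (t.mono (Finset.Subset.refl _) hU)).flip.change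
  have hm : m ≤ 2 ^ (m + 1) := by
    have := Nat.lt_two_pow_self (n := m + 1)
    omega
  have hpos : 0 < 2 ^ (m + m + 1) := Nat.pos_of_ne_zero (by positivity)
  -- the last two parts
  have g1 : Good H false false ((4 + 1) * (2 ^ (m + 1) + 1))
      ((UQ \ UP) ∪ (UR \ (UP ∪ UQ))) (SQ ∪ SR) := by
    refine Good.glue (m := 2 ^ (m + 1)) ?_ hQR ?_ ?_ (g SQ tQ _ ?_) (g SR tR _ ?_)
    · rw [Finset.disjoint_left]
      intro a ha ha'
      exact (Finset.mem_sdiff.1 ha').2 (Finset.mem_union_right _ (Finset.mem_sdiff.1 ha).1)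
    · exact (cQR.mono_P Finset.sdiff_subset).mono_k hm
    · exact CutSide.transpose (d := false) (cRQ.mono_P Finset.sdiff_subset)
    · exact Finset.sdiff_subset.trans hUX.2.1
    · exact Finset.sdiff_subset.trans hUX.2.2
  have g2 := Good.glue (R := H) (d₁ := false) (d₂ := false)
    (m := (m + 1) * (m + 1) + 2 ^ (m + m + 1)) (k := (4 + 1) * (2 ^ (m + 1) + 1))
    (X₁ := UP) (X₂ := (UQ \ UP) ∪ (UR \ (UP ∪ UQ))) (Y₁ := SP') (Y₂ := SQ ∪ SR) ?_ ?_ ?_ ?_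
    ((g SP' tP UP hUX.1).mono ?_) g1
  · have e : UP ∪ ((UQ \ UP) ∪ (UR \ (UP ∪ UQ))) = X := by
      rw [← hU]
      ext a
      simp only [Finset.mem_union, Finset.mem_sdiff]
      tauto
    rw [e, hS] at g2
    exact g2
  · rw [Finset.disjoint_left]
    intro a ha ha'
    rcases Finset.mem_union.1 ha' with h | h
    · exact (Finset.mem_sdiff.1 h).2 ha
    · exact (Finset.mem_sdiff.1 h).2 (Finset.mem_union_left _ ha)
  · rw [Finset.disjoint_union_right]; exact ⟨hPQ, hPR⟩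
  · exact (cPQ.union_F cPR).mono_k (Nat.le_add_right _ _)
  · have := (cQP.mono_P (P' := UQ \ UP) Finset.sdiff_subset).union
      (cRP.mono_P (P' := UR \ (UP ∪ UQ)) Finset.sdiff_subset)
    exact (this.transpose (d' := false)).mono_k (Nat.le_add_left _ _)
  · have := Nat.one_le_two_pow (n := m + 1)
    omega

/-- A left vertex crossing a neighbourhood. -/
lemma mixed_swap (h : H1 H X Y) {s z : α} (hs : s ∈ X) (hz : z ∈ X)
    (hout : ∃ e ∈ Y, ¬ H s e ∧ ¬ H z e) (hi : (nb H Y z ∩ nb H Y s).Nonempty)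
    (h1 : (nb H Y s \ nb H Y z).Nonempty) (h2 : (nb H Y z \ nb H Y s).Nonempty) :
    (nb H Y s \ nb H Y z).card = 1 ∧ (nb H Y z \ nb H Y s).card = 1 := by
  have hi' : (nb H Y s ∩ nb H Y z).Nonempty := by rwa [Finset.inter_comm]
  obtain ⟨e, he, he1, he2⟩ := hout
  have c1 := h s hs z hz ⟨e, he, he1, he2⟩ h1 hi'
  have c2 := h z hz s hs ⟨e, he, he2, he1⟩ h2 hi
  have c3 := h1.card_pos
  have c4 := h2.card_pos
  omega

/-- `z` has both a neighbour and a non-neighbour in `S`. -/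
def Mixed (H : α → β → Prop) (S : Finset β) (z : α) : Prop :=
  (∃ b ∈ S, H z b) ∧ ∃ b ∈ S, ¬ H z b

lemma cut_unmixed {S : Finset β} {Z : Finset α}
    (h : ∀ z ∈ Z, ¬ Mixed H S z) : CutSide H false 1 Z S := by
  refine ⟨{S}, by simp, fun z hz => ?_⟩
  by_cases h1 : ∃ b ∈ S, H z b
  · left
    have h2 : ∀ b ∈ S, H z b := by
      by_contra hcon
      push Not at hcon
      exact h z hz ⟨h1, hcon⟩
    rw [Finset.mem_singleton]
    exact Finset.filter_true_of_mem h2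
  · right
    push Not at h1
    intro b hb
    simpa using h1 b hb

lemma cut_zero {S : Finset β} {Z : Finset α} (h : ∀ z ∈ Z, ∀ b ∈ S, ¬ H z b) :
    CutSide H false m Z S :=
  CutSide.of_default fun z hz b hb => by simpa using h z hz b hb

lemma cut_powerset {S : Finset β} {Z : Finset α} (hS : S.card = 2) : CutSide H false 4 Z S := by
  refine ⟨S.powerset, by rw [Finset.card_powerset, hS]; norm_num, fun z _ => Or.inl ?_⟩
  exact Finset.mem_powerset.2 (Finset.filter_subset _ _)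

lemma six_union (A B C D E F X : Finset α)
    (h : ∀ z, z ∈ X ↔ z ∈ A ∨ z ∈ B ∨ z ∈ C ∨ z ∈ D ∨ z ∈ E ∨ z ∈ F) :
    (A ∪ ((B ∪ (D ∪ (E ∪ F))) ∪ C) = X ∧ A ∪ ((B ∪ (D ∪ F)) ∪ (C ∪ E)) = X) ∧
    ((A ∪ D) ∪ ((B ∪ (E ∪ F)) ∪ C) = X ∧ (A ∪ D) ∪ ((B ∪ F) ∪ (C ∪ E)) = X) := by
  refine ⟨⟨?_, ?_⟩, ⟨?_, ?_⟩⟩ <;> ext z <;> rw [h z] <;> simp only [Finset.mem_union] <;> tauto

/-- An `S`-pair whose remaining part is tame. -/
lemma good_of_spair_tame (h : H1 H X Y) (h' : H1 (rev H) Y X) {x y : α}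
    (hp : SPair H X Y x y) (ht : Tame (rev H) (rest H Y x y) X) :
    Good H false false (glueBound 7) X Y := by
  obtain ⟨hx, hy, hdisj, hxne, hycard, q₀, hq₀Y, hq₀x, hq₀y⟩ := hp
  have hyne : (nb H Y y).Nonempty := Finset.card_pos.1 (by omega)
  have hnot : ∀ b ∈ Y, H x b → H y b → False := by
    intro b hb h1 h2
    exact Finset.disjoint_left.1 hdisj (mem_nb.2 ⟨hb, h1⟩) (mem_nb.2 ⟨hb, h2⟩)
  -- tameness of the other two parts
  have tS : ∀ s t : α, s ∈ X → t ∈ X → (∀ b ∈ Y, H s b → H t b → False) →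
      Tame (rev H) (nb H Y s) X := by
    intro s t hs ht hst b hb b' hb' hne
    rw [mem_nb] at hb hb'
    refine h' b' hb'.1 b hb.1 ⟨t, ht, ?_, ?_⟩ hne ⟨s, ?_⟩
    · exact fun hh => hst b' hb'.1 hb'.2 hh
    · exact fun hh => hst b hb.1 hb.2 hh
    · rw [Finset.mem_inter, mem_nb, mem_nb]
      exact ⟨⟨hs, hb'.2⟩, ⟨hs, hb.2⟩⟩
  have tP := tS y x hy hx (fun b hb h1 h2 => hnot b hb h2 h1)
  have tR := tS x y hx hy hnot
  -- facts on doubly mixed vertices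
  have fPQ : ∀ z ∈ X, Mixed H (nb H Y y) z → Mixed H (rest H Y x y) z → (nb H Y y \ nb H Y z).card = 1 ∧
      (nb H Y z \ nb H Y y).card = 1 ∧ nb H Y z \ nb H Y y ⊆ rest H Y x y ∧
      ∀ b ∈ nb H Y x, ¬ H z b := by
    rintro z hz ⟨⟨p, hp, hzp⟩, ⟨p', hp', hzp'⟩⟩ ⟨⟨q, hq, hzq⟩, ⟨q', hq', hzq'⟩⟩
    rw [mem_nb] at hp hp'
    rw [mem_rest] at hq hq'
    have hqm : q ∈ nb H Y z \ nb H Y y :=
      Finset.mem_sdiff.2 ⟨mem_nb.2 ⟨hq.1, hzq⟩, fun hh => hq.2.2 (mem_nb.1 hh).2⟩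
    obtain ⟨c1, c2⟩ := mixed_swap h hy hz ⟨q', hq'.1, hq'.2.2, hzq'⟩
      ⟨p, Finset.mem_inter.2 ⟨mem_nb.2 ⟨hp.1, hzp⟩, mem_nb.2 hp⟩⟩
      ⟨p', Finset.mem_sdiff.2 ⟨mem_nb.2 hp', fun hh => hzp' (mem_nb.1 hh).2⟩⟩ ⟨q, hqm⟩
    obtain ⟨t, htt⟩ := Finset.card_eq_one.1 c2
    rw [htt, Finset.mem_singleton] at hqm
    refine ⟨c1, c2, ?_, ?_⟩
    · rw [htt, Finset.singleton_subset_iff, ← hqm]
      exact mem_rest.2 hq
    · intro b hb hzb
      rw [mem_nb] at hb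
      have : b ∈ nb H Y z \ nb H Y y :=
        Finset.mem_sdiff.2 ⟨mem_nb.2 ⟨hb.1, hzb⟩, fun hh => hnot b hb.1 hb.2 (mem_nb.1 hh).2⟩
      rw [htt, Finset.mem_singleton, ← hqm] at this
      rw [this] at hb
      exact hq.2.1 hb.2
  have fRQ : ∀ z ∈ X, Mixed H (nb H Y x) z → Mixed H (rest H Y x y) z → (nb H Y x \ nb H Y z).card = 1 ∧
      (nb H Y z \ nb H Y x).card = 1 ∧ nb H Y z \ nb H Y x ⊆ rest H Y x y ∧
      ∀ b ∈ nb H Y y, ¬ H z b := by
    rintro z hz ⟨⟨p, hp, hzp⟩, ⟨p', hp', hzp'⟩⟩ ⟨⟨q, hq, hzq⟩, ⟨q', hq', hzq'⟩⟩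
    rw [mem_nb] at hp hp'
    rw [mem_rest] at hq hq'
    have hqm : q ∈ nb H Y z \ nb H Y x :=
      Finset.mem_sdiff.2 ⟨mem_nb.2 ⟨hq.1, hzq⟩, fun hh => hq.2.1 (mem_nb.1 hh).2⟩
    obtain ⟨c1, c2⟩ := mixed_swap h hx hz ⟨q', hq'.1, hq'.2.1, hzq'⟩
      ⟨p, Finset.mem_inter.2 ⟨mem_nb.2 ⟨hp.1, hzp⟩, mem_nb.2 hp⟩⟩
      ⟨p', Finset.mem_sdiff.2 ⟨mem_nb.2 hp', fun hh => hzp' (mem_nb.1 hh).2⟩⟩ ⟨q, hqm⟩
    obtain ⟨t, htt⟩ := Finset.card_eq_one.1 c2
    rw [htt, Finset.mem_singleton] at hqm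
    refine ⟨c1, c2, ?_, ?_⟩
    · rw [htt, Finset.singleton_subset_iff, ← hqm]
      exact mem_rest.2 hq
    · intro b hb hzb
      rw [mem_nb] at hb
      have : b ∈ nb H Y z \ nb H Y x :=
        Finset.mem_sdiff.2 ⟨mem_nb.2 ⟨hb.1, hzb⟩, fun hh => hnot b hb.1 (mem_nb.1 hh).2 hb.2⟩
      rw [htt, Finset.mem_singleton, ← hqm] at this
      rw [this] at hb
      exact hq.2.2 hb.2
  have fPR : ∀ z ∈ X, Mixed H (nb H Y y) z → Mixed H (nb H Y x) z → (nb H Y y).card = 2 ∧ (nb H Y x).card = 2 ∧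
      ∀ b ∈ rest H Y x y, ¬ H z b := by
    rintro z hz ⟨⟨p, hp, hzp⟩, ⟨p', hp', hzp'⟩⟩ ⟨⟨r, hr, hzr⟩, ⟨r', hr', hzr'⟩⟩
    rw [mem_nb] at hp hp' hr hr'
    have hrm : r ∈ nb H Y z \ nb H Y y :=
      Finset.mem_sdiff.2 ⟨mem_nb.2 ⟨hr.1, hzr⟩, fun hh => hnot r hr.1 hr.2 (mem_nb.1 hh).2⟩
    have hpm : p ∈ nb H Y z \ nb H Y x :=
      Finset.mem_sdiff.2 ⟨mem_nb.2 ⟨hp.1, hzp⟩, fun hh => hnot p hp.1 (mem_nb.1 hh).2 hp.2⟩
    obtain ⟨c1, c2⟩ := mixed_swap h hy hz ⟨r', hr'.1, fun hh => hnot r' hr'.1 hr'.2 hh, hzr'⟩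
      ⟨p, Finset.mem_inter.2 ⟨mem_nb.2 ⟨hp.1, hzp⟩, mem_nb.2 hp⟩⟩
      ⟨p', Finset.mem_sdiff.2 ⟨mem_nb.2 hp', fun hh => hzp' (mem_nb.1 hh).2⟩⟩ ⟨r, hrm⟩
    obtain ⟨c3, c4⟩ := mixed_swap h hx hz ⟨p', hp'.1, fun hh => hnot p' hp'.1 hh hp'.2, hzp'⟩
      ⟨r, Finset.mem_inter.2 ⟨mem_nb.2 ⟨hr.1, hzr⟩, mem_nb.2 hr⟩⟩
      ⟨r', Finset.mem_sdiff.2 ⟨mem_nb.2 hr', fun hh => hzr' (mem_nb.1 hh).2⟩⟩ ⟨p, hpm⟩
    have e1 := Finset.card_sdiff_add_card_inter (nb H Y y) (nb H Y z)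
    have e2 := Finset.card_sdiff_add_card_inter (nb H Y x) (nb H Y z)
    have s1 : nb H Y y ∩ nb H Y z ⊆ nb H Y z \ nb H Y x := by
      intro b hb
      rw [Finset.mem_inter] at hb
      rw [Finset.mem_sdiff]
      exact ⟨hb.2, fun hh => hnot b (mem_nb.1 hh).1 (mem_nb.1 hh).2 (mem_nb.1 hb.1).2⟩
    have s2 : nb H Y x ∩ nb H Y z ⊆ nb H Y z \ nb H Y y := by
      intro b hb
      rw [Finset.mem_inter] at hb
      rw [Finset.mem_sdiff]
      exact ⟨hb.2, fun hh => hnot b (mem_nb.1 hh).1 (mem_nb.1 hb.1).2 (mem_nb.1 hh).2⟩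
    have n1 := Finset.card_le_card s1
    have n2 := Finset.card_le_card s2
    have p1 : 0 < (nb H Y y ∩ nb H Y z).card :=
      Finset.card_pos.2 ⟨p, Finset.mem_inter.2 ⟨mem_nb.2 hp, mem_nb.2 ⟨hp.1, hzp⟩⟩⟩
    have p2 : 0 < (nb H Y x ∩ nb H Y z).card :=
      Finset.card_pos.2 ⟨r, Finset.mem_inter.2 ⟨mem_nb.2 hr, mem_nb.2 ⟨hr.1, hzr⟩⟩⟩
    refine ⟨by omega, by omega, ?_⟩
    intro b hb hzb
    rw [mem_rest] at hb
    have hb1 : b ∈ nb H Y z \ nb H Y y :=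
      Finset.mem_sdiff.2 ⟨mem_nb.2 ⟨hb.1, hzb⟩, fun hh => hb.2.2 (mem_nb.1 hh).2⟩
    rw [Finset.card_eq_one] at c2
    obtain ⟨t, htt⟩ := c2
    rw [htt, Finset.mem_singleton] at hrm hb1
    rw [hb1, ← hrm] at hb
    exact hb.2.1 hr.2
  -- the classes
  set XP := X.filter (fun z => ¬ Mixed H (rest H Y x y) z ∧ ¬ Mixed H (nb H Y x) z) with hXP
  set XQ := X.filter (fun z => ¬ Mixed H (nb H Y y) z ∧ ¬ Mixed H (nb H Y x) z) with hXQ
  set XR := X.filter (fun z => ¬ Mixed H (nb H Y y) z ∧ ¬ Mixed H (rest H Y x y) z) with hXR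
  set T10 := X.filter (fun z => Mixed H (nb H Y y) z ∧ Mixed H (rest H Y x y) z) with hT10
  set T11 := X.filter (fun z => Mixed H (nb H Y x) z ∧ Mixed H (rest H Y x y) z) with hT11
  set T12 := X.filter (fun z => Mixed H (nb H Y y) z ∧ Mixed H (nb H Y x) z) with hT12
  have hall : ∀ z, z ∈ X ↔ z ∈ XP ∨ z ∈ XQ ∨ z ∈ XR ∨ z ∈ T10 ∨ z ∈ T11 ∨ z ∈ T12 := by
    intro z
    simp only [hXP, hXQ, hXR, hT10, hT11, hT12, Finset.mem_filter]
    clear * -
    tauto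
  obtain ⟨⟨u1, u2⟩, ⟨u3, u4⟩⟩ := six_union XP XQ XR T10 T11 T12 X hall
  have hPY : nb H Y y ⊆ Y := nb_subset
  have hRY : nb H Y x ⊆ Y := nb_subset
  have hQY : rest H Y x y ⊆ Y := Finset.filter_subset _ _
  obtain ⟨p₀, hp₀⟩ := hyne
  obtain ⟨r₀, hr₀⟩ := hxne
  -- cuts
  have cP_Q : CutSide H false 1 XP (rest H Y x y) :=
    cut_unmixed fun z hz => (Finset.mem_filter.1 hz).2.1
  have cP_R : CutSide H false 1 XP (nb H Y x) :=
    cut_unmixed fun z hz => (Finset.mem_filter.1 hz).2.2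
  have cQ_P : CutSide H false 1 XQ (nb H Y y) :=
    cut_unmixed fun z hz => (Finset.mem_filter.1 hz).2.1
  have cQ_R : CutSide H false 1 XQ (nb H Y x) :=
    cut_unmixed fun z hz => (Finset.mem_filter.1 hz).2.2
  have cR_P : CutSide H false 1 XR (nb H Y y) :=
    cut_unmixed fun z hz => (Finset.mem_filter.1 hz).2.1
  have cR_Q : CutSide H false 1 XR (rest H Y x y) :=
    cut_unmixed fun z hz => (Finset.mem_filter.1 hz).2.2
  have c10_R : CutSide H false 0 T10 (nb H Y x) := by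
    refine cut_zero fun z hz b hb => ?_
    obtain ⟨hzX, h1, h2⟩ := Finset.mem_filter.1 hz
    exact (fPQ z hzX h1 h2).2.2.2 b hb
  have c11_P : CutSide H false 0 T11 (nb H Y y) := by
    refine cut_zero fun z hz b hb => ?_
    obtain ⟨hzX, h1, h2⟩ := Finset.mem_filter.1 hz
    exact (fRQ z hzX h1 h2).2.2.2 b hb
  have c12_P : CutSide H false 4 T12 (nb H Y y) := by
    rcases T12.eq_empty_or_nonempty with e | ⟨z, hz⟩
    · rw [e]; exact CutSide.empty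
    · obtain ⟨hzX, h1, h2⟩ := Finset.mem_filter.1 hz
      exact cut_powerset (fPR z hzX h1 h2).1
  have c12_R : CutSide H false 4 T12 (nb H Y x) := by
    rcases T12.eq_empty_or_nonempty with e | ⟨z, hz⟩
    · rw [e]; exact CutSide.empty
    · obtain ⟨hzX, h1, h2⟩ := Finset.mem_filter.1 hz
      exact cut_powerset (fPR z hzX h1 h2).2.1
  have s10 : CutSide H false 2 T10 (nb H Y y) ∨ CutSide H false 1 T10 (rest H Y x y) := by
    refine swap_family h (o := r₀) (hRY hr₀) hPY (Finset.filter_subset _ _) ?_ ?_ ?_ ?_ hQY ?_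
    · intro z hz
      obtain ⟨hzX, h1, h2⟩ := Finset.mem_filter.1 hz
      exact (fPQ z hzX h1 h2).2.2.2 r₀ hr₀
    · intro z hz
      obtain ⟨hzX, h1, h2⟩ := Finset.mem_filter.1 hz
      exact (fPQ z hzX h1 h2).1
    · intro z hz
      obtain ⟨hzX, h1, h2⟩ := Finset.mem_filter.1 hz
      exact (fPQ z hzX h1 h2).2.1
    · rw [Finset.disjoint_left]
      intro b hb hb'
      exact (mem_rest.1 hb).2.2 (mem_nb.1 hb').2
    · intro z hz
      obtain ⟨hzX, h1, h2⟩ := Finset.mem_filter.1 hz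
      exact (fPQ z hzX h1 h2).2.2.1
  have s11 : CutSide H false 2 T11 (nb H Y x) ∨ CutSide H false 1 T11 (rest H Y x y) := by
    refine swap_family h (o := p₀) (hPY hp₀) hRY (Finset.filter_subset _ _) ?_ ?_ ?_ ?_ hQY ?_
    · intro z hz
      obtain ⟨hzX, h1, h2⟩ := Finset.mem_filter.1 hz
      exact (fRQ z hzX h1 h2).2.2.2 p₀ hp₀
    · intro z hz
      obtain ⟨hzX, h1, h2⟩ := Finset.mem_filter.1 hz
      exact (fRQ z hzX h1 h2).1
    · intro z hz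
      obtain ⟨hzX, h1, h2⟩ := Finset.mem_filter.1 hz
      exact (fRQ z hzX h1 h2).2.1
    · rw [Finset.disjoint_left]
      intro b hb hb'
      exact (mem_rest.1 hb).2.1 (mem_nb.1 hb').2
    · intro z hz
      obtain ⟨hzX, h1, h2⟩ := Finset.mem_filter.1 hz
      exact (fRQ z hzX h1 h2).2.2.1
  -- the partition of the right-hand side
  have hYpart : nb H Y y ∪ (rest H Y x y ∪ nb H Y x) = Y := by
    ext b
    simp only [Finset.mem_union, mem_nb, mem_rest]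
    tauto
  have dPQ : Disjoint (nb H Y y) (rest H Y x y) := by
    rw [Finset.disjoint_left]
    intro b hb hb'
    exact (mem_rest.1 hb').2.2 (mem_nb.1 hb).2
  have dQR : Disjoint (rest H Y x y) (nb H Y x) := by
    rw [Finset.disjoint_left]
    intro b hb hb'
    exact (mem_rest.1 hb).2.1 (mem_nb.1 hb').2
  have hsub10 : T10 ⊆ X := Finset.filter_subset _ _
  rcases s10 with s10 | s10
  · rcases s11 with s11 | s11
    · refine glue3 (UP := XP) (UQ := XQ ∪ (T10 ∪ (T11 ∪ T12))) (UR := XR) u1 hYpart dPQ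
        hdisj.symm dQR tP ht tR (cP_Q.mono_k (by omega)) (cP_R.mono_k (by omega))
        ((cQ_P.union (s10.union (c11_P.union c12_P))).mono_k (by omega))
        ((cQ_R.union (c10_R.union (s11.union c12_R))).mono_k (by omega))
        (cR_P.mono_k (by omega)) (cR_Q.mono_k (by omega))
    · refine glue3 (UP := XP) (UQ := XQ ∪ (T10 ∪ T12)) (UR := XR ∪ T11) u2 hYpart dPQ
        hdisj.symm dQR tP ht tR (cP_Q.mono_k (by omega)) (cP_R.mono_k (by omega))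
        ((cQ_P.union (s10.union c12_P)).mono_k (by omega))
        ((cQ_R.union (c10_R.union c12_R)).mono_k (by omega))
        ((cR_P.union c11_P).mono_k (by omega)) ((cR_Q.union s11).mono_k (by omega))
  · rcases s11 with s11 | s11
    · refine glue3 (UP := XP ∪ T10) (UQ := XQ ∪ (T11 ∪ T12)) (UR := XR) u3 hYpart dPQ
        hdisj.symm dQR tP ht tR ((cP_Q.union s10).mono_k (by omega))
        ((cP_R.union c10_R).mono_k (by omega))
        ((cQ_P.union (c11_P.union c12_P)).mono_k (by omega))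
        ((cQ_R.union (s11.union c12_R)).mono_k (by omega))
        (cR_P.mono_k (by omega)) (cR_Q.mono_k (by omega))
    · refine glue3 (UP := XP ∪ T10) (UQ := XQ ∪ T12) (UR := XR ∪ T11) u4 hYpart dPQ
        hdisj.symm dQR tP ht tR ((cP_Q.union s10).mono_k (by omega))
        ((cP_R.union c10_R).mono_k (by omega))
        ((cQ_P.union c12_P).mono_k (by omega))
        ((cQ_R.union c12_R).mono_k (by omega))
        ((cR_P.union c11_P).mono_k (by omega)) ((cR_Q.union s11).mono_k (by omega))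

end Pool.Agent.LinCW
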