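import Pool.Agent.LinCW55.PS2

set_option autoImplicit false

/-!
# `(P_1+S_{1,1,3})`-free bipartite graphs, the remaining case
-/

namespace Pool.Agent.LinCW

open Classical

variable {α β : Type} {R H : α → β → Prop} {d d' d₁ d₂ : Bool} {k m : ℕ}
  {X : Finset α} {Y : Finset β} {P : Finset α} {Q : Finset β}

/-- If no remaining part is tame then all left degrees are at most two. -/
lemma degree_le_two (h : H1 H X Y) (h' : H1 (rev H) Y X) (h2 : H2 H X Y)
    (hconn : ¬ Dec H false false X Y) (hT : TwinFree H X Y)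
    (hnt : ∀ x y, SPair H X Y x y → ¬ Tame (rev H) (rest H Y x y) X)
    (hex : ∃ x y, SPair H X Y x y) : ∀ z ∈ X, (nb H Y z).card ≤ 2 := by
  -- choose a maximal pair
  obtain ⟨x, y, hp, hmax⟩ : ∃ x y, SPair H X Y x y ∧
      ∀ x' y', SPair H X Y x' y' → (nb H Y y').card ≤ (nb H Y y).card := by
    obtain ⟨x₀, y₀, h₀⟩ := hex
    obtain ⟨⟨x, y⟩, hxy, hm⟩ := Finset.exists_max_image
      ((X ×ˢ X).filter fun p => SPair H X Y p.1 p.2) (fun p => (nb H Y p.2).card)
      ⟨(x₀, y₀), Finset.mem_filter.2 ⟨Finset.mem_product.2 ⟨h₀.1, h₀.2.1⟩, h₀⟩⟩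
    refine ⟨x, y, (Finset.mem_filter.1 hxy).2, fun x' y' h'' => ?_⟩
    exact hm (x', y') (Finset.mem_filter.2 ⟨Finset.mem_product.2 ⟨h''.1, h''.2.1⟩, h''⟩)
  have hntQ := hnt x y hp
  obtain ⟨hx, hy, hdisj, hxne, hycard, -⟩ := hp
  have hnot : ∀ b ∈ Y, H x b → H y b → False := by
    intro b hb h1 h2
    exact Finset.disjoint_left.1 hdisj (mem_nb.2 ⟨hb, h1⟩) (mem_nb.2 ⟨hb, h2⟩)
  obtain ⟨r₀, hr₀⟩ := hxne
  have hr₀' := mem_nb.1 hr₀
  -- two disjoint neighbourhoods on the right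
  unfold Tame at hntQ
  push Not at hntQ
  obtain ⟨q₁, hq₁, q₂, hq₂, hne12, hcard12⟩ := hntQ
  have hq₁' := mem_rest.1 hq₁
  have hq₂' := mem_rest.1 hq₂
  have hdisjQ : ∀ z ∈ X, H z q₁ → H z q₂ → False := by
    intro z hz h1 h2
    have := h' q₂ hq₂'.1 q₁ hq₁'.1 ⟨x, hx, hq₂'.2.1, hq₁'.2.1⟩ hne12
      ⟨z, Finset.mem_inter.2 ⟨mem_nb.2 ⟨hz, h2⟩, mem_nb.2 ⟨hz, h1⟩⟩⟩
    omega
  have hq₁card : 2 ≤ (nb (rev H) X q₁).card := by
    have := Finset.card_le_card
      (Finset.sdiff_subset (s := nb (rev H) X q₁) (t := nb (rev H) X q₂))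
    omega
  have hq12 : q₁ ≠ q₂ := by
    rintro rfl
    rw [Finset.sdiff_self] at hcard12
    simp at hcard12
  -- (a)
  have ha : ∀ z ∈ X, ∃ q ∈ rest H Y x y, ¬ H z q := by
    intro z hz
    by_cases h1 : H z q₁
    · exact ⟨q₂, hq₂, fun h2 => hdisjQ z hz h1 h2⟩
    · exact ⟨q₁, hq₁, h1⟩
  obtain ⟨p₁, hp₁, p₂, hp₂, hp12⟩ : ∃ p₁ ∈ nb H Y y, ∃ p₂ ∈ nb H Y y, p₁ ≠ p₂ :=
    Finset.one_lt_card.1 (by omega)
  have hp₁' := mem_nb.1 hp₁
  have hp₂' := mem_nb.1 hp₂
  -- triples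
  have htri : ∀ z ∈ X, nb H Y y ⊆ nb H Y z → ∀ r ∈ Y, H x r → H z r →
      ∀ q ∈ rest H Y x y, ¬ H z q := by
    intro z hz hs r hr hxr hzr q hq hzq
    have hq' := mem_rest.1 hq
    exact h2 x hx y hy z hz p₁ hp₁'.1 p₂ hp₂'.1 r hr q hq'.1 hp12 hp₁'.2
      (fun hh => hnot p₁ hp₁'.1 hh hp₁'.2) hp₂'.2 (fun hh => hnot p₂ hp₂'.1 hh hp₂'.2) hxr
      (fun hh => hnot r hr hxr hh) hq'.2.1 hq'.2.2 (mem_nb.1 (hs hp₁)).2 (mem_nb.1 (hs hp₂)).2
      hzr hzq
  -- (b)
  have hb : ∀ z ∈ X, nb H Y y ⊆ nb H Y z → (∀ r ∈ Y, H x r → ¬ H z r) →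
      nb H Y z = nb H Y y := by
    intro z hz hs hr
    obtain ⟨q, hq, hzq⟩ := ha z hz
    have hq' := mem_rest.1 hq
    have hle : (nb H Y z).card ≤ (nb H Y y).card := by
      refine hmax x z ⟨hx, hz, ?_, ⟨r₀, hr₀⟩, ?_, q, hq'.1, hq'.2.1, hzq⟩
      · rw [Finset.disjoint_left]
        intro b hb hb'
        exact hr b (mem_nb.1 hb).1 (mem_nb.1 hb).2 (mem_nb.1 hb').2
      · exact hycard.trans (Finset.card_le_card hs)
    exact (Finset.eq_of_subset_of_card_le hs hle).symm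
  -- (c)
  have hc : ∀ z ∈ X, nb H Y y ⊆ nb H Y z → ∀ r ∈ Y, H x r → H z r → False := by
    intro z hz hs r hr hxr hzr
    have hzq : ∀ q ∈ rest H Y x y, ¬ H z q := htri z hz hs r hr hxr hzr
    have hRz : nb H Y x ⊆ nb H Y z := by
      by_contra hn
      have hle := h x hx z hz ⟨q₁, hq₁'.1, hq₁'.2.1, hzq q₁ hq₁⟩ (nonempty_sdiff_of_not_subset hn)
        ⟨r, Finset.mem_inter.2 ⟨mem_nb.2 ⟨hr, hxr⟩, mem_nb.2 ⟨hr, hzr⟩⟩⟩
      rw [Finset.card_le_one] at hle
      refine hp12 (hle p₁ ?_ p₂ ?_)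
      · rw [Finset.mem_sdiff]
        exact ⟨hs hp₁, fun hh => hnot p₁ hp₁'.1 (mem_nb.1 hh).2 hp₁'.2⟩
      · rw [Finset.mem_sdiff]
        exact ⟨hs hp₂, fun hh => hnot p₂ hp₂'.1 (mem_nb.1 hh).2 hp₂'.2⟩
    obtain ⟨w, hw⟩ := Finset.card_pos.1 (by omega : 0 < (nb (rev H) X q₁).card)
    obtain ⟨hwX, hwq⟩ := mem_nb.1 hw
    have hwq : H w q₁ := hwq
    obtain ⟨q, hq, hwq'⟩ := ha w hwX
    have hq' := mem_rest.1 hq
    by_cases hcom : (nb H Y w ∩ nb H Y z).Nonempty
    · have hle := h w hwX z hz ⟨q, hq'.1, hwq', hzq q hq⟩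
        ⟨q₁, Finset.mem_sdiff.2 ⟨mem_nb.2 ⟨hq₁'.1, hwq⟩, fun hh => hzq q₁ hq₁ (mem_nb.1 hh).2⟩⟩
        hcom
      by_cases hPw : nb H Y y ⊆ nb H Y w
      · by_cases hr' : ∃ r' ∈ Y, H x r' ∧ H w r'
        · obtain ⟨r', hr'Y, hxr', hwr'⟩ := hr'
          exact htri w hwX hPw r' hr'Y hxr' hwr' q₁ hq₁ hwq
        · push Not at hr'
          have e := hb w hwX hPw hr'
          have : q₁ ∈ nb H Y y := by rw [← e]; exact mem_nb.2 ⟨hq₁'.1, hwq⟩
          exact hq₁'.2.2 (mem_nb.1 this).2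
      · obtain ⟨p, hp⟩ := nonempty_sdiff_of_not_subset hPw
        rw [Finset.mem_sdiff] at hp
        rw [Finset.card_le_one] at hle
        have hpz : p ∈ nb H Y z \ nb H Y w := Finset.mem_sdiff.2 ⟨hs hp.1, hp.2⟩
        -- another element of `P`
        obtain ⟨p', hp', hpp'⟩ : ∃ p' ∈ nb H Y y, p' ≠ p := by
          by_cases e : p₁ = p
          · exact ⟨p₂, hp₂, fun e' => hp12 (e.trans e'.symm)⟩
          · exact ⟨p₁, hp₁, e⟩
        have hp'w : p' ∈ nb H Y w := by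
          by_contra hn
          exact hpp' (hle p' (Finset.mem_sdiff.2 ⟨hs hp', hn⟩) p hpz)
        have hrw : H w r := by
          by_contra hn
          have := hle r (Finset.mem_sdiff.2 ⟨mem_nb.2 ⟨hr, hzr⟩, fun hh => hn (mem_nb.1 hh).2⟩) p
            hpz
          rw [← this] at hp
          exact hnot r hr hxr (mem_nb.1 hp.1).2
        have hle2 := h y hy w hwX ⟨q, hq'.1, hq'.2.2, hwq'⟩ ⟨p, Finset.mem_sdiff.2 hp⟩
          ⟨p', Finset.mem_inter.2 ⟨hp', hp'w⟩⟩
        rw [Finset.card_le_one] at hle2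
        have := hle2 r (Finset.mem_sdiff.2 ⟨mem_nb.2 ⟨hr, hrw⟩,
          fun hh => hnot r hr hxr (mem_nb.1 hh).2⟩) q₁
          (Finset.mem_sdiff.2 ⟨mem_nb.2 ⟨hq₁'.1, hwq⟩, fun hh => hq₁'.2.2 (mem_nb.1 hh).2⟩)
        rw [this] at hxr
        exact hq₁'.2.1 hxr
    · have hle : (nb H Y z).card ≤ (nb H Y y).card := by
        refine hmax w z ⟨hwX, hz, ?_, ⟨q₁, mem_nb.2 ⟨hq₁'.1, hwq⟩⟩, ?_, q, hq'.1, hwq', hzq q hq⟩
        · rw [Finset.disjoint_iff_inter_eq_empty]
          exact Finset.not_nonempty_iff_eq_empty.1 hcom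
        · exact hycard.trans (Finset.card_le_card hs)
      have e := Finset.eq_of_subset_of_card_le hs hle
      have : r ∈ nb H Y y := by rw [e]; exact mem_nb.2 ⟨hr, hzr⟩
      exact hnot r hr hxr (mem_nb.1 this).2
  -- (d)
  have hd : ∀ z ∈ X, nb H Y y ⊆ nb H Y z → nb H Y z = nb H Y y := by
    intro z hz hs
    refine hb z hz hs fun r hr hxr hzr => hc z hz hs r hr hxr hzr
  -- swaps
  have hsw : ∀ z ∈ X, (nb H Y z ∩ nb H Y y).Nonempty → ¬ nb H Y z ⊆ nb H Y y →
      (nb H Y y \ nb H Y z).card = 1 ∧ (nb H Y z \ nb H Y y).card = 1 := by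
    intro z hz hi hns
    obtain ⟨q, hq, hzq⟩ := ha z hz
    have hq' := mem_rest.1 hq
    refine mixed_swap h hy hz ⟨q, hq'.1, hq'.2.2, hzq⟩ hi (nonempty_sdiff_of_not_subset ?_)
      (nonempty_sdiff_of_not_subset hns)
    intro hs
    exact hns (by rw [hd z hz hs])
  by_cases hm : (nb H Y y).card = 2
  · intro z hz
    by_cases hi : (nb H Y z ∩ nb H Y y).Nonempty
    · by_cases hns : nb H Y z ⊆ nb H Y y
      · exact (Finset.card_le_card hns).trans hm.le
      · obtain ⟨c1, c2⟩ := hsw z hz hi hns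
        have e1 := Finset.card_sdiff_add_card_inter (nb H Y y) (nb H Y z)
        have e2 := Finset.card_sdiff_add_card_inter (nb H Y z) (nb H Y y)
        rw [Finset.inter_comm] at e2
        omega
    · by_contra hcon
      obtain ⟨q, hq, hzq⟩ := ha z hz
      have hq' := mem_rest.1 hq
      have := hmax y z ⟨hy, hz, by
        rw [Finset.disjoint_iff_inter_eq_empty, Finset.inter_comm]
        exact Finset.not_nonempty_iff_eq_empty.1 hi, ⟨p₁, hp₁⟩, by omega,
        q, hq'.1, hq'.2.2, hzq⟩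
      omega
  · exfalso
    have hm3 : 3 ≤ (nb H Y y).card := by omega
    set S := X.filter (fun z => (nb H Y y \ nb H Y z).card = 1 ∧ (nb H Y z \ nb H Y y).card = 1)
      with hS
    set T := S.biUnion (fun z => nb H Y z \ nb H Y y) with hTdef
    have hTY : T ⊆ Y := by
      intro t ht
      obtain ⟨z, _, htz⟩ := Finset.mem_biUnion.1 ht
      exact nb_subset (Finset.mem_sdiff.1 htz).1
    -- pendant vertices
    have hpend : ∀ w ∈ X, ¬ (nb H Y w ∩ nb H Y y).Nonempty → ∀ t ∈ nb H Y w, t ∈ T →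
        nb H Y w ⊆ {t} := by
      intro w hw hni t htw htT
      obtain ⟨z, hz, htz⟩ := Finset.mem_biUnion.1 htT
      obtain ⟨hzX, c1, c2⟩ := Finset.mem_filter.1 hz
      have htz' := Finset.mem_sdiff.1 htz
      obtain ⟨p, hp⟩ := Finset.card_pos.1 (by omega : 0 < (nb H Y y \ nb H Y z).card)
      rw [Finset.mem_sdiff] at hp
      have hwp : ∀ b ∈ nb H Y y, ¬ H w b := fun b hb hh =>
        hni ⟨b, Finset.mem_inter.2 ⟨mem_nb.2 ⟨(mem_nb.1 hb).1, hh⟩, hb⟩⟩
      have hsub : nb H Y w ⊆ nb H Y z := by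
        by_contra hn
        have hle := h w hw z hzX ⟨p, (mem_nb.1 hp.1).1, hwp p hp.1,
          fun hh => hp.2 (mem_nb.2 ⟨(mem_nb.1 hp.1).1, hh⟩)⟩ (nonempty_sdiff_of_not_subset hn)
          ⟨t, Finset.mem_inter.2 ⟨htw, htz'.1⟩⟩
        have hsub : nb H Y y ∩ nb H Y z ⊆ nb H Y z \ nb H Y w := by
          intro b hb
          rw [Finset.mem_inter] at hb
          rw [Finset.mem_sdiff]
          exact ⟨hb.2, fun hh => hwp b hb.1 (mem_nb.1 hh).2⟩
        have e1 := Finset.card_le_card hsub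
        have e2 := Finset.card_sdiff_add_card_inter (nb H Y y) (nb H Y z)
        omega
      obtain ⟨t', ht'⟩ := Finset.card_eq_one.1 c2
      rw [ht', Finset.mem_singleton] at htz
      intro b hb
      have : b ∈ nb H Y z \ nb H Y y :=
        Finset.mem_sdiff.2 ⟨hsub hb, fun hh => hwp b hh (mem_nb.1 hb).2⟩
      rw [ht', Finset.mem_singleton] at this
      rw [Finset.mem_singleton, this, htz]
    -- connectivity
    have hconn' : (X.filter fun a => (nb H Y a ∩ (nb H Y y ∪ T)).Nonempty) = X ∧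
        nb H Y y ∪ T = Y := by
      by_contra hcon
      rw [not_and_or] at hcon
      apply hconn
      refine ⟨_, _, Finset.filter_subset _ _, Finset.union_subset nb_subset hTY, Or.inr ?_, hcon,
        ?_, ?_⟩
      · exact ⟨p₁, Finset.mem_union_left _ hp₁⟩
      · intro a ha b hb hb'
        obtain ⟨haX, t, ht⟩ := Finset.mem_filter.1 ha
        rw [Finset.mem_inter] at ht
        simp only [Bool.false_eq_true, iff_false]
        intro hab
        apply hb'
        rw [Finset.mem_union]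
        by_cases hne : (nb H Y a ∩ nb H Y y).Nonempty
        · by_cases hbS : b ∈ nb H Y y
          · exact Or.inl hbS
          · right
            have hns : ¬ nb H Y a ⊆ nb H Y y := fun hs => hbS (hs (mem_nb.2 ⟨hb, hab⟩))
            refine Finset.mem_biUnion.2 ⟨a, Finset.mem_filter.2 ⟨haX, hsw a haX hne hns⟩, ?_⟩
            exact Finset.mem_sdiff.2 ⟨mem_nb.2 ⟨hb, hab⟩, hbS⟩
        · have htT : t ∈ T := by
            rcases Finset.mem_union.1 ht.2 with h | h
            · exact absurd ⟨t, Finset.mem_inter.2 ⟨ht.1, h⟩⟩ hne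
            · exact h
          have hsub := hpend a haX hne t ht.1 htT
          have : b = t := Finset.mem_singleton.1 (hsub (mem_nb.2 ⟨hb, hab⟩))
          rw [this]
          exact Or.inr htT
      · intro b hb a ha ha'
        simp only [Bool.false_eq_true, iff_false]
        intro hab
        apply ha'
        rw [Finset.mem_filter]
        refine ⟨ha, b, Finset.mem_inter.2 ⟨mem_nb.2 ⟨?_, hab⟩, hb⟩⟩
        exact (Finset.union_subset nb_subset hTY) hb
    obtain ⟨-, hYc⟩ := hconn'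
    have hinT : ∀ b ∈ Y, ¬ H y b → b ∈ T := by
      intro b hb hyb
      rw [← hYc, Finset.mem_union] at hb
      exact hb.resolve_left fun hh => hyb (mem_nb.1 hh).2
    have hq₁T := hinT q₁ hq₁'.1 hq₁'.2.2
    have hq₂T := hinT q₂ hq₂'.1 hq₂'.2.2
    obtain ⟨z₁, hz₁, hqz₁⟩ := Finset.mem_biUnion.1 hq₁T
    obtain ⟨z₂, hz₂, hqz₂⟩ := Finset.mem_biUnion.1 hq₂T
    obtain ⟨hz₁X, c11, c12⟩ := Finset.mem_filter.1 hz₁
    obtain ⟨hz₂X, c21, c22⟩ := Finset.mem_filter.1 hz₂
    have hs₁ : nb H Y z₁ \ nb H Y y = {q₁} := by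
      obtain ⟨t, ht⟩ := Finset.card_eq_one.1 c12
      rw [ht, Finset.mem_singleton] at hqz₁
      rw [ht, hqz₁]
    have hs₂ : nb H Y z₂ \ nb H Y y = {q₂} := by
      obtain ⟨t, ht⟩ := Finset.card_eq_one.1 c22
      rw [ht, Finset.mem_singleton] at hqz₂
      rw [ht, hqz₂]
    -- an outside element for two swaps
    have hout : ∀ z ∈ S, ∀ z' ∈ S, ∃ o ∈ Y, ¬ H z o ∧ ¬ H z' o := by
      intro z hz z' hz'
      obtain ⟨hzX, c1, c2⟩ := Finset.mem_filter.1 hz
      obtain ⟨hz'X, c1', c2'⟩ := Finset.mem_filter.1 hz'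
      obtain ⟨t, ht⟩ := Finset.card_eq_one.1 c2
      obtain ⟨t', ht'⟩ := Finset.card_eq_one.1 c2'
      have hne : ∀ o ∈ Y, ¬ H y o → o ≠ t → o ≠ t' → ∃ o ∈ Y, ¬ H z o ∧ ¬ H z' o := by
        intro o ho hyo h1 h2
        refine ⟨o, ho, fun hh => h1 ?_, fun hh => h2 ?_⟩
        · rw [← Finset.mem_singleton, ← ht]
          exact Finset.mem_sdiff.2 ⟨mem_nb.2 ⟨ho, hh⟩, fun h3 => hyo (mem_nb.1 h3).2⟩
        · rw [← Finset.mem_singleton, ← ht']
          exact Finset.mem_sdiff.2 ⟨mem_nb.2 ⟨ho, hh⟩, fun h3 => hyo (mem_nb.1 h3).2⟩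
      have hry : ¬ H y r₀ := fun hh => hnot r₀ hr₀'.1 hr₀'.2 hh
      have hrq₁ : r₀ ≠ q₁ := fun e => hq₁'.2.1 (e ▸ hr₀'.2)
      have hrq₂ : r₀ ≠ q₂ := fun e => hq₂'.2.1 (e ▸ hr₀'.2)
      by_cases e1 : r₀ = t
      · by_cases e2 : q₁ = t'
        · exact hne q₂ hq₂'.1 hq₂'.2.2 (fun e => hrq₂ (e1.trans e.symm))
            (fun e => hq12 (e2.trans e.symm))
        · exact hne q₁ hq₁'.1 hq₁'.2.2 (fun e => hrq₁ (e1.trans e.symm)) e2
      · by_cases e2 : r₀ = t'
        · by_cases e3 : q₁ = t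
          · exact hne q₂ hq₂'.1 hq₂'.2.2 (fun e => hq12 (e3.trans e.symm))
              (fun e => hrq₂ (e2.trans e.symm))
          · exact hne q₁ hq₁'.1 hq₁'.2.2 e3 (fun e => hrq₁ (e2.trans e.symm))
        · exact hne r₀ hr₀'.1 hry e1 e2
    have hshare : ∀ z ∈ S, ∀ z' ∈ S, nb H Y z \ nb H Y y ≠ nb H Y z' \ nb H Y y →
        nb H Y y \ nb H Y z = nb H Y y \ nb H Y z' := by
      intro z hz z' hz' hne
      obtain ⟨hzX, c1, c2⟩ := Finset.mem_filter.1 hz
      obtain ⟨hz'X, c1', c2'⟩ := Finset.mem_filter.1 hz'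
      exact swap_share h (by omega) hzX hz'X (hout z hz z' hz') c1 c1' c2 c2' hne
    have h12 : nb H Y y \ nb H Y z₁ = nb H Y y \ nb H Y z₂ := by
      refine hshare z₁ hz₁ z₂ hz₂ ?_
      rw [hs₁, hs₂]
      intro e
      exact hq12 (Finset.singleton_injective e)
    have hall : ∀ z ∈ S, nb H Y y \ nb H Y z = nb H Y y \ nb H Y z₁ := by
      intro z hz
      by_cases e : nb H Y z \ nb H Y y = nb H Y z₁ \ nb H Y y
      · rw [h12]
        refine hshare z hz z₂ hz₂ ?_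
        rw [e, hs₁, hs₂]
        intro e
        exact hq12 (Finset.singleton_injective e)
      · exact hshare z hz z₁ hz₁ e
    obtain ⟨p₀, hp₀⟩ := Finset.card_eq_one.1 c11
    have hp₀m : p₀ ∈ nb H Y y \ nb H Y z₁ := by rw [hp₀]; exact Finset.mem_singleton_self _
    rw [Finset.mem_sdiff] at hp₀m
    have hinz : ∀ z ∈ S, ∀ p ∈ nb H Y y, p ≠ p₀ → H z p := by
      intro z hz p hp hpp
      by_contra hn
      have : p ∈ nb H Y y \ nb H Y z := Finset.mem_sdiff.2 ⟨hp, fun hh => hn (mem_nb.1 hh).2⟩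
      rw [hall z hz, hp₀, Finset.mem_singleton] at this
      exact hpp this
    -- another element of `P`
    obtain ⟨p', hp', hpp'⟩ : ∃ p' ∈ nb H Y y, p' ≠ p₀ := by
      by_cases e : p₁ = p₀
      · exact ⟨p₂, hp₂, fun e' => hp12 (e.trans e'.symm)⟩
      · exact ⟨p₁, hp₁, e⟩
    have hp'' := mem_nb.1 hp'
    -- no pendant at `q₁`
    have hnopend : ∀ w ∈ X, H w q₁ → w ∈ S := by
      intro w hw hwq
      by_cases hi : (nb H Y w ∩ nb H Y y).Nonempty
      · refine Finset.mem_filter.2 ⟨hw, hsw w hw hi fun hs => ?_⟩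
        exact hq₁'.2.2 (mem_nb.1 (hs (mem_nb.2 ⟨hq₁'.1, hwq⟩))).2
      · exfalso
        have hle := h' q₁ hq₁'.1 p' hp''.1
          ⟨x, hx, hq₁'.2.1, fun hh => hnot p' hp''.1 hh hp''.2⟩
          ⟨w, Finset.mem_sdiff.2 ⟨mem_nb.2 ⟨hw, hwq⟩, fun hh =>
            hi ⟨p', Finset.mem_inter.2 ⟨mem_nb.2 ⟨hp''.1, (mem_nb.1 hh).2⟩, hp'⟩⟩⟩⟩
          ⟨z₁, Finset.mem_inter.2 ⟨mem_nb.2 ⟨hz₁X, (mem_nb.1 (Finset.mem_sdiff.1 hqz₁).1).2⟩,
            mem_nb.2 ⟨hz₁X, hinz z₁ hz₁ p' hp' hpp'⟩⟩⟩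
        rw [Finset.card_le_one] at hle
        have hz₂q₁ : ¬ H z₂ q₁ := by
          intro hh
          have : q₁ ∈ nb H Y z₂ \ nb H Y y :=
            Finset.mem_sdiff.2 ⟨mem_nb.2 ⟨hq₁'.1, hh⟩, fun h3 => hq₁'.2.2 (mem_nb.1 h3).2⟩
          rw [hs₂, Finset.mem_singleton] at this
          exact hq12 this
        have := hle y (Finset.mem_sdiff.2 ⟨mem_nb.2 ⟨hy, hp''.2⟩,
          fun hh => hq₁'.2.2 (mem_nb.1 hh).2⟩) z₂
          (Finset.mem_sdiff.2 ⟨mem_nb.2 ⟨hz₂X, hinz z₂ hz₂ p' hp' hpp'⟩,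
            fun hh => hz₂q₁ (mem_nb.1 hh).2⟩)
        have e3 : p₀ ∈ nb H Y y \ nb H Y z₂ := by
          rw [← h12, hp₀]; exact Finset.mem_singleton_self _
        rw [Finset.mem_sdiff, ← this] at e3
        exact e3.2 e3.1
    -- all neighbours of `q₁` are twins
    obtain ⟨u, hu, v, hv, huv⟩ : ∃ u ∈ nb (rev H) X q₁, ∃ v ∈ nb (rev H) X q₁, u ≠ v :=
      Finset.one_lt_card.1 (by omega)
    rw [mem_nb] at hu hv
    have huS := hnopend u hu.1 hu.2
    have hvS := hnopend v hv.1 hv.2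
    apply huv
    refine nb_injOn hT hu.1 hv.1 ?_
    have key : ∀ z ∈ S, H z q₁ → nb H Y z = (nb H Y y).erase p₀ ∪ {q₁} := by
      intro z hz hzq
      obtain ⟨hzX, c1, c2⟩ := Finset.mem_filter.1 hz
      have hz' : nb H Y z \ nb H Y y = {q₁} := by
        obtain ⟨t, ht⟩ := Finset.card_eq_one.1 c2
        have : q₁ ∈ nb H Y z \ nb H Y y :=
          Finset.mem_sdiff.2 ⟨mem_nb.2 ⟨hq₁'.1, hzq⟩, fun h3 => hq₁'.2.2 (mem_nb.1 h3).2⟩
        rw [ht, Finset.mem_singleton] at this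
        rw [ht, this]
      ext b
      rw [Finset.mem_union, Finset.mem_erase, Finset.mem_singleton]
      constructor
      · intro hb
        by_cases hby : b ∈ nb H Y y
        · left
          refine ⟨fun e => ?_, hby⟩
          have : p₀ ∈ nb H Y y \ nb H Y z := by
            rw [hall z hz, hp₀]; exact Finset.mem_singleton_self _
          rw [Finset.mem_sdiff, ← e] at this
          exact this.2 hb
        · right
          rw [← Finset.mem_singleton, ← hz']
          exact Finset.mem_sdiff.2 ⟨hb, hby⟩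
      · rintro (⟨hb1, hb2⟩ | rfl)
        · exact mem_nb.2 ⟨(mem_nb.1 hb2).1, hinz z hz b hb2 hb1⟩
        · exact mem_nb.2 ⟨hq₁'.1, hzq⟩
    rw [key u huS hu.2, key v hvS hv.2]

/-- `(P_1+S_{1,1,3})`-free bipartite graphs have good orders (in terms of the complement). -/
theorem good_of_PS (h : H1 H X Y) (h' : H1 (rev H) Y X) (h2 : H2 H X Y)
    (h2' : H2 (rev H) Y X) : Good H false true (glueBound 7 + 12) X Y := by
  refine good_of_prime (fun X Y => H1 H X Y ∧ H1 (rev H) Y X ∧ H2 H X Y ∧ H2 (rev H) Y X)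
    (fun X Y X' Y' hX hY h => ⟨h.1.mono hX hY, h.2.1.mono hY hX, h.2.2.1.mono hX hY,
      h.2.2.2.mono hY hX⟩) ?_ X Y ⟨h, h', h2, h2'⟩
  rintro X Y ⟨h, h', h2, h2'⟩ hD hT hT'
  by_cases hsmall : X.card + Y.card ≤ 1
  · exact (good_of_card (by omega : X.card ≤ 1)).mono (by omega)
  -- no isolated vertices
  have hisoA : ∀ a ∈ X, ∃ b ∈ Y, H a b := by
    by_contra hcon
    push Not at hcon
    obtain ⟨a, ha, hab⟩ := hcon
    apply hD
    refine ⟨{a}, ∅, by simpa using ha, by simp, Or.inl ⟨a, by simp⟩, ?_, ?_, by simp⟩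
    · by_contra hn
      rw [not_or, not_not, not_not] at hn
      rw [← hn.1, ← hn.2] at hsmall
      simp at hsmall
    · intro a' ha' b hb _
      rw [Finset.mem_singleton] at ha'
      rw [ha']
      simpa using hab b hb
  have hisoB : ∀ b ∈ Y, ∃ a ∈ X, H a b := by
    by_contra hcon
    push Not at hcon
    obtain ⟨b, hb, hab⟩ := hcon
    apply hD
    apply Dec.symm
    refine ⟨∅, {b}, by simp, by simpa using hb, Or.inr ⟨b, by simp⟩, ?_, by simp, ?_⟩
    · by_contra hn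
      rw [not_or, not_not, not_not] at hn
      rw [← hn.1, ← hn.2] at hsmall
      simp at hsmall
    · intro b' hb' a ha _
      rw [Finset.mem_singleton] at hb'
      rw [hb']
      simpa using hab a ha
  by_cases hconn : Dec H false false X Y
  · -- `H` is disconnected
    have hSP : SP H X Y ∧ SP (rev H) Y X := by
      obtain ⟨X₁, Y₁, hX₁, hY₁, hne, hprop, hA, hB⟩ := hconn
      simp only [Bool.false_eq_true, iff_false] at hA hB
      -- both sides of both parts are nonempty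
      have hX₁ne : X₁.Nonempty := by
        rcases hne with h | ⟨b, hb⟩
        · exact h
        · obtain ⟨a, ha, hab⟩ := hisoB b (hY₁ hb)
          exact ⟨a, by_contra fun hn => hB b hb a ha hn hab⟩
      have hY₁ne : Y₁.Nonempty := by
        rcases hne with ⟨a, ha⟩ | h
        · obtain ⟨b, hb, hab⟩ := hisoA a (hX₁ ha)
          exact ⟨b, by_contra fun hn => hA a ha b hb hn hab⟩
        · exact h
      have hX₂ne : ∃ a ∈ X, a ∉ X₁ := by
        by_contra hcon
        push Not at hcon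
        have e1 : X₁ = X := Finset.Subset.antisymm hX₁ hcon
        rcases hprop with h | h
        · exact h e1
        · obtain ⟨b, hb, hb'⟩ := Finset.exists_of_ssubset (hY₁.ssubset_of_ne h)
          obtain ⟨a, ha, hab⟩ := hisoB b hb
          exact hA a (hcon a ha) b hb hb' hab
      have hY₂ne : ∃ b ∈ Y, b ∉ Y₁ := by
        obtain ⟨a, ha, ha'⟩ := hX₂ne
        obtain ⟨b, hb, hab⟩ := hisoA a ha
        exact ⟨b, hb, fun hb' => hB b hb' a ha ha' hab⟩
      obtain ⟨a₂, ha₂, ha₂'⟩ := hX₂ne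
      obtain ⟨b₂, hb₂, hb₂'⟩ := hY₂ne
      obtain ⟨a₁, ha₁⟩ := hX₁ne
      obtain ⟨b₁, hb₁⟩ := hY₁ne
      constructor
      · intro a ha a' ha' hi hne'
        rw [Finset.inter_comm] at hi
        refine h a' ha' a ha ?_ hne' hi
        obtain ⟨c, hc⟩ := hi
        rw [Finset.mem_inter, mem_nb, mem_nb] at hc
        obtain ⟨⟨hcY, hc'⟩, -, hc⟩ := hc
        by_cases hcY₁ : c ∈ Y₁
        · have haX₁ : a ∈ X₁ := by_contra fun hn => hB c hcY₁ a ha hn hc
          have ha'X₁ : a' ∈ X₁ := by_contra fun hn => hB c hcY₁ a' ha' hn hc'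
          exact ⟨b₂, hb₂, hA a' ha'X₁ b₂ hb₂ hb₂', hA a haX₁ b₂ hb₂ hb₂'⟩
        · have haX₁ : a ∉ X₁ := fun hn => hA a hn c hcY hcY₁ hc
          have ha'X₁ : a' ∉ X₁ := fun hn => hA a' hn c hcY hcY₁ hc'
          exact ⟨b₁, hY₁ hb₁, hB b₁ hb₁ a' ha' ha'X₁, hB b₁ hb₁ a ha haX₁⟩
      · intro b hb b' hb' hi hne'
        rw [Finset.inter_comm] at hi
        refine h' b' hb' b hb ?_ hne' hi
        obtain ⟨c, hc⟩ := hi
        rw [Finset.mem_inter, mem_nb, mem_nb] at hc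
        obtain ⟨⟨hcX, hc'⟩, -, hc⟩ := hc
        by_cases hcX₁ : c ∈ X₁
        · have hbY₁ : b ∈ Y₁ := by_contra fun hn => hA c hcX₁ b hb hn hc
          have hb'Y₁ : b' ∈ Y₁ := by_contra fun hn => hA c hcX₁ b' hb' hn hc'
          exact ⟨a₂, ha₂, hB b' hb'Y₁ a₂ ha₂ ha₂', hB b hbY₁ a₂ ha₂ ha₂'⟩
        · have hbY₁ : b ∉ Y₁ := fun hn => hB b hn c hcX hcX₁ hc
          have hb'Y₁ : b' ∉ Y₁ := fun hn => hB b' hn c hcX hcX₁ hc'
          exact ⟨a₁, hX₁ ha₁, hA a₁ ha₁ b' hb' hb'Y₁, hA a₁ ha₁ b hb hbY₁⟩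
    exact (good_of_SP hSP.1 hSP.2).change.mono (by omega)
  · -- `H` is connected
    by_cases hSA : ∃ x y, SPair H X Y x y ∧ Tame (rev H) (rest H Y x y) X
    · obtain ⟨x, y, hp, ht⟩ := hSA
      exact (good_of_spair_tame h h' hp ht).change.mono (by omega)
    · push Not at hSA
      by_cases hSB : ∃ x y, SPair (rev H) Y X x y ∧ Tame H (rest (rev H) X x y) Y
      · obtain ⟨x, y, hp, ht⟩ := hSB
        exact (good_of_spair_tame (H := rev H) h' h hp ht).flip.change.mono (by omega)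
      · push Not at hSB
        -- pairs on one side give pairs on the other
        have hAB : (∃ x y, SPair H X Y x y) → ∃ x y, SPair (rev H) Y X x y := by
          rintro ⟨x, y, hp⟩
          have hn := hSA x y hp
          obtain ⟨hx, hy, -, -, -, -⟩ := hp
          unfold Tame at hn
          push Not at hn
          obtain ⟨q₁, hq₁, q₂, hq₂, hne12, hcard12⟩ := hn
          have hq₁' := mem_rest.1 hq₁
          have hq₂' := mem_rest.1 hq₂
          refine ⟨q₂, q₁, hq₂'.1, hq₁'.1, ?_, hne12.mono Finset.sdiff_subset, ?_, x, hx,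
            hq₂'.2.1, hq₁'.2.1⟩
          · rw [Finset.disjoint_iff_inter_eq_empty]
            by_contra hi
            have := h' q₂ hq₂'.1 q₁ hq₁'.1 ⟨x, hx, hq₂'.2.1, hq₁'.2.1⟩ hne12
              (Finset.nonempty_iff_ne_empty.2 hi)
            omega
          · have := Finset.card_le_card
              (Finset.sdiff_subset (s := nb (rev H) X q₁) (t := nb (rev H) X q₂))
            omega
        have hBA : (∃ x y, SPair (rev H) Y X x y) → ∃ x y, SPair H X Y x y := by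
          rintro ⟨x, y, hp⟩
          have hn := hSB x y hp
          obtain ⟨hx, hy, -, -, -, -⟩ := hp
          unfold Tame at hn
          push Not at hn
          obtain ⟨q₁, hq₁, q₂, hq₂, hne12, hcard12⟩ := hn
          have hq₁' := mem_rest.1 hq₁
          have hq₂' := mem_rest.1 hq₂
          refine ⟨q₂, q₁, hq₂'.1, hq₁'.1, ?_, hne12.mono Finset.sdiff_subset, ?_, x, hx,
            hq₂'.2.1, hq₁'.2.1⟩
          · rw [Finset.disjoint_iff_inter_eq_empty]
            by_contra hi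
            have := h q₂ hq₂'.1 q₁ hq₁'.1 ⟨x, hx, hq₂'.2.1, hq₁'.2.1⟩ hne12
              (Finset.nonempty_iff_ne_empty.2 hi)
            omega
          · have := Finset.card_le_card
              (Finset.sdiff_subset (s := nb H Y q₁) (t := nb H Y q₂))
            omega
        by_cases hpair : ∃ x y, SPair H X Y x y
        · have hdA := degree_le_two h h' h2 hconn hT hSA hpair
          have hdB := degree_le_two (H := rev H) h' h h2' (fun hh => hconn hh.flip) hT' hSB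
            (hAB hpair)
          exact (good_of_maxdeg hdA hdB).change.mono (by omega)
        · -- the complement is `S_{1,1,3}`-free
          have hpair' : ¬ ∃ x y, SPair (rev H) Y X x y := fun hh => hpair (hBA hh)
          have key : ∀ {α β : Type} (H : α → β → Prop) (X : Finset α) (Y : Finset β),
              H1 H X Y → (¬ ∃ x y, SPair H X Y x y) → SP (co H) X Y := by
            intro α β H X Y h hpair a ha a' ha' hi hne'
            rw [nb_co_sdiff] at hne' ⊢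
            by_contra hcon
            apply hpair
            obtain ⟨c, hc⟩ := hi
            rw [Finset.mem_inter, mem_nb, mem_nb] at hc
            refine ⟨a, a', ha, ha', ?_, hne'.mono Finset.sdiff_subset, ?_, c, hc.1.1, hc.1.2,
              hc.2.2⟩
            · rw [Finset.disjoint_iff_inter_eq_empty]
              by_contra hi
              exact hcon (h a ha a' ha' ⟨c, hc.1.1, hc.1.2, hc.2.2⟩ hne'
                (Finset.nonempty_iff_ne_empty.2 hi))
            · have := Finset.card_le_card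
                (Finset.sdiff_subset (s := nb H Y a') (t := nb H Y a))
              omega
          have g := good_of_SP (R := co H) (key H X Y h hpair) (key (rev H) Y X h' hpair')
          exact g.of_compl.change.mono (by omega)

end Pool.Agent.LinCW
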