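import Pool.Agent.LinCW55.Near2

set_option autoImplicit false

/-!
# `S_{1,1,3}`-free bipartite graphs
-/

namespace Pool.Agent.LinCW

open Classical

variable {α β : Type} {R : α → β → Prop} {d d' d₁ d₂ : Bool} {k m : ℕ}
  {X : Finset α} {Y : Finset β} {P : Finset α} {Q : Finset β}

/-- Crossing neighbourhoods of left vertices differ by one element each way. -/
def SP (R : α → β → Prop) (X : Finset α) (Y : Finset β) : Prop :=
  ∀ a ∈ X, ∀ a' ∈ X, (nb R Y a ∩ nb R Y a').Nonempty → (nb R Y a' \ nb R Y a).Nonempty →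
    (nb R Y a \ nb R Y a').card ≤ 1

lemma SP.mono {X' : Finset α} {Y' : Finset β} (hX : X' ⊆ X) (hY : Y' ⊆ Y)
    (h : SP R X Y) : SP R X' Y' := by
  intro a ha a' ha' hne1 hne2
  refine (Finset.card_le_card (nb_sdiff_mono hY a a')).trans
    (h a (hX ha) a' (hX ha') (hne1.mono ?_) (hne2.mono (nb_sdiff_mono hY a' a)))
  exact Finset.inter_subset_inter (nb_mono hY a) (nb_mono hY a')

/-- The connected case with a vertex of degree at least three. -/
lemma good_of_SP_aux (h : SP R X Y) (h' : SP (rev R) Y X) (hD : ¬ Dec R false false X Y)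
    {x₀ : α} (hx₀ : x₀ ∈ X) (hdeg₀ : 3 ≤ (nb R Y x₀).card) : Good R false false 10 X Y := by
  obtain ⟨x, hx, hmax⟩ := Finset.exists_max_image X (fun a => (nb R Y a).card) ⟨x₀, hx₀⟩
  have hdeg : 3 ≤ (nb R Y x).card := hdeg₀.trans (hmax x₀ hx₀)
  set S := nb R Y x with hS
  have hSY : S ⊆ Y := nb_subset
  -- the crossing vertices
  have hW : ∀ w ∈ X, (nb R Y w ∩ S).Nonempty → ¬ nb R Y w ⊆ S →
      (S \ nb R Y w).Nonempty ∧ (S \ nb R Y w).card ≤ 1 ∧ (nb R Y w \ S).card ≤ 1 := by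
    intro w hw h1 h2
    have hne : (S \ nb R Y w).Nonempty := by
      rw [Finset.sdiff_nonempty]
      intro hs
      have h3 := hmax w hw
      have h4 := Finset.eq_of_subset_of_card_le hs h3
      exact h2 (by rw [← h4])
    refine ⟨hne, ?_, ?_⟩
    · refine h x hx w hw ?_ (nonempty_sdiff_of_not_subset h2)
      rw [Finset.inter_comm]; exact h1
    · exact h w hw x hx h1 hne
  set W := X.filter (fun w => (nb R Y w ∩ S).Nonempty ∧ ¬ nb R Y w ⊆ S) with hWdef
  set T := W.biUnion (fun w => nb R Y w \ S) with hT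
  -- vertices meeting `T` but not `S`
  have hpend : ∀ a ∈ X, ¬ (nb R Y a ∩ S).Nonempty → ∀ t ∈ nb R Y a, t ∈ T →
      ∃ w ∈ W, nb R Y a ⊆ nb R Y w \ S := by
    intro a ha hne t hta htT
    obtain ⟨w, hw, htw⟩ := Finset.mem_biUnion.1 htT
    obtain ⟨hwX, hw1, hw2⟩ := Finset.mem_filter.1 hw
    obtain ⟨_, h4, _⟩ := hW w hwX hw1 hw2
    refine ⟨w, hw, ?_⟩
    have hsub : nb R Y a ⊆ nb R Y w := by
      by_contra hn
      have hle := h w hwX a ha ⟨t, Finset.mem_inter.2 ⟨(Finset.mem_sdiff.1 htw).1, hta⟩⟩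
        (nonempty_sdiff_of_not_subset hn)
      have hsub2 : S ∩ nb R Y w ⊆ nb R Y w \ nb R Y a := by
        intro b hb
        rw [Finset.mem_inter] at hb
        rw [Finset.mem_sdiff]
        exact ⟨hb.2, fun hba => hne ⟨b, Finset.mem_inter.2 ⟨hba, hb.1⟩⟩⟩
      have h5 := Finset.card_le_card hsub2
      have h6 := Finset.card_sdiff_add_card_inter S (nb R Y w)
      omega
    intro b hb
    rw [Finset.mem_sdiff]
    exact ⟨hsub hb, fun hbS => hne ⟨b, Finset.mem_inter.2 ⟨hb, hbS⟩⟩⟩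
  have hTsub : T ⊆ Y := by
    intro t ht
    obtain ⟨w, _, htw⟩ := Finset.mem_biUnion.1 ht
    exact nb_subset (Finset.mem_sdiff.1 htw).1
  -- connectivity
  have hconn : (X.filter fun a => (nb R Y a ∩ (S ∪ T)).Nonempty) = X ∧ S ∪ T = Y := by
    by_contra hcon
    rw [not_and_or] at hcon
    apply hD
    refine ⟨_, _, Finset.filter_subset _ _, Finset.union_subset hSY hTsub, Or.inr ?_, hcon, ?_, ?_⟩
    · exact (Finset.card_pos.1 (by omega : 0 < S.card)).mono Finset.subset_union_left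
    · intro a ha b hb hb'
      rw [Finset.mem_filter] at ha
      obtain ⟨haX, t, ht⟩ := ha
      rw [Finset.mem_inter] at ht
      simp only [Bool.false_eq_true, iff_false]
      intro hab
      apply hb'
      rw [Finset.mem_union]
      by_cases hne : (nb R Y a ∩ S).Nonempty
      · by_cases hbS : b ∈ S
        · exact Or.inl hbS
        · right
          refine Finset.mem_biUnion.2 ⟨a, Finset.mem_filter.2 ⟨haX, hne, fun hs => ?_⟩, ?_⟩
          · exact hbS (hs (mem_nb.2 ⟨hb, hab⟩))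
          · exact Finset.mem_sdiff.2 ⟨mem_nb.2 ⟨hb, hab⟩, hbS⟩
      · have htT : t ∈ T := by
          rcases Finset.mem_union.1 ht.2 with h | h
          · exact absurd ⟨t, Finset.mem_inter.2 ⟨ht.1, h⟩⟩ hne
          · exact h
        obtain ⟨w, hw, hsub⟩ := hpend a haX hne t ht.1 htT
        right
        exact Finset.mem_biUnion.2 ⟨w, hw, hsub (mem_nb.2 ⟨hb, hab⟩)⟩
    · intro b hb a ha ha'
      simp only [Bool.false_eq_true, iff_false]
      intro hab
      apply ha'
      rw [Finset.mem_filter]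
      refine ⟨ha, b, Finset.mem_inter.2 ⟨mem_nb.2 ⟨?_, hab⟩, hb⟩⟩
      exact (Finset.union_subset hSY hTsub) hb
  obtain ⟨hXc, hYc⟩ := hconn
  -- `S` is tame
  have htame : Tame (rev R) S X := by
    intro b hb b' hb' hne
    refine h' b (hSY hb) b' (hSY hb') ⟨x, ?_⟩ hne
    rw [Finset.mem_inter, mem_nb, mem_nb]
    exact ⟨⟨hx, (mem_nb.1 hb).2⟩, ⟨hx, (mem_nb.1 hb').2⟩⟩
  by_cases hTc : (Y \ S).card ≤ 1
  · have hg : Good R false false 4 X S := (good_of_tame htame).flip.change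
    have := Good.addB_card (m := 1) (Z := Y \ S) (Y := Y) Finset.sdiff_subset hTc (by
      rw [Finset.sdiff_sdiff_eq_self hSY]; exact hg)
    exact this
  · -- all crossing vertices miss the same vertex of `S`
    have hYT : ∀ b ∈ Y, b ∉ S → b ∈ T := by
      intro b hb hbS
      rw [← hYc, Finset.mem_union] at hb
      exact hb.resolve_left hbS
    obtain ⟨t₁, ht₁, t₂, ht₂, ht12⟩ : ∃ t₁ ∈ Y \ S, ∃ t₂ ∈ Y \ S, t₁ ≠ t₂ :=
      Finset.one_lt_card.1 (by omega)
    rw [Finset.mem_sdiff] at ht₁ ht₂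
    obtain ⟨w₁, hw₁, htw₁⟩ := Finset.mem_biUnion.1 (hYT t₁ ht₁.1 ht₁.2)
    obtain ⟨w₂, hw₂, htw₂⟩ := Finset.mem_biUnion.1 (hYT t₂ ht₂.1 ht₂.2)
    -- comparison of two crossing vertices
    have hcmp : ∀ w ∈ W, ∀ w' ∈ W, ∀ t ∈ nb R Y w \ S, t ∉ nb R Y w' → ∀ s' ∈ S \ nb R Y w',
        s' ∈ S \ nb R Y w := by
      intro w hw w' hw' t ht htw' s' hs'
      by_contra hcon
      obtain ⟨hwX, hw1, hw2⟩ := Finset.mem_filter.1 hw
      obtain ⟨hw'X, hw'1, hw'2⟩ := Finset.mem_filter.1 hw'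
      obtain ⟨_, h4, _⟩ := hW w hwX hw1 hw2
      obtain ⟨_, h5, _⟩ := hW w' hw'X hw'1 hw'2
      obtain ⟨t', ht'⟩ := nonempty_sdiff_of_not_subset hw'2
      rw [Finset.mem_sdiff] at hs' ht ht' hcon
      have hs'w : s' ∈ nb R Y w := by
        by_contra hh; exact hcon ⟨hs'.1, hh⟩
      -- a common neighbour in `S`
      have hcomm : (nb R Y w ∩ nb R Y w').Nonempty := by
        by_contra hn
        have hsub : S ⊆ (S \ nb R Y w) ∪ (S \ nb R Y w') := by
          intro b hb
          rw [Finset.mem_union, Finset.mem_sdiff, Finset.mem_sdiff]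
          by_cases hbw : b ∈ nb R Y w
          · right; exact ⟨hb, fun hbw' => hn ⟨b, Finset.mem_inter.2 ⟨hbw, hbw'⟩⟩⟩
          · left; exact ⟨hb, hbw⟩
        have h6 := Finset.card_le_card hsub
        have h7 := Finset.card_union_le (S \ nb R Y w) (S \ nb R Y w')
        omega
      -- `w'` has a private neighbour
      have hpriv : (nb R Y w' \ nb R Y w).Nonempty := by
        rw [Finset.sdiff_nonempty]
        intro hsub
        have h8 : (nb R Y w \ S).card ≤ 1 := (hW w hwX hw1 hw2).2.2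
        rw [Finset.card_le_one] at h8
        have := h8 t (Finset.mem_sdiff.2 ht) t' (Finset.mem_sdiff.2 ⟨hsub ht'.1, ht'.2⟩)
        rw [this] at htw'
        exact htw' ht'.1
      have hle := h w hwX w' hw'X hcomm hpriv
      rw [Finset.card_le_one] at hle
      have := hle s' (Finset.mem_sdiff.2 ⟨hs'w, hs'.2⟩) t (Finset.mem_sdiff.2 ⟨ht.1, htw'⟩)
      rw [this] at hs'
      exact ht.2 hs'.1
    obtain ⟨hw₁X, hw₁1, hw₁2⟩ := Finset.mem_filter.1 hw₁
    obtain ⟨hw₂X, hw₂1, hw₂2⟩ := Finset.mem_filter.1 hw₂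
    obtain ⟨⟨s₀, hs₀⟩, h41, h51⟩ := hW w₁ hw₁X hw₁1 hw₁2
    obtain ⟨_, h42, h52⟩ := hW w₂ hw₂X hw₂1 hw₂2
    rw [Finset.card_le_one] at h51 h52
    have ht₂w₁ : t₂ ∉ nb R Y w₁ := fun hh =>
      ht12 (h51 t₁ htw₁ t₂ (Finset.mem_sdiff.2 ⟨hh, ht₂.2⟩))
    have ht₁w₂ : t₁ ∉ nb R Y w₂ := fun hh =>
      ht12 (h52 t₁ (Finset.mem_sdiff.2 ⟨hh, ht₁.2⟩) t₂ htw₂)
    have hs₀2 : s₀ ∈ S \ nb R Y w₂ := hcmp w₂ hw₂ w₁ hw₁ t₂ htw₂ ht₂w₁ s₀ hs₀
    have hall : ∀ w ∈ W, s₀ ∈ S \ nb R Y w := by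
      intro w hw
      obtain ⟨hwX, hw1, hw2⟩ := Finset.mem_filter.1 hw
      obtain ⟨_, _, h53⟩ := hW w hwX hw1 hw2
      obtain ⟨t, ht⟩ := nonempty_sdiff_of_not_subset hw2
      by_cases htt : t ∈ nb R Y w₁
      · have htt2 : t ∉ nb R Y w₂ := by
          intro hh
          have e1 := h51 t (Finset.mem_sdiff.2 ⟨htt, (Finset.mem_sdiff.1 ht).2⟩) t₁ htw₁
          have e2 := h52 t (Finset.mem_sdiff.2 ⟨hh, (Finset.mem_sdiff.1 ht).2⟩) t₂ htw₂
          exact ht12 (e1.symm.trans e2)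
        exact hcmp w hw w₂ hw₂ t ht htt2 s₀ hs₀2
      · exact hcmp w hw w₁ hw₁ t ht htt s₀ hs₀
    -- glue
    have hg1 : Good R false false 4 (X.filter fun a => ¬ nb R Y a ⊆ S) (Y \ S) := by
      refine (good_star fun a ha => ?_).mono (by norm_num)
      rw [Finset.mem_filter] at ha
      have e : nb R (Y \ S) a = nb R Y a \ S := by
        ext b
        simp only [mem_nb, Finset.mem_sdiff]
        tauto
      rw [e]
      by_cases hne : (nb R Y a ∩ S).Nonempty
      · exact (hW a ha.1 hne ha.2).2.2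
      · have haX := ha.1
        rw [← hXc, Finset.mem_filter] at haX
        obtain ⟨_, t, ht⟩ := haX
        rw [Finset.mem_inter, Finset.mem_union] at ht
        have htT : t ∈ T := by
          rcases ht.2 with h | h
          · exact absurd ⟨t, Finset.mem_inter.2 ⟨ht.1, h⟩⟩ hne
          · exact h
        obtain ⟨w, hw, hsub⟩ := hpend a ha.1 hne t ht.1 htT
        obtain ⟨hwX, hw1, hw2⟩ := Finset.mem_filter.1 hw
        refine (Finset.card_le_card (Finset.sdiff_subset.trans hsub)).trans ?_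
        exact (hW w hwX hw1 hw2).2.2
    have hg2 : Good R false false 4 (X.filter fun a => nb R Y a ⊆ S) S :=
      (good_of_tame (htame.mono (Finset.Subset.refl _)
        (Finset.filter_subset (fun a => nb R Y a ⊆ S) X))).flip.change
    have hc1 : CutSide R false 1 (X.filter fun a => ¬ nb R Y a ⊆ S) S := by
      refine ⟨{S.erase s₀}, by simp, fun a ha => ?_⟩
      rw [Finset.mem_filter] at ha
      by_cases hne : (nb R Y a ∩ S).Nonempty
      · left
        rw [Finset.mem_singleton]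
        have haW : a ∈ W := Finset.mem_filter.2 ⟨ha.1, hne, ha.2⟩
        have h6 := hall a haW
        have h7 := (hW a ha.1 hne ha.2).2.1
        rw [Finset.card_le_one] at h7
        ext b
        rw [Finset.mem_filter, Finset.mem_erase]
        constructor
        · rintro ⟨hb, hr⟩
          refine ⟨fun e => ?_, hb⟩
          rw [e] at hr
          exact (Finset.mem_sdiff.1 h6).2 (mem_nb.2 ⟨hSY (Finset.mem_sdiff.1 h6).1, hr⟩)
        · rintro ⟨hb1, hb⟩
          refine ⟨hb, ?_⟩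
          by_contra hr
          exact hb1 (h7 b (Finset.mem_sdiff.2 ⟨hb, fun hh => hr (mem_nb.1 hh).2⟩) s₀ h6)
      · right
        intro b hb
        simp only [Bool.false_eq_true, iff_false]
        intro hr
        exact hne ⟨b, Finset.mem_inter.2 ⟨mem_nb.2 ⟨hSY hb, hr⟩, hb⟩⟩
    have hc2 : CutSide (fun b a => R a b) false 1 (Y \ S) (X.filter fun a => nb R Y a ⊆ S) := by
      refine CutSide.of_default fun b hb a ha => ?_
      rw [Finset.mem_sdiff] at hb
      rw [Finset.mem_filter] at ha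
      simp only [Bool.false_eq_true, iff_false]
      intro hr
      exact hb.2 (ha.2 (mem_nb.2 ⟨hb.1, hr⟩))
    have hdisj : Disjoint (X.filter fun a => ¬ nb R Y a ⊆ S) (X.filter fun a => nb R Y a ⊆ S) := by
      rw [Finset.disjoint_left]
      intro a ha ha'
      exact (Finset.mem_filter.1 ha).2 (Finset.mem_filter.1 ha').2
    have := Good.glue (m := 1) hdisj (Finset.sdiff_disjoint (s := S) (t := Y)) hc1 hc2 hg1 hg2
    have e1 : (X.filter fun a => ¬ nb R Y a ⊆ S) ∪ (X.filter fun a => nb R Y a ⊆ S) = X := by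
      ext a
      simp only [Finset.mem_union, Finset.mem_filter]
      tauto
    rw [e1, Finset.sdiff_union_of_subset hSY] at this
    exact this

/-- Bipartite `S_{1,1,3}`-free graphs have good orders. -/
theorem good_of_SP (h : SP R X Y) (h' : SP (rev R) Y X) : Good R false false 10 X Y := by
  refine good_of_prime (fun X Y => SP R X Y ∧ SP (rev R) Y X)
    (fun X Y X' Y' hX hY h => ⟨h.1.mono hX hY, h.2.mono hY hX⟩) ?_ X Y ⟨h, h'⟩
  rintro X Y ⟨h, h'⟩ hD _ _
  by_cases hA : ∀ a ∈ X, (nb R Y a).card ≤ 2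
  · by_cases hB : ∀ b ∈ Y, (nb (rev R) X b).card ≤ 2
    · exact (good_of_maxdeg hA hB).mono (by norm_num)
    · push Not at hB
      obtain ⟨b, hb, h1⟩ := hB
      have hD' : ¬ Dec (rev R) false false Y X := fun h => hD h.flip
      exact (good_of_SP_aux (R := rev R) h' h hD' hb (by omega)).flip
  · push Not at hA
    obtain ⟨a, ha, h1⟩ := hA
    exact good_of_SP_aux h h' hD ha (by omega)

end Pool.Agent.LinCW
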