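import Pool.Agent.LinCW55.Cert

set_option autoImplicit false

/-!
# Every graph contains an obstruction or embeds into one of the list graphs
-/

namespace Pool.Agent.LinCW

open SimpleGraph Classical

variable {V : Type}

lemma exists_inj_nat (D : Finset V) {n : ℕ} (h : D.card ≤ n) :
    ∃ e : V → ℕ, Set.InjOn e ↑D ∧ ∀ x ∈ D, e x < n := by
  refine ⟨fun x => if hx : x ∈ D then (D.equivFin ⟨x, hx⟩ : ℕ) else 0, ?_, ?_⟩
  · intro x hx y hy hxy
    have hx' : x ∈ D := hx
    have hy' : y ∈ D := hy
    simp only [hx', hy', dif_pos] at hxy
    have := D.equivFin.injective (Fin.ext hxy)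
    simpa using this
  · intro x hx
    simp only [hx, dif_pos]
    exact lt_of_lt_of_le (D.equivFin ⟨x, hx⟩).2 h

lemma exists_fin_inj (D : Finset V) {n : ℕ} (h : n ≤ D.card) :
    ∃ f : Fin n → V, Function.Injective f ∧ ∀ i, f i ∈ D := by
  refine ⟨fun i => (D.equivFin.symm ⟨i, lt_of_lt_of_le i.2 h⟩ : D), ?_, fun i => Subtype.prop _⟩
  intro i j hij
  have h1 := D.equivFin.symm.injective (Subtype.ext hij)
  simpa [Fin.ext_iff] using h1

lemma padj_star (a b : ℕ) (ha : a < 7) (hb : b < 7) :
    padj [(0, 1), (0, 2), (0, 3)] a b = true ↔
      (a = 0 ∧ 1 ≤ b ∧ b ≤ 3) ∨ (b = 0 ∧ 1 ≤ a ∧ a ≤ 3) := by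
  have key : ∀ a < 7, ∀ b < 7, (padj [(0, 1), (0, 2), (0, 3)] a b = true ↔
      (a = 0 ∧ 1 ≤ b ∧ b ≤ 3) ∨ (b = 0 ∧ 1 ≤ a ∧ a ≤ 3)) := by decide
  exact key a ha b hb

lemma star_case [Finite V] (H : SimpleGraph V) (v : V)
    (hno : ∀ x y, x ≠ v → y ≠ v → ¬ H.Adj x y) :
    (∃ o ∈ obs, Occ o.1 o.2 H) ∨ H = ⊥ ∨ (∃ L ∈ lists, Emb H L) := by
  haveI := Fintype.ofFinite V
  set D : Finset V := Finset.univ.filter (fun x => H.Adj v x) with hD
  set I : Finset V := Finset.univ.filter (fun x => x ≠ v ∧ ¬ H.Adj v x) with hI
  have hDm : ∀ x, x ∈ D ↔ H.Adj v x := fun x => by simp [hD]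
  have hIm : ∀ x, x ∈ I ↔ x ≠ v ∧ ¬ H.Adj v x := fun x => by simp [hI]
  have hadj : ∀ x y, H.Adj x y ↔ (x = v ∧ y ∈ D) ∨ (y = v ∧ x ∈ D) := by
    intro x y
    by_cases hx : x = v
    · subst hx
      rw [hDm y]
      constructor
      · intro h; exact Or.inl ⟨rfl, h⟩
      · rintro (⟨-, h⟩ | ⟨h, h'⟩)
        · exact h
        · rw [hDm] at h'
          exact absurd h' (H.loopless.irrefl x)
    · by_cases hy : y = v
      · subst hy
        rw [hDm x, H.adj_comm]
        constructor
        · intro h; exact Or.inr ⟨rfl, h⟩
        · rintro (⟨h, -⟩ | ⟨-, h'⟩)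
          · exact absurd h hx
          · exact h'
      · constructor
        · intro h; exact absurd h (hno x y hx hy)
        · rintro (⟨h, -⟩ | ⟨h, -⟩)
          · exact absurd h hx
          · exact absurd h hy
  by_cases h4 : 4 ≤ D.card
  · left
    obtain ⟨f, hf, hfD⟩ := exists_fin_inj D h4
    refine ⟨(5, [(0, 1), (0, 2), (0, 3), (0, 4)]), by simp [obs], ?_⟩
    have hfv : ∀ i, f i ≠ v := fun i h => by
      have := (hDm _).1 (hfD i)
      rw [h] at this
      exact H.loopless.irrefl v this
    refine ⟨Fin.cons v f, ?_, ?_⟩
    · rw [Fin.cons_injective_iff]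
      refine ⟨?_, hf⟩
      rintro ⟨i, hi⟩
      exact hfv i hi
    · intro i j
      refine Fin.cases ?_ (fun i => ?_) i <;> refine Fin.cases ?_ (fun j => ?_) j
      · simp only [Fin.cons_zero, SimpleGraph.irrefl, false_iff]
        decide
      · simp only [Fin.cons_zero, Fin.cons_succ]
        have h1 := (hDm _).1 (hfD j)
        simp only [h1, true_iff]
        clear h1
        revert j
        decide
      · simp only [Fin.cons_zero, Fin.cons_succ]
        have h1 := ((hDm _).1 (hfD i)).symm
        simp only [h1, true_iff]
        clear h1
        revert i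
        decide
      · simp only [Fin.cons_succ]
        have h1 := hno _ _ (hfv i) (hfv j)
        simp only [h1, false_iff]
        clear h1
        revert i j
        decide
  · rcases Finset.eq_empty_or_nonempty D with hDe | ⟨d, hd⟩
    · right; left
      ext x y
      rw [hadj x y, hDe]
      simp
    · by_cases h5 : 4 ≤ I.card
      · left
        obtain ⟨f, hf, hfI⟩ := exists_fin_inj I h5
        refine ⟨(6, [(0, 1)]), by simp [obs], ?_⟩
        have hfv : ∀ i, f i ≠ v := fun i => ((hIm _).1 (hfI i)).1
        have hfn : ∀ i, ¬ H.Adj v (f i) := fun i => ((hIm _).1 (hfI i)).2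
        have hdv : d ≠ v := by
          rintro rfl
          exact H.loopless.irrefl _ ((hDm _).1 hd)
        refine ⟨Fin.cons v (Fin.cons d f), ?_, ?_⟩
        · rw [Fin.cons_injective_iff, Fin.cons_injective_iff]
          refine ⟨?_, ?_, hf⟩
          · rintro ⟨i, hi⟩
            revert hi
            refine Fin.cases ?_ (fun i => ?_) i
            · intro hi
              exact hdv hi
            · intro hi
              exact hfv i hi
          · rintro ⟨i, hi⟩
            exact hfn i (by rw [hi]; exact (hDm _).1 hd)
        · have key : ∀ i j : Fin 4, padj [(0, 1)] i.succ.succ j.succ.succ = false ∧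
              padj [(0, 1)] 0 i.succ.succ = false ∧ padj [(0, 1)] 1 i.succ.succ = false ∧
              padj [(0, 1)] i.succ.succ 0 = false ∧ padj [(0, 1)] i.succ.succ 1 = false := by
            decide
          intro i j
          refine Fin.cases ?_ (fun i => ?_) i <;> refine Fin.cases ?_ (fun j => ?_) j
          · simp only [Fin.cons_zero, SimpleGraph.irrefl, false_iff]
            decide
          · refine Fin.cases ?_ (fun j => ?_) j
            · have := (hDm _).1 hd
              simp only [Fin.cons_zero, Fin.cons_succ, this, true_iff]
              decide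
            · simp only [Fin.cons_zero, Fin.cons_succ, hfn j, false_iff]
              have := (key j j).2.1
              simp only [Fin.val_zero]
              rw [this]
              simp
          · refine Fin.cases ?_ (fun i => ?_) i
            · have := ((hDm _).1 hd).symm
              simp only [Fin.cons_zero, Fin.cons_succ, this, true_iff]
              decide
            · have : ¬ H.Adj (f i) v := fun h => hfn i h.symm
              simp only [Fin.cons_zero, Fin.cons_succ, this, false_iff]
              have := (key i i).2.2.2.1
              simp only [Fin.val_zero]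
              rw [this]
              simp
          · refine Fin.cases ?_ (fun i => ?_) i <;> refine Fin.cases ?_ (fun j => ?_) j
            · simp only [Fin.cons_zero, Fin.cons_succ, SimpleGraph.irrefl, false_iff]
              decide
            · have := hno _ _ hdv (hfv j)
              simp only [Fin.cons_zero, Fin.cons_succ, this, false_iff]
              have := (key j j).2.2.1
              simp only [Fin.val_succ, Fin.val_zero, zero_add] at this ⊢
              rw [this]
              simp
            · have := hno _ _ (hfv i) hdv
              simp only [Fin.cons_zero, Fin.cons_succ, this, false_iff]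
              have := (key i i).2.2.2.2
              simp only [Fin.val_succ, Fin.val_zero, zero_add] at this ⊢
              rw [this]
              simp
            · have := hno _ _ (hfv i) (hfv j)
              simp only [Fin.cons_succ, this, false_iff]
              have := (key i j).1
              rw [this]
              simp
      · right; right
        obtain ⟨e₁, he₁, he₁'⟩ := exists_inj_nat D (n := 3) (by omega)
        obtain ⟨e₂, he₂, he₂'⟩ := exists_inj_nat I (n := 3) (by omega)
        refine ⟨(7, [(0, 1), (0, 2), (0, 3)]), by simp [lists],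
          fun x => if x = v then 0 else if x ∈ D then 1 + e₁ x else 4 + e₂ x, ?_, ?_, ?_⟩
        · have hcase : ∀ x, x = v ∨ (x ≠ v ∧ x ∈ D) ∨ (x ≠ v ∧ x ∉ D ∧ x ∈ I) := by
            intro x
            by_cases hx : x = v
            · exact Or.inl hx
            · by_cases hxD : x ∈ D
              · exact Or.inr (Or.inl ⟨hx, hxD⟩)
              · exact Or.inr (Or.inr ⟨hx, hxD, (hIm x).2 ⟨hx, fun h => hxD ((hDm x).2 h)⟩⟩)
          intro x y hxy
          rcases hcase x with h1 | ⟨h1, h1'⟩ | ⟨h1, h1', h1''⟩ <;>
            rcases hcase y with h2 | ⟨h2, h2'⟩ | ⟨h2, h2', h2''⟩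
          · rw [h1, h2]
          · simp only [h1, h2, h2', if_true, if_false] at hxy; omega
          · simp only [h1, h2, h2', if_true, if_false] at hxy; omega
          · simp only [h1, h2, h1', if_true, if_false] at hxy; omega
          · simp only [h1, h2, h1', h2', if_true, if_false] at hxy
            exact he₁ h1' h2' (by omega)
          · simp only [h1, h2, h1', h2', if_true, if_false] at hxy
            have := he₁' x h1'; omega
          · simp only [h1, h2, h1', if_true, if_false] at hxy; omega
          · simp only [h1, h2, h1', h2', if_true, if_false] at hxy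
            have := he₁' y h2'; omega
          · simp only [h1, h2, h1', h2', if_false] at hxy
            exact he₂ h1'' h2'' (by omega)
        · intro x
          simp only
          split_ifs with h1 h2
          · norm_num
          · have := he₁' x h2
            omega
          · have := he₂' x ((hIm x).2 ⟨h1, fun h => h2 ((hDm x).2 h)⟩)
            omega
        · intro x y
          have hlt : ∀ x, (if x = v then 0 else if x ∈ D then 1 + e₁ x else 4 + e₂ x) < 7 := by
            intro x
            split_ifs with h1 h2
            · norm_num
            · have := he₁' x h2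
              omega
            · have := he₂' x ((hIm x).2 ⟨h1, fun h => h2 ((hDm x).2 h)⟩)
              omega
          have h0 : ∀ x, (if x = v then 0 else if x ∈ D then 1 + e₁ x else 4 + e₂ x) = 0 ↔
              x = v := by
            intro x
            split_ifs with h1 h2
            · exact ⟨fun _ => h1, fun _ => rfl⟩
            · exact ⟨fun h => by omega, fun h => absurd h h1⟩
            · exact ⟨fun h => by omega, fun h => absurd h h1⟩
          have h13 : ∀ x, (1 ≤ (if x = v then 0 else if x ∈ D then 1 + e₁ x else 4 + e₂ x) ∧
              (if x = v then 0 else if x ∈ D then 1 + e₁ x else 4 + e₂ x) ≤ 3) ↔ x ∈ D := by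
            intro x
            by_cases h1 : x = v
            · subst h1
              simp [hDm]
            · by_cases h2 : x ∈ D
              · have := he₁' x h2
                simp only [h1, h2, if_true, if_false, iff_true]
                omega
              · simp only [h1, h2, if_false, iff_false]
                omega
          rw [padj_star _ _ (hlt x) (hlt y), h0, h0, h13, h13]
          exact hadj x y

theorem classification (n : ℕ) : ∀ (V : Type) [Finite V] (H : SimpleGraph V), Nat.card V = n →
    (∃ o ∈ obs, Occ o.1 o.2 H) ∨ H = ⊥ ∨ (∃ L ∈ lists, Emb H L) := by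
  induction n with
  | zero =>
    intro V _ H hV
    right; left
    haveI : IsEmpty V := (Finite.card_eq_zero_iff).1 hV
    ext x
    exact isEmptyElim x
  | succ n ih =>
    intro V _ H hV
    haveI : Nonempty V := by
      by_contra hne
      rw [not_nonempty_iff] at hne
      rw [Nat.card_of_isEmpty] at hV
      omega
    obtain ⟨v⟩ := (inferInstance : Nonempty V)
    have hcard : Nat.card {x // x ≠ v} = n := by
      haveI := Fintype.ofFinite V
      rw [Nat.card_eq_fintype_card] at hV ⊢
      rw [Fintype.card_subtype_compl]
      simp [hV]
    have hemb : H.comap (Function.Embedding.subtype (fun x => x ≠ v)) ⊴ H :=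
      ⟨Embedding.comap (Function.Embedding.subtype (fun x => x ≠ v)) H⟩
    rcases ih {x // x ≠ v} (H.comap (Function.Embedding.subtype (fun x => x ≠ v))) hcard with
      ⟨o, ho, hO⟩ | hbot | ⟨L, hL, h, hinj, hlt, hadj⟩
    · exact Or.inl ⟨o, ho, hO.trans hemb⟩
    · refine star_case H v fun x y hx hy hxy => ?_
      have h1 : (H.comap (Function.Embedding.subtype (fun x => x ≠ v))).Adj ⟨x, hx⟩ ⟨y, hy⟩ := hxy
      rw [hbot] at h1
      exact h1
    · have main : ∀ (m : ℕ) (E : List (ℕ × ℕ)) (bads goods : List (ℕ × ℕ × ℕ × List ℕ)),
          check m E bads goods = true → L = (m, E) →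
          (∃ o ∈ obs, Occ o.1 o.2 H) ∨ H = ⊥ ∨ (∃ L ∈ lists, Emb H L) := by
        rintro m E bads goods hchk rfl
        have := classify_step hchk H v (fun x => if hx : x = v then m else h ⟨x, hx⟩)
          (by simp) (fun x hx => by simp only [hx, dif_neg, not_false_eq_true]; exact hlt _)
          (by
            intro x y hxy
            by_cases hx : x = v <;> by_cases hy : y = v
            · rw [hx, hy]
            · simp only [hx, hy, dif_pos, dif_neg, not_false_eq_true] at hxy
              have := hlt ⟨y, hy⟩
              simp only at this
              omega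
            · simp only [hx, hy, dif_pos, dif_neg, not_false_eq_true] at hxy
              have := hlt ⟨x, hx⟩
              simp only at this
              omega
            · simp only [hx, hy, dif_neg, not_false_eq_true] at hxy
              have := hinj hxy
              simpa using this)
          (by
            intro x y hx hy
            simp only [hx, hy, dif_neg, not_false_eq_true]
            exact hadj ⟨x, hx⟩ ⟨y, hy⟩)
        rcases this with h | h
        · exact Or.inl h
        · exact Or.inr (Or.inr h)
      have hL' := hL
      simp only [lists, List.mem_cons, List.not_mem_nil, or_false] at hL'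
      rcases hL' with hL' | hL' | hL' | hL' | hL'
      · exact main _ _ _ _ check0 hL'
      · exact main _ _ _ _ check1 hL'
      · exact main _ _ _ _ check2 hL'
      · exact main _ _ _ _ check3 hL'
      · refine star_case H v fun x y hx hy hxy => ?_
        have h1 := (hadj ⟨x, hx⟩ ⟨y, hy⟩).1 hxy
        rw [hL'] at h1
        simp [padj] at h1

end Pool.Agent.LinCW
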