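import Pool.Agent.LinCW55.Defs
import Pool.Agent.LinCW55.Good

set_option autoImplicit false

/-!
# Good orders give linear expressions
-/

namespace Pool.Agent.LinCW

open SimpleGraph Classical

variable {V : Type} {K : ℕ}

/-- The labelled graph `(A, l)` on the vertex set `P` is built by a linear expression. -/
def Built (K : ℕ) (P : Set V) (A : V → V → Prop) (l : V → Fin K) : Prop :=
  ∃ e : Expr K, e.IsLinear ∧ ∃ φ : e.V → V, Function.Injective φ ∧ Set.range φ = P ∧
    (∀ x, e.label x = l (φ x)) ∧ ∀ x y, e.graph.Adj x y ↔ A (φ x) (φ y)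

lemma Built.congr {P : Set V} {A A' : V → V → Prop} {l l' : V → Fin K} (h : Built K P A l)
    (hA : ∀ u ∈ P, ∀ v ∈ P, (A' u v ↔ A u v)) (hl : ∀ u ∈ P, l' u = l u) : Built K P A' l' := by
  obtain ⟨e, he, φ, hφ, hr, h1, h2⟩ := h
  have hm : ∀ x, φ x ∈ P := fun x => hr ▸ Set.mem_range_self x
  exact ⟨e, he, φ, hφ, hr, fun x => by rw [h1, hl _ (hm x)],
    fun x y => by rw [h2, hA _ (hm x) _ (hm y)]⟩

lemma Built.relabel {P : Set V} {A : V → V → Prop} {l : V → Fin K} (h : Built K P A l)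
    (i j : Fin K) : Built K P A (fun v => if l v = i then j else l v) := by
  obtain ⟨e, he, φ, hφ, hr, h1, h2⟩ := h
  refine ⟨.relabel i j e, he, φ, hφ, hr, fun x => ?_, h2⟩
  change (if e.label x = i then j else e.label x) = _
  rw [h1 x]

lemma Built.join {P : Set V} {A : V → V → Prop} {l : V → Fin K} (h : Built K P A l)
    {i j : Fin K} (hij : i ≠ j) :
    Built K P (fun u v => A u v ∨ (l u = i ∧ l v = j) ∨ (l u = j ∧ l v = i)) l := by
  obtain ⟨e, he, φ, hφ, hr, h1, h2⟩ := h
  refine ⟨.join i j hij e, he, φ, hφ, hr, h1, fun x y => ?_⟩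
  change (e.graph.Adj x y ∨ (e.label x = i ∧ e.label y = j) ∨
    (e.label x = j ∧ e.label y = i)) ↔ _
  rw [h1 x, h1 y, h2 x y]

lemma Built.joins {P : Set V} {A : V → V → Prop} {l : V → Fin K} (h : Built K P A l)
    {z : Fin K} (S : Finset (Fin K)) (hz : z ∉ S) :
    Built K P (fun u v => A u v ∨ (l u = z ∧ l v ∈ S) ∨ (l u ∈ S ∧ l v = z)) l := by
  induction S using Finset.induction_on with
  | empty => exact h.congr (fun u _ v _ => by simp) (fun _ _ => rfl)
  | insert s S hs ih =>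
    have hz' : z ∉ S := fun h' => hz (Finset.mem_insert_of_mem h')
    have hzs : z ≠ s := fun h' => hz (h' ▸ Finset.mem_insert_self _ _)
    refine ((ih hz').join hzs).congr (fun u _ v _ => ?_) (fun _ _ => rfl)
    simp only [Finset.mem_insert]
    tauto

lemma bot_unit (x y : Unit) : ¬ (⊥ : SimpleGraph Unit).Adj x y := by simp

lemma sum_bot_unit {W : Type} (G : SimpleGraph W) (x y : Unit) :
    ¬ (G ⊕g (⊥ : SimpleGraph Unit)).Adj (Sum.inr x) (Sum.inr y) := by simp

lemma Built.add {P : Set V} {A : V → V → Prop} {l : V → Fin K} (h : Built K P A l)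
    {a : V} (ha : a ∉ P) (z : Fin K) :
    Built K (insert a P) (fun u v => A u v ∧ u ≠ a ∧ v ≠ a) (fun v => if v = a then z else l v) := by
  obtain ⟨e, he, φ, hφ, hr, h1, h2⟩ := h
  have hm : ∀ x, φ x ∈ P := fun x => hr ▸ Set.mem_range_self x
  have hne : ∀ x, φ x ≠ a := fun x hx => ha (hx ▸ hm x)
  refine ⟨.union e (.vertex z), ⟨he, trivial, Or.inr ?_⟩, Sum.elim φ (fun _ => a), ?_, ?_, ?_, ?_⟩
  · change Nat.card Unit = 1
    simp
  · rintro (x | x) (y | y) hxy
    · exact congrArg Sum.inl (hφ hxy)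
    · exact absurd hxy (hne x)
    · exact absurd hxy.symm (hne y)
    · rfl
  · rw [← hr]
    ext v
    constructor
    · rintro ⟨x, hx⟩
      rcases x with x | x
      · exact Or.inr ⟨x, hx⟩
      · exact Or.inl hx.symm
    · rintro (h | ⟨x, hx⟩)
      · exact ⟨Sum.inr (() : Unit), h.symm⟩
      · exact ⟨Sum.inl x, hx⟩
  · rintro (x | x)
    · change e.label x = if φ x = a then z else l (φ x)
      rw [if_neg (hne x), h1]
    · change z = if a = a then z else l a
      simp
  · rintro (x | x) (y | y)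
    · change (e.graph ⊕g (⊥ : SimpleGraph Unit)).Adj (Sum.inl x) (Sum.inl y) ↔
        A (φ x) (φ y) ∧ φ x ≠ a ∧ φ y ≠ a
      simp [h2, hne]
    · change (e.graph ⊕g (⊥ : SimpleGraph Unit)).Adj (Sum.inl x) (Sum.inr y) ↔
        A (φ x) a ∧ φ x ≠ a ∧ a ≠ a
      simp
    · change (e.graph ⊕g (⊥ : SimpleGraph Unit)).Adj (Sum.inr x) (Sum.inl y) ↔
        A a (φ y) ∧ a ≠ a ∧ φ y ≠ a
      simp
    · change (e.graph ⊕g (⊥ : SimpleGraph Unit)).Adj (Sum.inr x) (Sum.inr y) ↔
        A a a ∧ a ≠ a ∧ a ≠ a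
      exact iff_of_false (sum_bot_unit e.graph x y) (by simp)

/-- Equal labels have equal traces outside `P`. -/
def Valid (G : SimpleGraph V) (P : Set V) (l : V → Fin K) : Prop :=
  ∀ u ∈ P, ∀ v ∈ P, l u = l v → ∀ w, w ∉ P → (G.Adj u w ↔ G.Adj v w)

/-- At most `m` classes. -/
def Few (G : SimpleGraph V) (m : ℕ) (P : Set V) : Prop :=
  ∃ (γ : Type) (S : Finset γ) (c : V → γ), S.card ≤ m ∧ (∀ u ∈ P, c u ∈ S) ∧
    ∀ u ∈ P, ∀ v ∈ P, c u = c v → ∀ w, w ∉ P → (G.Adj u w ↔ G.Adj v w)

lemma built_step {G : SimpleGraph V} {m : ℕ} {P : Set V} (hF : Few G m P)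
    {l : V → Fin (m + 1)} (hB : Built (m + 1) P G.Adj l) (hV : Valid G P l) {a : V} (ha : a ∉ P) :
    ∃ l' : V → Fin (m + 1), Built (m + 1) (insert a P) G.Adj l' ∧ Valid G (insert a P) l' := by
  -- first find a valid labelling with a free label
  obtain ⟨l, hB, hV, z, hz⟩ : ∃ l : V → Fin (m + 1), Built (m + 1) P G.Adj l ∧ Valid G P l ∧
      ∃ z, ∀ u ∈ P, l u ≠ z := by
    by_cases hall : ∀ z, ∃ u ∈ P, l u = z
    · choose r hr hl using hall
      obtain ⟨γ, S, c, hS, hc, hcv⟩ := hF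
      obtain ⟨i, -, j, -, hij, hcij⟩ := Finset.exists_ne_map_eq_of_card_lt_of_maps_to
        (s := (Finset.univ : Finset (Fin (m + 1)))) (t := S) (f := fun i => c (r i))
        (by rw [Finset.card_univ, Fintype.card_fin]; omega) (fun i _ => hc _ (hr i))
      have hkey : ∀ u ∈ P, l u = i → ∀ v ∈ P, l v = j → ∀ w, w ∉ P →
          (G.Adj u w ↔ G.Adj v w) := by
        intro u hu hui v hv hvj w hw
        rw [hV u hu (r i) (hr i) (by rw [hui, hl]) w hw, hcv (r i) (hr i) (r j) (hr j) hcij w hw,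
          hV (r j) (hr j) v hv (by rw [hvj, hl]) w hw]
      refine ⟨_, hB.relabel i j, ?_, i, ?_⟩
      · intro u hu v hv huv w hw
        by_cases h1 : l u = i <;> by_cases h2 : l v = i
        · exact hV u hu v hv (h1.trans h2.symm) w hw
        · simp only [h1, h2, if_true, if_false] at huv
          exact hkey u hu h1 v hv huv.symm w hw
        · simp only [h1, h2, if_true, if_false] at huv
          exact (hkey v hv h2 u hu huv w hw).symm
        · simp only [h1, h2, if_false] at huv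
          exact hV u hu v hv huv w hw
      · intro u hu
        by_cases h1 : l u = i
        · simp only [h1, if_true]
          exact hij.symm
        · simp only [h1, if_false]
          exact fun h => h1 h
    · push Not at hall
      obtain ⟨z, hz⟩ := hall
      exact ⟨l, hB, hV, z, hz⟩
  set S : Finset (Fin (m + 1)) := Finset.univ.filter fun i => ∃ u ∈ P, l u = i ∧ G.Adj u a with hS
  have hzS : z ∉ S := by
    intro h
    obtain ⟨u, hu, hlu, -⟩ := (Finset.mem_filter.1 h).2
    exact hz u hu hlu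
  have hmS : ∀ u ∈ P, (l u ∈ S ↔ G.Adj u a) := by
    intro u hu
    rw [hS, Finset.mem_filter]
    constructor
    · rintro ⟨-, v, hv, hlv, hva⟩
      exact (hV v hv u hu hlv a ha).1 hva
    · intro h
      exact ⟨Finset.mem_univ _, u, hu, rfl, h⟩
  refine ⟨fun v => if v = a then z else l v, ?_, ?_⟩
  · refine ((hB.add ha z).joins S hzS).congr ?_ (fun _ _ => rfl)
    intro u hu v hv
    have hne : ∀ u ∈ P, u ≠ a := fun u hu h => ha (h ▸ hu)
    rcases hu with rfl | hu <;> rcases hv with rfl | hv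
    · simp [hzS]
    · simp only [ne_eq, not_true_eq_false, false_and, and_false, if_true, true_and, false_or,
        hne v hv, if_false, hmS v hv, hzS, not_false_eq_true]
      rw [or_false]
      exact ⟨fun h => h.symm, fun h => h.symm⟩
    · simp only [ne_eq, not_true_eq_false, and_false, if_true, and_true, false_or,
        hne u hu, if_false, hmS u hu, hzS]
    · simp only [ne_eq, hne u hu, hne v hv, not_false_eq_true, and_true, if_false, hz u hu,
        hz v hv, false_and, and_false, or_false]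
  · intro u hu v hv huv w hw
    have hwP : w ∉ P := fun h => hw (Set.mem_insert_of_mem _ h)
    have hne : ∀ u ∈ P, u ≠ a := fun u hu h => ha (h ▸ hu)
    rcases hu with rfl | hu <;> rcases hv with rfl | hv
    · exact Iff.rfl
    · simp only [if_true, hne v hv, if_false] at huv
      exact absurd huv.symm (hz v hv)
    · simp only [if_true, hne u hu, if_false] at huv
      exact absurd huv (hz u hu)
    · simp only [hne u hu, hne v hv, if_false] at huv
      exact hV u hu v hv huv w hwP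

lemma built_single {G : SimpleGraph V} {m : ℕ} (a : V) :
    ∃ l' : V → Fin (m + 1), Built (m + 1) {a} G.Adj l' ∧ Valid G {a} l' := by
  refine ⟨fun _ => 0, ⟨.vertex 0, trivial, fun _ => a, ?_, ?_, fun _ => rfl, ?_⟩, ?_⟩
  · intro x y _
    exact Subsingleton.elim (α := Unit) x y
  · ext v
    constructor
    · rintro ⟨x, rfl⟩; rfl
    · rintro rfl
      exact ⟨(() : Unit), rfl⟩
  · intro x y
    change (⊥ : SimpleGraph Unit).Adj x y ↔ G.Adj a a
    exact iff_of_false (bot_unit x y) (by simp)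
  · rintro u rfl v rfl - w hw
    exact Iff.rfl

/-- The number of classes of a good prefix. -/
lemma few_of_cutOK {G : SimpleGraph V} {X Y P Q : Finset V} {d₁ d₂ : Bool} {k : ℕ}
    (hXY : ∀ v, v ∈ X ∨ v ∈ Y) (hX : ∀ u ∈ X, ∀ v ∈ X, ¬ G.Adj u v)
    (hY : ∀ u ∈ Y, ∀ v ∈ Y, ¬ G.Adj u v) (hP : P ⊆ X) (hQ : Q ⊆ Y)
    (h : CutOK G.Adj d₁ d₂ k X Y P Q) :
    Few G ((k + 1) + (k + 1)) (↑P ∪ ↑Q : Set V) := by
  obtain ⟨⟨T₁, hT₁, h₁⟩, ⟨T₂, hT₂, h₂⟩⟩ := h
  refine ⟨Option (Finset V) ⊕ Option (Finset V),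
    (Finset.insertNone T₁).disjSum (Finset.insertNone T₂),
    fun v => if v ∈ P then Sum.inl (if (Y \ Q).filter (G.Adj v) ∈ T₁ then
      some ((Y \ Q).filter (G.Adj v)) else none) else
      Sum.inr (if (X \ P).filter (G.Adj v) ∈ T₂ then some ((X \ P).filter (G.Adj v)) else none),
    ?_, ?_, ?_⟩
  · rw [Finset.card_disjSum, Finset.card_insertNone, Finset.card_insertNone]
    omega
  · intro u hu
    by_cases huP : u ∈ P
    · simp only [huP, if_true, Finset.inl_mem_disjSum]
      split_ifs with h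
      · simpa using h
      · simp
    · simp only [huP, if_false, Finset.inr_mem_disjSum]
      split_ifs with h
      · simpa using h
      · simp
  · have key₁ : ∀ u ∈ P, ∀ v ∈ P, (if (Y \ Q).filter (G.Adj u) ∈ T₁ then
        some ((Y \ Q).filter (G.Adj u)) else none) = (if (Y \ Q).filter (G.Adj v) ∈ T₁ then
        some ((Y \ Q).filter (G.Adj v)) else none) → ∀ w ∈ Y \ Q, (G.Adj u w ↔ G.Adj v w) := by
      intro u hu v hv huv w hw
      by_cases h1 : (Y \ Q).filter (G.Adj u) ∈ T₁ <;> by_cases h2 : (Y \ Q).filter (G.Adj v) ∈ T₁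
      · simp only [h1, h2, if_true, Option.some.injEq] at huv
        have := Finset.ext_iff.1 huv w
        simpa [Finset.mem_filter, Finset.mem_sdiff.1 hw] using this
      · simp [h1, h2] at huv
      · simp [h1, h2] at huv
      · rw [(h₁ u hu).resolve_left h1 w hw, (h₁ v hv).resolve_left h2 w hw]
    have key₂ : ∀ u ∈ Q, ∀ v ∈ Q, (if (X \ P).filter (G.Adj u) ∈ T₂ then
        some ((X \ P).filter (G.Adj u)) else none) = (if (X \ P).filter (G.Adj v) ∈ T₂ then
        some ((X \ P).filter (G.Adj v)) else none) → ∀ w ∈ X \ P, (G.Adj u w ↔ G.Adj v w) := by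
      have e : ∀ u, (X \ P).filter ((fun b a => G.Adj a b) u) = (X \ P).filter (G.Adj u) := by
        intro u
        ext w
        simp [G.adj_comm]
      intro u hu v hv huv w hw
      by_cases h1 : (X \ P).filter (G.Adj u) ∈ T₂ <;> by_cases h2 : (X \ P).filter (G.Adj v) ∈ T₂
      · simp only [h1, h2, if_true, Option.some.injEq] at huv
        have := Finset.ext_iff.1 huv w
        simpa [Finset.mem_filter, Finset.mem_sdiff.1 hw] using this
      · simp [h1, h2] at huv
      · simp [h1, h2] at huv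
      · have e1 : G.Adj w u ↔ d₂ = true := (h₂ u hu).resolve_left (by rwa [e]) w hw
        have e2 : G.Adj w v ↔ d₂ = true := (h₂ v hv).resolve_left (by rwa [e]) w hw
        rw [G.adj_comm u w, G.adj_comm v w, e1, e2]
    intro u hu v hv huv w hw
    have hwP : w ∉ P := fun h => hw (Or.inl h)
    have hwQ : w ∉ Q := fun h => hw (Or.inr h)
    by_cases huP : u ∈ P <;> by_cases hvP : v ∈ P
    · simp only [huP, hvP, if_true, Sum.inl.injEq] at huv
      rcases hXY w with hwX | hwY
      · exact iff_of_false (hX u (hP huP) w hwX) (hX v (hP hvP) w hwX)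
      · exact key₁ u huP v hvP huv w (Finset.mem_sdiff.2 ⟨hwY, hwQ⟩)
    · simp [huP, hvP] at huv
    · simp [huP, hvP] at huv
    · have huQ : u ∈ Q := hu.resolve_left huP
      have hvQ : v ∈ Q := hv.resolve_left hvP
      simp only [huP, hvP, if_false, Sum.inr.injEq] at huv
      rcases hXY w with hwX | hwY
      · exact key₂ u huQ v hvQ huv w (Finset.mem_sdiff.2 ⟨hwX, hwP⟩)
      · exact iff_of_false (hY u (hQ huQ) w hwY) (hY v (hQ hvQ) w hwY)

theorem exists_expr_of_good [Nonempty V] {G : SimpleGraph V} {X Y : Finset V} {d₁ d₂ : Bool}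
    {k : ℕ} (hd : ∀ v, v ∈ X → v ∉ Y)
    (hXY : ∀ v, v ∈ X ∨ v ∈ Y) (hX : ∀ u ∈ X, ∀ v ∈ X, ¬ G.Adj u v)
    (hY : ∀ u ∈ Y, ∀ v ∈ Y, ¬ G.Adj u v) (h : Good G.Adj d₁ d₂ k X Y) :
    ∃ e : Expr ((k + 1) + (k + 1) + 1), e.IsLinear ∧ Nonempty (e.graph ≃g G) := by
  have main : ∀ P Q : Finset V, Reach G.Adj d₁ d₂ k X Y P Q → (P = ∅ ∧ Q = ∅) ∨
      ∃ l : V → Fin ((k + 1) + (k + 1) + 1),
        Built ((k + 1) + (k + 1) + 1) (↑P ∪ ↑Q : Set V) G.Adj l ∧ Valid G (↑P ∪ ↑Q : Set V) l := by
    intro P Q hR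
    induction hR with
    | zero => exact Or.inl ⟨rfl, rfl⟩
    | @stepA P Q a hR ha haP hc ih =>
      right
      have haQ : a ∉ Q := fun h' => hd a ha (hR.subset.2 h')
      rcases ih with ⟨rfl, rfl⟩ | ⟨l, hB, hV⟩
      · have : ((↑(insert a (∅ : Finset V)) : Set V) ∪ ↑(∅ : Finset V)) = {a} := by simp
        rw [this]
        exact built_single a
      · have hF := few_of_cutOK hXY hX hY hR.subset.1 hR.subset.2 hR.cutOK
        obtain ⟨l', hB', hV'⟩ := built_step hF hB hV (a := a) (by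
          rintro (h' | h')
          · exact haP h'
          · exact haQ h')
        refine ⟨l', ?_⟩
        have : ((↑(insert a P) : Set V) ∪ ↑Q) = insert a (↑P ∪ ↑Q : Set V) := by
          rw [Finset.coe_insert, Set.insert_union]
        rw [this]
        exact ⟨hB', hV'⟩
    | @stepB P Q a hR ha haP hc ih =>
      right
      have haQ : a ∉ P := fun h' => hd a (hR.subset.1 h') ha
      rcases ih with ⟨rfl, rfl⟩ | ⟨l, hB, hV⟩
      · have : ((↑(∅ : Finset V) : Set V) ∪ ↑(insert a (∅ : Finset V))) = {a} := by simp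
        rw [this]
        exact built_single a
      · have hF := few_of_cutOK hXY hX hY hR.subset.1 hR.subset.2 hR.cutOK
        obtain ⟨l', hB', hV'⟩ := built_step hF hB hV (a := a) (by
          rintro (h' | h')
          · exact haQ h'
          · exact haP h')
        refine ⟨l', ?_⟩
        have : ((↑P : Set V) ∪ ↑(insert a Q)) = insert a (↑P ∪ ↑Q : Set V) := by
          rw [Finset.coe_insert, Set.union_insert]
        rw [this]
        exact ⟨hB', hV'⟩
  rcases main X Y h with ⟨rfl, rfl⟩ | ⟨l, ⟨e, he, φ, hφ, hr, -, h2⟩, -⟩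
  · obtain ⟨v⟩ := (inferInstance : Nonempty V)
    rcases hXY v with h | h <;> simp at h
  · refine ⟨e, he, ⟨⟨Equiv.ofBijective φ ⟨hφ, fun v => ?_⟩, ?_⟩⟩⟩
    · have : v ∈ Set.range φ := by
        rw [hr]
        exact hXY v
      exact this
    · intro x y
      exact (h2 x y).symm

theorem linearCliqueWidth_le_of_good [Nonempty V] {G : SimpleGraph V} {X Y : Finset V}
    {d₁ d₂ : Bool} {k : ℕ} (hd : ∀ v, v ∈ X → v ∉ Y)
    (hXY : ∀ v, v ∈ X ∨ v ∈ Y) (hX : ∀ u ∈ X, ∀ v ∈ X, ¬ G.Adj u v)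
    (hY : ∀ u ∈ Y, ∀ v ∈ Y, ¬ G.Adj u v) (h : Good G.Adj d₁ d₂ k X Y) :
    linearCliqueWidth G ≤ (k + 1) + (k + 1) + 1 :=
  Nat.sInf_le (exists_expr_of_good hd hXY hX hY h)

end Pool.Agent.LinCW
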