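import Pool.Agent.LinCW55.Structure
import Pool.Agent.LinCW55.Upper

set_option autoImplicit false

/-!
# The classes without an obstruction are unbounded
-/

namespace Pool.Agent.LinCW

open SimpleGraph Classical

variable {V : Type}

/-- The two colour classes of a bipartite graph. -/
lemma exists_sides [Finite V] {G : SimpleGraph V} (hG : G.IsBipartite) :
    ∃ X Y : Finset V, (∀ v, v ∈ X → v ∉ Y) ∧ (∀ v, v ∈ X ∨ v ∈ Y) ∧
      (∀ u ∈ X, ∀ v ∈ X, ¬ G.Adj u v) ∧ (∀ u ∈ Y, ∀ v ∈ Y, ¬ G.Adj u v) := by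
  haveI := Fintype.ofFinite V
  obtain ⟨c⟩ := hG
  refine ⟨Finset.univ.filter (fun v => c v = 0), Finset.univ.filter (fun v => c v = 1),
    ?_, ?_, ?_, ?_⟩
  · intro v hv hv'
    rw [Finset.mem_filter] at hv hv'
    rw [hv.2] at hv'
    exact absurd hv'.2 (by decide)
  · intro v
    simp only [Finset.mem_filter, Finset.mem_univ, true_and]
    have : ∀ x : Fin 2, x = 0 ∨ x = 1 := by decide
    exact this (c v)
  · intro u hu v hv h
    rw [Finset.mem_filter] at hu hv
    exact c.valid h (hu.2.trans hv.2.symm)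
  · intro u hu v hv h
    rw [Finset.mem_filter] at hu hv
    exact c.valid h (hu.2.trans hv.2.symm)

lemma timeLE_of_lcw [Finite V] [Nonempty V] {G : SimpleGraph V} (hG : G.IsBipartite) {c : ℕ}
    (h : linearCliqueWidth G ≤ c) : TimeLE G c := by
  obtain ⟨X, Y, hd, hXY, hX, hY⟩ := exists_sides hG
  have hgood : Good G.Adj false false X.card X Y := good_of_card le_rfl
  have hne : {k | ∃ e : Expr k, e.IsLinear ∧ Nonempty (e.graph ≃g G)}.Nonempty :=
    ⟨_, exists_expr_of_good hd hXY hX hY hgood⟩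
  exact (timeLE_of_expr (Nat.sInf_mem hne)).mono h

/-- The bipartite graphs without the pattern have unbounded width. -/
def Unb (n : ℕ) (E : List (ℕ × ℕ)) : Prop :=
  ∀ c : ℕ, ∃ (V : Type) (_ : Finite V) (_ : Nonempty V) (G : SimpleGraph V),
    G.IsBipartite ∧ ¬ Occ n E G ∧ ¬ TimeLE G c

lemma unb_of_wall {n : ℕ} {E : List (ℕ × ℕ)} (h : ∀ m, ¬ Occ n E (wall m)) : Unb n E := by
  intro c
  refine ⟨WV (3 * c + 2), inferInstance, ⟨Sum.inl (true, 0, 0)⟩, wall (3 * c + 2),
    bip_isBipartite, h _, fun ht => ?_⟩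
  have := wall_width ht
  omega

lemma unb_of_cowall {n : ℕ} {E : List (ℕ × ℕ)} (h : ∀ m, ¬ Occ n E (bcg (wall m) wside)) :
    Unb n E := by
  intro c
  refine ⟨WV (3 * (c * 2) + 2), inferInstance, ⟨Sum.inl (true, 0, 0)⟩,
    bcg (wall (3 * (c * 2) + 2)) wside, bcg_isBipartite _, h _, fun ht => ?_⟩
  have := wall_width (ht.of_bcg (by
    rintro (u | u) (v | v) huv
    · exact huv.elim
    · exact Bool.noConfusion
    · exact Bool.noConfusion
    · exact huv.elim))
  omega

lemma not_occ_of_odd {n : ℕ} {E : List (ℕ × ℕ)} {G : SimpleGraph V} (hG : G.IsBipartite)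
    (hE : ∀ s : Fin n → Bool, ∃ i j : Fin n, padj E i j = true ∧ s i = s j) : ¬ Occ n E G := by
  rintro ⟨g, hg, hadj⟩
  obtain ⟨c⟩ := hG
  obtain ⟨i, j, h1, h2⟩ := hE (fun i => decide (c (g i) = 0))
  have h3 := c.valid ((hadj i j).2 h1)
  have h4 : ∀ x y : Fin 2, x ≠ y → decide (x = 0) ≠ decide (y = 0) := by decide
  exact h4 _ _ h3 h2

lemma odd_c3 (s : Fin 3 → Bool) :
    ∃ i j : Fin 3, padj [(0, 1), (1, 2), (0, 2)] i j = true ∧ s i = s j := by
  cases h0 : s 0 <;> cases h1 : s 1 <;> cases h2 : s 2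
  · exact ⟨0, 1, by decide, by rw [h0, h1]⟩
  · exact ⟨0, 1, by decide, by rw [h0, h1]⟩
  · exact ⟨0, 2, by decide, by rw [h0, h2]⟩
  · exact ⟨1, 2, by decide, by rw [h1, h2]⟩
  · exact ⟨1, 2, by decide, by rw [h1, h2]⟩
  · exact ⟨0, 2, by decide, by rw [h0, h2]⟩
  · exact ⟨0, 1, by decide, by rw [h0, h1]⟩
  · exact ⟨0, 1, by decide, by rw [h0, h1]⟩

lemma odd_c5 (s : Fin 5 → Bool) :
    ∃ i j : Fin 5, padj [(0, 1), (1, 2), (2, 3), (3, 4), (0, 4)] i j = true ∧ s i = s j := by
  by_contra hno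
  push Not at hno
  have e1 := hno 0 1 (by decide)
  have e2 := hno 1 2 (by decide)
  have e3 := hno 2 3 (by decide)
  have e4 := hno 3 4 (by decide)
  have e5 := hno 0 4 (by decide)
  cases h0 : s 0 <;> cases h1 : s 1 <;> cases h2 : s 2 <;> cases h3 : s 3 <;>
    cases h4 : s 4 <;> simp_all

/-- Every obstruction gives an unbounded class. -/
theorem unb_of_obs (o : ℕ × List (ℕ × ℕ)) (ho : o ∈ obs) : Unb o.1 o.2 := by
  simp only [obs, List.mem_cons, List.not_mem_nil, or_false] at ho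
  rcases ho with rfl | rfl | rfl | rfl | rfl | rfl | rfl | rfl | rfl | rfl | rfl | rfl | rfl
  · exact unb_of_wall fun m => not_occ_of_odd bip_isBipartite odd_c3
  · exact unb_of_wall fun m => not_occ_of_odd bip_isBipartite odd_c5
  · refine unb_of_wall fun m => ?_
    rintro ⟨g, hg, hadj⟩
    exact wall_c4 ((hadj 0 1).2 (by decide)) ((hadj 1 2).2 (by decide))
      ((hadj 2 3).2 (by decide)) ((hadj 3 0).2 (by decide)) (hg.ne (by decide))
      (hg.ne (by decide))
  · refine unb_of_wall fun m => ?_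
    rintro ⟨g, hg, hadj⟩
    exact wall_c6 ((hadj 0 1).2 (by decide)) ((hadj 1 2).2 (by decide))
      ((hadj 2 3).2 (by decide)) ((hadj 3 4).2 (by decide)) ((hadj 4 5).2 (by decide))
      ((hadj 5 0).2 (by decide)) (hg.ne (by decide))
      (hg.ne (by decide)) (hg.ne (by decide)) (hg.ne (by decide)) (hg.ne (by decide))
      (hg.ne (by decide))
  · refine unb_of_wall fun m => ?_
    rintro ⟨g, hg, hadj⟩
    exact wall_k14 ((hadj 0 1).2 (by decide)) ((hadj 0 2).2 (by decide))
      ((hadj 0 3).2 (by decide)) ((hadj 0 4).2 (by decide)) (hg.ne (by decide))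
      (hg.ne (by decide)) (hg.ne (by decide)) (hg.ne (by decide)) (hg.ne (by decide))
      (hg.ne (by decide))
  · refine unb_of_wall fun m => ?_
    rintro ⟨g, hg, hadj⟩
    exact wall_ds (u := g 0) (v := g 1) (a := g 2) (b := g 3) (c := g 4) (d := g 5)
      ((hadj 0 1).2 (by decide)) ((hadj 0 2).2 (by decide))
      ((hadj 0 3).2 (by decide)) ((hadj 1 4).2 (by decide)) ((hadj 1 5).2 (by decide))
      (hg.ne (by decide)) (hg.ne (by decide)) (hg.ne (by decide)) (hg.ne (by decide))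
      (hg.ne (by decide)) (hg.ne (by decide))
  · intro c
    refine ⟨LV (c + 1), inferInstance, inferInstance, lam (c + 1), ?_, not_occ_P6, fun h => ?_⟩
    · refine ⟨Coloring.mk (fun v => if lside v then 0 else 1) ?_⟩
      intro u v h
      have := lside_adj u v h
      cases hu : lside u <;> cases hv : lside v <;> simp_all
    · have := lam_width h
      omega
  · exact unb_of_cowall fun m => not_occ_3P2
  · exact unb_of_cowall fun m => not_occ_bcg_wall bad_P2_4P1
  · exact unb_of_cowall fun m => not_occ_bcg_wall bad_2P2_2P1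
  · exact unb_of_cowall fun m => not_occ_bcg_wall bad_P4_2P1
  · intro c
    refine ⟨LV (c * 2 + 1), inferInstance, inferInstance, bcg (lam (c * 2 + 1)) lside,
      bcg_isBipartite _, not_occ_P2_P4, fun h => ?_⟩
    have := lam_width (h.of_bcg lside_adj)
    omega
  · intro c
    refine ⟨_, inferInstance, ⟨Sum.inl (true, 0, 0)⟩, gp (4 * c + 2), bip_isBipartite,
      not_occ_2P3, fun h => ?_⟩
    have := gp_width h
    omega

/-- If the class of `H`-free bipartite graphs is bounded then `H` has no obstruction. -/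
theorem not_occ_of_bounded {W : Type} {H : SimpleGraph W}
    (hb : BoundedLCW (fun _ G => G.IsBipartite ∧ ¬ H ⊴ G)) (o : ℕ × List (ℕ × ℕ))
    (ho : o ∈ obs) : ¬ Occ o.1 o.2 H := by
  intro hocc
  obtain ⟨c, hc⟩ := hb
  obtain ⟨V, hV, hV', G, hG, hfree, hw⟩ := unb_of_obs o ho c
  exact hw (timeLE_of_lcw hG (hc V G ⟨hG, fun h => hfree (hocc.trans h)⟩))

end Pool.Agent.LinCW
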