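import Pool.Agent.LinCW55.Lower

set_option autoImplicit false

/-!
# Subdivided hexagonal walls: unbounded width
-/

namespace Pool.Agent.LinCW

open SimpleGraph Classical

variable {V : Type} {G : SimpleGraph V}

/-- The condition at a cut. -/
def CutLE (G : SimpleGraph V) (f : V → ℕ) (t k : ℕ) : Prop :=
  ∃ c : V → Fin k, ∀ u v, f u < t → f v < t → c u = c v → ∀ w, t ≤ f w →
    (G.Adj u w ↔ G.Adj v w)

/-- Many crossing edges give many classes if the degrees are at most three. -/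
lemma crossing_card {f : V → ℕ} {t k : ℕ} (h : CutLE G f t k)
    (hdeg : ∀ (v : V) (s : Finset V), (∀ x ∈ s, G.Adj x v) → s.card ≤ 3)
    {ι : Type} (S : Finset ι) (x y : ι → V) (hx : Set.InjOn x ↑S)
    (hP : ∀ i ∈ S, f (x i) < t) (hF : ∀ i ∈ S, t ≤ f (y i)) (hadj : ∀ i ∈ S, G.Adj (x i) (y i)) :
    S.card ≤ 3 * k := by
  obtain ⟨c, hc⟩ := h
  by_contra hlt
  push Not at hlt
  obtain ⟨z, -, hz⟩ := Finset.exists_lt_card_fiber_of_mul_lt_card_of_maps_to
    (s := S) (t := (Finset.univ : Finset (Fin k))) (f := fun i => c (x i)) (n := 3)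
    (fun i _ => Finset.mem_univ _) (by rw [Finset.card_univ, Fintype.card_fin]; omega)
  obtain ⟨i₀, hi₀⟩ : (S.filter fun i => c (x i) = z).Nonempty :=
    Finset.card_pos.1 (by omega)
  obtain ⟨hi₀S, hi₀c⟩ := Finset.mem_filter.1 hi₀
  have h1 := hdeg (y i₀) ((S.filter fun i => c (x i) = z).image x) (by
    intro v hv
    obtain ⟨i, hi, rfl⟩ := Finset.mem_image.1 hv
    obtain ⟨hiS, hic⟩ := Finset.mem_filter.1 hi
    exact (hc (x i) (x i₀) (hP i hiS) (hP i₀ hi₀S) (hic.trans hi₀c.symm) (y i₀)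
      (hF i₀ hi₀S)).2 (hadj i₀ hi₀S))
  rw [Finset.card_image_of_injOn (fun a ha b hb hab => hx
    (Finset.mem_filter.1 ha).1 (Finset.mem_filter.1 hb).1 hab)] at h1
  omega

/-- The combinatorial core for walls. -/
lemma wall_core {m : ℕ} {f : V → ℕ} (hf : Function.Injective f) {t k : ℕ} (h : CutLE G f t k)
    (hdeg : ∀ (v : V) (s : Finset V), (∀ x ∈ s, G.Adj x v) → s.card ≤ 3)
    (S : Fin m → Set V) (hS : ∀ i j x, x ∈ S i → x ∈ S j → i = j)
    (hconn : ∀ (t : ℕ) (j : Fin m), (∃ v ∈ S j, f v < t) → (∃ v ∈ S j, t ≤ f v) →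
      ∃ x ∈ S j, ∃ y ∈ S j, f x < t ∧ t ≤ f y ∧ G.Adj x y)
    (z : Fin m → V) (hz : ∀ j, z j ∈ S j) (hzt : ∀ j, f (z j) ≤ t)
    (hF : ∀ j, ∃ v ∈ S j, t ≤ f v) : m ≤ 3 * k + 1 := by
  rcases Nat.eq_zero_or_pos m with rfl | hm
  · omega
  haveI : Nonempty V := ⟨z ⟨0, hm⟩⟩
  have h1 : ∀ j ∈ Finset.univ.filter (fun j : Fin m => f (z j) < t),
      ∃ x ∈ S j, ∃ y ∈ S j, f x < t ∧ t ≤ f y ∧ G.Adj x y := by
    intro j hj
    exact hconn t j ⟨z j, hz j, (Finset.mem_filter.1 hj).2⟩ (hF j)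
  choose! x hx y hy h2 h3 h4 using h1
  have h5 := crossing_card h hdeg (Finset.univ.filter (fun j : Fin m => f (z j) < t)) x y
    (fun i hi j hj hij => hS i j (x i) (hx i hi) (hij ▸ hx j hj)) h2 h3 h4
  have h6 : (Finset.univ.filter (fun j : Fin m => ¬ f (z j) < t)).card ≤ 1 := by
    rw [Finset.card_le_one]
    intro i hi j hj
    have hi' := (Finset.mem_filter.1 hi).2
    have hj' := (Finset.mem_filter.1 hj).2
    have e : f (z i) = f (z j) := by
      have := hzt i; have := hzt j; omega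
    have e' := hf e
    exact hS i j (z i) (hz i) (e' ▸ hz j)
  have h7 := Finset.card_filter_add_card_filter_not (s := (Finset.univ : Finset (Fin m)))
    (fun j : Fin m => f (z j) < t)
  rw [Finset.card_univ, Fintype.card_fin] at h7
  omega

/-- The vertices of the wall: branch vertices on the left, subdivision vertices on the right. -/
abbrev WV (m : ℕ) : Type := (Bool × Fin m × Fin m) ⊕ (Fin 3 × Fin m × Fin m)

/-- Incidences of the wall: the subdivision vertex `(e, i, j)` is adjacent to the branch vertex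
`(true, i, j)` and to `(false, i, j)`, `(false, i, j + 1)`, `(false, i + 1, j)` for
`e = 0, 1, 2`. -/
def winc (m : ℕ) (a : Bool × Fin m × Fin m) (b : Fin 3 × Fin m × Fin m) : Prop :=
  (a.1 = true ∧ a.2 = b.2) ∨
  (a.1 = false ∧ ((b.1 = 0 ∧ a.2 = b.2) ∨
    (b.1 = 1 ∧ a.2.1 = b.2.1 ∧ (a.2.2 : ℕ) = b.2.2 + 1) ∨
    (b.1 = 2 ∧ (a.2.1 : ℕ) = b.2.1 + 1 ∧ a.2.2 = b.2.2)))

/-- The bipartite graph of a relation. -/
def bip {α β : Type} (R : α → β → Prop) : SimpleGraph (α ⊕ β) where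
  Adj u v := match u, v with
    | Sum.inl a, Sum.inr b => R a b
    | Sum.inr b, Sum.inl a => R a b
    | _, _ => False
  symm := ⟨by rintro (a | a) (b | b) h <;> exact h⟩
  loopless := ⟨by rintro (a | a) h <;> exact h⟩

section

variable {α β : Type} {R : α → β → Prop}

@[simp] lemma bip_inl_inr {a : α} {b : β} : (bip R).Adj (Sum.inl a) (Sum.inr b) ↔ R a b := Iff.rfl
@[simp] lemma bip_inr_inl {a : α} {b : β} : (bip R).Adj (Sum.inr b) (Sum.inl a) ↔ R a b := Iff.rfl
@[simp] lemma bip_inl_inl {a a' : α} : ¬ (bip R).Adj (Sum.inl a) (Sum.inl a') := fun h => h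
@[simp] lemma bip_inr_inr {b b' : β} : ¬ (bip R).Adj (Sum.inr b) (Sum.inr b') := fun h => h

lemma bip_isBipartite : (bip R).IsBipartite := by
  refine ⟨Coloring.mk (fun v => if v.isLeft then 0 else 1) ?_⟩
  rintro (a | a) (b | b) h
  · exact absurd h bip_inl_inl
  · simp
  · simp
  · exact absurd h bip_inr_inr

end

/-- The subdivided wall. -/
abbrev wall (m : ℕ) : SimpleGraph (WV m) := bip (winc m)

lemma card_le_three {γ : Type} {s : Finset γ} {x y z : γ} (h : ∀ w ∈ s, w = x ∨ w = y ∨ w = z) :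
    s.card ≤ 3 := by
  have : s ⊆ {x, y, z} := by
    intro w hw
    simp only [Finset.mem_insert, Finset.mem_singleton]
    exact h w hw
  exact (Finset.card_le_card this).trans Finset.card_le_three

lemma wall_deg_inr {m : ℕ} (b : Fin 3 × Fin m × Fin m) :
    ∃ x y : WV m, ∀ w, (wall m).Adj w (Sum.inr b) → w = x ∨ w = y := by
  obtain ⟨e, i, j⟩ := b
  have key : ∃ p : Fin m × Fin m, ∀ p' : Fin m × Fin m, winc m (false, p') (e, i, j) → p' = p := by
    by_cases hne : ∃ p : Fin m × Fin m, winc m (false, p) (e, i, j)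
    · obtain ⟨p, hp⟩ := hne
      refine ⟨p, fun p' hp' => ?_⟩
      obtain ⟨p1, p2⟩ := p
      obtain ⟨q1, q2⟩ := p'
      simp only [winc, Bool.false_eq_true, false_and, true_and, false_or, Prod.mk.injEq,
        Fin.ext_iff] at hp hp'
      simp only [Prod.mk.injEq, Fin.ext_iff]
      have h0 : ((0 : Fin 3) : ℕ) = 0 := rfl
      have h1 : ((1 : Fin 3) : ℕ) = 1 := rfl
      have h2 : ((2 : Fin 3) : ℕ) = 2 := rfl
      rw [h0, h1, h2] at hp hp'
      omega
    · exact ⟨(i, j), fun p' hp' => absurd ⟨p', hp'⟩ hne⟩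
  obtain ⟨p, hp⟩ := key
  refine ⟨Sum.inl (true, i, j), Sum.inl (false, p), ?_⟩
  rintro (⟨s, q⟩ | w) hw
  · rw [bip_inl_inr] at hw
    cases s with
    | true =>
      left
      rcases hw with ⟨-, h⟩ | ⟨h, -⟩
      · rw [show q = (i, j) from h]
      · simp at h
    | false =>
      right
      rw [hp q hw]
  · exact absurd hw bip_inr_inr

lemma wall_deg {m : ℕ} (v : WV m) (s : Finset (WV m)) (hs : ∀ x ∈ s, (wall m).Adj x v) :
    s.card ≤ 3 := by
  rcases v with ⟨q, i, j⟩ | b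
  · cases q with
    | true =>
      apply card_le_three (x := Sum.inr (0, i, j)) (y := Sum.inr (1, i, j))
        (z := Sum.inr (2, i, j))
      intro w hw
      have := hs w hw
      rcases w with w | ⟨e, p⟩
      · exact absurd this bip_inl_inl
      · rw [bip_inr_inl] at this
        rcases this with ⟨-, h⟩ | ⟨h, -⟩
        · have h' : p = (i, j) := h.symm
          subst h'
          fin_cases e <;> simp
        · simp at h
    | false =>
      -- three neighbours, one for each value of `e`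
      by_contra hlt
      push Not at hlt
      have key : Set.InjOn (fun w : WV m => Sum.elim (fun _ => (0 : Fin 3)) (fun b => b.1) w)
          (↑s : Set (WV m)) := by
        intro w hw w' hw' hww
        have h1 := hs w hw
        have h2 := hs w' hw'
        rcases w with w | ⟨e, p1, p2⟩
        · exact absurd h1 bip_inl_inl
        rcases w' with w' | ⟨e', q1, q2⟩
        · exact absurd h2 bip_inl_inl
        simp only [Sum.elim_inr] at hww
        subst hww
        rw [bip_inr_inl] at h1 h2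
        simp only [winc, Bool.false_eq_true, false_and, true_and, false_or, Prod.mk.injEq,
          Fin.ext_iff] at h1 h2
        have h0' : ((0 : Fin 3) : ℕ) = 0 := rfl
        have h1' : ((1 : Fin 3) : ℕ) = 1 := rfl
        have h2' : ((2 : Fin 3) : ℕ) = 2 := rfl
        rw [h0', h1', h2'] at h1 h2
        have e1 : (p1 : ℕ) = q1 := by omega
        have e2 : (p2 : ℕ) = q2 := by omega
        rw [Fin.ext e1, Fin.ext e2]
      have h3 := Finset.card_le_card_of_injOn (s := s) (t := (Finset.univ : Finset (Fin 3)))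
        (fun w : WV m => Sum.elim (fun _ => (0 : Fin 3)) (fun b => b.1) w)
        (fun _ _ => Finset.mem_univ _) key
      rw [Finset.card_univ, Fintype.card_fin] at h3
      omega
  · obtain ⟨x, y, hxy⟩ := wall_deg_inr b
    apply card_le_three (x := x) (y := y) (z := y)
    intro w hw
    rcases hxy w (hs w hw) with h | h
    · exact Or.inl h
    · exact Or.inr (Or.inl h)

/-- Row `i` of the wall. -/
def wrow {m : ℕ} (i : Fin m) : Set (WV m) :=
  {v | Sum.elim (fun a => a.2.1 = i) (fun b => b.2.1 = i ∧ b.1 ≠ 2) v}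

/-- Column `j` of the wall. -/
def wcol {m : ℕ} (j : Fin m) : Set (WV m) :=
  {v | Sum.elim (fun a => a.2.2 = j) (fun b => b.2.2 = j ∧ b.1 ≠ 1) v}

lemma wrow_conn {m : ℕ} (i : Fin m) (side : WV m → Prop)
    (h : ∀ x ∈ wrow i, ∀ y ∈ wrow i, (wall m).Adj x y → (side x ↔ side y)) :
    ∀ x ∈ wrow i, ∀ y ∈ wrow i, (side x ↔ side y) := by
  have hm : 0 < m := i.pos
  have a1 : ∀ (s : Bool) (j : Fin m), (Sum.inl (s, i, j) : WV m) ∈ wrow i := fun s j => rfl
  have a2 : ∀ j : Fin m, (Sum.inr (0, i, j) : WV m) ∈ wrow i := fun j =>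
    ⟨rfl, show (0 : Fin 3) ≠ 2 by decide⟩
  have a3 : ∀ j : Fin m, (Sum.inr (1, i, j) : WV m) ∈ wrow i := fun j =>
    ⟨rfl, show (1 : Fin 3) ≠ 2 by decide⟩
  -- everything in cell `j` is equivalent to `p (i, j)`
  have b1 : ∀ j : Fin m, side (Sum.inl (false, i, j)) ↔ side (Sum.inr (0, i, j)) := fun j =>
    h _ (a1 _ _) _ (a2 _) (by rw [bip_inl_inr]; right; simp)
  have b2 : ∀ j : Fin m, side (Sum.inl (true, i, j)) ↔ side (Sum.inr (0, i, j)) := fun j =>
    h _ (a1 _ _) _ (a2 _) (by rw [bip_inl_inr]; left; simp)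
  have b3 : ∀ j : Fin m, side (Sum.inl (true, i, j)) ↔ side (Sum.inr (1, i, j)) := fun j =>
    h _ (a1 _ _) _ (a3 _) (by rw [bip_inl_inr]; left; simp)
  have b4 : ∀ j j' : Fin m, (j' : ℕ) = j + 1 →
      (side (Sum.inl (false, i, j')) ↔ side (Sum.inr (1, i, j))) := fun j j' hj =>
    h _ (a1 _ _) _ (a3 _) (by rw [bip_inl_inr]; right; simp [hj])
  have c1 : ∀ (n : ℕ) (hn : n < m), side (Sum.inl (false, i, ⟨n, hn⟩)) ↔
      side (Sum.inl (false, i, ⟨0, hm⟩)) := by
    intro n
    induction n with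
    | zero => intro _; exact Iff.rfl
    | succ n ih =>
      intro hn
      rw [← ih (by omega), b4 ⟨n, by omega⟩ ⟨n + 1, hn⟩ rfl, ← b3, b2, ← b1]
  have c2 : ∀ x ∈ wrow i, (side x ↔ side (Sum.inl (false, i, ⟨0, hm⟩))) := by
    rintro (⟨s, i', j⟩ | ⟨e, i', j⟩) hx
    · have : i' = i := hx
      subst this
      cases s with
      | true => rw [b2, ← b1]; exact c1 j j.2
      | false => exact c1 j j.2
    · have h1 : i' = i := hx.1
      have h2 : e ≠ 2 := hx.2
      subst h1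
      have : e = 0 ∨ e = 1 := by
        fin_cases e <;> simp_all
      rcases this with rfl | rfl
      · rw [← b1]; exact c1 j j.2
      · rw [← b3, b2, ← b1]; exact c1 j j.2
  intro x hx y hy
  rw [c2 x hx, c2 y hy]

lemma wcol_conn {m : ℕ} (j : Fin m) (side : WV m → Prop)
    (h : ∀ x ∈ wcol j, ∀ y ∈ wcol j, (wall m).Adj x y → (side x ↔ side y)) :
    ∀ x ∈ wcol j, ∀ y ∈ wcol j, (side x ↔ side y) := by
  have hm : 0 < m := j.pos
  have a1 : ∀ (s : Bool) (i : Fin m), (Sum.inl (s, i, j) : WV m) ∈ wcol j := fun s i => rfl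
  have a2 : ∀ i : Fin m, (Sum.inr (0, i, j) : WV m) ∈ wcol j := fun i =>
    ⟨rfl, show (0 : Fin 3) ≠ 1 by decide⟩
  have a3 : ∀ i : Fin m, (Sum.inr (2, i, j) : WV m) ∈ wcol j := fun i =>
    ⟨rfl, show (2 : Fin 3) ≠ 1 by decide⟩
  have b1 : ∀ i : Fin m, side (Sum.inl (false, i, j)) ↔ side (Sum.inr (0, i, j)) := fun i =>
    h _ (a1 _ _) _ (a2 _) (by rw [bip_inl_inr]; right; simp)
  have b2 : ∀ i : Fin m, side (Sum.inl (true, i, j)) ↔ side (Sum.inr (0, i, j)) := fun i =>
    h _ (a1 _ _) _ (a2 _) (by rw [bip_inl_inr]; left; simp)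
  have b3 : ∀ i : Fin m, side (Sum.inl (true, i, j)) ↔ side (Sum.inr (2, i, j)) := fun i =>
    h _ (a1 _ _) _ (a3 _) (by rw [bip_inl_inr]; left; simp)
  have b4 : ∀ i i' : Fin m, (i' : ℕ) = i + 1 →
      (side (Sum.inl (false, i', j)) ↔ side (Sum.inr (2, i, j))) := fun i i' hi =>
    h _ (a1 _ _) _ (a3 _) (by rw [bip_inl_inr]; right; simp [hi])
  have c1 : ∀ (n : ℕ) (hn : n < m), side (Sum.inl (false, ⟨n, hn⟩, j)) ↔
      side (Sum.inl (false, ⟨0, hm⟩, j)) := by
    intro n
    induction n with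
    | zero => intro _; exact Iff.rfl
    | succ n ih =>
      intro hn
      rw [← ih (by omega), b4 ⟨n, by omega⟩ ⟨n + 1, hn⟩ rfl, ← b3, b2, ← b1]
  have c2 : ∀ x ∈ wcol j, (side x ↔ side (Sum.inl (false, ⟨0, hm⟩, j))) := by
    rintro (⟨s, i, j'⟩ | ⟨e, i, j'⟩) hx
    · have : j' = j := hx
      subst this
      cases s with
      | true => rw [b2, ← b1]; exact c1 i i.2
      | false => exact c1 i i.2
    · have h1 : j' = j := hx.1
      have h2 : e ≠ 1 := hx.2
      subst h1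
      have : e = 0 ∨ e = 2 := by
        fin_cases e <;> simp_all
      rcases this with rfl | rfl
      · rw [← b1]; exact c1 i i.2
      · rw [← b3, b2, ← b1]; exact c1 i i.2
  intro x hx y hy
  rw [c2 x hx, c2 y hy]

/-- From connectivity in terms of sides to crossing edges. -/
lemma exists_crossing {S : Set V} {f : V → ℕ}
    (hconn : ∀ side : V → Prop, (∀ x ∈ S, ∀ y ∈ S, G.Adj x y → (side x ↔ side y)) →
      ∀ x ∈ S, ∀ y ∈ S, (side x ↔ side y)) (t : ℕ) (h1 : ∃ v ∈ S, f v < t)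
    (h2 : ∃ v ∈ S, t ≤ f v) : ∃ x ∈ S, ∃ y ∈ S, f x < t ∧ t ≤ f y ∧ G.Adj x y := by
  by_contra hno
  push Not at hno
  obtain ⟨u, hu, hut⟩ := h1
  obtain ⟨v, hv, hvt⟩ := h2
  have := (hconn (fun x => f x < t) (fun x hx y hy hxy => ?_) u hu v hv).1 hut
  · omega
  · constructor
    · intro h
      by_contra h'
      exact hno x hx y hy h (by omega) hxy
    · intro h
      by_contra h'
      exact hno y hy x hx h (by omega) hxy.symm

/-- The width of the wall. -/
theorem wall_width {m k : ℕ} (h : TimeLE (wall m) k) : m ≤ 3 * k + 1 := by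
  rcases Nat.eq_zero_or_pos m with rfl | hm
  · omega
  obtain ⟨f, hf, hc⟩ := h
  obtain ⟨N, hN⟩ := bounded_of_finite f
  have hex : ∃ t, (∃ i : Fin m, ∀ v ∈ wrow i, f v < t) ∨ (∃ j : Fin m, ∀ v ∈ wcol j, f v < t) :=
    ⟨N, Or.inl ⟨⟨0, hm⟩, fun v _ => hN v⟩⟩
  have hfind := Nat.find_spec hex
  have hmin := fun t' => Nat.find_min hex (m := t')
  set t := Nat.find hex with ht
  have hpos : t ≠ 0 := by
    intro h0
    rw [h0] at hfind
    rcases hfind with ⟨i, hi⟩ | ⟨j, hj⟩
    · exact absurd (hi (Sum.inl (true, i, ⟨0, hm⟩)) rfl) (by omega)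
    · exact absurd (hj (Sum.inl (true, ⟨0, hm⟩, j)) rfl) (by omega)
  obtain ⟨t', ht'⟩ := Nat.exists_eq_succ_of_ne_zero hpos
  have hmin' := hmin t' (by omega)
  push Not at hmin'
  obtain ⟨hr, hcl⟩ := hmin'
  rcases hfind with ⟨i, hi⟩ | ⟨j, hj⟩
  · refine wall_core (m := m) hf (t := t') (hc t') wall_deg wcol ?_ ?_
      (fun j => Sum.inl (false, i, j)) (fun j => rfl) ?_ hcl
    · rintro j j' (x | x) hx hx'
      · exact (show x.2.2 = j from hx).symm.trans hx'
      · exact (show x.2.2 = j from hx.1).symm.trans hx'.1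
    · intro t j h1 h2
      exact exists_crossing (wcol_conn j) t h1 h2
    · intro j
      have := hi (Sum.inl (false, i, j)) rfl
      omega
  · refine wall_core (m := m) hf (t := t') (hc t') wall_deg wrow ?_ ?_
      (fun i => Sum.inl (false, i, j)) (fun i => rfl) ?_ hr
    · rintro i i' (x | x) hx hx'
      · exact (show x.2.1 = i from hx).symm.trans hx'
      · exact (show x.2.1 = i from hx.1).symm.trans hx'.1
    · intro t i h1 h2
      exact exists_crossing (wrow_conn i) t h1 h2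
    · intro i
      have := hj (Sum.inl (false, i, j)) rfl
      omega

end Pool.Agent.LinCW
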